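import Pool.Agent.H57.Irr.Spec

/-!
# Absorption lemmas
-/

set_option autoImplicit false

namespace Pool.Agent.H57.Irr

open Finset Function

section deg
variable {V : Type*}

lemma d_mono {H H' : SimpleGraph V} (h : H ≤ H') {Y Y' : Finset V} (hY : Y ⊆ Y') (x : V) :
    d H Y x ≤ d H' Y' x := by
  classical
  unfold d
  apply card_le_card
  intro y hy
  simp only [mem_filter] at hy ⊢
  exact ⟨hY hy.1, h hy.2⟩

lemma d_le_card (H : SimpleGraph V) (Y : Finset V) (x : V) : d H Y x ≤ Y.card := by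
  classical
  unfold d
  exact card_filter_le _ _

lemma d_eq_sum (H : SimpleGraph V) (Y : Finset V) (x : V) [∀ y, Decidable (H.Adj x y)] :
    d H Y x = ∑ y ∈ Y, if H.Adj x y then 1 else 0 := by
  classical
  unfold d
  rw [card_filter]
  apply sum_congr rfl
  intro y _
  congr

lemma d_union [DecidableEq V] (H : SimpleGraph V) {Y Y' : Finset V} (h : Disjoint Y Y') (x : V) :
    d H (Y ∪ Y') x = d H Y x + d H Y' x := by
  classical
  unfold d
  rw [filter_union, card_union_of_disjoint (disjoint_filter_filter h)]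

lemma d_pos_iff (H : SimpleGraph V) (Y : Finset V) (x : V) : 1 ≤ d H Y x ↔ ∃ y ∈ Y, H.Adj x y := by
  classical
  unfold d
  rw [Nat.one_le_iff_ne_zero, ← Nat.pos_iff_ne_zero, card_pos]
  constructor
  · rintro ⟨y, hy⟩
    simp only [mem_filter] at hy
    exact ⟨y, hy.1, hy.2⟩
  · rintro ⟨y, hy, h⟩
    exact ⟨y, by simp only [mem_filter]; exact ⟨hy, h⟩⟩

/-- lower bound for the degree when all vertices of `S` outside `E` are neighbours -/
lemma d_ge (H : SimpleGraph V) (S E : Finset V) (x : V) (h : ∀ y ∈ S, y ∉ E → H.Adj x y) :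
    S.card ≤ d H S x + E.card := by
  classical
  unfold d
  have h1 : S ⊆ (S.filter (fun y => H.Adj x y)) ∪ E := by
    intro y hy
    by_cases hE : y ∈ E
    · exact mem_union_right _ hE
    · exact mem_union_left _ (by simp only [mem_filter]; exact ⟨hy, h y hy hE⟩)
  calc S.card ≤ _ := card_le_card h1
    _ ≤ _ := card_union_le _ _
    _ = _ := by congr 2

lemma E2_comm (H : SimpleGraph V) (X Y : Finset V) : E2 H X Y = E2 H Y X := by
  classical
  unfold E2
  simp only [d_eq_sum]
  rw [sum_comm]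
  apply sum_congr rfl
  intro y _
  apply sum_congr rfl
  intro x _
  rw [H.adj_comm]

lemma E2_union_left [DecidableEq V] (H : SimpleGraph V) {X X' : Finset V} (h : Disjoint X X')
    (Y : Finset V) : E2 H (X ∪ X') Y = E2 H X Y + E2 H X' Y := by
  unfold E2
  exact sum_union h

lemma E2_union_right [DecidableEq V] (H : SimpleGraph V) (X : Finset V) {Y Y' : Finset V}
    (h : Disjoint Y Y') : E2 H X (Y ∪ Y') = E2 H X Y + E2 H X Y' := by
  rw [E2_comm, E2_union_left H h, E2_comm H Y, E2_comm H Y']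

lemma E2_union_self [DecidableEq V] (H : SimpleGraph V) {T Y : Finset V} (h : Disjoint T Y) :
    E2 H (T ∪ Y) (T ∪ Y) = E2 H T T + 2 * E2 H T Y + E2 H Y Y := by
  rw [E2_union_left H h, E2_union_right H _ h, E2_union_right H _ h, E2_comm H Y T]
  ring

lemma E2_mono {H H' : SimpleGraph V} (h : H ≤ H') {X X' Y Y' : Finset V} (hX : X ⊆ X')
    (hY : Y ⊆ Y') : E2 H X Y ≤ E2 H' X' Y' := by
  unfold E2
  calc ∑ x ∈ X, d H Y x ≤ ∑ x ∈ X, d H' Y' x := sum_le_sum fun x _ => d_mono h hY x
    _ ≤ _ := sum_le_sum_of_subset hX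

lemma ex_mono {H H' : SimpleGraph V} (h : H ≤ H') {X X' Y Y' : Finset V} (hX : X ⊆ X')
    (hY : Y ⊆ Y') : ex H X Y ≤ ex H' X' Y' := by
  unfold ex
  calc ∑ x ∈ X, (d H Y x - 200) ≤ ∑ x ∈ X, (d H' Y' x - 200) :=
        sum_le_sum fun x _ => Nat.sub_le_sub_right (d_mono h hY x) 200
    _ ≤ _ := sum_le_sum_of_subset hX

lemma ex_union_left [DecidableEq V] (H : SimpleGraph V) {X X' : Finset V} (h : Disjoint X X')
    (Y : Finset V) : ex H (X ∪ X') Y = ex H X Y + ex H X' Y := by
  unfold ex
  exact sum_union h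

lemma nf_eq_sum (H : SimpleGraph V) (X Y : Finset V) :
    nf H X Y = ∑ x ∈ X, if 201 ≤ d H Y x then 1 else 0 := by
  classical
  unfold nf
  rw [card_filter]

lemma nf_mono {H H' : SimpleGraph V} (h : H ≤ H') {X X' Y Y' : Finset V} (hX : X ⊆ X')
    (hY : Y ⊆ Y') : nf H X Y ≤ nf H' X' Y' := by
  classical
  unfold nf
  apply card_le_card
  intro x hx
  simp only [mem_filter] at hx ⊢
  exact ⟨hX hx.1, hx.2.trans (d_mono h hY x)⟩

lemma nf_union_left [DecidableEq V] (H : SimpleGraph V) {X X' : Finset V} (h : Disjoint X X')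
    (Y : Finset V) : nf H (X ∪ X') Y = nf H X Y + nf H X' Y := by
  rw [nf_eq_sum, nf_eq_sum, nf_eq_sum, sum_union h]

lemma DT_eq (H : SimpleGraph V) (T Y : Finset V) (b : Prop) [Decidable b] :
    DT H T Y b = (ex H T Y - (if b then 0 else 200)) + (nf H T Y - 201) := by
  unfold DT
  congr

lemma DT_mono {H H' : SimpleGraph V} (h : H ≤ H') {T T' Y Y' : Finset V} (hT : T ⊆ T')
    (hY : Y ⊆ Y') {b b' : Prop} (hb : b → b') : DT H T Y b ≤ DT H' T' Y' b' := by
  classical
  rw [DT_eq, DT_eq]
  have := ex_mono h hT hY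
  have := nf_mono h hT hY
  by_cases h1 : b
  · have h2 := hb h1
    simp only [h1, h2, if_true]
    omega
  · by_cases h2 : b'
    · simp only [h1, h2, if_true, if_false]
      omega
    · simp only [h1, h2, if_false]
      omega

lemma DP_mono {H H' : SimpleGraph V} (h : H ≤ H') (X Y : Finset V) :
    DP H X Y ≤ DP H' X Y := by
  unfold DP
  have := ex_mono h (Subset.refl X) (Subset.refl Y)
  have := ex_mono h (Subset.refl Y) (Subset.refl X)
  omega

/-- `ex + 200 nf ≤ E2` -/
lemma ex_add_nf (H : SimpleGraph V) (T Y : Finset V) : ex H T Y + 200 * nf H T Y ≤ E2 H T Y := by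
  rw [nf_eq_sum, ex, E2, mul_sum, ← sum_add_distrib]
  apply sum_le_sum
  intro t _
  split_ifs <;> omega

lemma nf_le_ex (H : SimpleGraph V) (X Y : Finset V) : nf H X Y ≤ ex H X Y := by
  rw [nf_eq_sum, ex]
  apply sum_le_sum
  intro t _
  split_ifs <;> omega

/-- `ex + nf + d(w) ≤ E2` for `w ∈ Y` -/
lemma ex_add_d (H : SimpleGraph V) (T Y : Finset V) (w : V) (hw : w ∈ Y) :
    ex H T Y + nf H T Y + d H T w ≤ E2 H T Y := by
  classical
  rw [nf_eq_sum, ex, E2, d_eq_sum, ← sum_add_distrib, ← sum_add_distrib]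
  apply sum_le_sum
  intro t _
  by_cases h : H.Adj w t
  · have : 1 ≤ d H Y t := (d_pos_iff H Y t).2 ⟨w, hw, h.symm⟩
    simp only [h, if_true]
    split_ifs <;> omega
  · simp only [h, if_false]
    split_ifs <;> omega

lemma DT_le (H : SimpleGraph V) (T Y : Finset V) (b : Prop) :
    DT H T Y b ≤ ex H T Y + (nf H T Y - 201) := by
  classical
  rw [DT_eq]
  omega

end deg

section gad
variable {V : Type*} [DecidableEq V]

lemma mem_all {W : Gad V} {x : V} : x ∈ W.all ↔ ∃ c, x ∈ W.L c := by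
  simp [Gad.all]

lemma L_sub_all (W : Gad V) (c : Cl) : W.L c ⊆ W.all := by
  intro x hx
  exact mem_all.2 ⟨c, hx⟩

omit [DecidableEq V] in
lemma pairwise_L (W : Gad V) (s : Set Cl) : s.PairwiseDisjoint W.L := by
  intro c _ c' _ hcc
  exact W.disj c c' hcc

lemma sum_all {M : Type*} [AddCommMonoid M] (W : Gad V) (f : V → M) :
    ∑ x ∈ W.all, f x = ∑ c, ∑ x ∈ W.L c, f x := by
  unfold Gad.all
  exact sum_biUnion (pairwise_L W _)

lemma sum_Cl {M : Type*} [AddCommMonoid M] (f : Cl → M) :
    ∑ c, f c = f rest + (f src + ∑ j, f (slot j)) := by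
  rw [Fintype.sum_option, Fintype.sum_option]

lemma sum_slots : ∑ j : J, sz (slot j) = 4000210 := by
  simp only [Fintype.sum_prod_type, Fin.sum_univ_succ, sz, code]
  decide

lemma card_all (W : Gad V) : W.all.card = 10 ^ 13 := by
  rw [card_eq_sum_ones, sum_all]
  have : ∀ c, ∑ x ∈ W.L c, 1 = sz c := fun c => by rw [← card_eq_sum_ones, W.card]
  simp only [this]
  rw [sum_Cl, sum_slots]
  rfl

lemma all_nonempty (W : Gad V) : W.all.Nonempty := by
  rw [← card_pos, card_all]
  norm_num

lemma E2_all_left (H : SimpleGraph V) (T : Finset V) (W : Gad V) :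
    E2 H W.all T = ∑ c, E2 H (W.L c) T := by
  unfold E2
  rw [sum_all]

lemma E2_all_right (H : SimpleGraph V) (T : Finset V) (W : Gad V) :
    E2 H T W.all = ∑ c, E2 H T (W.L c) := by
  rw [E2_comm, E2_all_left]
  exact sum_congr rfl fun c _ => E2_comm H _ _

lemma ex_all_left (H : SimpleGraph V) (T : Finset V) (W : Gad V) :
    ex H W.all T = ∑ c, ex H (W.L c) T := by
  unfold ex
  rw [sum_all]

lemma nf_all_left (H : SimpleGraph V) (T : Finset V) (W : Gad V) :
    nf H W.all T = ∑ c, nf H (W.L c) T := by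
  simp only [nf_eq_sum]
  rw [sum_all]

/-- degree in a complete gadget -/
lemma Comp.deg {H : SimpleGraph V} {W : Gad V} (h : Comp H W) {c : Cl} {x : V}
    (hx : x ∈ W.L c) : 10 ^ 13 ≤ d H W.all x + (if c = rest then 1 else sz c) := by
  classical
  rw [← card_all W]
  by_cases hc : c = rest
  · simp only [hc, if_true]
    have := d_ge H W.all {x} x (by
      intro y hy hne
      obtain ⟨c', hc'⟩ := mem_all.1 hy
      exact h c c' x hx y hc' (fun e => hne (by simp [e])) (fun _ => hc))
    simpa using this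
  · simp only [hc, if_false]
    rw [← W.card c]
    apply d_ge
    intro y hy hne
    obtain ⟨c', hc'⟩ := mem_all.1 hy
    apply h c c' x hx y hc'
    · rintro rfl
      exact hne hx
    · rintro rfl
      exact absurd hc' hne

lemma sum_slots2 : ∑ j : J, sz (slot j) * (10 ^ 13 - sz (slot j)) = 40002099199915997130 := by
  simp only [Fintype.sum_prod_type, Fin.sum_univ_succ, sz, code]
  decide

lemma Comp.E2_ge {H : SimpleGraph V} {W : Gad V} (h : Comp H W) :
    2 * 49999999999994579960098670 ≤ E2 H W.all W.all := by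
  rw [E2_all_left]
  have key : ∀ c : Cl, (sz c) * (10 ^ 13 - (if c = rest then 1 else sz c)) ≤
      E2 H (W.L c) W.all := by
    intro c
    unfold E2
    calc (sz c) * (10 ^ 13 - (if c = rest then 1 else sz c))
        = ∑ x ∈ W.L c, (10 ^ 13 - (if c = rest then 1 else sz c)) := by
          rw [sum_const, W.card, smul_eq_mul]
      _ ≤ _ := sum_le_sum fun x hx => by
          have := h.deg hx
          omega
  calc 2 * 49999999999994579960098670
      = ∑ c : Cl, (sz c) * (10 ^ 13 - (if c = rest then 1 else sz c)) := by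
        rw [sum_Cl]
        have e1 : ∀ j : J, (if (slot j) = rest then 1 else sz (slot j)) = sz (slot j) := by
          intro j
          rw [if_neg (by simp)]
        simp only [e1]
        rw [sum_slots2]
        simp [sz]
    _ ≤ _ := sum_le_sum fun c _ => key c

/-- degree into a subset of a complete gadget -/
lemma Comp.deg_sub {H : SimpleGraph V} {W : Gad V} (h : Comp H W) {w : V} (hw : w ∈ W.all)
    (S : Finset V) (hS : S ⊆ W.all) : S.card ≤ d H S w + 200020 := by
  obtain ⟨c, hc⟩ := mem_all.1 hw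
  by_cases h3 : c = rest
  · have := d_ge H S {w} w (by
      intro y hy hne
      obtain ⟨c', hc'⟩ := mem_all.1 (hS hy)
      exact h c c' w hc y hc' (fun e => hne (by simp [e])) (fun _ => h3))
    rw [card_singleton] at this
    omega
  · have := d_ge H S (W.L c) w (by
      intro y hy hne
      obtain ⟨c', hc'⟩ := mem_all.1 (hS hy)
      apply h c c' w hc y hc'
      · rintro rfl
        exact hne hc
      · rintro rfl
        exact absurd hc' hne)
    rw [W.card c] at this
    have : sz c ≤ 200020 := by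
      rcases c with _ | _ | j
      · exact absurd rfl h3
      · simp [sz]
      · obtain ⟨a, b, c⟩ := j
        simp only [sz, code]
        omega
    omega

/-- the gain of a remaining gadget `W` when `A` is absorbed, slot part -/
noncomputable def ggs (H : SimpleGraph V) (T : Finset V) (A W : Gad V) (f : J → Prop) (j : J) :
    ℕ := by
  classical exact ((if f j then min (ex H (A.L src) (W.L (slot j))) 200 else 0) +
    (if 201 ≤ nf H T (W.L (slot j)) then nf H (A.L src) (W.L (slot j)) else 0) +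
    min (ex H (A.L (slot j)) (W.L src)) 200)

/-- the gain of a remaining gadget `W` when `A` is absorbed -/
noncomputable def gg (H : SimpleGraph V) (T : Finset V) (A W : Gad V) (f : J → Prop) : ℕ :=
  ∑ j, ggs H T A W f j

omit [DecidableEq V] in
lemma D1_mono {H H' : SimpleGraph V} (h : H ≤ H') {T T' : Finset V} (hT : T ⊆ T') (W : Gad V)
    {f f' : J → Prop} (hf : ∀ j, f j → f' j) : D1 H T W f ≤ D1 H' T' W f' := by
  unfold D1
  apply Nat.add_le_add
  · exact sum_le_sum fun j _ => DT_mono h hT (Subset.refl _) (hf j)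
  · exact ex_mono h hT (Subset.refl (W.L src))

omit [DecidableEq V] in
lemma D2_mono {H H' : SimpleGraph V} (h : H ≤ H') (W W' : Gad V) : D2 H W W' ≤ D2 H' W W' := by
  unfold D2
  exact sum_le_sum fun j _ => DP_mono h _ _

/-- `a` old excess, `n` old number, `p`, `q` contribution of the source class, `r`, `s` of the other
classes, `u = 200` or `0` the old threshold, `v` the new one -/
lemma arith1 (a n p q r s p' u v : ℕ) (hv : v ≤ u) (hu : u ≤ 200) (huv : v = 0 ∨ v = 200) :
    ((a - u) + (n - 201)) + (min p p' - 200) +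
    ((if v = 0 then min p 200 else 0) + (if 201 ≤ n then q else 0)) ≤
      ((a + (p + r)) - v) + ((n + (q + s)) - 201) := by
  have h2 : (n - 201) + (if 201 ≤ n then q else 0) ≤ (n + (q + s)) - 201 := by
    split_ifs <;> omega
  have h1 : (a - u) + (min p p' - 200) + (if v = 0 then min p 200 else 0) ≤ (a + (p + r)) - v := by
    rcases huv with h | h
    · rw [if_pos h]
      omega
    · rw [if_neg (by omega)]
      omega
  omega

lemma arith2 (p' p : ℕ) : (min p' p - 200) + min p 200 ≤ p := by omega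

lemma gain_key (H : SimpleGraph V) (T : Finset V) (A W : Gad V) (hTA : Disjoint T A.all)
    {f f' : J → Prop} (hf : ∀ j, f j → f' j) :
    D1 H T W f + D2 H A W + D2 H W A + gg H T A W f' ≤ D1 H (T ∪ A.all) W f' := by
  classical
  have hex : ∀ Y, ex H (T ∪ A.all) Y = ex H T Y + (ex H (A.L src) Y + (ex H (A.L rest) Y +
      ∑ j, ex H (A.L (slot j)) Y)) := by
    intro Y
    rw [ex_union_left H hTA, ex_all_left, sum_Cl]
    ring
  have hnf : ∀ Y, nf H (T ∪ A.all) Y = nf H T Y + (nf H (A.L src) Y + (nf H (A.L rest) Y +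
      ∑ j, nf H (A.L (slot j)) Y)) := by
    intro Y
    rw [nf_union_left H hTA, nf_all_left, sum_Cl]
    ring
  have e0 := hex (W.L src)
  have hslot : ∀ j : J, DT H T (W.L (slot j)) (f j) + DP H (A.L src) (W.L (slot j)) +
      ((if f' j then min (ex H (A.L src) (W.L (slot j))) 200 else 0) +
      (if 201 ≤ nf H T (W.L (slot j)) then nf H (A.L src) (W.L (slot j)) else 0)) ≤
      DT H (T ∪ A.all) (W.L (slot j)) (f' j) := by
    intro j
    rw [DT_eq, DT_eq, hex, hnf]
    unfold DP
    have := arith1 (ex H T (W.L (slot j))) (nf H T (W.L (slot j))) (ex H (A.L src) (W.L (slot j)))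
      (nf H (A.L src) (W.L (slot j)))
      (ex H (A.L rest) (W.L (slot j)) + ∑ j', ex H (A.L (slot j')) (W.L (slot j)))
      (nf H (A.L rest) (W.L (slot j)) + ∑ j', nf H (A.L (slot j')) (W.L (slot j)))
      (ex H (W.L (slot j)) (A.L src)) (if f j then 0 else 200) (if f' j then 0 else 200)
      (by
        by_cases h1 : f j
        · simp [h1, hf j h1]
        · by_cases h2 : f' j <;> simp [h1, h2])
      (by split_ifs <;> omega) (by split_ifs <;> simp)
    have e : (if (if f' j then 0 else 200) = 0 then min (ex H (A.L src) (W.L (slot j))) 200 else 0)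
        = (if f' j then min (ex H (A.L src) (W.L (slot j))) 200 else 0) := by
      by_cases h2 : f' j <;> simp [h2]
    rw [e] at this
    exact this
  have hsrc : ∀ j : J, DP H (W.L src) (A.L (slot j)) + min (ex H (A.L (slot j)) (W.L src)) 200 ≤
      ex H (A.L (slot j)) (W.L src) := by
    intro j
    unfold DP
    exact arith2 _ _
  have s1 := sum_le_sum fun (j : J) (_ : j ∈ univ) => hslot j
  have s2 := sum_le_sum fun (j : J) (_ : j ∈ univ) => hsrc j
  rw [sum_add_distrib, sum_add_distrib, sum_add_distrib] at s1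
  rw [sum_add_distrib] at s2
  have s3 : gg H T A W f' = ∑ j, (if f' j then min (ex H (A.L src) (W.L (slot j))) 200 else 0) +
      ∑ j, (if 201 ≤ nf H T (W.L (slot j)) then nf H (A.L src) (W.L (slot j)) else 0) +
      ∑ j, min (ex H (A.L (slot j)) (W.L src)) 200 := by
    unfold gg ggs
    rw [← sum_add_distrib, ← sum_add_distrib]
  rw [s3]
  unfold D1 D2
  omega

end gad

section main
variable {V : Type*} [DecidableEq V]

/-- splitting off `A` from a double sum over ordered pairs -/
lemma double_sum_erase {β : Type*} [DecidableEq β] (R : Finset β) (A : β) (hA : A ∈ R)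
    (f : β → β → ℕ) :
    ∑ W ∈ R, ∑ W' ∈ R.erase W, f W W' =
      (∑ W ∈ R.erase A, ∑ W' ∈ (R.erase A).erase W, f W W') +
        ∑ W ∈ R.erase A, (f A W + f W A) := by
  rw [← add_sum_erase R _ hA, sum_add_distrib]
  have h1 : ∑ W ∈ R.erase A, ∑ W' ∈ R.erase W, f W W' =
      ∑ W ∈ R.erase A, (f W A + ∑ W' ∈ (R.erase A).erase W, f W W') := by
    apply sum_congr rfl
    intro W hW
    have hAW : A ∈ R.erase W := by
      rw [mem_erase] at hW ⊢
      exact ⟨hW.1.symm, hA⟩
    rw [← add_sum_erase (R.erase W) _ hAW, erase_right_comm]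
  rw [h1, sum_add_distrib]
  ring

variable [Fintype V]

lemma absorb_set (H : SimpleGraph V) (T : Finset V) (R : Finset (Gad V))
    (fl : Gad V → J → Prop) (Y : Finset V)
    (hv : Valid H T R) (hYT : Disjoint Y T) (hYR : ∀ W ∈ R, Disjoint Y W.all) :
    Valid H (T ∪ Y) R ∧
    Psi H (T ∪ Y) R fl ≤ Psi H T R fl + cc * Y.card - (E2 H Y T : ℝ) - (E2 H Y Y : ℝ) / 2 := by
  refine ⟨⟨hv.comp, ?_, hv.disj⟩, ?_⟩
  · intro W hW
    rw [disjoint_union_left]
    exact ⟨hv.disjT W hW, hYR W hW⟩
  · unfold Psi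
    rw [E2_union_self H hYT.symm, card_union_of_disjoint hYT.symm]
    have h1 : ∑ W ∈ R, D1 H T W (fl W) ≤ ∑ W ∈ R, D1 H (T ∪ Y) W (fl W) :=
      sum_le_sum fun W _ => D1_mono le_rfl subset_union_left W (fun _ h => h)
    have h1' : ((∑ W ∈ R, D1 H T W (fl W) : ℕ) : ℝ) ≤
        ((∑ W ∈ R, D1 H (T ∪ Y) W (fl W) : ℕ) : ℝ) := by
      exact_mod_cast h1
    rw [E2_comm H Y T]
    simp only [Nat.cast_add, Nat.cast_mul, Nat.cast_ofNat]
    linarith

/-- exact form of the absorption of a registered gadget -/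
lemma absorb_gad_main (H : SimpleGraph V) (T : Finset V) (R : Finset (Gad V))
    (fl fl' : Gad V → J → Prop) (A : Gad V) (hf : ∀ W j, fl W j → fl' W j)
    (hv : Valid H T R) (hA : A ∈ R) :
    Valid H (T ∪ A.all) (R.erase A) ∧
    Psi H (T ∪ A.all) (R.erase A) fl' + (E2 H A.all A.all : ℝ) / 2 + (E2 H T A.all : ℝ)
      + ((∑ W ∈ R.erase A, gg H T A W (fl' W) : ℕ) : ℝ) ≤
      Psi H T R fl + 49999999999994579960259871 + (D1 H T A (fl A) : ℝ) := by
  refine ⟨⟨fun W hW => hv.comp W (mem_of_mem_erase hW), ?_, fun W hW W' hW' =>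
    hv.disj W (mem_of_mem_erase hW) W' (mem_of_mem_erase hW')⟩, ?_⟩
  · intro W hW
    rw [disjoint_union_left]
    exact ⟨hv.disjT W (mem_of_mem_erase hW),
      hv.disj A hA W (mem_of_mem_erase hW) (ne_of_mem_erase hW).symm⟩
  · have hTA := hv.disjT A hA
    unfold Psi
    rw [E2_union_self H hTA, card_union_of_disjoint hTA, card_all, card_erase_of_mem hA,
      double_sum_erase R A hA]
    have h0 : 1 ≤ R.card := card_pos.2 ⟨A, hA⟩
    have h1 : ∑ W ∈ R, D1 H T W (fl W) = D1 H T A (fl A) + ∑ W ∈ R.erase A, D1 H T W (fl W) :=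
      (add_sum_erase R _ hA).symm
    rw [h1]
    have h2 : ∑ W ∈ R.erase A, D1 H T W (fl W) + ∑ W ∈ R.erase A, (D2 H A W + D2 H W A)
        + ∑ W ∈ R.erase A, gg H T A W (fl' W) ≤
        ∑ W ∈ R.erase A, D1 H (T ∪ A.all) W (fl' W) := by
      rw [← sum_add_distrib, ← sum_add_distrib]
      apply sum_le_sum
      intro W _
      have := gain_key H T A W hTA (hf W)
      omega
    have h2' : ((∑ W ∈ R.erase A, D1 H T W (fl W) : ℕ) : ℝ)
        + ((∑ W ∈ R.erase A, (D2 H A W + D2 H W A) : ℕ) : ℝ)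
        + ((∑ W ∈ R.erase A, gg H T A W (fl' W) : ℕ) : ℝ)
        ≤ ((∑ W ∈ R.erase A, D1 H (T ∪ A.all) W (fl' W) : ℕ) : ℝ) := by
      exact_mod_cast h2
    rw [Nat.cast_sub h0]
    unfold cc
    push_cast at h2' ⊢
    linarith

omit [DecidableEq V] [Fintype V] in
lemma slot_le (H : SimpleGraph V) (T Y : Finset V) (b : Prop) : DT H T Y b ≤ E2 H T Y := by
  have h1 := DT_le H T Y b
  have h2 := ex_add_nf H T Y
  omega

omit [Fintype V] in
lemma D1_le (H : SimpleGraph V) (T : Finset V) (A : Gad V) (f : J → Prop) :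
    D1 H T A f + E2 H T (A.L rest) ≤ E2 H T A.all := by
  rw [E2_all_right, sum_Cl]
  unfold D1
  have h1 : ∑ j, DT H T (A.L (slot j)) (f j) ≤ ∑ j, E2 H T (A.L (slot j)) :=
    sum_le_sum fun j _ => slot_le H T _ _
  have h0 := ex_add_nf H T (A.L src)
  omega

omit [Fintype V] in
lemma D1_le_d (H : SimpleGraph V) (T : Finset V) (A : Gad V) (f : J → Prop) (w : V)
    (hw : w ∈ A.all) : D1 H T A f + d H T w ≤ E2 H T A.all := by
  classical
  obtain ⟨c, hc⟩ := mem_all.1 hw
  rw [E2_all_right, sum_Cl]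
  unfold D1
  have h1 : ∑ j, DT H T (A.L (slot j)) (f j) ≤ ∑ j, E2 H T (A.L (slot j)) :=
    sum_le_sum fun j _ => slot_le H T _ _
  have h0 := ex_add_nf H T (A.L src)
  have hk := ex_add_d H T (A.L c) w hc
  rcases c with _ | _ | j
  · have hk' : ex H T (A.L rest) + nf H T (A.L rest) + d H T w ≤ E2 H T (A.L rest) := hk
    omega
  · have hk' : ex H T (A.L src) + nf H T (A.L src) + d H T w ≤ E2 H T (A.L src) := hk
    omega
  · have hk' : ex H T (A.L (slot j)) + nf H T (A.L (slot j)) + d H T w ≤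
      E2 H T (A.L (slot j)) := hk
    have h2 : ∑ j', DT H T (A.L (slot j')) (f j') + d H T w ≤ ∑ j', E2 H T (A.L (slot j')) := by
      rw [← add_sum_erase univ _ (mem_univ j), ← add_sum_erase univ (fun j' => E2 H T (A.L (slot j')))
        (mem_univ j)]
      have h3 : ∑ j' ∈ univ.erase j, DT H T (A.L (slot j')) (f j') ≤
          ∑ j' ∈ univ.erase j, E2 H T (A.L (slot j')) :=
        sum_le_sum fun j _ => slot_le H T _ _
      have h4 := DT_le H T (A.L (slot j)) (f j)
      omega
    omega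

theorem absorbSet : S_absorbSet := by
  intro V _ _ H T R fl Y hv h1 h2
  exact absorb_set H T R fl Y hv h1 h2

theorem absorbGad : S_absorbGad := by
  intro V _ _ H T R fl A hv hA
  obtain ⟨hV, hP⟩ := absorb_gad_main H T R fl fl A (fun _ _ h => h) hv hA
  have hE : (2 * 49999999999994579960098670 : ℝ) ≤ (E2 H A.all A.all : ℝ) := by
    exact_mod_cast (hv.comp A hA).E2_ge
  have hg : (0 : ℝ) ≤ ((∑ W ∈ R.erase A, gg H T A W (fl W) : ℕ) : ℝ) := Nat.cast_nonneg _
  refine ⟨hV, ?_, ?_, ?_⟩
  · intro w hw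
    have h := D1_le_d H T A (fl A) w hw
    have h' : (D1 H T A (fl A) : ℝ) + (d H T w : ℝ) ≤ (E2 H T A.all : ℝ) := by exact_mod_cast h
    linarith
  · have h := D1_le H T A (fl A)
    have h' : (D1 H T A (fl A) : ℝ) + (E2 H T (A.L rest) : ℝ) ≤ (E2 H T A.all : ℝ) := by
      exact_mod_cast h
    linarith
  · have h := D1_le H T A (fl A)
    have h' : (D1 H T A (fl A) : ℝ) + (E2 H T (A.L rest) : ℝ) ≤ (E2 H T A.all : ℝ) := by
      exact_mod_cast h
    have h3 : (0 : ℝ) ≤ (E2 H T (A.L rest) : ℝ) := Nat.cast_nonneg _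
    linarith

end main

end Pool.Agent.H57.Irr
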