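import Pool.Agent.H57.Irr.Spec

/-!
# Rule Z (`S_ruleZ`) and absorbing one cell (`S_absorbCell`)
-/

set_option autoImplicit false

namespace Pool.Agent.H57.Irr

namespace AbsorbCell

open Finset Function

/-! ## Finiteness of `VF` -/

/-- `VF` as a sum type -/
def eqVF : VF ≃ (Fin MK ⊕ ((Rol × DV) ⊕ Unit)) where
  toFun
    | VF.k i => Sum.inl i
    | VF.g i x => Sum.inr (Sum.inl (i, x))
    | VF.z => Sum.inr (Sum.inr ())
  invFun
    | Sum.inl i => VF.k i
    | Sum.inr (Sum.inl (i, x)) => VF.g i x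
    | Sum.inr (Sum.inr ()) => VF.z
  left_inv := by
    intro x
    cases x <;> rfl
  right_inv := by
    intro x
    rcases x with x | x | x <;> rfl

theorem card_DV : Fintype.card DV = 10000000000000 := by
  rw [Fintype.card_sigma]
  simp only [Fintype.card_fin]
  rw [Fintype.sum_option, Fintype.sum_option]
  have h1 : sz none = 9999995799790 := rfl
  have h2 : sz (some none) = 200000 := rfl
  have h3 : ∀ j : J, sz (some (some j)) = 200001 + code j := fun j => rfl
  rw [h1, h2]
  simp only [h3]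
  rw [Finset.sum_add_distrib, Finset.sum_const, Finset.card_univ]
  have h4 : ∑ j : J, code j = 190 := by decide
  have h5 : Fintype.card J = 20 := by
    simp [J, St, Fintype.card_prod, Fintype.card_fin]
  rw [h4, h5]
  norm_num

theorem card_Rol : Fintype.card Rol ≤ 50041 := by
  have h1 : Fintype.card Rul ≤ Fintype.card Tup := Fintype.card_subtype_le _
  have h2 : Fintype.card Tup = 12500 := by
    simp [Tup, St, Fintype.card_prod, Fintype.card_fin]
  have h5 : Fintype.card J = 20 := by
    simp [J, St, Fintype.card_prod, Fintype.card_fin]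
  rw [Fintype.card_sum, Fintype.card_sum, Fintype.card_prod, Fintype.card_prod, Fintype.card_fin,
    Fintype.card_fin, Fintype.card_unit, h5]
  omega

/-- size of the pool needed for the unused part of a copy of `FF` -/
def PL : ℕ := MK + 10 ^ 18

theorem exists_inj {V : Type} [DecidableEq V] (P : Finset V) (h : PL ≤ P.card) :
    ∃ g : VF → V, Injective g ∧ ∀ x, g x ∈ P := by
  have hc : Fintype.card (Fin MK ⊕ ((Rol × DV) ⊕ Unit)) ≤ Fintype.card P := by
    rw [Fintype.card_sum, Fintype.card_sum, Fintype.card_prod, card_DV, Fintype.card_fin,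
      Fintype.card_unit, Fintype.card_coe]
    have h1 := card_Rol
    have h2 : MK + 10 ^ 18 ≤ P.card := h
    generalize Fintype.card Rol = R at *
    generalize MK = M at *
    generalize P.card = C at *
    have h3 : R * 10000000000000 ≤ 50041 * 10000000000000 := Nat.mul_le_mul_right _ h1
    norm_num at h2 h3 ⊢
    omega
  obtain ⟨g⟩ := Function.Embedding.nonempty_of_card_le hc
  refine ⟨fun x => (g (eqVF x) : V), ?_, fun x => (g (eqVF x)).2⟩
  intro x y hxy
  exact eqVF.injective (g.injective (Subtype.ext hxy))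

/-! ## The extension lemma -/

theorem ext_step {V : Type} [DecidableEq V] (H : SimpleGraph V) (Q P : Finset V)
    (hQ : ∀ x ∈ Q, ∀ y ∈ Q, x ≠ y → H.Adj x y) (hPQ : P ⊆ Q) (hP : PL ≤ P.card)
    (S : VF → Prop) (f₀ : VF → V) (hinj : ∀ x y, S x → S y → f₀ x = f₀ y → x = y)
    (hdis : ∀ x, S x → f₀ x ∉ P)
    (hcross : ∀ x y, S x → ¬ S y → (relF x y ∨ relF y x) → f₀ x ∈ Q)
    (a b : VF) (ha : S a) (hb : S b) (hne : a ≠ b) (hab : relF a b)
    (hS : ∀ x y, S x → S y → x ≠ y → relF x y →
      (H ⊔ SimpleGraph.edge (f₀ a) (f₀ b)).Adj (f₀ x) (f₀ y)) :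
    Step FF H (H ⊔ SimpleGraph.edge (f₀ a) (f₀ b)) := by
  classical
  obtain ⟨g, ginj, gP⟩ := exists_inj P hP
  set f : VF → V := fun x => if S x then f₀ x else g x with hf
  have fS : ∀ x, S x → f x = f₀ x := fun x hx => by simp [hf, hx]
  have fN : ∀ x, ¬ S x → f x = g x := fun x hx => by simp [hf, hx]
  have finj : Injective f := by
    intro x y hxy
    by_cases hx : S x
    · by_cases hy : S y
      · rw [fS x hx, fS y hy] at hxy
        exact hinj x y hx hy hxy
      · rw [fS x hx, fN y hy] at hxy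
        exact absurd (hxy ▸ gP y) (hdis x hx)
    · by_cases hy : S y
      · rw [fN x hx, fS y hy] at hxy
        exact absurd (hxy ▸ gP x) (hdis y hy)
      · rw [fN x hx, fN y hy] at hxy
        exact ginj hxy
  have key : ∀ x y, x ≠ y → relF x y →
      (H ⊔ SimpleGraph.edge (f₀ a) (f₀ b)).Adj (f x) (f y) := by
    intro x y hxy hr
    have hfne : f x ≠ f y := fun h => hxy (finj h)
    by_cases hx : S x
    · by_cases hy : S y
      · rw [fS x hx, fS y hy]
        exact hS x y hx hy hxy hr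
      · left
        refine hQ _ ?_ _ ?_ hfne
        · rw [fS x hx]; exact hcross x y hx hy (Or.inl hr)
        · rw [fN y hy]; exact hPQ (gP y)
    · by_cases hy : S y
      · left
        refine hQ _ ?_ _ ?_ hfne
        · rw [fN x hx]; exact hPQ (gP x)
        · rw [fS y hy]; exact hcross y x hy hx (Or.inr hr)
      · left
        refine hQ _ ?_ _ ?_ hfne
        · rw [fN x hx]; exact hPQ (gP x)
        · rw [fN y hy]; exact hPQ (gP y)
  refine ⟨f, finj, a, b, ?_, ?_, ?_⟩
  · exact (SimpleGraph.fromRel_adj _ _ _).2 ⟨hne, Or.inl hab⟩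
  · rw [fS a ha, fS b hb]
  · intro x y hxy
    obtain ⟨h1, h2⟩ := (SimpleGraph.fromRel_adj _ _ _).1 hxy
    rcases h2 with h2 | h2
    · exact key x y h1 h2
    · exact (key y x h1.symm h2).symm

/-! ## Rule Z -/

theorem PL_lt : PL + 7000000000000 ≤ NS := by
  unfold PL MK NS; norm_num

theorem stepZ {V : Type} [DecidableEq V] (H : SimpleGraph V) (Q N : Finset V) (y w : V)
    (hQ : ∀ x ∈ Q, ∀ y ∈ Q, x ≠ y → H.Adj x y) (hcard : NS ≤ Q.card) (hy : y ∉ Q)
    (hNQ : N ⊆ Q) (hN : 5999999999999 ≤ N.card) (hadj : ∀ n ∈ N, H.Adj n y) (hw : w ∈ Q)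
    (hwN : w ∉ N) :
    Step FF H (H ⊔ SimpleGraph.edge w y) := by
  classical
  have h1 : 6000000000000 ≤ (insert w N).card := by
    rw [card_insert_of_notMem hwN]
    omega
  obtain ⟨U, hwU, hUs, hUc⟩ := Finset.exists_subsuperset_card_eq
    (s := {w}) (t := insert w N) (n := 6000000000000) (by simp) (by simp) h1
  have hwU' : w ∈ U := hwU (mem_singleton_self w)
  have hUQ : U ⊆ Q := by
    intro x hx
    rcases mem_insert.1 (hUs hx) with h | h
    · rw [h]; exact hw
    · exact hNQ h
  have hUadj : ∀ x ∈ U, x ≠ w → H.Adj x y := by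
    intro x hx hxw
    rcases mem_insert.1 (hUs hx) with h | h
    · exact absurd h hxw
    · exact hadj x h
  obtain ⟨eU⟩ : Nonempty (Fin 6000000000000 ≃ U) := ⟨(U.equivFinOfCardEq hUc).symm⟩
  -- the pool
  set P : Finset V := Q \ U with hPdef
  have hPcard : PL ≤ P.card := by
    have h2 : Q.card - U.card ≤ P.card := Finset.le_card_sdiff U Q
    rw [hUc] at h2
    have h3 := PL_lt
    generalize PL = a at *
    generalize NS = b at *
    generalize P.card = c at *
    generalize Q.card = q at *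
    omega
  -- the partial map
  let S : VF → Prop := fun v => match v with
    | VF.k a => a.val < 6000000000000
    | VF.g _ _ => False
    | VF.z => True
  let f₀ : VF → V := fun v => match v with
    | VF.k a => if h : a.val < 6000000000000 then (eU ⟨a.val, h⟩ : V) else y
    | VF.g _ _ => y
    | VF.z => y
  have hk : ∀ (a : Fin MK) (h : a.val < 6000000000000),
      f₀ (VF.k a) = (eU ⟨a.val, h⟩ : V) := by
    intro a h
    simp only [f₀, dif_pos h]
  have hz : f₀ VF.z = y := rfl
  have hkU : ∀ (a : Fin MK), a.val < 6000000000000 → f₀ (VF.k a) ∈ U := by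
    intro a h
    rw [hk a h]; exact (eU ⟨a.val, h⟩).2
  have hMK : 6000000000000 ≤ MK := by unfold MK; norm_num
  have hlt : ∀ i : Fin 6000000000000, i.val < MK := fun i => lt_of_lt_of_le i.2 hMK
  let i₀ : Fin 6000000000000 := eU.symm ⟨w, hwU'⟩
  let a₀ : Fin MK := ⟨i₀.val, hlt i₀⟩
  have ha₀ : f₀ (VF.k a₀) = w := by
    rw [hk a₀ i₀.2]
    change (eU i₀ : V) = w
    simp [i₀]
  have main := ext_step H Q P hQ (Finset.sdiff_subset) hPcard S f₀ ?_ ?_ ?_ (VF.k a₀) VF.z
    (show a₀.val < 6000000000000 from i₀.2) trivial (by simp)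
    (show a₀.val < 6000000000000 from i₀.2) ?_
  · rw [ha₀, hz] at main
    exact main
  · -- injectivity
    intro u v hu hv huv
    cases u with
    | k a =>
      cases v with
      | k b =>
        have hu' : a.val < 6000000000000 := hu
        have hv' : b.val < 6000000000000 := hv
        rw [hk a hu', hk b hv'] at huv
        have := eU.injective (Subtype.ext huv)
        have h3 : a.val = b.val := by
          have h4 := congrArg Fin.val this
          exact h4
        exact congrArg VF.k (Fin.ext h3)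
      | g i x => exact hv.elim
      | z =>
        have hu' : a.val < 6000000000000 := hu
        rw [hz] at huv
        exact absurd (huv ▸ hUQ (hkU a hu')) hy
    | g i x => exact hu.elim
    | z =>
      cases v with
      | k b =>
        have hv' : b.val < 6000000000000 := hv
        rw [hz] at huv
        exact absurd (huv ▸ hUQ (hkU b hv')) hy
      | g i x => exact hv.elim
      | z => rfl
  · -- images are outside the pool
    intro u hu
    cases u with
    | k a =>
      have hu' : a.val < 6000000000000 := hu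
      intro h
      exact (mem_sdiff.1 h).2 (hkU a hu')
    | g i x => exact hu.elim
    | z => exact fun h => hy (mem_sdiff.1 h).1
  · -- cross
    intro u v hu hv huv
    cases u with
    | k a =>
      have hu' : a.val < 6000000000000 := hu
      exact hUQ (hkU a hu')
    | g i x => exact hu.elim
    | z =>
      cases v with
      | k b =>
        rcases huv with h | h
        · exact h.elim
        · exact absurd h hv
      | g i x =>
        rcases huv with h | h
        · exact h.elim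
        · exact h.elim
      | z => exact absurd trivial hv
  · -- edges
    intro u v hu hv huv hr
    rw [ha₀, hz]
    cases u with
    | k a =>
      have hu' : a.val < 6000000000000 := hu
      cases v with
      | k b =>
        have hv' : b.val < 6000000000000 := hv
        left
        refine hQ _ (hUQ (hkU a hu')) _ (hUQ (hkU b hv')) ?_
        intro h
        apply huv
        rw [hk a hu', hk b hv'] at h
        have := eU.injective (Subtype.ext h)
        have h3 : a.val = b.val := by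
          have h4 := congrArg Fin.val this
          exact h4
        exact congrArg VF.k (Fin.ext h3)
      | g i x => exact hv.elim
      | z =>
        rw [hz]
        by_cases h : f₀ (VF.k a) = w
        · rw [h]
          right
          rw [SimpleGraph.edge_adj]
          refine ⟨Or.inl ⟨rfl, rfl⟩, ?_⟩
          intro h'
          exact hy (h' ▸ hw)
        · left
          exact hUadj _ (hkU a hu') h
    | g i x => exact hu.elim
    | z =>
      cases v with
      | k b => exact hr.elim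
      | g i x => exact hv.elim
      | z => exact hr.elim

/-! ## Iteration -/

/-- all edges between `y` and `W` -/
def starG {V : Type} (y : V) (W : Finset V) : SimpleGraph V :=
  SimpleGraph.fromRel (fun a b => a ∈ W ∧ b = y)

theorem starG_adj {V : Type} (y : V) (W : Finset V) (a b : V) :
    (starG y W).Adj a b ↔ a ≠ b ∧ ((a ∈ W ∧ b = y) ∨ (b ∈ W ∧ a = y)) :=
  SimpleGraph.fromRel_adj _ _ _

theorem clq_adj {V : Type} (W : Finset V) (a b : V) :
    (clq W).Adj a b ↔ a ≠ b ∧ (a ∈ W ∧ b ∈ W) := by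
  unfold clq
  rw [SimpleGraph.fromRel_adj]
  constructor
  · rintro ⟨h, h' | h'⟩
    · exact ⟨h, h'⟩
    · exact ⟨h, h'.2, h'.1⟩
  · rintro ⟨h, h'⟩
    exact ⟨h, Or.inl h'⟩

theorem starG_insert {V : Type} [DecidableEq V] (y w : V) (W : Finset V) :
    starG y (insert w W) = starG y W ⊔ SimpleGraph.edge w y := by
  ext a b
  rw [SimpleGraph.sup_adj, starG_adj, starG_adj, SimpleGraph.edge_adj, mem_insert, mem_insert]
  constructor
  · rintro ⟨h, ⟨h1 | h1, h2⟩ | ⟨h1 | h1, h2⟩⟩
    · right; exact ⟨Or.inl ⟨h1, h2⟩, h⟩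
    · left; exact ⟨h, Or.inl ⟨h1, h2⟩⟩
    · right; exact ⟨Or.inr ⟨h2, h1⟩, h⟩
    · left; exact ⟨h, Or.inr ⟨h1, h2⟩⟩
  · rintro (⟨h, ⟨h1, h2⟩ | ⟨h1, h2⟩⟩ | ⟨⟨h1, h2⟩ | ⟨h1, h2⟩, h⟩)
    · exact ⟨h, Or.inl ⟨Or.inr h1, h2⟩⟩
    · exact ⟨h, Or.inr ⟨Or.inr h1, h2⟩⟩
    · exact ⟨h, Or.inl ⟨Or.inl h1, h2⟩⟩
    · exact ⟨h, Or.inr ⟨Or.inl h2, h1⟩⟩

theorem starG_empty {V : Type} (G : SimpleGraph V) (y : V) : G ⊔ starG y ∅ = G := by
  rw [sup_eq_left]
  intro a b hab
  rw [starG_adj] at hab
  rcases hab.2 with h | h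
  · exact absurd h.1 (notMem_empty _)
  · exact absurd h.1 (notMem_empty _)

theorem edge_absorb {V : Type} (G : SimpleGraph V) (a b : V) (h : G.Adj a b) :
    G ⊔ SimpleGraph.edge a b = G := by
  rw [sup_eq_left]
  intro x y hxy
  rw [SimpleGraph.edge_adj] at hxy
  rcases hxy.1 with ⟨ha, hb⟩ | ⟨ha, hb⟩
  · subst ha; subst hb; exact h
  · subst ha; subst hb; exact h.symm

/-- add all edges between `y` and `W` to `G`, one after the other -/
theorem reach_star {V : Type} [DecidableEq V] (G₀ G : SimpleGraph V) (y : V) (W : Finset V)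
    (hG₀ : G₀ ≤ G)
    (h : ∀ G', G₀ ≤ G' → ∀ w ∈ W, Reach FF G' (G' ⊔ SimpleGraph.edge w y)) :
    Reach FF G (G ⊔ starG y W) := by
  induction W using Finset.induction_on with
  | empty =>
    rw [starG_empty]
    exact Relation.ReflTransGen.refl
  | insert w W hw ih =>
    have h1 := ih (fun G' hG w' hw' => h G' hG w' (mem_insert_of_mem hw'))
    refine Relation.ReflTransGen.trans h1 ?_
    rw [starG_insert, ← sup_assoc]
    exact h _ (hG₀.trans le_sup_left) w (mem_insert_self _ _)

theorem clq_insert {V : Type} [DecidableEq V] (y : V) (Q : Finset V) :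
    clq (insert y Q) = clq Q ⊔ starG y Q := by
  ext a b
  rw [SimpleGraph.sup_adj, starG_adj, clq_adj, clq_adj, mem_insert, mem_insert]
  constructor
  · rintro ⟨h, h1 | h1, h2 | h2⟩
    · exact absurd (h1.trans h2.symm) h
    · right; exact ⟨h, Or.inr ⟨h2, h1⟩⟩
    · right; exact ⟨h, Or.inl ⟨h1, h2⟩⟩
    · left; exact ⟨h, h1, h2⟩
  · rintro (⟨h, h1, h2⟩ | ⟨h, ⟨h1, h2⟩ | ⟨h1, h2⟩⟩)
    · exact ⟨h, Or.inr h1, Or.inr h2⟩
    · exact ⟨h, Or.inr h1, Or.inl h2⟩
    · exact ⟨h, Or.inl h2, Or.inr h1⟩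

theorem clq_le {V : Type} (H : SimpleGraph V) (Q : Finset V)
    (hQ : ∀ x ∈ Q, ∀ y ∈ Q, x ≠ y → H.Adj x y) : clq Q ≤ H := by
  intro a b hab
  rw [clq_adj] at hab
  exact hQ a hab.2.1 b hab.2.2 hab.1

theorem starG_mono {V : Type} {Q Q' : Finset V} (y : V) (h : Q ⊆ Q') : starG y Q ≤ starG y Q' := by
  intro a b hab
  rw [starG_adj] at hab ⊢
  exact ⟨hab.1, hab.2.imp (fun p => ⟨h p.1, p.2⟩) (fun p => ⟨h p.1, p.2⟩)⟩

/-- a vertex with many neighbours in a clique joins it -/
theorem absorb_one {V : Type} [DecidableEq V] (H : SimpleGraph V) (Q N : Finset V) (y : V)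
    (hQ : ∀ x ∈ Q, ∀ y ∈ Q, x ≠ y → H.Adj x y) (hcard : NS ≤ Q.card) (hy : y ∉ Q)
    (hNQ : N ⊆ Q) (hN : 5999999999999 ≤ N.card) (hadj : ∀ n ∈ N, H.Adj n y) :
    Reach FF H (H ⊔ starG y Q) := by
  refine reach_star H H y Q le_rfl fun G hG w hw => ?_
  by_cases hwN : w ∈ N
  · rw [edge_absorb G w y (hG (hadj w hwN))]
    exact Relation.ReflTransGen.refl
  · exact Relation.ReflTransGen.single
      (stepZ G Q N y w (fun a ha b hb hab => hG (hQ a ha b hb hab)) hcard hy hNQ hN
        (fun n hn => hG (hadj n hn)) hw hwN)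

/-- one round: `y` gets many neighbours in `Q'` by the edges to `N`, then joins `Q'` -/
theorem join_one {V : Type} [DecidableEq V] (H : SimpleGraph V) (Q' N : Finset V) (y : V)
    (hcard : NS ≤ Q'.card) (hNQ : N ⊆ Q') (hN : 5999999999999 ≤ N.card)
    (hstep : ∀ G, H ≤ G → ∀ n ∈ N, Reach FF G (G ⊔ SimpleGraph.edge n y)) :
    Reach FF (H ⊔ clq Q') (H ⊔ clq (insert y Q')) := by
  by_cases hy : y ∈ Q'
  · rw [insert_eq_of_mem hy]
    exact Relation.ReflTransGen.refl
  · have h2 : Reach FF (H ⊔ clq Q') (H ⊔ clq Q' ⊔ starG y N) :=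
      reach_star H (H ⊔ clq Q') y N le_sup_left hstep
    have h3 : Reach FF (H ⊔ clq Q' ⊔ starG y N) (H ⊔ clq Q' ⊔ starG y N ⊔ starG y Q') := by
      refine absorb_one _ Q' N y ?_ hcard hy hNQ hN ?_
      · intro a ha b hb hab
        left; right
        rw [clq_adj]
        exact ⟨hab, ha, hb⟩
      · intro n hn
        right
        rw [starG_adj]
        exact ⟨fun h => hy (h ▸ hNQ hn), Or.inl ⟨hn, rfl⟩⟩
    have h4 : H ⊔ clq Q' ⊔ starG y N ⊔ starG y Q' = H ⊔ clq (insert y Q') := by
      rw [clq_insert, sup_assoc, sup_eq_right.2 (starG_mono y hNQ), sup_assoc]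
    rw [h4] at h3
    exact h2.trans h3

/-- iterate `join_one` over a set of vertices of a gadget -/
theorem join_set {V : Type} [DecidableEq V] (H : SimpleGraph V) (Q' N : Finset V)
    (e : DV → V) (X : Finset DV) (hcard : NS ≤ Q'.card) (hNQ : N ⊆ Q')
    (hN : 5999999999999 ≤ N.card)
    (hstep : ∀ G, H ≤ G → ∀ x ∈ X, ∀ n ∈ N, Reach FF G (G ⊔ SimpleGraph.edge n (e x))) :
    Reach FF (H ⊔ clq Q') (H ⊔ clq (Q' ∪ X.image e)) := by
  induction X using Finset.induction_on with
  | empty =>
    rw [image_empty, union_empty]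
    exact Relation.ReflTransGen.refl
  | insert x X hx ih =>
    have h1 := ih (fun G hG x' hx' => hstep G hG x' (mem_insert_of_mem hx'))
    refine h1.trans ?_
    rw [image_insert, union_insert]
    exact join_one H (Q' ∪ X.image e) N (e x) (hcard.trans (card_le_card subset_union_left))
      (hNQ.trans subset_union_left) hN (fun G hG n hn => hstep G hG x (mem_insert_self _ _) n hn)

theorem ruleZ : S_ruleZ := by
  intro V _ _ H Q y hQ hcard hy hd
  classical
  have h1 : 5999999999999 ≤ (Q.filter (fun x => H.Adj y x)).card := by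
    unfold d at hd
    convert hd
  have h2 := absorb_one H Q (Q.filter (fun x => H.Adj y x)) y hQ hcard hy (filter_subset _ _) h1
    (fun n hn => ((mem_filter.1 hn).2).symm)
  have h3 : H ⊔ clq (insert y Q) = H ⊔ starG y Q := by
    rw [clq_insert, ← sup_assoc, sup_eq_left.2 (clq_le H Q hQ)]
  rw [h3]
  exact h2

/-! ## Rule V -/

/-- inverse of `code` -/
def dec (c : ℕ) : J :=
  (⟨c / 10 % 2, Nat.mod_lt _ (by norm_num)⟩, ⟨c / 5 % 2, Nat.mod_lt _ (by norm_num)⟩,
    ⟨c % 5, Nat.mod_lt _ (by norm_num)⟩)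

theorem dec_code (j : J) : dec (code j) = j := by
  revert j; decide

theorem code_lt (j : J) : code j < 20 := by
  revert j; decide

theorem dec_div {j : J} {n : ℕ} (h1 : 201 * code j ≤ n) (h2 : n < 201 * code j + 201) :
    dec (n / 201) = j := by
  have : n / 201 = code j := by omega
  rw [this, dec_code]

theorem lnk_cases {i i' : Rol} {j : J} (h : Lnk i j i') :
    (∃ r, (i = rr r 0 ∧ j = sE r ∧ i' = rr r 1) ∨ (i = rr r 0 ∧ j = sZ r ∧ i' = rr r 3) ∨
      (i = rr r 1 ∧ j = mE r ∧ i' = rr r 2) ∨ (i = rr r 3 ∧ j = mZ r ∧ i' = rr r 2)) ∨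
    (∃ j₀, i = pp j₀ 0 ∧ j = j₀ ∧ i' = pp j₀ 1) := by
  cases h with
  | vE r => exact Or.inl ⟨r, Or.inl ⟨rfl, rfl, rfl⟩⟩
  | vZ r => exact Or.inl ⟨r, Or.inr (Or.inl ⟨rfl, rfl, rfl⟩)⟩
  | EM r => exact Or.inl ⟨r, Or.inr (Or.inr (Or.inl ⟨rfl, rfl, rfl⟩))⟩
  | ZM r => exact Or.inl ⟨r, Or.inr (Or.inr (Or.inr ⟨rfl, rfl, rfl⟩))⟩
  | P j => exact Or.inr ⟨j, rfl, rfl, rfl⟩

theorem rr_inj {r r' : Rul} {m m' : Fin 4} (h : rr r m = rr r' m') : r = r' ∧ m = m' := by
  have := Sum.inl.inj h
  exact ⟨congrArg Prod.fst this, congrArg Prod.snd this⟩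

theorem hh_le (r : Rul) : hh r ≤ 160801 := by
  unfold hh
  split_ifs <;> omega

/-- second vertex of the rest class -/
def o1 : DV := ⟨rest, ⟨1, by show 1 < 9999995799790; norm_num⟩⟩

theorem ruleV {V : Type} [DecidableEq V] (H : SimpleGraph V) (Q Sp Pp : Finset V) (r : Rul)
    (hQ : ∀ x ∈ Q, ∀ y ∈ Q, x ≠ y → H.Adj x y) (hSp : Sp ⊆ Q) (hcard : NS ≤ Sp.card)
    (hPp : Pp ⊆ Sp) (hPc : Pp.card = hh r)
    (e : Fin 4 → DV → V) (hinj : Injective (fun p : Fin 4 × DV => e p.1 p.2))
    (heSp : ∀ i x, e i x ∉ Sp)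
    (kp : J → Fin 201 → V) (hkp : ∀ j ∈ Ins r, ∀ i, kp j i ∈ Q ∧ kp j i ∉ Sp)
    (kinj : ∀ j ∈ Ins r, ∀ j' ∈ Ins r, ∀ i i', kp j i = kp j' i' → j = j' ∧ i = i')
    (kne : ∀ j ∈ Ins r, ∀ i i' x, kp j i ≠ e i' x)
    (kadj : ∀ j ∈ Ins r, ∀ i y, port (slot j) y → H.Adj (kp j i) (e 0 y))
    (hgad : ∀ i : Fin 4, ∀ x y, x ≠ y → dadj x y → H.Adj (e i x) (e i y))
    (hpre : ∀ u ∈ Pp, ∀ x : DV, x.1 = rest → x.2.val = 0 → H.Adj u (e 0 x))
    (l01 : ∀ x y, port src x → port (slot (sE r)) y → H.Adj (e 0 x) (e 1 y))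
    (l12 : ∀ x y, port src x → port (slot (mE r)) y → H.Adj (e 1 x) (e 2 y))
    (l32 : ∀ x y, port src x → port (slot (mZ r)) y → H.Adj (e 3 x) (e 2 y))
    (l03 : ∀ x y, port src x → port (slot (sZ r)) y → H.Adj (e 0 x) (e 3 y))
    (x : DV) (hx : x.1 = rest) (hx0 : x.2.val ≠ 0) (u : V) (hu : u ∈ Sp) (huP : u ∉ Pp) :
    Step FF H (H ⊔ SimpleGraph.edge u (e 0 x)) := by
  classical
  have he : ∀ i j y y', e i y = e j y' → i = j ∧ y = y' := by
    intro i j y y' h
    have := @hinj (i, y) (j, y') h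
    exact ⟨congrArg Prod.fst this, congrArg Prod.snd this⟩
  have heu : ∀ i y, e i y ≠ u := fun i y h => heSp i y (h ▸ hu)
  let τ : Fin 4 → Equiv.Perm DV := fun i => if i = 0 then Equiv.swap x o1 else 1
  have τcl : ∀ i y, (τ i y).1 = y.1 := by
    intro i y
    by_cases hi : i = 0
    · simp only [τ, if_pos hi]
      rw [Equiv.swap_apply_def]
      split_ifs with h1 h2
      · rw [h1, hx]; rfl
      · rw [h2, hx]; rfl
      · rfl
    · simp only [τ, if_neg hi]; rfl
  have τfix : ∀ i y, (y.1 ≠ rest ∨ y.2.val = 0) → τ i y = y := by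
    intro i y hy
    by_cases hi : i = 0
    · simp only [τ, if_pos hi]
      apply Equiv.swap_apply_of_ne_of_ne
      · intro h
        rw [h] at hy
        rcases hy with hy | hy
        · exact hy hx
        · exact hx0 hy
      · intro h
        rw [h] at hy
        rcases hy with hy | hy
        · exact hy rfl
        · exact absurd hy (by show ¬ (1 = 0); norm_num)
    · simp only [τ, if_neg hi]; rfl
  have τo : τ 0 o1 = x := by
    simp only [τ, if_pos]
    exact Equiv.swap_apply_right _ _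
  have hhr := hh_le r
  -- the prepaid vertices
  obtain ⟨eP⟩ : Nonempty (Fin (hh r) ≃ Pp) := ⟨(Pp.equivFinOfCardEq hPc).symm⟩
  -- the pool
  set P : Finset V := (Sp \ Pp).erase u with hPdef
  have hPcard : PL ≤ P.card := by
    have h1 : u ∈ Sp \ Pp := mem_sdiff.2 ⟨hu, huP⟩
    rw [hPdef, card_erase_of_mem h1]
    have h2 : Sp.card - Pp.card ≤ (Sp \ Pp).card := Finset.le_card_sdiff Pp Sp
    rw [hPc] at h2
    have h3 := PL_lt
    generalize PL = a at *
    generalize NS = b at *
    generalize (Sp \ Pp).card = c at *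
    generalize Sp.card = q at *
    generalize hh r = t at *
    omega
  have hPu : u ∉ P := by simp [hPdef]
  have hPPp : ∀ z ∈ Pp, z ∉ P := by
    intro z hz h
    exact (mem_sdiff.1 (mem_of_mem_erase h)).2 hz
  have hPSp : P ⊆ Sp := (Finset.erase_subset _ _).trans sdiff_subset
  let Sk : ℕ → Prop := fun n => n = 9999 ∨ (10000 ≤ n ∧ n < 10000 + hh r) ∨
    (∃ j ∈ Ins r, 201 * code j ≤ n ∧ n < 201 * code j + 201)
  let S : VF → Prop := fun v => match v with
    | VF.k a => Sk a.val
    | VF.g (Sum.inl (r', _)) _ => r' = r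
    | VF.g (Sum.inr _) _ => False
    | VF.z => False
  let fk : ℕ → V := fun n =>
    if n = 9999 then u
    else if h : 10000 ≤ n ∧ n < 10000 + hh r then (eP ⟨n - 10000, by omega⟩ : V)
    else kp (dec (n / 201)) ⟨n % 201, Nat.mod_lt _ (by norm_num)⟩
  let f₀ : VF → V := fun v => match v with
    | VF.k a => fk a.val
    | VF.g (Sum.inl (_, m)) y => e m (τ m y)
    | VF.g (Sum.inr _) _ => u
    | VF.z => u
  have f1 : fk 9999 = u := by simp only [fk, if_pos]
  have f2 : ∀ n (h : 10000 ≤ n ∧ n < 10000 + hh r), fk n = (eP ⟨n - 10000, by omega⟩ : V) := by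
    intro n h
    have h9 : n ≠ 9999 := by omega
    simp only [fk, if_neg h9, dif_pos h]
  have f3 : ∀ n, ∀ j ∈ Ins r, 201 * code j ≤ n → n < 201 * code j + 201 →
      fk n = kp j ⟨n % 201, Nat.mod_lt _ (by norm_num)⟩ := by
    intro n j _ h1 h2
    have hj := code_lt j
    have h9 : n ≠ 9999 := by omega
    have h10 : ¬ (10000 ≤ n ∧ n < 10000 + hh r) := by omega
    simp only [fk, if_neg h9, dif_neg h10]
    rw [dec_div h1 h2]
  have fQ : ∀ n, Sk n → fk n ∈ Q := by
    intro n hn
    rcases hn with h | h | ⟨j, hj, h1, h2⟩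
    · rw [h, f1]; exact hSp hu
    · rw [f2 n h]; exact hSp (hPp (eP _).2)
    · rw [f3 n j hj h1 h2]; exact (hkp j hj _).1
  have fP : ∀ n, Sk n → fk n ∉ P := by
    intro n hn
    rcases hn with h | h | ⟨j, hj, h1, h2⟩
    · rw [h, f1]; exact hPu
    · rw [f2 n h]; exact hPPp _ (eP _).2
    · rw [f3 n j hj h1 h2]; exact fun hh' => (hkp j hj _).2 (hPSp hh')
  have fe : ∀ n, Sk n → ∀ i y, fk n ≠ e i y := by
    intro n hn i y
    rcases hn with h | h | ⟨j, hj, h1, h2⟩
    · rw [h, f1]; exact fun h' => heu i y h'.symm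
    · rw [f2 n h]; exact fun h' => heSp i y (h' ▸ hPp (eP _).2)
    · rw [f3 n j hj h1 h2]; exact kne j hj _ _ _
  have fkk : ∀ n n', Sk n → Sk n' → fk n = fk n' → n = n' := by
    intro n n' hn hn' h
    rcases hn with h1 | h1 | ⟨j, hj, h1, h2⟩
    · rw [h1, f1] at h
      rcases hn' with h3 | h3 | ⟨j', hj', h3, h4⟩
      · omega
      · rw [f2 n' h3] at h
        exact absurd (h ▸ (eP _).2) huP
      · rw [f3 n' j' hj' h3 h4] at h
        exact absurd (h ▸ hu) (hkp j' hj' _).2
    · rw [f2 n h1] at h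
      rcases hn' with h3 | h3 | ⟨j', hj', h3, h4⟩
      · rw [h3, f1] at h
        exact absurd (h ▸ (eP _).2) huP
      · rw [f2 n' h3] at h
        have h5 := congrArg Fin.val (eP.injective (Subtype.ext h))
        have h6 : n - 10000 = n' - 10000 := h5
        omega
      · rw [f3 n' j' hj' h3 h4] at h
        exact absurd (h ▸ hPp (eP _).2) (hkp j' hj' _).2
    · rw [f3 n j hj h1 h2] at h
      rcases hn' with h3 | h3 | ⟨j', hj', h3, h4⟩
      · rw [h3, f1] at h
        exact absurd (h ▸ hu) (hkp j hj _).2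
      · rw [f2 n' h3] at h
        exact absurd (h ▸ hPp (eP _).2) (hkp j hj _).2
      · rw [f3 n' j' hj' h3 h4] at h
        obtain ⟨h5, h6⟩ := kinj j hj j' hj' _ _ h
        subst h5
        have h7 : n % 201 = n' % 201 := congrArg Fin.val h6
        omega
  have hf1 : ∀ a : Fin MK, f₀ (VF.k a) = fk a.val := fun a => rfl
  have hf2 : ∀ r' m y, f₀ (VF.g (Sum.inl (r', m)) y) = e m (τ m y) := fun _ _ _ => rfl
  have h9 : 9999 < MK := by unfold MK; norm_num
  have ha₀ : f₀ (VF.k ⟨9999, h9⟩) = u := f1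
  have hb₀ : f₀ (VF.g (rr r 0) o1) = e 0 x := by
    show e 0 (τ 0 o1) = e 0 x
    rw [τo]
  have hrel : relF (VF.k ⟨9999, h9⟩) (VF.g (rr r 0) o1) :=
    ⟨r, rfl, Or.inr (Or.inr ⟨rfl, rfl, rfl⟩)⟩
  have main := ext_step H Q P hQ (hPSp.trans hSp) hPcard S f₀
    ?_ ?_ ?_ (VF.k ⟨9999, h9⟩) (VF.g (rr r 0) o1) (show Sk 9999 from Or.inl rfl)
    (show r = r from rfl) (by simp) hrel ?_
  · rw [ha₀, hb₀] at main
    exact main
  · -- injectivity
    intro v w hv hw hvw
    rcases v with a | ⟨⟨r1, m1⟩ | i1, y1⟩ | _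
    · rcases w with b | ⟨⟨r2, m2⟩ | i2, y2⟩ | _
      · exact congrArg VF.k (Fin.ext (fkk _ _ hv hw hvw))
      · exact absurd hvw (fe _ hv _ _)
      · exact hw.elim
      · exact hw.elim
    · rcases w with b | ⟨⟨r2, m2⟩ | i2, y2⟩ | _
      · exact absurd hvw.symm (fe _ hw _ _)
      · have e1 : r1 = r := hv
        have e2 : r2 = r := hw
        subst e1
        subst e2
        have hvw' : e m1 (τ m1 y1) = e m2 (τ m2 y2) := hvw
        obtain ⟨h1, h2⟩ := he _ _ _ _ hvw'
        subst h1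
        rw [(τ m1).injective h2]
      · exact hw.elim
      · exact hw.elim
    · exact hv.elim
    · exact hv.elim
  · -- outside the pool
    intro v hv
    rcases v with a | ⟨⟨r1, m1⟩ | i1, y1⟩ | _
    · exact fP _ hv
    · exact fun h => heSp _ _ (hPSp h)
    · exact hv.elim
    · exact hv.elim
  · -- cross
    intro v w hv hw hvw
    rcases v with a | ⟨⟨r1, m1⟩ | i1, y1⟩ | _
    · exact fQ _ hv
    · exfalso
      have e1 : r1 = r := hv
      subst e1
      rcases w with b | ⟨i2, y2⟩ | _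
      · rcases hvw with h | h
        · exact h
        · obtain ⟨r', h1, h⟩ := h
          obtain ⟨h2, -⟩ := rr_inj h1
          subst h2
          apply hw
          show Sk b.val
          rcases h with ⟨j, hj, h3, h4, -⟩ | ⟨h3, h4, -⟩ | ⟨h3, -⟩
          · exact Or.inr (Or.inr ⟨j, hj, h3, h4⟩)
          · exact Or.inr (Or.inl ⟨h3, h4⟩)
          · exact Or.inl h3
      · apply hw
        have key : ∃ m2, i2 = rr r1 m2 := by
          rcases hvw with h | h
          · rcases h with h | ⟨c, h, -, -⟩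
            · exact ⟨m1, h.1.symm⟩
            · rcases lnk_cases h with ⟨r', h | h | h | h⟩ | ⟨j₀, h⟩
              · obtain ⟨h2, -⟩ := rr_inj h.1; subst h2; exact ⟨_, h.2.2⟩
              · obtain ⟨h2, -⟩ := rr_inj h.1; subst h2; exact ⟨_, h.2.2⟩
              · obtain ⟨h2, -⟩ := rr_inj h.1; subst h2; exact ⟨_, h.2.2⟩
              · obtain ⟨h2, -⟩ := rr_inj h.1; subst h2; exact ⟨_, h.2.2⟩
              · exact absurd h.1 (by simp)
          · rcases h with h | ⟨c, h, -, -⟩
            · exact ⟨m1, h.1⟩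
            · rcases lnk_cases h with ⟨r', h | h | h | h⟩ | ⟨j₀, h⟩
              · obtain ⟨h2, -⟩ := rr_inj h.2.2; subst h2; exact ⟨_, h.1⟩
              · obtain ⟨h2, -⟩ := rr_inj h.2.2; subst h2; exact ⟨_, h.1⟩
              · obtain ⟨h2, -⟩ := rr_inj h.2.2; subst h2; exact ⟨_, h.1⟩
              · obtain ⟨h2, -⟩ := rr_inj h.2.2; subst h2; exact ⟨_, h.1⟩
              · exact absurd h.2.2 (by simp)
        obtain ⟨m2, rfl⟩ := key
        exact (rfl : r1 = r1)
      · rcases hvw with h | h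
        · exact h
        · exact h
    · exact hv.elim
    · exact hv.elim
  · -- edges
    intro v w hv hw hvw hr
    rw [ha₀, hb₀]
    rcases v with a | ⟨⟨r1, m1⟩ | i1, y1⟩ | _
    · rcases w with b | ⟨⟨r2, m2⟩ | i2, y2⟩ | _
      · left
        refine hQ _ (fQ _ hv) _ (fQ _ hw) ?_
        intro h
        exact hvw (congrArg VF.k (Fin.ext (fkk _ _ hv hw h)))
      · have e2 : r2 = r := hw
        subst e2
        obtain ⟨r', h1, h⟩ := hr
        obtain ⟨h2, h3⟩ := rr_inj h1
        subst h2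
        subst h3
        show (H ⊔ SimpleGraph.edge u (e 0 x)).Adj (fk a.val) (e 0 (τ 0 y2))
        rcases h with ⟨j, hj, h3, h4, h5⟩ | ⟨h3, h4, h5, h6⟩ | ⟨h3, h4, h5⟩
        · left
          rw [f3 _ j hj h3 h4, τfix 0 y2 (Or.inl (by rw [h5.1]; simp))]
          exact kadj j hj _ _ h5
        · left
          rw [f2 _ ⟨h3, h4⟩, τfix 0 y2 (Or.inr h6)]
          exact hpre _ (eP _).2 _ h5 h6
        · right
          have hy : y2 = o1 := by
            obtain ⟨c, y⟩ := y2
            have h2' : c = rest := h4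
            subst h2'
            unfold o1
            congr 1
            exact Fin.ext h5
          rw [h3, f1, hy, τo, SimpleGraph.edge_adj]
          exact ⟨Or.inl ⟨rfl, rfl⟩, fun h => heu _ _ h.symm⟩
      · exact hw.elim
      · exact hw.elim
    · rcases w with b | ⟨⟨r2, m2⟩ | i2, y2⟩ | _
      · exact hr.elim
      · have e1 : r1 = r := hv
        have e2 : r2 = r := hw
        subst e1
        subst e2
        left
        show H.Adj (e m1 (τ m1 y1)) (e m2 (τ m2 y2))
        rcases hr with ⟨h1, h2⟩ | ⟨c, h, p1, p2⟩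
        · obtain ⟨-, h3⟩ := rr_inj h1
          subst h3
          refine hgad _ _ _ ?_ ?_
          · intro h
            exact hvw (congrArg (VF.g _) ((τ m1).injective h))
          · unfold dadj
            rw [τcl, τcl]; exact h2
        · rw [τfix m1 y1 (Or.inl (by rw [p1.1]; simp)), τfix m2 y2 (Or.inl (by rw [p2.1]; simp))]
          rcases lnk_cases h with ⟨r', h | h | h | h⟩ | ⟨j₀, h⟩
          · obtain ⟨g1, g2, g3⟩ := h
            obtain ⟨a1, a2⟩ := rr_inj g1
            obtain ⟨-, a3⟩ := rr_inj g3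
            subst a1; subst a2; subst a3; subst g2
            exact l01 _ _ p1 p2
          · obtain ⟨g1, g2, g3⟩ := h
            obtain ⟨a1, a2⟩ := rr_inj g1
            obtain ⟨-, a3⟩ := rr_inj g3
            subst a1; subst a2; subst a3; subst g2
            exact l03 _ _ p1 p2
          · obtain ⟨g1, g2, g3⟩ := h
            obtain ⟨a1, a2⟩ := rr_inj g1
            obtain ⟨-, a3⟩ := rr_inj g3
            subst a1; subst a2; subst a3; subst g2
            exact l12 _ _ p1 p2
          · obtain ⟨g1, g2, g3⟩ := h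
            obtain ⟨a1, a2⟩ := rr_inj g1
            obtain ⟨-, a3⟩ := rr_inj g3
            subst a1; subst a2; subst a3; subst g2
            exact l32 _ _ p1 p2
          · exact absurd h.1 (by simp)
      · exact hw.elim
      · exact hw.elim
    · exact hv.elim
    · exact hv.elim

/-- the rest class without its first vertex -/
def X3 : Finset DV := Finset.univ.filter (fun x => x.1 = rest ∧ x.2.val ≠ 0)

theorem mem_X3 (x : DV) : x ∈ X3 ↔ (x.1 = rest ∧ x.2.val ≠ 0) := by
  unfold X3
  rw [mem_filter]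
  exact ⟨fun h => h.2, fun h => ⟨mem_univ _, h⟩⟩

theorem card_X3 : 5999999999999 ≤ X3.card := by
  have h1 : ((Finset.univ : Finset (Fin 5999999999999)).image
      (fun i => (⟨rest, ⟨i.val + 1, by
        have := i.2
        show i.val + 1 < 9999995799790
        omega⟩⟩ : DV))).card = 5999999999999 := by
    rw [Finset.card_image_of_injective, Finset.card_univ, Fintype.card_fin]
    intro a b hab
    have h2 := eq_of_heq (Sigma.mk.inj hab).2
    have h3 : a.val + 1 = b.val + 1 := congrArg Fin.val h2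
    exact Fin.ext (by omega)
  rw [← h1]
  apply Finset.card_le_card
  intro x hx
  obtain ⟨i, -, rfl⟩ := Finset.mem_image.1 hx
  rw [mem_X3]
  exact ⟨rfl, by show i.val + 1 ≠ 0; omega⟩

end AbsorbCell

open AbsorbCell in
/-- rule Z and absorbing one cell -/
theorem absorbCell : S_ruleZ ∧ S_absorbCell := by
  refine ⟨ruleZ, ?_⟩
  intro _ V _ _ H Q Sp Pp r hQ hSp hcard hPp hPc e hinj heSp kp hkp kinj kne kadj hgad hpre
    l01 l12 l32 l03
  classical
  have hQcard : NS ≤ Q.card := hcard.trans (Finset.card_le_card hSp)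
  have hH : H ⊔ clq Q = H := sup_eq_left.2 (clq_le H Q hQ)
  have hN1 : 5999999999999 ≤ (Sp \ Pp).card := by
    have h2 : Sp.card - Pp.card ≤ (Sp \ Pp).card := Finset.le_card_sdiff Pp Sp
    rw [hPc] at h2
    have h3 := PL_lt
    have h4 := hh_le r
    generalize PL = a at *
    generalize NS = b at *
    generalize (Sp \ Pp).card = c at *
    generalize Sp.card = q at *
    generalize hh r = t at *
    omega
  -- phase 1: the rest class without its first vertex
  have h1 : Reach FF (H ⊔ clq Q) (H ⊔ clq (Q ∪ X3.image (e 0))) := by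
    refine join_set H Q (Sp \ Pp) (e 0) X3 hQcard (Finset.sdiff_subset.trans hSp) hN1 ?_
    intro G hG x hx n hn
    obtain ⟨hx1, hx2⟩ := (mem_X3 x).1 hx
    obtain ⟨hn1, hn2⟩ := Finset.mem_sdiff.1 hn
    refine Relation.ReflTransGen.single ?_
    exact ruleV G Q Sp Pp r (fun a ha b hb hab => hG (hQ a ha b hb hab)) hSp hcard hPp hPc e hinj
      heSp kp hkp kinj kne (fun j hj i y hy => hG (kadj j hj i y hy))
      (fun i x y h h' => hG (hgad i x y h h')) (fun u hu x h h' => hG (hpre u hu x h h'))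
      (fun x y h h' => hG (l01 x y h h')) (fun x y h h' => hG (l12 x y h h'))
      (fun x y h h' => hG (l32 x y h h')) (fun x y h h' => hG (l03 x y h h')) x hx1 hx2 n hn1 hn2
  rw [hH] at h1
  -- phase 2: everything else
  have einj : Function.Injective (e 0) := by
    intro a b hab
    have := @hinj (0, a) (0, b) hab
    exact congrArg Prod.snd this
  have hcard3 : 5999999999999 ≤ (X3.image (e 0)).card := by
    rw [Finset.card_image_of_injective _ einj]
    exact card_X3
  have h2 : Reach FF (H ⊔ clq (Q ∪ X3.image (e 0)))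
      (H ⊔ clq (Q ∪ X3.image (e 0) ∪ (Finset.univ \ X3).image (e 0))) := by
    refine join_set H (Q ∪ X3.image (e 0)) (X3.image (e 0)) (e 0) (Finset.univ \ X3)
      (hQcard.trans (Finset.card_le_card Finset.subset_union_left)) Finset.subset_union_right
      hcard3 ?_
    intro G hG x hx n hn
    have hx3 : x ∉ X3 := (Finset.mem_sdiff.1 hx).2
    obtain ⟨y, hy, rfl⟩ := Finset.mem_image.1 hn
    have hadj : H.Adj (e 0 y) (e 0 x) := by
      refine hgad 0 y x ?_ (fun _ => ((mem_X3 y).1 hy).1)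
      rintro rfl
      exact hx3 hy
    rw [edge_absorb G _ _ (hG hadj)]
    exact Relation.ReflTransGen.refl
  have h3 : Q ∪ X3.image (e 0) ∪ (Finset.univ \ X3).image (e 0) =
      Q ∪ Finset.univ.image (e 0) := by
    rw [Finset.union_assoc, ← Finset.image_union, Finset.union_sdiff_of_subset
      (Finset.subset_univ _)]
  rw [h3] at h2
  exact h1.trans h2

end Pool.Agent.H57.Irr
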