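import Mathlib

/-!
# A graph with irrational weak saturation limit: common definitions

Cells are gadgets (near-cliques on `10^13` vertices with one source class `src`, twenty slot classes
`slot j` and the rest class `rest`). Cells form products of two binary trees: every cell has an
s-parent and a t-parent, and (unless it is a ground cell in that direction) two s-children and two
t-children.
-/

set_option autoImplicit false

namespace Pool.Agent.H57.Irr

open Finset Function

/-! ## The process -/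

/-- one step of the weak saturation process for the pattern graph `F` -/
def Step {α V : Type*} (F : SimpleGraph α) (H H' : SimpleGraph V) : Prop :=
  ∃ f : α → V, Injective f ∧ ∃ a b : α, F.Adj a b ∧ H' = H ⊔ SimpleGraph.edge (f a) (f b) ∧
    ∀ x y, F.Adj x y → H'.Adj (f x) (f y)

/-- reachability in the process -/
def Reach {α V : Type*} (F : SimpleGraph α) : SimpleGraph V → SimpleGraph V → Prop :=
  Relation.ReflTransGen (Step F)

/-! ## States, slots, rules -/

/-- states of a cell: 0 = ground in both directions, 1 = ground in direction t only,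
2 = ground in direction s only, 3 = interior with bit 0, 4 = interior with bit 1 -/
abbrev St := Fin 5

/-- the state has s-children -/
def sk (σ : St) : Prop := σ = 1 ∨ σ = 3 ∨ σ = 4

/-- the state has t-children -/
def tk (σ : St) : Prop := σ = 2 ∨ σ = 3 ∨ σ = 4

/-- the bit of a state (1 for all ground states) -/
def bit (σ : St) : Prop := σ ≠ 3

instance (σ : St) : Decidable (sk σ) := by unfold sk; infer_instance
instance (σ : St) : Decidable (tk σ) := by unfold tk; infer_instance
instance (σ : St) : Decidable (bit σ) := by unfold bit; infer_instance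

/-- slots: direction (0 = s, 1 = t), index of the child, state of the child -/
abbrev J := Fin 2 × Fin 2 × St

/-- number of a slot, `< 20` -/
def code (j : J) : ℕ := 10 * j.1.val + 5 * j.2.1.val + j.2.2.val

/-- data of a rule: `(σs, σt, own, a, g, pE, pZ)`: state of the s-children, state of the t-children,
own state, own index as s-child, own index as t-child, state of `E` and of `Z` -/
abbrev Tup := St × St × St × Fin 2 × Fin 2 × St × St

/-- validity of a rule -/
def okR (r : Tup) : Prop :=
  (sk r.2.2.1 → (tk r.1 ↔ tk r.2.2.1)) ∧ (tk r.2.2.1 → (sk r.2.1 ↔ sk r.2.2.1)) ∧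
  (sk r.2.2.1 → tk r.2.2.1 → (bit r.2.2.1 ↔ (¬ (bit r.1 ↔ bit r.2.1))))

instance (r : Tup) : Decidable (okR r) := by unfold okR; infer_instance

/-- rules -/
abbrev Rul := {r : Tup // okR r}

/-- own state -/
def own (r : Rul) : St := r.1.2.2.1

/-- state of the s-children -/
def σs (r : Rul) : St := r.1.1

/-- state of the t-children -/
def σt (r : Rul) : St := r.1.2.1

/-- own index as s-child -/
def ia (r : Rul) : Fin 2 := r.1.2.2.2.1

/-- own index as t-child -/
def ig (r : Rul) : Fin 2 := r.1.2.2.2.2.1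

/-- slot of the link from `v` to its s-parent `E` -/
def sE (r : Rul) : J := (0, ia r, own r)

/-- slot of the link from `v` to its t-parent `Z` -/
def sZ (r : Rul) : J := (1, ig r, own r)

/-- slot of the link `E → M` -/
def mE (r : Rul) : J := (1, ig r, r.1.2.2.2.2.2.1)

/-- slot of the link `Z → M` -/
def mZ (r : Rul) : J := (0, ia r, r.1.2.2.2.2.2.2)

/-- the docked slots of `v` -/
def Ins (r : Rul) : Finset J :=
  (if sk (own r) then {(0, 0, σs r), (0, 1, σs r)} else ∅) ∪
    (if tk (own r) then {(1, 0, σt r), (1, 1, σt r)} else ∅)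

/-- number of prepaid edges -/
def hh (r : Rul) : ℕ := (if sk (own r) then 0 else 80400) + (if tk (own r) then 0 else 80400) +
  (if bit (own r) then 0 else 1)

/-- bonus of a rule -/
def bon (r : Rul) : ℕ := if bit (own r) then 1 else 0

/-! ## The gadget and the graph `F` -/

/-- classes of a gadget: `none` = rest, `some none` = source, `some (some j)` = slot `j` -/
abbrev Cl := Option (Option J)

/-- the rest class -/
abbrev rest : Cl := none

/-- the source class -/
abbrev src : Cl := some none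

/-- slot classes -/
abbrev slot (j : J) : Cl := some (some j)

/-- class sizes -/
def sz : Cl → ℕ
  | none => 9999995799790
  | some none => 200000
  | some (some j) => 200001 + code j

/-- vertices of a gadget -/
abbrev DV := (c : Cl) × Fin (sz c)

/-- the first 201 vertices of class `c` -/
def port (c : Cl) (x : DV) : Prop := x.1 = c ∧ x.2.val < 201

/-- adjacency inside a gadget (for different vertices): all pairs except inside the classes
different from `rest` -/
def dadj (x y : DV) : Prop := x.1 = y.1 → x.1 = rest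

/-- roles of the gadgets of `F`: `(r, 0..3)` = `v, E, M, Z` of rule `r`; `(j, 0..1)` = a linked pair
for slot `j`; one isolated gadget -/
abbrev Rol := (Rul × Fin 4) ⊕ (J × Fin 2) ⊕ Unit

/-- role `i` of rule `r` -/
abbrev rr (r : Rul) (i : Fin 4) : Rol := Sum.inl (r, i)

/-- role `i` of the linked pair of slot `j` -/
abbrev pp (j : J) (i : Fin 2) : Rol := Sum.inr (Sum.inl (j, i))

/-- isolated role -/
abbrev uu : Rol := Sum.inr (Sum.inr ())

/-- links between the gadgets of `F`: source, slot, target -/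
inductive Lnk : Rol → J → Rol → Prop
  | vE (r : Rul) : Lnk (rr r 0) (sE r) (rr r 1)
  | vZ (r : Rul) : Lnk (rr r 0) (sZ r) (rr r 3)
  | EM (r : Rul) : Lnk (rr r 1) (mE r) (rr r 2)
  | ZM (r : Rul) : Lnk (rr r 3) (mZ r) (rr r 2)
  | P (j : J) : Lnk (pp j 0) j (pp j 1)

/-- size of the clique `K` of `F` -/
def MK : ℕ := 10 ^ 40

/-- vertices of `F` -/
inductive VF : Type
  | k (i : Fin MK) : VF
  | g (i : Rol) (x : DV) : VF
  | z : VF

/-- generating relation of `F` -/
def relF : VF → VF → Prop
  | VF.k _, VF.k _ => True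
  | VF.g i x, VF.g i' y =>
      (i = i' ∧ dadj x y) ∨ (∃ j, Lnk i j i' ∧ port src x ∧ port (slot j) y)
  | VF.k n, VF.g i x => ∃ r : Rul, i = rr r 0 ∧
      ((∃ j ∈ Ins r, 201 * code j ≤ n.val ∧ n.val < 201 * code j + 201 ∧ port (slot j) x) ∨
        (10000 ≤ n.val ∧ n.val < 10000 + hh r ∧ x.1 = rest ∧ x.2.val = 0) ∨
        (n.val = 9999 ∧ x.1 = rest ∧ x.2.val = 1))
  | VF.k n, VF.z => n.val < 6000000000000
  | _, _ => False

/-- the pattern graph -/
def FF : SimpleGraph VF := SimpleGraph.fromRel relF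

/-! ## Degrees -/

section counting
variable {V : Type*}

/-- number of neighbours of `x` in `Y` -/
noncomputable def d (H : SimpleGraph V) (Y : Finset V) (x : V) : ℕ := by
  classical exact (Y.filter (fun y => H.Adj x y)).card

/-- number of ordered adjacent pairs in `X × Y` -/
noncomputable def E2 (H : SimpleGraph V) (X Y : Finset V) : ℕ := ∑ x ∈ X, d H Y x

/-- excess: sum over `x ∈ X` of `(d_Y(x) - 200)^+` -/
noncomputable def ex (H : SimpleGraph V) (X Y : Finset V) : ℕ := ∑ x ∈ X, (d H Y x - 200)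

/-- number of `x ∈ X` with at least 201 neighbours in `Y` -/
noncomputable def nf (H : SimpleGraph V) (X Y : Finset V) : ℕ := by
  classical exact (X.filter (fun x => 201 ≤ d H Y x)).card

/-- discount between `T` and a slot class of a registered gadget; `b`: the slot is flagged -/
noncomputable def DT (H : SimpleGraph V) (T Y : Finset V) (b : Prop) : ℕ := by
  classical exact (ex H T Y - (if b then 0 else 200)) + (nf H T Y - 201)

/-- discount between the source class of a registered gadget and a slot class of another one -/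
noncomputable def DP (H : SimpleGraph V) (X Y : Finset V) : ℕ := min (ex H X Y) (ex H Y X) - 200

/-- full link: a complete `K_{201,201}` between `X` and `Y` -/
def FL (H : SimpleGraph V) (X Y : Finset V) : Prop :=
  ∃ O S : Finset V, O ⊆ X ∧ S ⊆ Y ∧ O.card = 201 ∧ S.card = 201 ∧ ∀ x ∈ O, ∀ y ∈ S, H.Adj x y

end counting

/-! ## Gadgets in a host graph -/

/-- a labelled gadget in `V` -/
@[ext] structure Gad (V : Type*) where
  L : Cl → Finset V
  card : ∀ c, (L c).card = sz c
  disj : ∀ c c', c ≠ c' → Disjoint (L c) (L c')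

noncomputable instance {V : Type*} : DecidableEq (Gad V) := Classical.decEq _

section gad
variable {V : Type*} [DecidableEq V]

/-- vertex set of a gadget -/
def Gad.all (W : Gad V) : Finset V := univ.biUnion W.L

/-- `W` is complete in `H`: all pairs adjacent except inside the classes different from `rest` -/
def Comp (H : SimpleGraph V) (W : Gad V) : Prop :=
  ∀ c c', ∀ x ∈ W.L c, ∀ y ∈ W.L c', x ≠ y → (c = c' → c = rest) → H.Adj x y

/-- valid states: `T` absorbed set, `R` registered gadgets -/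
structure Valid (H : SimpleGraph V) (T : Finset V) (R : Finset (Gad V)) : Prop where
  comp : ∀ W ∈ R, Comp H W
  disjT : ∀ W ∈ R, Disjoint T W.all
  disj : ∀ W ∈ R, ∀ W' ∈ R, W ≠ W' → Disjoint W.all W'.all

/-- the slope: `cc * 10^13 = e(D) + 161200`, `e(D) = 49999999999994579960098670` -/
noncomputable def cc : ℝ := 49999999999994579960259870 / 10000000000000

/-- discounts of a single registered gadget -/
noncomputable def D1 (H : SimpleGraph V) (T : Finset V) (W : Gad V) (fl : J → Prop) : ℕ :=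
  ∑ j, DT H T (W.L (slot j)) (fl j) + ex H T (W.L src)

/-- discounts of an ordered pair of registered gadgets -/
noncomputable def D2 (H : SimpleGraph V) (W W' : Gad V) : ℕ :=
  ∑ j, DP H (W.L src) (W'.L (slot j))

/-- the potential: `cc |T|` + number of edges not inside `T` - number of registered gadgets
- discounts; `fl` = flagged slots -/
noncomputable def Psi [Fintype V] (H : SimpleGraph V) (T : Finset V) (R : Finset (Gad V))
    (fl : Gad V → J → Prop) : ℝ :=
  cc * T.card + ((E2 H univ univ : ℝ) - (E2 H T T : ℝ)) / 2 - (R.card : ℝ)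
    - ((∑ W ∈ R, D1 H T W (fl W) : ℕ) : ℝ) - ((∑ W ∈ R, ∑ W' ∈ R.erase W, D2 H W W' : ℕ) : ℝ)

/-- data of a copy of `F` in a host graph -/
structure Cfg (H : SimpleGraph V) where
  K : Finset V
  z : V
  g : Rol → Gad V
  cardK : K.card = MK
  clique : ∀ x ∈ K, ∀ y ∈ K, x ≠ y → H.Adj x y
  zK : 6000000000000 ≤ d H K z
  comp : ∀ i, Comp H (g i)
  gdisj : ∀ i j, i ≠ j → Disjoint (g i).all (g j).all
  dock : ∀ r : Rul, ∀ j ∈ Ins r, 201 ≤ nf H K ((g (rr r 0)).L (slot j))
  eedge : ∀ r : Rul, hh r + 1 ≤ E2 H K ((g (rr r 0)).L rest)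
  links : ∀ i j i', Lnk i j i' → FL H ((g i).L src) ((g i').L (slot j))

/-- position of the new edge `pq` in a copy of `F` -/
def Cfg.fcase {H : SimpleGraph V} (C : Cfg H) (p q : V) : Prop :=
  (p ∈ C.K ∪ {C.z} ∧ q ∈ C.K ∪ {C.z}) ∨
  (∃ r : Rul, p ∈ C.K ∪ (C.g (rr r 0)).all ∧ q ∈ C.K ∪ (C.g (rr r 0)).all) ∨
  (∃ i c c', p ∈ (C.g i).L c ∧ q ∈ (C.g i).L c' ∧ (c = c' → c = rest)) ∨
  (∃ i j i', Lnk i j i' ∧ ∃ O S : Finset V, O ⊆ (C.g i).L src ∧ S ⊆ (C.g i').L (slot j) ∧
    O.card = 201 ∧ S.card = 201 ∧ (∀ x ∈ O, ∀ y ∈ S, H.Adj x y) ∧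
    ((p ∈ O ∧ q ∈ S) ∨ (q ∈ O ∧ p ∈ S)))

/-- a good absorption of `A` by rule `r` with parents `E` (s), `Z` (t) and common grandparent `M` -/
structure GoodAbs (H : SimpleGraph V) (T : Finset V) (R : Finset (Gad V)) (fl : Gad V → J → Prop)
    (A : Gad V) (r : Rul) (E M Z : Gad V) : Prop where
  hA : A ∈ R
  hE : E ∈ R
  hZ : Z ∈ R
  AE : A ≠ E
  AZ : A ≠ Z
  EZ : E ≠ Z
  MA : M ≠ A
  ME : M ≠ E
  MZ : M ≠ Z
  hM : M ∈ R ∨ M.all ⊆ T
  fAE : FL H (A.L src) (E.L (slot (sE r)))
  fAZ : FL H (A.L src) (Z.L (slot (sZ r)))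
  fEM : FL H (E.L src) (M.L (slot (mE r)))
  fZM : FL H (Z.L src) (M.L (slot (mZ r)))
  docked : ∀ j ∈ Ins r, 201 ≤ nf H T (A.L (slot j))
  flagged : ∀ j ∈ Ins r, fl A j
  single : ∀ j ∈ Ins r, nf H T (A.L (slot j)) < 402
  undocked : ∀ j, j ∉ Ins r → nf H T (A.L (slot j)) < 201
  noin : ∀ W ∈ R, W ≠ A → ∀ j, ¬ FL H (W.L src) (A.L (slot j))
  first : ∀ W ∈ R, W ≠ A → ∀ j, FL H (A.L src) (W.L (slot j)) → nf H T (W.L (slot j)) < 201
  noT : nf H T (A.L src) < 201

/-- flags after a good absorption -/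
def upd (fl : Gad V → J → Prop) (r : Rul) (E Z : Gad V) : Gad V → J → Prop :=
  fun W j => fl W j ∨ (W = E ∧ j = sE r) ∨ (W = Z ∧ j = sZ r)

/-- the possible outcomes of one step of the process: (1) only new registered gadgets; (2) some
gadgets of `R1` are absorbed, with a gain of at least 150 for each of them; (3) a good absorption by
rule `r`; (4) a bad absorption by rule `r`, with a gain of at least 150 -/
def Outcome [Fintype V] (H H' : SimpleGraph V) (T : Finset V) (R : Finset (Gad V))
    (fl : Gad V → J → Prop) : Prop :=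
  (∃ R', R ⊆ R' ∧ Valid H' T R' ∧ Psi H' T R' fl ≤ Psi H T R fl) ∨
  (∃ R1 T' R', R ⊆ R1 ∧ Valid H' T R1 ∧ T ⊆ T' ∧ R' ⊆ R1 ∧ Valid H' T' R' ∧
    (∀ W ∈ R1 \ R', W.all ⊆ T') ∧ Psi H' T' R' fl + 150 * ((R1 \ R').card : ℝ) ≤ Psi H T R fl) ∨
  (∃ R1 A r E M Z, R ⊆ R1 ∧ Valid H' T R1 ∧ GoodAbs H' T R1 fl A r E M Z ∧
    Psi H' (T ∪ A.all) (R1.erase A) (upd fl r E Z) ≤ Psi H T R fl + (bon r : ℝ)) ∨
  (∃ R1 A r E Z, R ⊆ R1 ∧ Valid H' T R1 ∧ A ∈ R1 ∧ E ∈ R1 ∧ Z ∈ R1 ∧ A ≠ E ∧ A ≠ Z ∧ E ≠ Z ∧
    FL H' (A.L src) (E.L (slot (sE r))) ∧ FL H' (A.L src) (Z.L (slot (sZ r))) ∧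
    Psi H' (T ∪ A.all) (R1.erase A) (upd fl r E Z) + 150 ≤ Psi H T R fl)

end gad

end Pool.Agent.H57.Irr
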