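import Pool.Agent.H57.Irr.Spec

/-!
# BIG CLIQUE

If a clique `K` with `MK = 10^40` vertices is not contained in `T`, we can absorb things and gain
150 for each gadget taken out of `R`, plus 3.
-/

set_option autoImplicit false

namespace Pool.Agent.H57.Irr.BigClique

open Finset Function Pool.Agent.H57.Irr

/-- the bound function, `a` = number of clique vertices already in `T` -/
noncomputable def G (a : ℝ) : ℝ :=
  -3 - ((MK : ℝ) - a) / 10000000000000 + (cc + 151) * max 0 (5000000000200 - a)

theorem mk_real : (MK : ℝ) = 10000000000000000000000000000000000000000 := by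
  unfold MK
  push_cast
  norm_num

theorem G_le (a : ℝ) (h0 : 0 ≤ a) (h1 : a ≤ (MK : ℝ)) : G a ≤ -3 := by
  unfold G
  rw [mk_real] at h1 ⊢
  unfold cc
  rcases le_total a 5000000000200 with h | h
  · rw [max_eq_right (by linarith)]
    linarith
  · rw [max_eq_left (by linarith)]
    linarith

/-- one step followed by the induction hypothesis -/
theorem G_step (a j : ℝ) (h0 : 0 ≤ a) (h1 : 1 ≤ j) (h2 : j ≤ 10000000000000) :
    (cc + 150 - a) + G (a + j) ≤ G a := by
  unfold G
  unfold cc
  rcases le_total (a + 1) 5000000000200 with h | h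
  · have e1 : max (0 : ℝ) (5000000000200 - a) = 5000000000200 - a := max_eq_right (by linarith)
    have e2 : max (0 : ℝ) (5000000000200 - (a + j)) ≤ 5000000000199 - a :=
      max_le (by linarith) (by linarith)
    rw [e1]
    linarith
  · have e1 : max (0 : ℝ) (5000000000200 - (a + j)) = 0 := max_eq_left (by linarith)
    have e2 : (0 : ℝ) ≤ max (0 : ℝ) (5000000000200 - a) := le_max_left _ _
    rw [e1]
    linarith

/-- the last step -/
theorem G_last (a : ℝ) (h1 : a ≤ (MK : ℝ)) (h2 : (MK : ℝ) ≤ a + 10000000000000) :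
    cc + 150 - a ≤ G a := by
  unfold G
  rw [mk_real] at h1 h2 ⊢
  unfold cc
  have e1 : max (0 : ℝ) (5000000000200 - a) = 0 := max_eq_left (by linarith)
  rw [e1]
  linarith

section
variable {V : Type} [DecidableEq V]

theorem sum_sz : ∑ c : Cl, sz c = 10000000000000 := by
  rw [Fintype.sum_option, Fintype.sum_option]
  simp only [sz, code, J, St, Fintype.sum_prod_type, Fin.sum_univ_two, Fin.sum_univ_five]
  norm_num

theorem card_all (W : Gad V) : W.all.card = 10000000000000 := by
  unfold Gad.all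
  rw [Finset.card_biUnion]
  · simp only [W.card]
    exact sum_sz
  · intro c _ c' _ h
    exact W.disj c c' h

/-- a clique vertex outside `T` sees all the clique vertices in `T` -/
theorem deg_ge (H : SimpleGraph V) (T K : Finset V)
    (hcl : ∀ x ∈ K, ∀ y ∈ K, x ≠ y → H.Adj x y) (w : V) (hw : w ∈ K) (hwT : w ∉ T) :
    (K ∩ T).card ≤ d H T w := by
  classical
  unfold d
  apply Finset.card_le_card
  intro y hy
  rw [Finset.mem_inter] at hy
  simp only [Finset.mem_filter]
  refine ⟨hy.2, hcl w hw y hy.1 ?_⟩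
  rintro rfl
  exact hwT hy.2

end

/-- combination of one absorption with the induction hypothesis -/
theorem main (hset : S_absorbSet) (hgad : S_absorbGad) (V : Type) [Fintype V] [DecidableEq V]
    (H : SimpleGraph V) (fl : Gad V → J → Prop) (K : Finset V) (hK : K.card = MK)
    (hcl : ∀ x ∈ K, ∀ y ∈ K, x ≠ y → H.Adj x y) :
    ∀ (n : ℕ) (T : Finset V) (R : Finset (Gad V)), (K \ T).card = n → 0 < n → Valid H T R →
    ∃ T' R', Valid H T' R' ∧ T ⊆ T' ∧ R' ⊆ R ∧ (∀ W ∈ R \ R', W.all ⊆ T') ∧
      Psi H T' R' fl + 150 * ((R \ R').card : ℝ) ≤ Psi H T R fl + G ((MK : ℝ) - n) := by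
  intro n
  induction n using Nat.strong_induction_on with
  | _ n ih =>
  intro T R hn hpos hv
  have hcard : (K ∩ T).card + n = MK := by
    rw [← hn, ← hK]
    exact Finset.card_inter_add_card_sdiff K T
  have hcardR : ((K ∩ T).card : ℝ) + n = (MK : ℝ) := by exact_mod_cast hcard
  -- one absorption step
  have key : ∃ T1 R1, Valid H T1 R1 ∧ T ⊆ T1 ∧ R1 ⊆ R ∧ (∀ W ∈ R \ R1, W.all ⊆ T1) ∧
      T1.card ≤ T.card + 10000000000000 ∧ (∃ w ∈ K \ T, w ∈ T1) ∧
      Psi H T1 R1 fl + 150 * ((R \ R1).card : ℝ) ≤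
        Psi H T R fl + (cc + 150 - ((K ∩ T).card : ℝ)) := by
    have hne : (K \ T).Nonempty := by
      rw [← Finset.card_pos, hn]
      exact hpos
    obtain ⟨w, hw⟩ := hne
    have hwK : w ∈ K := (Finset.mem_sdiff.mp hw).1
    have hwT : w ∉ T := (Finset.mem_sdiff.mp hw).2
    have hdeg : ((K ∩ T).card : ℝ) ≤ (d H T w : ℝ) := by
      exact_mod_cast deg_ge H T K hcl w hwK hwT
    by_cases hex : ∃ W ∈ R, w ∈ W.all
    · obtain ⟨W, hWR, hwW⟩ := hex
      obtain ⟨hv1, hcost, _, _⟩ := hgad V H T R fl W hv hWR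
      have hsd : R \ R.erase W ⊆ {W} := by
        intro X hX
        rw [Finset.mem_sdiff, Finset.mem_erase] at hX
        rw [Finset.mem_singleton]
        by_contra hne
        exact hX.2 ⟨hne, hX.1⟩
      refine ⟨T ∪ W.all, R.erase W, hv1, Finset.subset_union_left, Finset.erase_subset _ _,
        ?_, ?_, ⟨w, hw, Finset.mem_union_right _ hwW⟩, ?_⟩
      · intro X hX
        have hXW : X = W := Finset.mem_singleton.mp (hsd hX)
        rw [hXW]
        exact Finset.subset_union_right
      · refine (Finset.card_union_le _ _).trans ?_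
        rw [card_all]
      · have hc1 : ((R \ R.erase W).card : ℝ) ≤ 1 := by
          have h := (Finset.card_le_card hsd)
          rw [Finset.card_singleton] at h
          exact_mod_cast h
        have hc2 := hcost w hwW
        have hc3 : (161201 : ℝ) ≤ cc := by unfold cc; norm_num
        linarith
    · have hdisjW : ∀ W ∈ R, Disjoint ({w} : Finset V) W.all := by
        intro W hW
        rw [Finset.disjoint_singleton_left]
        intro h
        exact hex ⟨W, hW, h⟩
      have hdisjT : Disjoint ({w} : Finset V) T := by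
        rw [Finset.disjoint_singleton_left]
        exact hwT
      obtain ⟨hv1, hcost⟩ := hset V H T R fl {w} hv hdisjT hdisjW
      refine ⟨T ∪ {w}, R, hv1, Finset.subset_union_left, Finset.Subset.refl _,
        ?_, ?_, ⟨w, hw, Finset.mem_union_right _ (Finset.mem_singleton_self w)⟩, ?_⟩
      · intro X hX
        rw [Finset.sdiff_self] at hX
        exact absurd hX (Finset.notMem_empty X)
      · refine (Finset.card_union_le _ _).trans ?_
        rw [Finset.card_singleton]
        omega
      · have e0 : ((R \ R).card : ℝ) = 0 := by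
          rw [Finset.sdiff_self, Finset.card_empty, Nat.cast_zero]
        have e1 : E2 H {w} T = d H T w := by unfold E2; simp
        have e2 : (0 : ℝ) ≤ (E2 H {w} {w} : ℝ) := Nat.cast_nonneg _
        rw [e1, Finset.card_singleton] at hcost
        push_cast at hcost
        rw [e0]
        linarith
  obtain ⟨T1, R1, hv1, hTT1, hR1R, hRc, hTc, ⟨w, hwKT, hwT1⟩, hcost⟩ := key
  -- the new number of clique vertices outside
  have hsub : K \ T1 ⊆ (K \ T).erase w := by
    intro x hx
    rw [Finset.mem_sdiff] at hx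
    rw [Finset.mem_erase, Finset.mem_sdiff]
    refine ⟨?_, hx.1, fun h => hx.2 (hTT1 h)⟩
    rintro rfl
    exact hx.2 hwT1
  have hlt : (K \ T1).card + 1 ≤ n := by
    have h1 := Finset.card_le_card hsub
    rw [Finset.card_erase_of_mem hwKT, hn] at h1
    omega
  have hge : n ≤ (K \ T1).card + 10000000000000 := by
    have h1 : K \ T ⊆ (K \ T1) ∪ (T1 \ T) := by
      intro x hx
      rw [Finset.mem_sdiff] at hx
      rw [Finset.mem_union, Finset.mem_sdiff, Finset.mem_sdiff]
      by_cases h : x ∈ T1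
      · exact Or.inr ⟨h, hx.2⟩
      · exact Or.inl ⟨hx.1, h⟩
    have h2 := (Finset.card_le_card h1).trans (Finset.card_union_le _ _)
    rw [hn, Finset.card_sdiff_of_subset hTT1] at h2
    omega
  have hlt' : ((K \ T1).card : ℝ) + 1 ≤ (n : ℝ) := by exact_mod_cast hlt
  have hge' : (n : ℝ) ≤ ((K \ T1).card : ℝ) + 10000000000000 := by exact_mod_cast hge
  have ha0 : (0 : ℝ) ≤ ((K ∩ T).card : ℝ) := Nat.cast_nonneg _
  have haeq : (MK : ℝ) - n = ((K ∩ T).card : ℝ) := by linarith
  rcases Nat.eq_zero_or_pos (K \ T1).card with h0 | h0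
  · refine ⟨T1, R1, hv1, hTT1, hR1R, hRc, ?_⟩
    refine hcost.trans ?_
    rw [haeq]
    have h0' : ((K \ T1).card : ℝ) = 0 := by exact_mod_cast h0
    have hn0 : (0 : ℝ) ≤ (n : ℝ) := Nat.cast_nonneg _
    have := G_last ((K ∩ T).card : ℝ) (by linarith) (by linarith)
    linarith
  · obtain ⟨T', R', hv', hT', hR', hRc', hP'⟩ :=
      ih (K \ T1).card (by omega) T1 R1 rfl h0 hv1
    refine ⟨T', R', hv', hTT1.trans hT', hR'.trans hR1R, ?_, ?_⟩
    · intro X hX
      rw [Finset.mem_sdiff] at hX
      by_cases hX1 : X ∈ R1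
      · exact hRc' X (Finset.mem_sdiff.mpr ⟨hX1, hX.2⟩)
      · exact (hRc X (Finset.mem_sdiff.mpr ⟨hX.1, hX1⟩)).trans hT'
    · have h1 : R \ R' ⊆ (R \ R1) ∪ (R1 \ R') := by
        intro x hx
        rw [Finset.mem_sdiff] at hx
        rw [Finset.mem_union, Finset.mem_sdiff, Finset.mem_sdiff]
        by_cases h : x ∈ R1
        · exact Or.inr ⟨h, hx.2⟩
        · exact Or.inl ⟨hx.1, h⟩
      have h2 := (Finset.card_le_card h1).trans (Finset.card_union_le _ _)
      have h2' : ((R \ R').card : ℝ) ≤ ((R \ R1).card : ℝ) + ((R1 \ R').card : ℝ) := by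
        exact_mod_cast h2
      have h3 := G_step ((K ∩ T).card : ℝ) ((n : ℝ) - ((K \ T1).card : ℝ)) ha0
        (by linarith) (by linarith)
      have e : (MK : ℝ) - ((K \ T1).card : ℝ)
          = ((K ∩ T).card : ℝ) + ((n : ℝ) - ((K \ T1).card : ℝ)) := by linarith
      rw [e] at hP'
      rw [haeq]
      linarith

end Pool.Agent.H57.Irr.BigClique

/-- BIG CLIQUE -/
theorem Pool.Agent.H57.Irr.bigclique :
    Pool.Agent.H57.Irr.S_absorbSet → Pool.Agent.H57.Irr.S_absorbGad →
      Pool.Agent.H57.Irr.S_bigclique := by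
  intro hset hgad V _ _ H T R fl K hv hK hcl hKT
  have hpos : 0 < (K \ T).card := by
    rw [Finset.card_pos, Finset.sdiff_nonempty]
    exact hKT
  have hle : (K \ T).card ≤ Pool.Agent.H57.Irr.MK := by
    rw [← hK]
    exact Finset.card_le_card Finset.sdiff_subset
  obtain ⟨T', R', hv', hT', hR', hRc, hP⟩ :=
    Pool.Agent.H57.Irr.BigClique.main hset hgad V H fl K hK hcl (K \ T).card T R rfl hpos hv
  refine ⟨T', R', hv', hT', hR', hRc, ?_⟩
  have hle' : ((K \ T).card : ℝ) ≤ (Pool.Agent.H57.Irr.MK : ℝ) := by exact_mod_cast hle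
  have h0 : (0 : ℝ) ≤ ((K \ T).card : ℝ) := Nat.cast_nonneg _
  have := Pool.Agent.H57.Irr.BigClique.G_le
    ((Pool.Agent.H57.Irr.MK : ℝ) - ((K \ T).card : ℝ)) (by linarith) (by linarith)
  linarith
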