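import Pool.Agent.H57.Irr.Spec

/-! BULK (helper353; adapted from Tuza/Bulk.lean by helper685). -/

set_option autoImplicit false

namespace Pool.Agent.H57.Irr

open Finset Function

namespace Bulk

variable {V : Type} [Fintype V] [DecidableEq V]

omit [Fintype V] [DecidableEq V] in
theorem le_d {H : SimpleGraph V} {x : V} {S Y : Finset V} (h : ∀ y ∈ S, y ∈ Y ∧ H.Adj x y) :
    S.card ≤ d H Y x := by
  classical
  unfold d
  apply Finset.card_le_card
  intro y hy
  rw [Finset.mem_filter]
  exact h y hy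

theorem code_le (j : J) : code j ≤ 19 := by
  revert j; decide

theorem sz_le {c : Cl} (h : c ≠ rest) : sz c ≤ 200020 := by
  match c, h with
  | some none, _ => show 200000 ≤ 200020; norm_num
  | some (some j), _ =>
    show 200001 + code j ≤ 200020
    have := code_le j
    omega

theorem sum_sz_slot : ∑ j : J, sz (slot j) = 4000210 := by
  show ∑ j : J, (200001 + code j) = 4000210
  rw [Finset.sum_add_distrib]
  have h1 : ∑ j : J, code j = 190 := by decide
  have h2 : Fintype.card J = 20 := by decide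
  rw [h1, Finset.sum_const, Finset.card_univ, h2]
  rfl

theorem sum_sz2_slot : ∑ j : J, ((sz (slot j) : ℤ) * (sz (slot j) - 1)) = 800080002660 := by
  have h0 : ∀ j : J, ((sz (slot j) : ℤ) * (sz (slot j) - 1)) =
      40000200000 + 400001 * ((code j : ℕ) : ℤ) + ((code j ^ 2 : ℕ) : ℤ) := by
    intro j
    have h : (sz (slot j) : ℤ) = 200001 + (code j : ℤ) := by
      show ((200001 + code j : ℕ) : ℤ) = _
      push_cast; ring
    rw [h]
    push_cast
    ring
  have h1 : ∑ j : J, code j = 190 := by decide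
  have h2 : Fintype.card J = 20 := by decide
  have h3 : ∑ j : J, code j ^ 2 = 2470 := by decide
  rw [Finset.sum_congr rfl (fun j _ => h0 j), Finset.sum_add_distrib, Finset.sum_add_distrib,
    ← Finset.mul_sum, ← Nat.cast_sum, ← Nat.cast_sum, h1, h3, Finset.sum_const, Finset.card_univ, h2]
  norm_num

omit [Fintype V] in
theorem mem_all {W : Gad V} {x : V} : x ∈ W.all ↔ ∃ c, x ∈ W.L c := by
  simp [Gad.all]

omit [Fintype V] in
theorem card_all (W : Gad V) : W.all.card = 10000000000000 := by
  unfold Gad.all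
  rw [Finset.card_biUnion (fun c _ c' _ h => W.disj c c' h)]
  rw [Fintype.sum_option, Fintype.sum_option]
  simp only [W.card]
  rw [sum_sz_slot]
  rfl

omit [Fintype V] in
/-- neighbours in a complete gadget -/
theorem adj_of {H : SimpleGraph V} {B : Gad V} (hB : Comp H B) {x y : V} {c : Cl}
    (hx : x ∈ B.L c) (hy : y ∈ B.all) (hxy : x ≠ y) (h : y ∈ B.L c → c = rest) : H.Adj x y := by
  obtain ⟨c', hc'⟩ := mem_all.1 hy
  exact hB c c' x hx y hc' hxy (fun h' => by subst h'; exact h hc')

omit [Fintype V] in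
theorem d_ge {H : SimpleGraph V} {B : Gad V} (hB : Comp H B) (T : Finset V) {w : V}
    (hw : w ∈ B.all) : (B.all ∩ T).card ≤ d H T w + 200020 := by
  obtain ⟨c, hc⟩ := mem_all.1 hw
  by_cases h3 : c = rest
  · have h1 : ((B.all ∩ T).erase w).card ≤ d H T w := le_d (by
      intro y hy
      rw [mem_erase, mem_inter] at hy
      exact ⟨hy.2.2, adj_of hB hc hy.2.1 (Ne.symm hy.1) (fun _ => h3)⟩)
    have h2 := Finset.pred_card_le_card_erase (s := B.all ∩ T) (a := w)
    omega
  · have h1 : ((B.all ∩ T) \ B.L c).card ≤ d H T w := le_d (by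
      intro y hy
      rw [mem_sdiff, mem_inter] at hy
      exact ⟨hy.1.2, adj_of hB hc hy.1.1 (by rintro rfl; exact hy.2 hc)
        (fun h => absurd h hy.2)⟩)
    have h2 : (B.all ∩ T).card ≤ ((B.all ∩ T) \ B.L c).card + (B.L c).card :=
      Finset.card_le_card_sdiff_add_card
    have h4 := B.card c
    have h5 := sz_le h3
    omega

theorem absorb (hG : S_absorbGad) {H : SimpleGraph V} {T : Finset V} {R : Finset (Gad V)}
    {fl : Gad V → J → Prop}
    {B : Gad V} (hv : Valid H T R) (hB : Comp H B) (𝒮 : Finset (Gad V)) :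
    𝒮 ⊆ R → (∀ W ∈ 𝒮, ¬ Disjoint B.all W.all) →
    Valid H (T ∪ 𝒮.biUnion Gad.all) (R \ 𝒮) ∧
    𝒮.card ≤ (B.all ∩ (T ∪ 𝒮.biUnion Gad.all)).card ∧
    Psi H (T ∪ 𝒮.biUnion Gad.all) (R \ 𝒮) fl + 150 * (𝒮.card : ℝ) ≤
      Psi H T R fl + 161351 * ((min 𝒮.card 361371 : ℕ) : ℝ) := by
  induction 𝒮 using Finset.induction_on with
  | empty => intro _ _; simpa using hv
  | insert A 𝒮 hA ih =>
    intro hsub hmeet
    obtain ⟨h1, h2, h3⟩ := ih (fun W hW => hsub (mem_insert_of_mem hW))
      (fun W hW => hmeet W (mem_insert_of_mem hW))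
    set T1 := T ∪ 𝒮.biUnion Gad.all with hT1
    have hA1 : A ∈ R \ 𝒮 := mem_sdiff.2 ⟨hsub (mem_insert_self _ _), hA⟩
    obtain ⟨g1, g2, -, -⟩ := hG V H T1 (R \ 𝒮) fl A h1 hA1
    have e1 : T ∪ (insert A 𝒮).biUnion Gad.all = T1 ∪ A.all := by
      rw [biUnion_insert, hT1, union_assoc, union_comm A.all]
    have e2 : R \ insert A 𝒮 = (R \ 𝒮).erase A := by
      ext W
      simp only [mem_sdiff, mem_insert, mem_erase, not_or]
      tauto
    rw [e1, e2]
    obtain ⟨w, hwB, hwA⟩ := not_disjoint_iff.1 (hmeet A (mem_insert_self _ _))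
    have hwT1 : w ∉ T1 := fun h => disjoint_left.1 (h1.disjT A hA1) h hwA
    have h4 := d_ge hB T1 hwB
    refine ⟨g1, ?_, ?_⟩
    · rw [card_insert_of_notMem hA]
      have h6 : insert w (B.all ∩ T1) ⊆ B.all ∩ (T1 ∪ A.all) := by
        intro y hy
        rw [mem_insert, mem_inter] at hy
        rw [mem_inter, mem_union]
        rcases hy with rfl | hy
        · exact ⟨hwB, Or.inr hwA⟩
        · exact ⟨hy.1, Or.inl hy.2⟩
      have h7 := card_le_card h6
      rw [card_insert_of_notMem (fun h => hwT1 (mem_inter.1 h).2)] at h7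
      omega
    · have h5 := g2 w hwA
      rw [card_insert_of_notMem hA]
      have hd0 : (0 : ℝ) ≤ (d H T1 w : ℝ) := Nat.cast_nonneg _
      rcases Nat.lt_or_ge 𝒮.card 361371 with h6 | h6
      · rw [min_eq_left (by omega : 𝒮.card + 1 ≤ 361371)]
        rw [min_eq_left h6.le] at h3
        push_cast
        linarith
      · rw [min_eq_right (by omega : 361371 ≤ 𝒮.card + 1)]
        rw [min_eq_right h6] at h3
        have h7 : (161351 : ℝ) ≤ (d H T1 w : ℝ) := by
          have : 161351 ≤ d H T1 w := by omega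
          exact_mod_cast this
        push_cast at h3 ⊢
        linarith

omit [Fintype V] in
/-- counting the edges that meet `Y` -/
theorem countY {H : SimpleGraph V} {B : Gad V} (hB : Comp H B) (T Y : Finset V) (hY : Y ⊆ B.all)
    (hT : B.all \ Y ⊆ T) :
    (Y.card : ℤ) * (19999999999999 - Y.card) - 840079802660 ≤
      2 * (E2 H Y T : ℤ) + (E2 H Y Y : ℤ) := by
  set b := Y.card with hb
  have hcardB := card_all B
  have hsd : (B.all \ Y).card = 10000000000000 - b := by
    rw [card_sdiff_of_subset hY, hcardB]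
  have hb3 : b ≤ 10000000000000 := by
    rw [← hcardB]; exact card_le_card hY
  -- decomposition
  have hYd : Y = univ.biUnion (fun c => Y ∩ B.L c) := by
    ext y
    simp only [mem_biUnion, mem_univ, true_and, mem_inter]
    constructor
    · intro hy
      obtain ⟨c, hc⟩ := mem_all.1 (hY hy)
      exact ⟨c, hy, hc⟩
    · rintro ⟨c, hy, -⟩
      exact hy
  have hdisj : ∀ c ∈ (univ : Finset Cl), ∀ c' ∈ (univ : Finset Cl), c ≠ c' →
      Disjoint (Y ∩ B.L c) (Y ∩ B.L c') := by
    intro c _ c' _ h
    exact (B.disj c c' h).mono inter_subset_right inter_subset_right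
  have hsum : 2 * (E2 H Y T : ℤ) + (E2 H Y Y : ℤ) =
      ∑ c : Cl, ∑ y ∈ Y ∩ B.L c, (2 * (d H T y : ℤ) + (d H Y y : ℤ)) := by
    rw [← sum_biUnion hdisj, ← hYd, sum_add_distrib, ← mul_sum]
    unfold E2
    push_cast
    rfl
  have hcard : (b : ℤ) = ∑ c : Cl, ((Y ∩ B.L c).card : ℤ) := by
    have h1 : Y.card = ∑ c : Cl, (Y ∩ B.L c).card := by
      conv_lhs => rw [hYd]
      exact card_biUnion hdisj
    rw [hb, h1]
    push_cast
    rfl
  have hcls : ∀ c : Cl, c ≠ rest →
      ((Y ∩ B.L c).card : ℤ) * (19999999999999 - b) - (sz c : ℤ) * (sz c - 1) ≤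
      ∑ y ∈ Y ∩ B.L c, (2 * (d H T y : ℤ) + (d H Y y : ℤ)) := by
    intro c hc
    set k := (Y ∩ B.L c).card with hk
    have hks : k ≤ sz c := by
      rw [hk, ← B.card c]; exact card_le_card inter_subset_right
    have hpt : ∀ y ∈ Y ∩ B.L c, (20000000000000 - b - 2 * (sz c : ℤ) + k) ≤
        2 * (d H T y : ℤ) + (d H Y y : ℤ) := by
      intro y hy
      rw [mem_inter] at hy
      have h1 : ((B.all \ Y) \ B.L c).card ≤ d H T y := le_d (by
        intro x hx
        rw [mem_sdiff] at hx
        refine ⟨hT hx.1, adj_of hB hy.2 (mem_sdiff.1 hx.1).1 ?_ (fun h => absurd h hx.2)⟩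
        rintro rfl
        exact hx.2 hy.2)
      have h2 : (Y \ B.L c).card ≤ d H Y y := le_d (by
        intro x hx
        rw [mem_sdiff] at hx
        refine ⟨hx.1, adj_of hB hy.2 (hY hx.1) ?_ (fun h => absurd h hx.2)⟩
        rintro rfl
        exact hx.2 hy.2)
      have h3 : (Y \ B.L c).card + k = b := by
        rw [hk, hb, inter_comm, ← card_sdiff_add_card_inter Y (B.L c), inter_comm]
      have h4 : (B.L c \ Y).card + k = sz c := by
        rw [hk, ← B.card c, inter_comm, ← card_sdiff_add_card_inter (B.L c) Y]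
      have h5 : ((B.all \ Y) \ B.L c).card + (B.L c \ Y).card = 10000000000000 - b := by
        rw [← hsd, ← card_sdiff_add_card_inter (B.all \ Y) (B.L c)]
        congr 2
        ext x
        simp only [mem_sdiff, mem_inter]
        constructor
        · rintro ⟨h6, h7⟩
          exact ⟨⟨mem_all.2 ⟨c, h6⟩, h7⟩, h6⟩
        · rintro ⟨⟨-, h7⟩, h6⟩
          exact ⟨h6, h7⟩
      omega
    have h6 : (k : ℤ) * (20000000000000 - b - 2 * (sz c : ℤ) + k) ≤
        ∑ y ∈ Y ∩ B.L c, (2 * (d H T y : ℤ) + (d H Y y : ℤ)) := by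
      have := card_nsmul_le_sum (Y ∩ B.L c) (fun y => 2 * (d H T y : ℤ) + (d H Y y : ℤ)) _ hpt
      rw [nsmul_eq_mul] at this
      exact this
    refine le_trans ?_ h6
    obtain ⟨e, he⟩ := Nat.exists_eq_add_of_le hks
    have he' : (sz c : ℤ) = k + e := by exact_mod_cast he
    rw [he']
    have h7 : (0 : ℤ) ≤ (e : ℤ) * (e - 1) := by
      rcases Nat.eq_zero_or_pos e with h | h
      · simp [h]
      · have : (1 : ℤ) ≤ e := by exact_mod_cast h
        nlinarith
    nlinarith
  have hcl3 : ((Y ∩ B.L rest).card : ℤ) * (19999999999999 - b) ≤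
      ∑ y ∈ Y ∩ B.L rest, (2 * (d H T y : ℤ) + (d H Y y : ℤ)) := by
    have hpt : ∀ y ∈ Y ∩ B.L rest,
        (19999999999999 - b : ℤ) ≤ 2 * (d H T y : ℤ) + (d H Y y : ℤ) := by
      intro y hy
      rw [mem_inter] at hy
      have h1 : (B.all \ Y).card ≤ d H T y := le_d (by
        intro x hx
        refine ⟨hT hx, adj_of hB hy.2 (mem_sdiff.1 hx).1 ?_ (fun _ => rfl)⟩
        rintro rfl
        exact (mem_sdiff.1 hx).2 hy.1)
      have h2 : (Y.erase y).card ≤ d H Y y := le_d (by
        intro x hx
        rw [mem_erase] at hx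
        exact ⟨hx.2, adj_of hB hy.2 (hY hx.2) (Ne.symm hx.1) (fun _ => rfl)⟩)
      rw [card_erase_of_mem hy.1] at h2
      omega
    have := card_nsmul_le_sum (Y ∩ B.L rest) (fun y => 2 * (d H T y : ℤ) + (d H Y y : ℤ)) _ hpt
    rw [nsmul_eq_mul] at this
    exact this
  have h0 := hcls src (by intro h; cases h)
  have h1 : ∑ j : J, (((Y ∩ B.L (slot j)).card : ℤ) * (19999999999999 - b) -
      (sz (slot j) : ℤ) * (sz (slot j) - 1)) ≤
      ∑ j : J, ∑ y ∈ Y ∩ B.L (slot j), (2 * (d H T y : ℤ) + (d H Y y : ℤ)) :=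
    sum_le_sum (fun j _ => hcls (slot j) (by intro h; cases h))
  rw [sum_sub_distrib, sum_sz2_slot, ← sum_mul] at h1
  have s0 : sz src = 200000 := rfl
  rw [s0] at h0
  rw [Fintype.sum_option, Fintype.sum_option] at hsum hcard
  rw [hsum]
  have h8 : (b : ℤ) * (19999999999999 - b) = ((Y ∩ B.L rest).card : ℤ) * (19999999999999 - b) +
      (((Y ∩ B.L src).card : ℤ) * (19999999999999 - b) +
      (∑ j : J, ((Y ∩ B.L (slot j)).card : ℤ)) * (19999999999999 - b)) := by
    linear_combination (19999999999999 - (b : ℤ)) * hcard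
  rw [h8]
  push_cast at h0
  linarith

theorem castZR {b p q : ℕ}
    (h : (b : ℤ) * (19999999999999 - b) - 840079802660 ≤ 2 * (p : ℤ) + (q : ℤ)) :
    (b : ℝ) * (19999999999999 - b) - 840079802660 ≤ 2 * (p : ℝ) + (q : ℝ) := by
  have h1 : (((b : ℤ) * (19999999999999 - b) - 840079802660 : ℤ) : ℝ) ≤
      ((2 * (p : ℤ) + (q : ℤ) : ℤ) : ℝ) := Int.cast_le.2 h
  rw [Int.cast_sub, Int.cast_mul, Int.cast_sub, Int.cast_natCast, Int.cast_ofNat, Int.cast_ofNat,
    Int.cast_add, Int.cast_mul, Int.cast_ofNat, Int.cast_natCast, Int.cast_natCast] at h1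
  exact h1

end Bulk

open Bulk in
theorem bulk : S_absorbSet → S_absorbGad → S_mismatch → S_bulk := by
  intro hSet hG hM V _ _ H T R fl B hv hB hBT hBR hfresh
  classical
  set 𝒮₀ := R.filter (fun W => ¬ Disjoint B.all W.all) with h𝒮₀
  have hsub₀ : 𝒮₀ ⊆ R := filter_subset _ _
  have hmeet₀ : ∀ W ∈ 𝒮₀, ¬ Disjoint B.all W.all := fun W hW => (mem_filter.1 hW).2
  have hcardB := card_all B
  by_cases hc1 : ∃ W ∈ R, W.all = B.all
  · -- Case 1
    obtain ⟨W, hW, hWB⟩ := hc1
    have hne : W ≠ B := by
      rintro rfl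
      exact hBR hW
    have h1 := hM V H W B (hv.comp W hW) hB hWB hne
    obtain ⟨g1, -, -, g4⟩ := hG V H T R fl W hv hW
    have hsing : R \ R.erase W ⊆ {W} := by
      intro x hx
      rw [mem_sdiff, mem_erase] at hx
      rw [mem_singleton]
      by_contra h
      exact hx.2 ⟨h, hx.1⟩
    refine ⟨T ∪ W.all, R.erase W, g1, subset_union_left, erase_subset _ _, ?_, ?_⟩
    · intro x hx
      have := mem_singleton.1 (hsing hx)
      subst this
      exact subset_union_right
    · have h2 : (2 * 49999999999994579960298669 : ℝ) ≤ (E2 H W.all W.all : ℝ) := by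
        exact_mod_cast h1
      have h3 : ((R \ R.erase W).card : ℝ) ≤ 1 := by
        have : (R \ R.erase W).card ≤ 1 := (card_le_card hsing).trans (by simp)
        exact_mod_cast this
      linarith
  · push Not at hc1
    by_cases hc2 : (B.all \ (T ∪ 𝒮₀.biUnion Gad.all)).Nonempty
    · -- Case 2
      obtain ⟨a1, a2, a3⟩ := absorb (fl := fl) hG hv hB 𝒮₀ hsub₀ hmeet₀
      set T1 := T ∪ 𝒮₀.biUnion Gad.all with hT1
      set Y := B.all \ T1 with hYdef
      have hYB : Y ⊆ B.all := sdiff_subset
      have hBY : B.all \ Y ⊆ T1 := by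
        intro x hx
        rw [hYdef, mem_sdiff, mem_sdiff] at hx
        by_contra h
        exact hx.2 ⟨hx.1, h⟩
      obtain ⟨s1, s2⟩ := hSet V H T1 (R \ 𝒮₀) fl Y a1 (disjoint_sdiff_self_left) (by
        intro W hW
        rw [mem_sdiff, h𝒮₀, mem_filter] at hW
        have : Disjoint B.all W.all := by
          by_contra h
          exact hW.2 ⟨hW.1, h⟩
        exact this.mono_left hYB)
      have hb1 : 1 ≤ Y.card := card_pos.2 hc2
      have hb2 : Y.card < 10000000000000 := by
        rw [← hcardB]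
        apply card_lt_card
        refine ⟨hYB, fun hcon => hfresh ⟨?_, ?_⟩⟩
        · rw [disjoint_left]
          intro x hx hxT
          have := hcon hx
          rw [hYdef, mem_sdiff] at this
          exact this.2 (mem_union_left _ hxT)
        · intro W hW
          rw [disjoint_left]
          intro x hx hxW
          have := hcon hx
          rw [hYdef, mem_sdiff] at this
          refine this.2 (mem_union_right _ (mem_biUnion.2 ⟨W, ?_, hxW⟩))
          rw [h𝒮₀, mem_filter]
          exact ⟨hW, not_disjoint_iff.2 ⟨x, hx, hxW⟩⟩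
      have hcnt := countY hB T1 Y hYB hBY
      have hcnt' : (Y.card : ℝ) * (19999999999999 - Y.card) - 840079802660 ≤
          2 * (E2 H Y T1 : ℝ) + (E2 H Y Y : ℝ) := castZR hcnt
      have hRR : R \ (R \ 𝒮₀) = 𝒮₀ := by
        rw [sdiff_sdiff_right_self]
        exact inf_eq_right.2 hsub₀
      refine ⟨T1 ∪ Y, R \ 𝒮₀, s1, ?_, sdiff_subset, ?_, ?_⟩
      · exact subset_union_left.trans subset_union_left
      · intro W hW
        rw [hRR] at hW
        refine Subset.trans ?_ subset_union_left
        rw [hT1]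
        exact (subset_biUnion_of_mem Gad.all hW).trans subset_union_right
      · rw [hRR]
        have e1 : ((min 𝒮₀.card 361371 : ℕ) : ℝ) ≤ 361371 := by
          exact_mod_cast min_le_right _ _
        have e2 : (cc : ℝ) ≤ 9999999999999 / 2 := by unfold cc; norm_num
        have hb1' : (1 : ℝ) ≤ Y.card := by exact_mod_cast hb1
        have hb2' : (Y.card : ℝ) ≤ 9999999999999 := by
          have : Y.card ≤ 9999999999999 := by omega
          exact_mod_cast this
        have e3 : cc * Y.card ≤ 9999999999999 / 2 * Y.card := by gcongr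
        have e4 : (9999999999999 : ℝ) ≤ Y.card * (10000000000000 - Y.card) := by nlinarith
        nlinarith
    · -- Case 3
      rw [not_nonempty_iff_eq_empty, sdiff_eq_empty_iff_subset] at hc2
      obtain ⟨x, hxB, hxT⟩ := not_subset.1 hBT
      have hx1 := hc2 hxB
      rw [mem_union] at hx1
      have hx2 := hx1.resolve_left hxT
      rw [mem_biUnion] at hx2
      obtain ⟨Ws, hWs, hxW⟩ := hx2
      have hWsR : Ws ∈ R := hsub₀ hWs
      set 𝒮 := 𝒮₀.erase Ws with h𝒮
      have hsub : 𝒮 ⊆ R := (erase_subset _ _).trans hsub₀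
      obtain ⟨a1, -, a3⟩ := absorb (fl := fl) hG hv hB 𝒮 hsub
        (fun W hW => hmeet₀ W (mem_of_mem_erase hW))
      set T1 := T ∪ 𝒮.biUnion Gad.all with hT1
      have hWs1 : Ws ∈ R \ 𝒮 := mem_sdiff.2 ⟨hWsR, notMem_erase _ _⟩
      obtain ⟨g1, g2, g3, -⟩ := hG V H T1 (R \ 𝒮) fl Ws a1 hWs1
      have hcov : B.all \ Ws.all ⊆ B.all ∩ T1 := by
        intro y hy
        rw [mem_sdiff] at hy
        rw [mem_inter]
        refine ⟨hy.1, ?_⟩
        have h1 := hc2 hy.1
        rw [mem_union, mem_biUnion] at h1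
        rw [hT1, mem_union, mem_biUnion]
        rcases h1 with h1 | ⟨W, hW, hyW⟩
        · exact Or.inl h1
        · refine Or.inr ⟨W, ?_, hyW⟩
          rw [h𝒮, mem_erase]
          refine ⟨?_, hW⟩
          rintro rfl
          exact hy.2 hyW
      set b := (B.all ∩ Ws.all).card with hb
      have hb3 : b < 10000000000000 := by
        rw [← hcardB]
        apply card_lt_card
        refine ⟨inter_subset_left, fun hcon => hc1 Ws hWsR ?_⟩
        have h1 : B.all ⊆ Ws.all := hcon.trans inter_subset_right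
        exact (eq_of_subset_of_card_le h1 (by rw [card_all, card_all])).symm
      have hsd : (B.all \ Ws.all).card + b = 10000000000000 := by
        rw [hb, card_sdiff_add_card_inter, hcardB]
      have hcT1 : (B.all \ Ws.all).card ≤ (B.all ∩ T1).card := card_le_card hcov
      have hd1 := d_ge hB T1 hxB
      have hcost1 := g2 x hxW
      -- second bound
      obtain ⟨t, ht⟩ : (B.all \ Ws.all).Nonempty := by
        rw [← card_pos]; omega
      have htB : t ∈ B.all := (mem_sdiff.1 ht).1
      have htT : t ∈ T1 := (mem_inter.1 (hcov ht)).2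
      have hd2 := d_ge hB (Ws.L rest) htB
      have hE : d H (Ws.L rest) t ≤ E2 H T1 (Ws.L rest) := by
        unfold E2
        exact single_le_sum (f := fun x => d H (Ws.L rest) x) (fun _ _ => Nat.zero_le _) htT
      have hL3 : b ≤ (B.all ∩ Ws.L rest).card + 4200210 := by
        have h1 : B.all ∩ Ws.all ⊆ (B.all ∩ Ws.L rest) ∪
            (Ws.L src ∪ (univ : Finset J).biUnion (fun j => Ws.L (slot j))) := by
          intro y hy
          rw [mem_inter] at hy
          obtain ⟨c, hc⟩ := mem_all.1 hy.2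
          simp only [mem_union, mem_inter]
          match c, hc with
          | none, hc => exact Or.inl ⟨hy.1, hc⟩
          | some none, hc => exact Or.inr (Or.inl hc)
          | some (some j), hc => exact Or.inr (Or.inr (mem_biUnion.2 ⟨j, mem_univ _, hc⟩))
        have h2 := card_le_card h1
        have h3 := card_union_le (B.all ∩ Ws.L rest)
          (Ws.L src ∪ (univ : Finset J).biUnion (fun j => Ws.L (slot j)))
        have h4 := card_union_le (Ws.L src) ((univ : Finset J).biUnion (fun j => Ws.L (slot j)))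
        have h5 : ((univ : Finset J).biUnion (fun j => Ws.L (slot j))).card ≤ 4000210 := by
          refine card_biUnion_le.trans ?_
          rw [← sum_sz_slot]
          exact (sum_le_sum (fun j _ => (Ws.card (slot j)).le))
        have c0 : (Ws.L src).card = 200000 := Ws.card src
        omega
      have hRR : R \ ((R \ 𝒮).erase Ws) ⊆ insert Ws 𝒮 := by
        intro W hW
        rw [mem_sdiff, mem_erase, mem_sdiff] at hW
        rw [mem_insert]
        by_contra h
        rw [not_or] at h
        exact hW.2 ⟨h.1, hW.1, h.2⟩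
      refine ⟨T1 ∪ Ws.all, (R \ 𝒮).erase Ws, g1, ?_, ?_, ?_, ?_⟩
      · exact subset_union_left.trans subset_union_left
      · exact (erase_subset _ _).trans sdiff_subset
      · intro W hW
        rcases mem_insert.1 (hRR hW) with rfl | h
        · exact subset_union_right
        · refine Subset.trans ?_ subset_union_left
          rw [hT1]
          exact (subset_biUnion_of_mem Gad.all h).trans subset_union_right
      · have e1 : ((min 𝒮.card 361371 : ℕ) : ℝ) ≤ 361371 := by
          exact_mod_cast min_le_right _ _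
        have e0 : ((R \ ((R \ 𝒮).erase Ws)).card : ℝ) ≤ (𝒮.card : ℝ) + 1 := by
          have : (R \ ((R \ 𝒮).erase Ws)).card ≤ 𝒮.card + 1 :=
            (card_le_card hRR).trans (card_insert_le _ _)
          exact_mod_cast this
        rcases Nat.lt_or_ge b 5000000000000 with h | h
        · have h1 : 4000000000000 ≤ d H T1 x := by omega
          have h2 : (4000000000000 : ℝ) ≤ (d H T1 x : ℝ) := by exact_mod_cast h1
          linarith
        · have h1 : 4000000000000 ≤ E2 H T1 (Ws.L rest) := by omega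
          have h2 : (4000000000000 : ℝ) ≤ (E2 H T1 (Ws.L rest) : ℝ) := by exact_mod_cast h1
          linarith

end Pool.Agent.H57.Irr
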