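import Pool.Agent.H57.Irr.Spec

/-!
# Step -> configuration (lemma `S_cfg`)
-/

set_option autoImplicit false

namespace Pool.Agent.H57.Irr

open Finset Function

namespace Cfg

variable {V : Type} [DecidableEq V]

theorem le_sz (c : Cl) : 201 ≤ sz c := by
  match c with
  | none => show 201 ≤ 9999995799790; norm_num
  | some none => show 201 ≤ 200000; norm_num
  | some (some j) => show 201 ≤ 200001 + code j; omega

theorem two_le_sz (c : Cl) : 1 < sz c := lt_of_lt_of_le (by norm_num) (le_sz c)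

/-- the class finset of gadget `i` -/
noncomputable def cls (f : VF → V) (i : Rol) (c : Cl) : Finset V :=
  (univ : Finset (Fin (sz c))).image (fun s => f (VF.g i ⟨c, s⟩))

theorem mem_cls {f : VF → V} {i : Rol} {c : Cl} {v : V} :
    v ∈ cls f i c ↔ ∃ s, f (VF.g i ⟨c, s⟩) = v := by
  unfold cls
  rw [Finset.mem_image]
  constructor
  · rintro ⟨s, -, h⟩; exact ⟨s, h⟩
  · rintro ⟨s, h⟩; exact ⟨s, mem_univ _, h⟩

theorem g_inj {f : VF → V} (hf : Injective f) {i i' : Rol} {x y : DV}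
    (h : f (VF.g i x) = f (VF.g i' y)) : i = i' ∧ x = y := by
  have := hf h
  injection this with h1 h2
  exact ⟨h1, h2⟩

/-- the gadget -/
noncomputable def gad (f : VF → V) (hf : Injective f) (i : Rol) : Gad V where
  L := cls f i
  card := by
    intro c
    unfold cls
    rw [Finset.card_image_of_injective]
    · rw [Finset.card_univ, Fintype.card_fin]
    · intro s t h
      have h2 := (g_inj hf h).2
      have : HEq s t := by
        have := (Sigma.mk.inj_iff.mp h2).2
        exact this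
      exact eq_of_heq this
  disj := by
    intro c c' hcc
    rw [Finset.disjoint_left]
    intro v hv hv'
    obtain ⟨s, hs⟩ := mem_cls.mp hv
    obtain ⟨t, ht⟩ := mem_cls.mp hv'
    have h2 := (g_inj hf (hs.trans ht.symm)).2
    exact hcc (Sigma.mk.inj_iff.mp h2).1

theorem mem_gad_L {f : VF → V} {hf : Injective f} {i : Rol} {c : Cl} {v : V} :
    v ∈ (gad f hf i).L c ↔ ∃ s, f (VF.g i ⟨c, s⟩) = v := mem_cls

theorem mem_gad_all {f : VF → V} {hf : Injective f} {i : Rol} {v : V} :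
    v ∈ (gad f hf i).all ↔ ∃ x, f (VF.g i x) = v := by
  unfold Gad.all
  rw [Finset.mem_biUnion]
  constructor
  · rintro ⟨c, -, h⟩
    obtain ⟨s, hs⟩ := mem_gad_L.mp h
    exact ⟨⟨c, s⟩, hs⟩
  · rintro ⟨⟨c, s⟩, h⟩
    exact ⟨c, mem_univ _, mem_gad_L.mpr ⟨s, h⟩⟩

/-- the clique -/
noncomputable def KK (f : VF → V) : Finset V :=
  (univ : Finset (Fin MK)).image (fun s => f (VF.k s))

theorem mem_KK {f : VF → V} {v : V} : v ∈ KK f ↔ ∃ s, f (VF.k s) = v := by
  unfold KK
  rw [Finset.mem_image]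
  constructor
  · rintro ⟨s, -, h⟩; exact ⟨s, h⟩
  · rintro ⟨s, h⟩; exact ⟨s, mem_univ _, h⟩

theorem k_inj {f : VF → V} (hf : Injective f) {s t : Fin MK} (h : f (VF.k s) = f (VF.k t)) :
    s = t := by
  have := hf h
  injection this

theorem card_KK {f : VF → V} (hf : Injective f) : (KK f).card = MK := by
  unfold KK
  rw [Finset.card_image_of_injective]
  · rw [Finset.card_univ, Fintype.card_fin]
  · intro s t h
    exact k_inj hf h

theorem MK_big : 6000000000000 ≤ MK := by unfold MK; norm_num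

/-- index in the clique -/
def ki (m : ℕ) (h : m < 6000000000000) : Fin MK := ⟨m, lt_of_lt_of_le h MK_big⟩

theorem ki_val (m : ℕ) (h : m < 6000000000000) : (ki m h).val = m := rfl

/-- an interval of the clique -/
noncomputable def KI (f : VF → V) (o n : ℕ) (h : o + n ≤ 6000000000000) : Finset V :=
  (univ : Finset (Fin n)).image
    (fun s => f (VF.k (ki (o + s.val) (lt_of_lt_of_le (Nat.add_lt_add_left s.2 o) h))))

theorem mem_KI {f : VF → V} {o n : ℕ} {h : o + n ≤ 6000000000000} {v : V} :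
    v ∈ KI f o n h ↔ ∃ m, ∃ hm : m < 6000000000000, o ≤ m ∧ m < o + n ∧
      f (VF.k (ki m hm)) = v := by
  unfold KI
  rw [Finset.mem_image]
  constructor
  · rintro ⟨s, -, hs⟩
    exact ⟨o + s.val, lt_of_lt_of_le (Nat.add_lt_add_left s.2 o) h, Nat.le_add_right _ _,
      Nat.add_lt_add_left s.2 o, hs⟩
  · rintro ⟨m, hm, h1, h2, h3⟩
    refine ⟨⟨m - o, by omega⟩, mem_univ _, ?_⟩
    have : o + (m - o) = m := by omega
    rw [← h3]
    congr 2
    exact Fin.ext this

theorem KI_subset {f : VF → V} {o n : ℕ} {h : o + n ≤ 6000000000000} : KI f o n h ⊆ KK f := by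
  intro v hv
  obtain ⟨m, hm, -, -, rfl⟩ := mem_KI.mp hv
  exact mem_KK.mpr ⟨_, rfl⟩

theorem card_KI {f : VF → V} (hf : Injective f) (o n : ℕ) (h : o + n ≤ 6000000000000) :
    (KI f o n h).card = n := by
  unfold KI
  rw [Finset.card_image_of_injective]
  · rw [Finset.card_univ, Fintype.card_fin]
  · intro s t hst
    have h1 := k_inj hf hst
    have h2 : o + s.val = o + t.val := congrArg Fin.val h1
    exact Fin.ext (Nat.add_left_cancel h2)

/-- the port vertices of gadget `i`, class `c` -/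
noncomputable def prt (f : VF → V) (i : Rol) (c : Cl) : Finset V :=
  (univ : Finset (Fin 201)).image
    (fun s => f (VF.g i ⟨c, ⟨s.val, lt_of_lt_of_le s.2 (le_sz c)⟩⟩))

theorem mem_prt {f : VF → V} {i : Rol} {c : Cl} {v : V} :
    v ∈ prt f i c ↔ ∃ x : DV, port c x ∧ f (VF.g i x) = v := by
  unfold prt
  constructor
  · intro h
    obtain ⟨s, -, hs⟩ := Finset.mem_image.mp h
    exact ⟨_, ⟨rfl, s.2⟩, hs⟩
  · rintro ⟨⟨c', s⟩, ⟨hc, h3⟩, hv⟩
    simp only at hc h3
    subst hc
    exact Finset.mem_image.mpr ⟨⟨s.val, h3⟩, mem_univ _, hv⟩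

theorem prt_subset {f : VF → V} {hf : Injective f} {i : Rol} {c : Cl} :
    prt f i c ⊆ (gad f hf i).L c := by
  intro v hv
  obtain ⟨⟨c', s⟩, ⟨hc, h3⟩, hv'⟩ := mem_prt.mp hv
  simp only at hc
  subst hc
  exact mem_gad_L.mpr ⟨s, hv'⟩

theorem card_prt {f : VF → V} (hf : Injective f) (i : Rol) (c : Cl) :
    (prt f i c).card = 201 := by
  unfold prt
  rw [Finset.card_image_of_injective]
  · rw [Finset.card_univ, Fintype.card_fin]
  · intro s t h
    have h2 := (g_inj hf h).2
    have h3 := eq_of_heq (Sigma.mk.inj_iff.mp h2).2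
    have h4 := congrArg Fin.val h3
    exact Fin.ext h4

section
variable {H' : SimpleGraph V} {f : VF → V}

theorem adj_of (hH : ∀ x y, FF.Adj x y → H'.Adj (f x) (f y)) {x y : VF} (hne : x ≠ y)
    (h : relF x y ∨ relF y x) : H'.Adj (f x) (f y) :=
  hH _ _ ((SimpleGraph.fromRel_adj _ _ _).mpr ⟨hne, h⟩)

theorem Lnk_ne {i : Rol} {j : J} {i' : Rol} (h : Lnk i j i') : i ≠ i' := by
  cases h with
  | vE r =>
    intro h
    have h1 := Sum.inl.inj h
    have h2 := (Prod.mk.inj h1).2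
    exact absurd h2 (by decide)
  | vZ r =>
    intro h
    have h1 := Sum.inl.inj h
    have h2 := (Prod.mk.inj h1).2
    exact absurd h2 (by decide)
  | EM r =>
    intro h
    have h1 := Sum.inl.inj h
    have h2 := (Prod.mk.inj h1).2
    exact absurd h2 (by decide)
  | ZM r =>
    intro h
    have h1 := Sum.inl.inj h
    have h2 := (Prod.mk.inj h1).2
    exact absurd h2 (by decide)
  | P j =>
    intro h
    have h1 := Sum.inl.inj (Sum.inr.inj h)
    have h2 := (Prod.mk.inj h1).2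
    exact absurd h2 (by decide)

theorem link_adj (hH : ∀ x y, FF.Adj x y → H'.Adj (f x) (f y)) {i : Rol}
    {j : J} {i' : Rol} (hl : Lnk i j i') {u v : V} (hu : u ∈ prt f i src)
    (hv : v ∈ prt f i' (slot j)) : H'.Adj u v := by
  obtain ⟨x, hx, rfl⟩ := mem_prt.mp hu
  obtain ⟨y, hy, rfl⟩ := mem_prt.mp hv
  apply adj_of hH
  · intro h
    injection h with h1 h2
    exact Lnk_ne hl h1
  · exact Or.inl (Or.inr ⟨j, hl, hx, hy⟩)

end

theorem hh_le (r : Rul) : hh r ≤ 160801 := by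
  unfold hh
  split_ifs <;> norm_num

theorem code_le (j : J) : code j ≤ 19 := by
  unfold code
  have h1 := j.1.2
  have h2 := j.2.1.2
  have h3 := j.2.2.2
  omega

/-- the configuration -/
noncomputable def cfgOf {H' : SimpleGraph V} (f : VF → V) (hf : Injective f)
    (hH : ∀ x y, FF.Adj x y → H'.Adj (f x) (f y)) : Irr.Cfg H' where
  K := KK f
  z := f VF.z
  g := gad f hf
  cardK := card_KK hf
  clique := by
    intro x hx y hy hxy
    obtain ⟨s, rfl⟩ := mem_KK.mp hx
    obtain ⟨t, rfl⟩ := mem_KK.mp hy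
    apply adj_of hH
    · intro h; exact hxy (congrArg f h)
    · exact Or.inl trivial
  zK := by
    classical
    unfold d
    have hle : 0 + 6000000000000 ≤ 6000000000000 := by norm_num
    have hsub : KI f 0 6000000000000 hle ⊆ (KK f).filter (fun y => H'.Adj (f VF.z) y) := by
      intro v hv
      obtain ⟨m, hm, -, h2, rfl⟩ := mem_KI.mp hv
      refine Finset.mem_filter.mpr ⟨mem_KK.mpr ⟨_, rfl⟩, ?_⟩
      apply adj_of hH
      · intro h; cases h
      · exact Or.inr hm
    refine (le_of_eq (card_KI hf 0 6000000000000 hle).symm).trans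
      ((Finset.card_le_card hsub).trans (le_of_eq ?_))
    congr
  comp := by
    intro i c c' x hx y hy hxy hcc
    obtain ⟨s, rfl⟩ := mem_gad_L.mp hx
    obtain ⟨t, rfl⟩ := mem_gad_L.mp hy
    apply adj_of hH
    · intro h; exact hxy (congrArg f h)
    · exact Or.inl (Or.inl ⟨rfl, hcc⟩)
  gdisj := by
    intro i j hij
    rw [Finset.disjoint_left]
    intro v hv hv'
    obtain ⟨x, rfl⟩ := mem_gad_all.mp hv
    obtain ⟨y, hy⟩ := mem_gad_all.mp hv'
    exact hij (g_inj hf hy).1.symm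
  dock := by
    classical
    intro r j hj
    have hc := code_le j
    have hle : 201 * code j + 201 ≤ 6000000000000 := by omega
    unfold nf
    refine (le_of_eq (card_KI hf (201 * code j) 201 hle).symm).trans
      ((Finset.card_le_card ?_).trans (le_of_eq (by congr)))
    intro v hv
    obtain ⟨m, hm, h1, h2, rfl⟩ := mem_KI.mp hv
    refine Finset.mem_filter.mpr ⟨mem_KK.mpr ⟨_, rfl⟩, ?_⟩
    unfold d
    refine (le_of_eq (card_prt hf (rr r 0) (slot j)).symm).trans (Finset.card_le_card ?_)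
    intro w hw
    refine Finset.mem_filter.mpr ⟨prt_subset hw, ?_⟩
    obtain ⟨y, hy, rfl⟩ := mem_prt.mp hw
    apply adj_of hH
    · intro h; cases h
    · exact Or.inl ⟨r, rfl, Or.inl ⟨j, hj, h1, h2, hy⟩⟩
  eedge := by
    classical
    intro r
    have hr := hh_le r
    have hle : 9999 + (hh r + 1) ≤ 6000000000000 := by omega
    unfold E2
    have hsub : KI f 9999 (hh r + 1) hle ⊆ KK f := KI_subset
    calc hh r + 1 = ∑ x ∈ KI f 9999 (hh r + 1) hle, 1 := by
          rw [Finset.sum_const, card_KI hf, smul_eq_mul, mul_one]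
      _ ≤ ∑ x ∈ KI f 9999 (hh r + 1) hle, d H' ((gad f hf (rr r 0)).L rest) x := by
          apply Finset.sum_le_sum
          intro v hv
          obtain ⟨m, hm, h1, h2, rfl⟩ := mem_KI.mp hv
          unfold d
          rw [Nat.one_le_iff_ne_zero, ← Nat.pos_iff_ne_zero, Finset.card_pos]
          by_cases h9 : m = 9999
          · refine ⟨f (VF.g (rr r 0) ⟨rest, ⟨1, two_le_sz rest⟩⟩), Finset.mem_filter.mpr
              ⟨mem_gad_L.mpr ⟨_, rfl⟩, ?_⟩⟩
            apply adj_of hH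
            · intro h; cases h
            · exact Or.inl ⟨r, rfl, Or.inr (Or.inr ⟨h9, rfl, rfl⟩)⟩
          · refine ⟨f (VF.g (rr r 0) ⟨rest, ⟨0, lt_trans Nat.zero_lt_one (two_le_sz rest)⟩⟩),
              Finset.mem_filter.mpr ⟨mem_gad_L.mpr ⟨_, rfl⟩, ?_⟩⟩
            apply adj_of hH
            · intro h; cases h
            · refine Or.inl ⟨r, rfl, Or.inr (Or.inl ⟨?_, ?_, rfl, rfl⟩)⟩
              · show 10000 ≤ m
                omega
              · show m < 10000 + hh r
                omega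
      _ ≤ ∑ x ∈ KK f, d H' ((gad f hf (rr r 0)).L rest) x :=
          Finset.sum_le_sum_of_subset hsub
  links := by
    intro i j i' hl
    exact ⟨prt f i src, prt f i' (slot j), prt_subset, prt_subset, card_prt hf _ _,
      card_prt hf _ _, fun x hx y hy => link_adj hH hl hx hy⟩

theorem fcase_of {H' : SimpleGraph V} (f : VF → V) (hf : Injective f)
    (hH : ∀ x y, FF.Adj x y → H'.Adj (f x) (f y)) (a b : VF) (h : relF a b) :
    (cfgOf f hf hH).fcase (f a) (f b) := by
  have hK : ∀ s, f (VF.k s) ∈ (cfgOf f hf hH).K := fun s => mem_KK.mpr ⟨s, rfl⟩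
  have hg : ∀ i x, f (VF.g i x) ∈ ((cfgOf f hf hH).g i).all :=
    fun i x => mem_gad_all (hf := hf).mpr ⟨x, rfl⟩
  match a, b, h with
  | VF.k s, VF.k t, _ =>
    exact Or.inl ⟨Finset.mem_union_left _ (hK s), Finset.mem_union_left _ (hK t)⟩
  | VF.k s, VF.g i x, h =>
    obtain ⟨r, rfl, -⟩ := h
    exact Or.inr (Or.inl ⟨r, Finset.mem_union_left _ (hK s), Finset.mem_union_right _ (hg _ x)⟩)
  | VF.k s, VF.z, _ =>
    exact Or.inl ⟨Finset.mem_union_left _ (hK s),
      Finset.mem_union_right _ (Finset.mem_singleton_self _)⟩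
  | VF.g i x, VF.g i' y, h =>
    rcases h with ⟨rfl, hcc⟩ | ⟨j, hl, hx, hy⟩
    · exact Or.inr (Or.inr (Or.inl ⟨i, x.1, y.1, (mem_gad_L (hf := hf)).mpr ⟨x.2, rfl⟩,
        (mem_gad_L (hf := hf)).mpr ⟨y.2, rfl⟩, hcc⟩))
    · refine Or.inr (Or.inr (Or.inr ⟨i, j, i', hl, prt f i src, prt f i' (slot j),
        prt_subset (hf := hf), prt_subset (hf := hf),
        card_prt hf _ _, card_prt hf _ _, fun u hu v hv => link_adj hH hl hu hv,
        Or.inl ⟨mem_prt.mpr ⟨x, hx, rfl⟩, mem_prt.mpr ⟨y, hy, rfl⟩⟩⟩))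

theorem fcase_symm {H' : SimpleGraph V} (C : Irr.Cfg H') (p q : V) (h : C.fcase p q) :
    C.fcase q p := by
  rcases h with h | ⟨r, h1, h2⟩ | ⟨i, c, c', h1, h2, h3⟩ |
    ⟨i, j, i', hl, O, S, h1, h2, h3, h4, h5, h6⟩
  · exact Or.inl ⟨h.2, h.1⟩
  · exact Or.inr (Or.inl ⟨r, h2, h1⟩)
  · exact Or.inr (Or.inr (Or.inl ⟨i, c', c, h2, h1, fun h => h ▸ h3 h.symm⟩))
  · exact Or.inr (Or.inr (Or.inr ⟨i, j, i', hl, O, S, h1, h2, h3, h4, h5, h6.symm⟩))

end Cfg

theorem cfg : S_cfg := by
  intro V _ _ H H' hstep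
  obtain ⟨f, hf, a, b, hab, hH', hadj⟩ := hstep
  refine ⟨Cfg.cfgOf f hf hadj, f a, f b, fun h => hab.ne (hf h), hH', ?_⟩
  obtain ⟨-, h⟩ := (SimpleGraph.fromRel_adj _ _ _).mp hab
  rcases h with h | h
  · exact Cfg.fcase_of f hf hadj a b h
  · exact Cfg.fcase_symm _ _ _ (Cfg.fcase_of f hf hadj b a h)

end Pool.Agent.H57.Irr
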