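import Pool.Agent.H57.Irr.Spec

set_option autoImplicit false

open Finset

namespace Pool.Agent.H57.Irr

namespace Const

/-- the summand -/
noncomputable def a (p : ℕ × ℕ) : ℝ := if vb p.1 p.2 then (1 / 2 : ℝ) ^ (p.1 + p.2) else 0

/-- the dominating summand -/
noncomputable def g (p : ℕ × ℕ) : ℝ := (1 / 2 : ℝ) ^ p.1 * (1 / 2 : ℝ) ^ p.2

theorem a_nonneg (p : ℕ × ℕ) : 0 ≤ a p := by
  unfold a; split_ifs <;> positivity

theorem a_le (p : ℕ × ℕ) : a p ≤ g p := by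
  unfold a g
  split_ifs
  · rw [pow_add]
  · positivity

theorem hasSum_g : HasSum g 4 := by
  have h : HasSum (fun n : ℕ => (1 / 2 : ℝ) ^ n) 2 := by
    have := hasSum_geometric_of_lt_one (r := (1 / 2 : ℝ)) (by norm_num) (by norm_num)
    norm_num at this
    simpa using this
  have hs : Summable (fun p : ℕ × ℕ => (1 / 2 : ℝ) ^ p.1 * (1 / 2 : ℝ) ^ p.2) :=
    Summable.mul_of_nonneg h.summable h.summable (fun n => by positivity) (fun n => by positivity)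
  have h2 := h.mul h hs
  rw [show (2 : ℝ) * 2 = 4 by norm_num] at h2
  exact h2

theorem summable_a : Summable a :=
  Summable.of_nonneg_of_le a_nonneg a_le hasSum_g.summable

theorem vth_eq : vth = ∑' p, a p := rfl

/-- box sums -/
noncomputable def box (N : ℕ) : Finset (ℕ × ℕ) := range N ×ˢ range N

theorem vthP_eq (h : ℕ) : vthP h = ∑ p ∈ box (h + 1), a p := by
  unfold vthP box
  rw [Finset.sum_product]
  rfl

theorem sum_box_le (N : ℕ) : ∑ p ∈ box N, a p ≤ vth := by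
  rw [vth_eq]
  exact summable_a.sum_le_tsum _ (fun p _ => a_nonneg p)

theorem sum_box_tail (N : ℕ) : vth - ∑ p ∈ box N, a p ≤ 8 * (1 / 2 : ℝ) ^ N := by
  have h1 : ∑ p ∈ box N, (g p - a p) ≤ ∑' p, (g p - a p) :=
    (hasSum_g.summable.sub summable_a).sum_le_tsum _ (fun p _ => sub_nonneg.2 (a_le p))
  rw [Finset.sum_sub_distrib, (hasSum_g.summable).tsum_sub summable_a, hasSum_g.tsum_eq,
    ← vth_eq] at h1
  have h2 : ∑ p ∈ box N, g p = (2 - 2 * (1 / 2 : ℝ) ^ N) ^ 2 := by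
    unfold box g
    rw [Finset.sum_product]
    simp only [← Finset.mul_sum, ← Finset.sum_mul]
    rw [geom_sum_eq (by norm_num)]
    ring
  rw [h2] at h1
  have h3 : 0 ≤ ((1 / 2 : ℝ) ^ N) ^ 2 := by positivity
  nlinarith

theorem vb_zero (i : ℕ) : vb i 0 := by
  unfold vb
  simp

theorem sum_box_lt (N : ℕ) : ∑ p ∈ box N, a p + (1 / 2 : ℝ) ^ N ≤ vth := by
  have h1 : (N, 0) ∉ box N := by simp [box]
  have h2 : a (N, 0) = (1 / 2 : ℝ) ^ N := by
    unfold a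
    rw [if_pos (vb_zero N)]
    simp
  have h3 : ∑ p ∈ insert (N, 0) (box N), a p ≤ vth := by
    rw [vth_eq]
    exact summable_a.sum_le_tsum _ (fun p _ => a_nonneg p)
  rw [Finset.sum_insert h1, h2] at h3
  linarith

theorem tendsto_vthP : Filter.Tendsto vthP Filter.atTop (nhds vth) := by
  have h1 : Filter.Tendsto (fun h : ℕ => box (h + 1)) Filter.atTop Filter.atTop := by
    apply Filter.tendsto_atTop_finset_of_monotone
    · intro m n hmn
      unfold box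
      apply Finset.product_subset_product <;>
      · apply Finset.range_subset_range.2
        omega
    · rintro ⟨i, j⟩
      refine ⟨max i j, ?_⟩
      simp only [box, mem_product, mem_range]
      omega
  have h2 : Filter.Tendsto (fun s : Finset (ℕ × ℕ) => ∑ p ∈ s, a p) Filter.atTop (nhds vth) :=
    summable_a.hasSum
  have h3 := h2.comp h1
  refine h3.congr (fun h => ?_)
  rw [vthP_eq]
  rfl

/-- the polynomial sums -/
noncomputable def PX (K : ℕ) (x : ℝ) : ℝ :=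
  ∑ i ∈ range (2 ^ K), ∑ j ∈ range (2 ^ K), if vb i j then x ^ (i + j) else 0

theorem vb_rec (i j : ℕ) : (vb (2 * i) (2 * j) ↔ vb i j) ∧ (vb (2 * i + 1) (2 * j) ↔ vb i j) ∧
    (vb (2 * i) (2 * j + 1) ↔ vb i j) ∧ ¬ vb (2 * i + 1) (2 * j + 1) := by
  have : Fact (Nat.Prime 2) := ⟨Nat.prime_two⟩
  have h : ∀ n k, n.choose k % 2 = ((n % 2).choose (k % 2) * (n / 2).choose (k / 2)) % 2 :=
    fun n k => Choose.choose_modEq_choose_mod_mul_choose_div_nat
  unfold vb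
  refine ⟨?_, ?_, ?_, ?_⟩
  · rw [h, show (2 * i + 2 * j) % 2 = 0 by omega, show (2 * i) % 2 = 0 by omega,
      show (2 * i + 2 * j) / 2 = i + j by omega, show (2 * i) / 2 = i by omega]
    simp
  · rw [h, show (2 * i + 1 + 2 * j) % 2 = 1 by omega, show (2 * i + 1) % 2 = 1 by omega,
      show (2 * i + 1 + 2 * j) / 2 = i + j by omega, show (2 * i + 1) / 2 = i by omega]
    simp
  · rw [h, show (2 * i + (2 * j + 1)) % 2 = 1 by omega, show (2 * i) % 2 = 0 by omega,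
      show (2 * i + (2 * j + 1)) / 2 = i + j by omega, show (2 * i) / 2 = i by omega]
    simp
  · rw [h, show (2 * i + 1 + (2 * j + 1)) % 2 = 0 by omega, show (2 * i + 1) % 2 = 1 by omega]
    simp

theorem sum_two (n : ℕ) (f : ℕ → ℝ) :
    ∑ i ∈ range (2 * n), f i = ∑ i ∈ range n, (f (2 * i) + f (2 * i + 1)) := by
  induction n with
  | zero => simp
  | succ n ih =>
    rw [show 2 * (n + 1) = 2 * n + 1 + 1 by ring, sum_range_succ, sum_range_succ, ih,
      sum_range_succ]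
    ring

theorem PX_succ (K : ℕ) (x : ℝ) : PX (K + 1) x = PX K (x ^ 2) * (1 + 2 * x) := by
  unfold PX
  rw [show 2 ^ (K + 1) = 2 * 2 ^ K by ring, sum_two, Finset.sum_mul]
  refine Finset.sum_congr rfl (fun i _ => ?_)
  rw [sum_two, sum_two, ← Finset.sum_add_distrib, Finset.sum_mul]
  refine Finset.sum_congr rfl (fun j _ => ?_)
  obtain ⟨h1, h2, h3, h4⟩ := vb_rec i j
  simp only [h1, h2, h3, h4, if_false]
  split_ifs
  · rw [← pow_mul]; ring
  · ring

theorem PX_eq (K : ℕ) (x : ℝ) : PX K x = ∏ k ∈ range K, (1 + 2 * x ^ (2 ^ k)) := by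
  induction K generalizing x with
  | zero => 
    simp [PX, vb]
  | succ K ih =>
    rw [PX_succ, ih, Finset.prod_range_succ', pow_zero, pow_one]
    congr 1
    refine Finset.prod_congr rfl (fun k _ => ?_)
    rw [← pow_mul]
    congr 3
    ring

/-- denominators -/
def Dn (K : ℕ) : ℕ := ∏ k ∈ range K, 2 ^ (2 ^ k - 1)

theorem Dn_eq (K : ℕ) : Dn K * 2 ^ K * 2 = 2 ^ (2 ^ K) := by
  induction K with
  | zero => simp [Dn]
  | succ K ih =>
    unfold Dn at ih ⊢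
    rw [Finset.prod_range_succ]
    have h1 : 2 ^ (2 ^ K - 1) * 2 = 2 ^ (2 ^ K) := by
      rw [← pow_succ]
      congr 1
      have : 0 < 2 ^ K := by positivity
      omega
    calc (∏ k ∈ range K, 2 ^ (2 ^ k - 1)) * 2 ^ (2 ^ K - 1) * 2 ^ (K + 1) * 2
        = ((∏ k ∈ range K, 2 ^ (2 ^ k - 1)) * 2 ^ K * 2) * (2 ^ (2 ^ K - 1) * 2) := by ring
      _ = 2 ^ (2 ^ K) * 2 ^ (2 ^ K) := by rw [ih, h1]
      _ = 2 ^ (2 ^ (K + 1)) := by rw [← pow_add]; congr 1; ring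

theorem Dn_PX (K : ℕ) : (Dn K : ℝ) * PX K (1 / 2) =
    ((∏ k ∈ range K, (2 ^ (2 ^ k - 1) + 1) : ℕ) : ℝ) := by
  rw [PX_eq, Dn]
  push_cast
  rw [← Finset.prod_mul_distrib]
  refine Finset.prod_congr rfl (fun k _ => ?_)
  have h0 : 0 < 2 ^ k := by positivity
  have h1 : (2 : ℝ) ^ (2 ^ k - 1) * 2 = 2 ^ (2 ^ k) := by
    rw [← pow_succ]
    congr 1
    omega
  have h2 : (2 : ℝ) ^ (2 ^ k) * (1 / 2) ^ (2 ^ k) = 1 := by
    rw [← mul_pow]; norm_num
  calc (2 : ℝ) ^ (2 ^ k - 1) * (1 + 2 * (1 / 2) ^ 2 ^ k)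
      = 2 ^ (2 ^ k - 1) + (2 ^ (2 ^ k - 1) * 2) * (1 / 2) ^ (2 ^ k) := by ring
    _ = _ := by rw [h1, h2]

theorem box_PX (K : ℕ) : ∑ p ∈ box (2 ^ K), a p = PX K (1 / 2) := by
  unfold box PX
  rw [Finset.sum_product]
  rfl

theorem irr : Irrational vth := by
  rintro ⟨r, hr⟩
  -- `d * D_K * (vth - P K)` is a positive integer
  have hd : (0 : ℝ) < r.den := by exact_mod_cast r.den_pos
  have hrd : (r.den : ℝ) * vth = r.num := by
    rw [← hr]
    have := Rat.den_mul_eq_num r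
    exact_mod_cast this
  obtain ⟨K, hK⟩ := pow_unbounded_of_one_lt (4 * (r.den : ℝ)) (one_lt_two)
  have h1 := sum_box_tail (2 ^ K)
  have h2 := sum_box_lt (2 ^ K)
  rw [box_PX] at h1 h2
  have h3 := Dn_PX K
  have hD : (0 : ℝ) < Dn K := by
    have : 0 < Dn K := Finset.prod_pos (fun k _ => by positivity)
    exact_mod_cast this
  have hN : (0 : ℝ) < (1 / 2) ^ (2 ^ K) := by positivity
  set M : ℕ := ∏ k ∈ range K, (2 ^ (2 ^ k - 1) + 1) with hM
  have h4 : (r.den : ℝ) * Dn K * (vth - PX K (1 / 2)) =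
      ((r.num * Dn K - r.den * M : ℤ) : ℝ) := by
    push_cast
    rw [← h3, ← hrd]
    ring
  have h5 : 0 < (r.den : ℝ) * Dn K * (vth - PX K (1 / 2)) := by
    apply mul_pos (mul_pos hd hD)
    linarith
  rw [h4] at h5
  have h6 : (1 : ℤ) ≤ r.num * Dn K - r.den * M := by
    have : (0 : ℤ) < r.num * Dn K - r.den * M := by exact_mod_cast h5
    omega
  have h7 : (1 : ℝ) ≤ (r.den : ℝ) * Dn K * (vth - PX K (1 / 2)) := by
    rw [h4]; exact_mod_cast h6
  have h8 : (r.den : ℝ) * Dn K * (vth - PX K (1 / 2)) ≤ r.den * Dn K * (8 * (1 / 2) ^ (2 ^ K)) :=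
    mul_le_mul_of_nonneg_left h1 (mul_pos hd hD).le
  have h9 : (Dn K : ℝ) * 2 ^ K * 2 = 2 ^ (2 ^ K) := by exact_mod_cast Dn_eq K
  have h10 : (2 : ℝ) ^ (2 ^ K) * (1 / 2) ^ (2 ^ K) = 1 := by
    rw [← mul_pow]; norm_num
  have h11 : (r.den : ℝ) * Dn K * (8 * (1 / 2 : ℝ) ^ (2 ^ K)) * 2 ^ K = 4 * (r.den : ℝ) := by
    calc (r.den : ℝ) * Dn K * (8 * (1 / 2 : ℝ) ^ (2 ^ K)) * 2 ^ K
        = 4 * (r.den : ℝ) * ((Dn K : ℝ) * 2 ^ K * 2) * (1 / 2 : ℝ) ^ (2 ^ K) := by ring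
      _ = 4 * (r.den : ℝ) * ((2 : ℝ) ^ (2 ^ K) * (1 / 2 : ℝ) ^ (2 ^ K)) := by rw [h9]; ring
      _ = 4 * (r.den : ℝ) := by rw [h10, mul_one]
  have h12 : (2 : ℝ) ^ K ≤ 4 * (r.den : ℝ) := by
    rw [← h11]
    have h13 : (0 : ℝ) < 2 ^ K := by positivity
    have h14 : (1 : ℝ) ≤ (r.den : ℝ) * Dn K * (8 * (1 / 2 : ℝ) ^ (2 ^ K)) := h7.trans h8
    calc (2 : ℝ) ^ K = 1 * 2 ^ K := (one_mul _).symm
      _ ≤ _ := mul_le_mul_of_nonneg_right h14 h13.le
  linarith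

end Const

theorem const : S_const := by
  refine ⟨Const.irr, ?_, fun h => ?_, Const.tendsto_vthP⟩
  · rw [Const.vth_eq]
    rw [← Const.hasSum_g.tsum_eq]
    exact Const.summable_a.tsum_le_tsum Const.a_le Const.hasSum_g.summable
  · rw [Const.vthP_eq]
    exact Const.sum_box_le _

end Pool.Agent.H57.Irr
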