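import Pool.Agent.H57.Irr.Spec

/-!
# A graph with irrational weak saturation limit: the conversion

`WeaklySaturated` and reachability of the complete graph are the same, and reachability is carried
along by bijections. Adapted from `Pool/Agent/H57/Tuza/Final.lean` (helper582), by helper225.
-/

set_option autoImplicit false

namespace Pool.Agent.H57.Irr

open Finset Function

namespace Conv

/-- adjacency in the image of a graph under a bijection -/
theorem map_adj_equiv {V W : Type*} (e : V ≃ W) (H : SimpleGraph V) (u v : W) :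
    (H.map e.toEmbedding).Adj u v ↔ H.Adj (e.symm u) (e.symm v) := by
  rw [SimpleGraph.map_adj]
  constructor
  · rintro ⟨x, y, hxy, rfl, rfl⟩
    simpa using hxy
  · intro h
    exact ⟨_, _, h, by simp, by simp⟩

theorem edge_adj' {V : Type*} (s t u v : V) :
    (SimpleGraph.edge s t).Adj u v ↔ (s = u ∧ t = v ∨ s = v ∧ t = u) ∧ u ≠ v := by
  rw [SimpleGraph.edge_adj]
  tauto

/-- the step relation and bijections of the host -/
theorem step_map {α V W : Type*} (F : SimpleGraph α) (e : V ≃ W) (H H' : SimpleGraph V)
    (h : Step F H H') : Step F (H.map e.toEmbedding) (H'.map e.toEmbedding) := by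
  obtain ⟨f, hf, a, b, hab, hH, hc⟩ := h
  refine ⟨fun x => e (f x), e.injective.comp hf, a, b, hab, ?_, ?_⟩
  · ext u v
    rw [map_adj_equiv, hH, SimpleGraph.sup_adj, SimpleGraph.sup_adj, map_adj_equiv, edge_adj',
      edge_adj']
    simp only [← Equiv.eq_symm_apply, ne_eq, EmbeddingLike.apply_eq_iff_eq]
  · intro x y hxy
    rw [map_adj_equiv]
    simpa using hc x y hxy

theorem iso (V W : Type) (e : V ≃ W) (H H' : SimpleGraph V) (h : Reach FF H H') :
    Reach FF (H.map e.toEmbedding) (H'.map e.toEmbedding) :=
  Relation.ReflTransGen.lift (r := Step FF) (p := Step FF)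
    (fun H : SimpleGraph V => H.map e.toEmbedding) (fun a b hab => step_map FF e a b hab) H H' h

/-- the finite type `VF` -/
theorem finVF : Finite VF := by
  have h : Injective (fun v : VF => match v with
    | VF.k i => (Sum.inl i : Fin MK ⊕ (Rol × DV) ⊕ Unit)
    | VF.g i x => Sum.inr (Sum.inl (i, x))
    | VF.z => Sum.inr (Sum.inr ())) := by
    intro a b hab
    cases a <;> cases b <;> simp_all
  exact Finite.of_injective _ h

theorem ff_edge : ∃ a b : VF, FF.Adj a b := by
  refine ⟨VF.k ⟨0, by unfold MK; norm_num⟩, VF.z, ?_⟩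
  unfold FF
  rw [SimpleGraph.fromRel_adj]
  refine ⟨by simp, Or.inl ?_⟩
  show (0 : ℕ) < 6000000000000
  norm_num

/-- transport along a bijection of the pattern -/
theorem reach_pat {α β V : Type*} (F : SimpleGraph α) (e : α ≃ β) (H H' : SimpleGraph V) :
    Reach (F.comap e.symm) H H' ↔ Reach F H H' := by
  have h1 : ∀ A B : SimpleGraph V, Step (F.comap e.symm) A B ↔ Step F A B := by
    intro A B
    constructor
    · rintro ⟨f, hf, a, b, hab, hH, hc⟩
      refine ⟨fun x => f (e x), hf.comp e.injective, e.symm a, e.symm b, hab, by simpa using hH, ?_⟩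
      intro x y hxy
      exact hc (e x) (e y) (by simpa using hxy)
    · rintro ⟨f, hf, a, b, hab, hH, hc⟩
      refine ⟨fun x => f (e.symm x), hf.comp e.symm.injective, e a, e b, by simpa using hab,
        by simpa using hH, ?_⟩
      intro x y hxy
      exact hc _ _ hxy
  have h2 : Step (F.comap e.symm) (V := V) = Step F := by
    funext A B
    exact propext (h1 A B)
  unfold Reach
  rw [h2]

/-- the graph after the first `m` edges -/
def Hm {V : Type*} (G : SimpleGraph V) {t : ℕ} (e : Fin t → Sym2 V) (m : ℕ) : SimpleGraph V :=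
  G ⊔ SimpleGraph.fromEdgeSet (e '' {j | j.val < m})

theorem Hm_adj {V : Type*} (G : SimpleGraph V) {t : ℕ} (e : Fin t → Sym2 V) (m : ℕ) (u v : V) :
    (Hm G e m).Adj u v ↔ G.Adj u v ∨ ((∃ j : Fin t, j.val < m ∧ e j = s(u, v)) ∧ u ≠ v) := by
  unfold Hm
  rw [SimpleGraph.sup_adj, SimpleGraph.fromEdgeSet_adj]
  rfl

theorem reach_of_ws {k n : ℕ} (F : SimpleGraph (Fin k)) (G : SimpleGraph (Fin n))
    (h : WeaklySaturated F G) : Reach F G ⊤ := by
  obtain ⟨t, e, hinj, hran, h2⟩ := h
  have key : ∀ m : ℕ, m ≤ t → Reach F G (Hm G e m) := by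
    intro m
    induction m with
    | zero =>
      intro _
      have e0 : Hm G e 0 = G := by
        ext u v
        rw [Hm_adj]
        simp
      rw [e0]
      exact Relation.ReflTransGen.refl
    | succ m ih =>
      intro hm
      refine (ih (by omega)).tail ?_
      obtain ⟨f, hf, hc, a, b, hab, hp⟩ := h2 ⟨m, hm⟩
      refine ⟨f, hf, a, b, hab, ?_, ?_⟩
      · ext u v
        rw [SimpleGraph.sup_adj, Hm_adj, Hm_adj, edge_adj']
        constructor
        · rintro (h | ⟨⟨j, hj, hq⟩, hne⟩)
          · exact Or.inl (Or.inl h)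
          · rcases Nat.lt_succ_iff_lt_or_eq.1 hj with h3 | h3
            · exact Or.inl (Or.inr ⟨⟨j, h3, hq⟩, hne⟩)
            · right
              have h4 : j = ⟨m, hm⟩ := Fin.ext h3
              rw [h4, ← hp, Sym2.eq_iff] at hq
              exact ⟨hq, hne⟩
        · rintro ((h | ⟨⟨j, hj, hq⟩, hne⟩) | ⟨h, hne⟩)
          · exact Or.inl h
          · exact Or.inr ⟨⟨j, by omega, hq⟩, hne⟩
          · refine Or.inr ⟨⟨⟨m, hm⟩, by simp, ?_⟩, hne⟩
            rw [← hp, Sym2.eq_iff]
            exact h
      · intro x y hxy
        rw [Hm_adj]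
        rcases hc x y hxy with h3 | ⟨j, hj, hq⟩
        · exact Or.inl h3
        · refine Or.inr ⟨⟨j, ?_, hq⟩, fun h => hxy.ne (hf h)⟩
          have : j.val ≤ m := hj
          omega
  have e1 : Hm G e t = ⊤ := by
    ext u v
    rw [Hm_adj, SimpleGraph.top_adj]
    constructor
    · rintro (h | ⟨-, h⟩)
      · exact h.ne
      · exact h
    · intro h
      by_cases hG : G.Adj u v
      · exact Or.inl hG
      · have h3 : s(u, v) ∈ Gᶜ.edgeSet := by
          rw [SimpleGraph.mem_edgeSet, SimpleGraph.compl_adj]
          exact ⟨h, hG⟩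
        rw [← hran] at h3
        obtain ⟨j, hj⟩ := h3
        exact Or.inr ⟨⟨j, j.isLt, hj⟩, h⟩
  rw [← e1]
  exact key t le_rfl

theorem ws_of_reach {k n : ℕ} (F : SimpleGraph (Fin k)) (G : SimpleGraph (Fin n))
    (h : Reach F G ⊤) : WeaklySaturated F G := by
  have key : ∀ H : SimpleGraph (Fin n), Reach F G H → G ≤ H ∧
      ∃ (m : ℕ) (e : Fin m → Sym2 (Fin n)), Injective e ∧ Set.range e = H.edgeSet \ G.edgeSet ∧
        ∀ i : Fin m, ∃ f : Fin k → Fin n, Injective f ∧
          (∀ a b : Fin k, F.Adj a b → s(f a, f b) ∈ G.edgeSet ∪ e '' {j | j ≤ i}) ∧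
          ∃ a b : Fin k, F.Adj a b ∧ s(f a, f b) = e i := by
    intro H hH
    induction hH with
    | refl =>
      refine ⟨le_rfl, 0, Fin.elim0, fun i => i.elim0, ?_, fun i => i.elim0⟩
      rw [Set.sdiff_self, Set.range_eq_empty]
    | @tail B C _ hs ih =>
      obtain ⟨hGB, m, e, hinj, hran, hst⟩ := ih
      obtain ⟨f, hf, a, b, hab, hH, hc⟩ := hs
      have hne : f a ≠ f b := fun h => hab.ne (hf h)
      have hBC : B ≤ C := by
        rw [hH]
        exact le_sup_left
      refine ⟨hGB.trans hBC, ?_⟩
      by_cases hB : B.Adj (f a) (f b)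
      · have hCB : C = B := by
          apply le_antisymm _ hBC
          rw [hH]
          refine sup_le le_rfl ?_
          intro u v huv
          rw [edge_adj'] at huv
          rcases huv.1 with ⟨h1, h2⟩ | ⟨h1, h2⟩
          · rw [← h1, ← h2]; exact hB
          · rw [← h1, ← h2]; exact hB.symm
        rw [hCB]
        exact ⟨m, e, hinj, hran, hst⟩
      · obtain ⟨q, hq⟩ : ∃ q : Fin (m + 1) → Sym2 (Fin n),
            q = Fin.snoc (α := fun _ => Sym2 (Fin n)) e s(f a, f b) := ⟨_, rfl⟩
        have q1 : ∀ i : Fin m, q i.castSucc = e i := by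
          intro i
          rw [hq, Fin.snoc_castSucc]
        have q2 : q (Fin.last m) = s(f a, f b) := by
          rw [hq, Fin.snoc_last]
        have hnot : ∀ i : Fin m, e i ≠ s(f a, f b) := by
          intro i hi
          have h1 : e i ∈ B.edgeSet \ G.edgeSet := by
            rw [← hran]
            exact ⟨i, rfl⟩
          rw [hi] at h1
          exact hB h1.1
        have hqinj : Injective q := by
          intro i j hij
          induction i using Fin.lastCases with
          | last =>
            induction j using Fin.lastCases with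
            | last => rfl
            | cast j => rw [q1, q2] at hij; exact absurd hij.symm (hnot j)
          | cast i =>
            induction j using Fin.lastCases with
            | last => rw [q1, q2] at hij; exact absurd hij (hnot i)
            | cast j =>
              rw [q1, q1] at hij
              rw [hinj hij]
        have hCadj : ∀ u v, C.Adj u v ↔ B.Adj u v ∨ s(f a, f b) = s(u, v) := by
          intro u v
          rw [hH, SimpleGraph.sup_adj, edge_adj', Sym2.eq_iff]
          constructor
          · rintro (h | ⟨h, -⟩)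
            · exact Or.inl h
            · exact Or.inr h
          · rintro (h | h)
            · exact Or.inl h
            · refine Or.inr ⟨h, ?_⟩
              rintro rfl
              rcases h with ⟨h1, h2⟩ | ⟨h1, h2⟩
              · exact hne (h1.trans h2.symm)
              · exact hne (h1.trans h2.symm)
        have hqran : Set.range q = C.edgeSet \ G.edgeSet := by
          ext x
          induction x using Sym2.ind with
          | _ u v =>
          rw [Set.mem_sdiff, SimpleGraph.mem_edgeSet, SimpleGraph.mem_edgeSet, hCadj]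
          constructor
          · rintro ⟨i, hi⟩
            induction i using Fin.lastCases with
            | last =>
              rw [q2] at hi
              refine ⟨Or.inr hi, fun hG => hB ?_⟩
              rw [← SimpleGraph.mem_edgeSet, hi]
              exact hGB hG
            | cast i =>
              rw [q1] at hi
              have h1 : s(u, v) ∈ B.edgeSet \ G.edgeSet := by
                rw [← hran, ← hi]
                exact ⟨i, rfl⟩
              exact ⟨Or.inl h1.1, h1.2⟩
          · rintro ⟨h | h, hG⟩
            · have h1 : s(u, v) ∈ Set.range e := by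
                rw [hran]
                exact ⟨h, hG⟩
              obtain ⟨i, hi⟩ := h1
              exact ⟨i.castSucc, by rw [q1]; exact hi⟩
            · exact ⟨Fin.last m, by rw [q2]; exact h⟩
        refine ⟨m + 1, q, hqinj, hqran, ?_⟩
        intro i
        induction i using Fin.lastCases with
        | last =>
          refine ⟨f, hf, ?_, a, b, hab, q2.symm⟩
          intro x y hxy
          have h1 : s(f x, f y) ∈ C.edgeSet := hc x y hxy
          by_cases hG : s(f x, f y) ∈ G.edgeSet
          · exact Or.inl hG
          · have h2 : s(f x, f y) ∈ Set.range q := by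
              rw [hqran]
              exact ⟨h1, hG⟩
            obtain ⟨j, hj⟩ := h2
            exact Or.inr ⟨j, Fin.le_last j, hj⟩
        | cast i =>
          obtain ⟨f', hf', hc', a', b', hab', hp'⟩ := hst i
          refine ⟨f', hf', ?_, a', b', hab', by rw [q1]; exact hp'⟩
          intro x y hxy
          rcases hc' x y hxy with h4 | ⟨j, hj, h5⟩
          · exact Or.inl h4
          · refine Or.inr ⟨j.castSucc, Fin.castSucc_le_castSucc_iff.2 hj, ?_⟩
            rw [q1]
            exact h5
  obtain ⟨-, m, e, hinj, hran, hst⟩ := key ⊤ h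
  refine ⟨m, e, hinj, ?_, hst⟩
  rw [hran]
  ext x
  induction x using Sym2.ind with
  | _ u v =>
  rw [Set.mem_sdiff, SimpleGraph.mem_edgeSet, SimpleGraph.mem_edgeSet, SimpleGraph.mem_edgeSet,
    SimpleGraph.compl_adj, SimpleGraph.top_adj]

end Conv

theorem conv : S_conv := by
  have := Conv.finVF
  obtain ⟨k, ⟨e⟩⟩ := Finite.exists_equiv_fin VF
  obtain ⟨F, hF⟩ : ∃ F : SimpleGraph (Fin k), F = FF.comap e.symm := ⟨_, rfl⟩
  refine ⟨k, F, ?_, fun n G => ?_, Conv.iso⟩
  · obtain ⟨a, b, hab⟩ := Conv.ff_edge
    exact ⟨e a, e b, by rw [hF]; simpa using hab⟩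
  · rw [← Conv.reach_pat FF e, ← hF]
    exact ⟨Conv.reach_of_ws F G, Conv.ws_of_reach F G⟩

end Pool.Agent.H57.Irr
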