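import Pool.Agent.H57.Irr.Spec

/-!
# Descent in a grid system
-/

set_option autoImplicit false

namespace Pool.Agent.H57.Irr

open Finset Function

namespace Descent

theorem vb_zero_left (j : ℕ) : vb 0 j := by unfold vb; simp

theorem vb_zero_right (i : ℕ) : vb i 0 := by unfold vb; simp

theorem vb_succ (i j : ℕ) : vb (i + 1) (j + 1) ↔ ¬ (vb i (j + 1) ↔ vb (i + 1) j) := by
  unfold vb
  have h : (i + 1 + (j + 1)).choose (i + 1) =
      (i + (j + 1)).choose i + (i + 1 + j).choose (i + 1) := by
    have e : i + 1 + (j + 1) = (i + 1 + j) + 1 := by ring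
    have e2 : i + (j + 1) = i + 1 + j := by ring
    rw [e, e2, Nat.choose_succ_succ]
  rw [h]
  omega

theorem bit_stt (i j : ℕ) : bit (stt i j) ↔ vb i j := by
  rcases Nat.eq_zero_or_pos i with rfl | hi
  · rcases Nat.eq_zero_or_pos j with rfl | hj
    · exact ⟨fun _ => vb_zero_left 0, fun _ => by decide⟩
    · have e : stt 0 j = 2 := by
        unfold stt; rw [if_pos rfl, if_neg (by omega)]
      rw [e]
      exact ⟨fun _ => vb_zero_left j, fun _ => by decide⟩
  · rcases Nat.eq_zero_or_pos j with rfl | hj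
    · have e : stt i 0 = 1 := by
        unfold stt; rw [if_neg (by omega), if_pos rfl]
      rw [e]
      exact ⟨fun _ => vb_zero_right i, fun _ => by decide⟩
    · by_cases hv : vb i j
      · have e : stt i j = 4 := by
          unfold stt; rw [if_neg (by omega), if_neg (by omega), if_pos hv]
        rw [e]
        exact ⟨fun _ => hv, fun _ => by decide⟩
      · have e : stt i j = 3 := by
          unfold stt; rw [if_neg (by omega), if_neg (by omega), if_neg hv]
        rw [e]
        exact ⟨fun h => absurd h (by decide), fun h => absurd h hv⟩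

theorem sk_stt (i j : ℕ) : sk (stt i j) ↔ i ≠ 0 := by
  rcases Nat.eq_zero_or_pos i with rfl | hi
  · rcases Nat.eq_zero_or_pos j with rfl | hj
    · exact ⟨fun h => absurd h (by decide), fun h => absurd rfl h⟩
    · have e : stt 0 j = 2 := by
        unfold stt; rw [if_pos rfl, if_neg (by omega)]
      rw [e]
      exact ⟨fun h => absurd h (by decide), fun h => absurd rfl h⟩
  · rcases Nat.eq_zero_or_pos j with rfl | hj
    · have e : stt i 0 = 1 := by
        unfold stt; rw [if_neg (by omega), if_pos rfl]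
      rw [e]
      exact ⟨fun _ => by omega, fun _ => by decide⟩
    · by_cases hv : vb i j
      · have e : stt i j = 4 := by
          unfold stt; rw [if_neg (by omega), if_neg (by omega), if_pos hv]
        rw [e]
        exact ⟨fun _ => by omega, fun _ => by decide⟩
      · have e : stt i j = 3 := by
          unfold stt; rw [if_neg (by omega), if_neg (by omega), if_neg hv]
        rw [e]
        exact ⟨fun _ => by omega, fun _ => by decide⟩

theorem st_eq2 : ∀ σ : St, tk σ → ¬ sk σ → σ = 2 := by decide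

theorem st_eq1 : ∀ σ : St, ¬ tk σ → sk σ → σ = 1 := by decide

theorem st_eq0 : ∀ σ : St, ¬ tk σ → ¬ sk σ → σ = 0 := by decide

theorem st_eq4 : ∀ σ : St, tk σ → sk σ → bit σ → σ = 4 := by decide

theorem st_eq3 : ∀ σ : St, tk σ → sk σ → ¬ bit σ → σ = 3 := by decide

theorem st_eq_stt (σ : St) (i j : ℕ) (ht : tk σ) (hs : sk σ) (hb : bit σ ↔ vb (i + 1) (j + 1)) :
    σ = stt (i + 1) (j + 1) := by
  unfold stt
  rw [if_neg (Nat.succ_ne_zero i), if_neg (Nat.succ_ne_zero j)]
  by_cases hv : vb (i + 1) (j + 1)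
  · rw [if_pos hv]; exact st_eq4 σ ht hs (hb.mpr hv)
  · rw [if_neg hv]; exact st_eq3 σ ht hs (fun h => hv (hb.mp h))

section

set_option linter.unusedSectionVars false

variable {α : Type} [DecidableEq α]

/-- the exceptional outcome -/
def OA (G Exc : Finset α) (rl : α → Rul) (sp tp : α → α) (ord : α → ℕ) (as gs : ℕ → Fin 2)
    (z : α) : Prop :=
  ∃ (i j : ℕ) (y : α), y ∈ G ∧ i + j ≤ ord z ∧ tp^[j] (sp^[i] y) = z ∧
      (∀ a < i, ia (rl (sp^[a] y)) = as (i - 1 - a)) ∧
      (∀ b < j, ig (rl (tp^[b] (sp^[i] y))) = gs (j - 1 - b)) ∧ y ∈ Exc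

/-- the exceptional outcome in a column -/
def OAc (G Exc : Finset α) (rl : α → Rul) (sp : α → α) (ord : α → ℕ) (as : ℕ → Fin 2)
    (z : α) : Prop :=
  ∃ (i : ℕ) (y : α), y ∈ G ∧ i ≤ ord z ∧ sp^[i] y = z ∧
      (∀ a < i, ia (rl (sp^[a] y)) = as (i - 1 - a)) ∧ y ∈ Exc

theorem OA_of_OAc {G Exc : Finset α} {rl : α → Rul} {sp tp : α → α} {ord : α → ℕ}
    {as gs : ℕ → Fin 2} {z : α} (h : OAc G Exc rl sp ord as z) :
    OA G Exc rl sp tp ord as gs z := by
  obtain ⟨i, y, hy, ho, hz, ha, he⟩ := h
  exact ⟨i, 0, y, hy, by omega, hz, ha, fun b hb => absurd hb (Nat.not_lt_zero _), he⟩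

/-- the regular outcome in a column -/
def OBc (G Exc : Finset α) (rl : α → Rul) (sp : α → α) (as : ℕ → Fin 2) (z : α) : Prop :=
  ∃ (i : ℕ) (x : ℕ → α), x 0 = z ∧
    (∀ a ≤ i, x a ∈ G ∧ x a ∉ Exc ∧ own (rl (x a)) = stt (i - a) 0) ∧
    (∀ a < i, sp (x (a + 1)) = x a ∧ ia (rl (x (a + 1))) = as a)

/-- the regular outcome -/
def OB (G Exc : Finset α) (rl : α → Rul) (sp tp : α → α) (as gs : ℕ → Fin 2) (z : α) : Prop :=
  ∃ (i j : ℕ) (x : ℕ → ℕ → α), x 0 0 = z ∧
    (∀ a ≤ i, ∀ b ≤ j, x a b ∈ G ∧ x a b ∉ Exc ∧ own (rl (x a b)) = stt (i - a) (j - b)) ∧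
    (∀ a < i, ∀ b ≤ j, sp (x (a + 1) b) = x a b ∧ ia (rl (x (a + 1) b)) = as a) ∧
    (∀ a ≤ i, ∀ b < j, tp (x a (b + 1)) = x a b ∧ ig (rl (x a (b + 1))) = gs b)

theorem column {G Exc : Finset α} {rl : α → Rul} {sp tp : α → α} {ord : α → ℕ}
    (h : GS G Exc rl sp tp ord) : ∀ (N : ℕ) (z : α), ord z ≤ N → z ∈ G → ¬ tk (own (rl z)) →
    ∀ as : ℕ → Fin 2, OAc G Exc rl sp ord as z ∨ OBc G Exc rl sp as z := by
  intro N
  induction N with
  | zero =>
    intro z hz hG ht as
    by_cases he : z ∈ Exc
    · exact Or.inl ⟨0, z, hG, Nat.zero_le _, rfl, fun a ha => absurd ha (Nat.not_lt_zero _), he⟩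
    by_cases hs : sk (own (rl z))
    · obtain ⟨u, hu, hsu, -⟩ := h.s2 z hG he hs (as 0)
      have := h.o1 u hu (by rw [hsu]; exact hG)
      rw [hsu] at this
      omega
    · refine Or.inr ⟨0, fun _ => z, rfl, ?_, fun a ha => absurd ha (Nat.not_lt_zero _)⟩
      intro a ha
      have ha0 : a = 0 := by omega
      subst ha0
      exact ⟨hG, he, by rw [st_eq0 _ ht hs]; rfl⟩
  | succ N ih =>
    intro z hz hG ht as
    by_cases he : z ∈ Exc
    · exact Or.inl ⟨0, z, hG, Nat.zero_le _, rfl, fun a ha => absurd ha (Nat.not_lt_zero _), he⟩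
    by_cases hs : sk (own (rl z))
    · obtain ⟨u, hu, hsu, hiu⟩ := h.s2 z hG he hs (as 0)
      have hou := h.o1 u hu (by rw [hsu]; exact hG)
      rw [hsu] at hou
      have h1 := h.s1 u hu (by rw [hsu]; exact hG)
      rw [hsu] at h1
      have htu : ¬ tk (own (rl u)) := by
        rw [h1.2]
        exact fun hh => ht (((rl z).2.1 hs).mp hh)
      rcases ih u (by omega) hu htu (fun n => as (n + 1)) with hA | hB
      · left
        obtain ⟨i, y, hy, ho, hzz, ha, hye⟩ := hA
        refine ⟨i + 1, y, hy, by omega, ?_, ?_, hye⟩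
        · rw [Function.iterate_succ_apply', hzz, hsu]
        · intro a hai
          rcases Nat.lt_or_ge a i with h2 | h2
          · rw [ha a h2]
            show as (i - 1 - a + 1) = as (i + 1 - 1 - a)
            congr 1; omega
          · have : a = i := by omega
            subst this
            rw [hzz, hiu]
            congr 1; omega
      · right
        obtain ⟨i, x, hx0, hx, hxs⟩ := hB
        refine ⟨i + 1, fun n => Nat.casesOn n z x, rfl, ?_, ?_⟩
        · intro a ha
          cases a with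
          | zero =>
            refine ⟨hG, he, ?_⟩
            show own (rl z) = stt (i + 1) 0
            rw [st_eq1 _ ht hs]; rfl
          | succ a =>
            have := hx a (by omega)
            refine ⟨this.1, this.2.1, ?_⟩
            show own (rl (x a)) = stt (i + 1 - (a + 1)) 0
            rw [this.2.2]
            congr 1; omega
        · intro a ha
          cases a with
          | zero =>
            show sp (x 0) = z ∧ ia (rl (x 0)) = as 0
            rw [hx0]
            exact ⟨hsu, hiu⟩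
          | succ a =>
            exact hxs a (by omega)
    · refine Or.inr ⟨0, fun _ => z, rfl, ?_, fun a ha => absurd ha (Nat.not_lt_zero _)⟩
      intro a ha
      have ha0 : a = 0 := by omega
      subst ha0
      exact ⟨hG, he, by rw [st_eq0 _ ht hs]; rfl⟩

/-- iterating along a chain -/
theorem iter_chain {f : α → α} {x : ℕ → α} {n : ℕ} (hx : ∀ a < n, f (x (a + 1)) = x a) :
    ∀ a ≤ n, f^[a] (x n) = x (n - a) := by
  intro a
  induction a with
  | zero => intro _; rfl
  | succ a ih =>
    intro ha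
    rw [Function.iterate_succ_apply', ih (by omega)]
    have e : n - a = (n - (a + 1)) + 1 := by omega
    rw [e, hx _ (by omega)]

theorem ord_chain {f : α → α} {G : Finset α} {ord : α → ℕ} {x : ℕ → α} {n : ℕ}
    (ho : ∀ y ∈ G, f y ∈ G → ord y < ord (f y))
    (hG : ∀ a ≤ n, x a ∈ G) (hx : ∀ a < n, f (x (a + 1)) = x a) :
    ∀ a ≤ n, ord (x a) + a ≤ ord (x 0) := by
  intro a
  induction a with
  | zero => intro _; rfl
  | succ a ih =>
    intro ha
    have h1 := ih (by omega)
    have h2 := ho (x (a + 1)) (hG _ ha) (by rw [hx a (by omega)]; exact hG _ (by omega))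
    rw [hx a (by omega)] at h2
    omega

theorem OAc_of_chain {G Exc : Finset α} {rl : α → Rul} {sp tp : α → α} {ord : α → ℕ}
    (h : GS G Exc rl sp tp ord) {as : ℕ → Fin 2} {n : ℕ} {x : ℕ → α}
    (hG : ∀ a ≤ n, x a ∈ G) (hx : ∀ a < n, sp (x (a + 1)) = x a ∧ ia (rl (x (a + 1))) = as a)
    (he : x n ∈ Exc) : OAc G Exc rl sp ord as (x 0) := by
  refine ⟨n, x n, hG n le_rfl, ?_, ?_, ?_, he⟩
  · have := ord_chain h.o1 hG (fun a ha => (hx a ha).1) n le_rfl
    omega
  · rw [iter_chain (fun a ha => (hx a ha).1) n le_rfl, Nat.sub_self]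
  · intro a ha
    rw [iter_chain (fun a ha => (hx a ha).1) a (by omega)]
    have e : n - a = (n - 1 - a) + 1 := by omega
    rw [e, (hx _ (by omega)).2]

/-- the tk case: the new column -/
theorem newcol {G Exc : Finset α} {rl : α → Rul} {sp tp : α → α} {ord : α → ℕ}
    (h : GS G Exc rl sp tp ord) {as : ℕ → Fin 2} {g0 : Fin 2} {z : α} (hG : z ∈ G) (he : z ∉ Exc)
    {i j : ℕ} {x : ℕ → α} (hx0 : tp (x 0) = z) (hg0 : ig (rl (x 0)) = g0)
    (hx : ∀ a ≤ i, x a ∈ G ∧ x a ∉ Exc ∧ own (rl (x a)) = stt (i - a) j)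
    (hxs : ∀ a < i, sp (x (a + 1)) = x a ∧ ia (rl (x (a + 1))) = as a) :
    OAc G Exc rl sp ord as z ∨
    ((∀ a ≤ i, tp (x a) ∈ G ∧ tp (x a) ∉ Exc ∧ ig (rl (x a)) = g0) ∧
     (∀ a < i, sp (tp (x (a + 1))) = tp (x a) ∧ ia (rl (tp (x (a + 1)))) = as a)) := by
  by_contra hcon
  push Not at hcon
  obtain ⟨hA, hB⟩ := hcon
  have key : ∀ n ≤ i, (∀ a ≤ n, tp (x a) ∈ G ∧ tp (x a) ∉ Exc ∧ ig (rl (x a)) = g0) ∧
     (∀ a < n, sp (tp (x (a + 1))) = tp (x a) ∧ ia (rl (tp (x (a + 1)))) = as a) := by
    intro n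
    induction n with
    | zero =>
      intro _
      refine ⟨?_, fun a ha => absurd ha (Nat.not_lt_zero _)⟩
      intro a ha
      have ha0 : a = 0 := by omega
      subst ha0
      rw [hx0]
      exact ⟨hG, he, hg0⟩
    | succ n ih =>
      intro hn
      obtain ⟨ih1, ih2⟩ := ih (by omega)
      have hsx := hxs n (by omega)
      have hc := h.comm (x (n + 1)) (hx (n + 1) hn).1 (hx (n + 1) hn).2.1
        (by rw [hsx.1]; exact (hx n (by omega)).1) (by rw [hsx.1]; exact (ih1 n le_rfl).1)
        (by rw [hsx.1]; exact (ih1 n le_rfl).2.1)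
      rw [hsx.1] at hc
      obtain ⟨hc1, hc2, hc3, hc4⟩ := hc
      have hB2 : ∀ a < n + 1, sp (tp (x (a + 1))) = tp (x a) ∧ ia (rl (tp (x (a + 1)))) = as a := by
        intro a ha
        rcases Nat.lt_or_ge a n with h3 | h3
        · exact ih2 a h3
        · have : a = n := by omega
          subst this
          exact ⟨hc2, by rw [hc3]; exact hsx.2⟩
      have hGa : ∀ a ≤ n + 1, tp (x a) ∈ G := by
        intro a ha
        rcases Nat.lt_or_ge a (n + 1) with h3 | h3
        · exact (ih1 a (by omega)).1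
        · have : a = n + 1 := by omega
          subst this
          exact hc1
      have hne : tp (x (n + 1)) ∉ Exc := by
        intro hexc
        have := OAc_of_chain h (as := as) (n := n + 1) (x := fun a => tp (x a)) hGa hB2 hexc
        simp only [hx0] at this
        exact hA this
      refine ⟨?_, hB2⟩
      intro a ha
      rcases Nat.lt_or_ge a (n + 1) with h3 | h3
      · exact ih1 a (by omega)
      · have : a = n + 1 := by omega
        subst this
        exact ⟨hc1, hne, by rw [← hc4]; exact (ih1 n le_rfl).2.2⟩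
  obtain ⟨k1, k2⟩ := key i le_rfl
  obtain ⟨a, ha, hh⟩ := hB k1
  exact hh (k2 a ha).1 (k2 a ha).2

/-- states in the new column -/
theorem newstates {G Exc : Finset α} {rl : α → Rul} {sp tp : α → α} {ord : α → ℕ}
    (h : GS G Exc rl sp tp ord) {i j : ℕ} {x : ℕ → α}
    (hx : ∀ a ≤ i, x a ∈ G ∧ own (rl (x a)) = stt (i - a) j)
    (ht : ∀ a ≤ i, tp (x a) ∈ G)
    (hts : ∀ a < i, sp (tp (x (a + 1))) = tp (x a)) :
    ∀ c ≤ i, own (rl (tp (x (i - c)))) = stt c (j + 1) := by
  have hbase : ∀ a ≤ i, tk (own (rl (tp (x a)))) ∧ (sk (own (rl (tp (x a)))) ↔ i - a ≠ 0) ∧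
      σt (rl (tp (x a))) = stt (i - a) j := by
    intro a ha
    have h1 := h.t1 (x a) (hx a ha).1 (ht a ha)
    have h2 : σt (rl (tp (x a))) = stt (i - a) j := by rw [← h1.2, (hx a ha).2]
    refine ⟨h1.1, ?_, h2⟩
    have h3 := (rl (tp (x a))).2.2.1 h1.1
    have h4 : (sk (σt (rl (tp (x a)))) ↔ sk (own (rl (tp (x a))))) := h3
    rw [← h4, h2]
    exact sk_stt _ _
  intro c
  induction c with
  | zero =>
    intro _
    have h1 := hbase i le_rfl
    rw [Nat.sub_zero]
    have h2 : ¬ sk (own (rl (tp (x i)))) := by rw [h1.2.1]; simp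
    rw [st_eq2 _ h1.1 h2]
    unfold stt
    rw [if_pos rfl, if_neg (Nat.succ_ne_zero j)]
  | succ c ih =>
    intro hc
    have h1 := hbase (i - (c + 1)) (by omega)
    have e : i - (i - (c + 1)) = c + 1 := by omega
    rw [e] at h1
    have hsk : sk (own (rl (tp (x (i - (c + 1)))))) := by rw [h1.2.1]; exact Nat.succ_ne_zero c
    have e2 : i - (c + 1) + 1 = i - c := by omega
    have h2 := hts (i - (c + 1)) (by omega)
    rw [e2] at h2
    have h3 := h.s1 (tp (x (i - c))) (ht _ (by omega)) (by rw [h2]; exact ht _ (by omega))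
    rw [h2, ih (by omega)] at h3
    have h4 := (rl (tp (x (i - (c + 1))))).2.2.2 hsk h1.1
    have h5 : (bit (own (rl (tp (x (i - (c + 1)))))) ↔
      ¬ (bit (σs (rl (tp (x (i - (c + 1)))))) ↔ bit (σt (rl (tp (x (i - (c + 1)))))))) := h4
    rw [← h3.2, h1.2.2, bit_stt, bit_stt] at h5
    refine st_eq_stt _ c j h1.1 hsk ?_
    rw [h5, vb_succ]

theorem main {G Exc : Finset α} {rl : α → Rul} {sp tp : α → α} {ord : α → ℕ}
    (h : GS G Exc rl sp tp ord) : ∀ (N : ℕ) (z : α), ord z ≤ N → z ∈ G →
    ∀ as gs : ℕ → Fin 2, OA G Exc rl sp tp ord as gs z ∨ OB G Exc rl sp tp as gs z := by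
  have hcol : ∀ (z : α), z ∈ G → ¬ tk (own (rl z)) →
      ∀ as gs : ℕ → Fin 2, OA G Exc rl sp tp ord as gs z ∨ OB G Exc rl sp tp as gs z := by
    intro z hG ht as gs
    rcases column h (ord z) z le_rfl hG ht as with hA | hB
    · exact Or.inl (OA_of_OAc hA)
    · right
      obtain ⟨i, x, hx0, hx, hxs⟩ := hB
      refine ⟨i, 0, fun a _ => x a, hx0, ?_, ?_, ?_⟩
      · intro a ha b _
        have := hx a ha
        refine ⟨this.1, this.2.1, ?_⟩
        rw [this.2.2]
        simp
      · intro a ha b _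
        exact hxs a ha
      · intro a _ b hb
        exact absurd hb (Nat.not_lt_zero _)
  have hexc : ∀ (z : α), z ∈ G → z ∈ Exc → ∀ as gs : ℕ → Fin 2, OA G Exc rl sp tp ord as gs z := by
    intro z hG he as gs
    exact ⟨0, 0, z, hG, Nat.zero_le _, rfl, fun a ha => absurd ha (Nat.not_lt_zero _),
      fun a ha => absurd ha (Nat.not_lt_zero _), he⟩
  intro N
  induction N with
  | zero =>
    intro z hz hG as gs
    by_cases he : z ∈ Exc
    · exact Or.inl (hexc z hG he as gs)
    by_cases ht : tk (own (rl z))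
    · obtain ⟨u, hu, hsu, -⟩ := h.t2 z hG he ht (gs 0)
      have := h.o2 u hu (by rw [hsu]; exact hG)
      rw [hsu] at this
      omega
    · exact hcol z hG ht as gs
  | succ N ih =>
    intro z hz hG as gs
    by_cases he : z ∈ Exc
    · exact Or.inl (hexc z hG he as gs)
    by_cases ht : tk (own (rl z))
    · obtain ⟨u, hu, htu, hgu⟩ := h.t2 z hG he ht (gs 0)
      have hou := h.o2 u hu (by rw [htu]; exact hG)
      rw [htu] at hou
      rcases ih u (by omega) hu as (fun n => gs (n + 1)) with hA | hB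
      · left
        obtain ⟨i, j, y, hy, ho, hzz, ha, hb, hye⟩ := hA
        refine ⟨i, j + 1, y, hy, by omega, ?_, ha, ?_, hye⟩
        · rw [Function.iterate_succ_apply', hzz, htu]
        · intro b hbj
          rcases Nat.lt_or_ge b j with h2 | h2
          · rw [hb b h2]
            show gs (j - 1 - b + 1) = gs (j + 1 - 1 - b)
            congr 1; omega
          · have : b = j := by omega
            subst this
            rw [hzz, hgu]
            congr 1; omega
      · obtain ⟨i, j, x, hx0, hx, hxs, hxt⟩ := hB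
        rcases newcol h (as := as) (g0 := gs 0) hG he (i := i) (j := j) (x := fun a => x a 0)
          (by simp only [hx0, htu]) (by simp only [hx0, hgu])
          (fun a ha => by simpa using hx a ha 0 (Nat.zero_le _))
          (fun a ha => hxs a ha 0 (Nat.zero_le _)) with hA | hB
        · exact Or.inl (OA_of_OAc hA)
        · right
          obtain ⟨hB1, hB2⟩ := hB
          have hst := newstates h (i := i) (j := j) (x := fun a => x a 0)
            (fun a ha => ⟨(hx a ha 0 (Nat.zero_le _)).1, by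
              simpa using (hx a ha 0 (Nat.zero_le _)).2.2⟩)
            (fun a ha => (hB1 a ha).1) (fun a ha => (hB2 a ha).1)
          refine ⟨i, j + 1, fun a b => Nat.casesOn b (tp (x a 0)) (fun b => x a b), ?_, ?_, ?_, ?_⟩
          · show tp (x 0 0) = z
            rw [hx0, htu]
          · intro a ha b hb
            cases b with
            | zero =>
              refine ⟨(hB1 a ha).1, (hB1 a ha).2.1, ?_⟩
              show own (rl (tp (x a 0))) = stt (i - a) (j + 1)
              have := hst (i - a) (by omega)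
              have e : i - (i - a) = a := by omega
              simp only [e] at this
              exact this
            | succ b =>
              have := hx a ha b (by omega)
              refine ⟨this.1, this.2.1, ?_⟩
              show own (rl (x a b)) = stt (i - a) (j + 1 - (b + 1))
              rw [this.2.2]
              congr 1; omega
          · intro a ha b hb
            cases b with
            | zero => exact hB2 a ha
            | succ b => exact hxs a ha b (by omega)
          · intro a ha b hb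
            cases b with
            | zero => exact ⟨rfl, (hB1 a ha).2.2⟩
            | succ b => exact hxt a ha b (by omega)
    · exact hcol z hG ht as gs

end

end Descent

theorem descent : S_descent := by
  intro α _ G Exc rl sp tp ord h hExc z hz as gs
  rcases Descent.main h (ord z) z le_rfl hz as gs with hA | hB
  · obtain ⟨i, j, y, hy, ho, hzz, ha, hb, hye⟩ := hA
    exact ⟨i, j, y, hy, ho, hzz, ha, hb, Or.inl hye⟩
  · obtain ⟨i, j, x, hx0, hx, hxs, hxt⟩ := hB
    have hs : ∀ a ≤ i, sp^[a] (x i j) = x (i - a) j :=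
      Descent.iter_chain (x := fun a => x a j) (fun a ha => (hxs a ha j le_rfl).1)
    have ht : ∀ b ≤ j, tp^[b] (x 0 j) = x 0 (j - b) :=
      Descent.iter_chain (x := fun b => x 0 b) (fun b hb => (hxt 0 (Nat.zero_le _) b hb).1)
    have hsi : sp^[i] (x i j) = x 0 j := by rw [hs i le_rfl, Nat.sub_self]
    refine ⟨i, j, x i j, (hx i le_rfl j le_rfl).1, ?_, ?_, ?_, ?_, Or.inr ⟨?_, ?_⟩⟩
    · have h1 := Descent.ord_chain (x := fun a => x a j) h.o1
        (fun a ha => (hx a ha j le_rfl).1) (fun a ha => (hxs a ha j le_rfl).1) i le_rfl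
      have h2 := Descent.ord_chain (x := fun b => x 0 b) h.o2
        (fun b hb => (hx 0 (Nat.zero_le _) b hb).1) (fun b hb => (hxt 0 (Nat.zero_le _) b hb).1)
        j le_rfl
      rw [hx0] at h2
      omega
    · rw [hsi, ht j le_rfl, Nat.sub_self, hx0]
    · intro a ha
      rw [hs a (by omega)]
      have e : i - a = (i - 1 - a) + 1 := by omega
      rw [e, (hxs _ (by omega) j le_rfl).2]
    · intro b hb
      rw [hsi, ht b (by omega)]
      have e : j - b = (j - 1 - b) + 1 := by omega
      rw [e, (hxt 0 (Nat.zero_le _) _ (by omega)).2]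
    · rw [(hx i le_rfl j le_rfl).2.2, Nat.sub_self, Nat.sub_self]; rfl
    · intro hb
      have := (hx 0 (Nat.zero_le _) 0 (Nat.zero_le _)).2.2
      rw [hx0, Nat.sub_zero, Nat.sub_zero] at this
      rw [this] at hb
      exact (Descent.bit_stt i j).mp hb

end Pool.Agent.H57.Irr
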