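import Pool.Agent.H57.Irr.Spec

/-!
# Fill lemmas
-/

set_option autoImplicit false

namespace Pool.Agent.H57.Irr.Fill

open Finset Function Pool.Agent.H57.Irr

/-- the vertices of `FF` as a sum type -/
def eqvVF : VF ≃ (Fin MK ⊕ (Rol × DV)) ⊕ Unit where
  toFun v := match v with
    | VF.k i => Sum.inl (Sum.inl i)
    | VF.g i x => Sum.inl (Sum.inr (i, x))
    | VF.z => Sum.inr ()
  invFun v := match v with
    | Sum.inl (Sum.inl i) => VF.k i
    | Sum.inl (Sum.inr (i, x)) => VF.g i x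
    | Sum.inr () => VF.z
  left_inv v := by cases v <;> rfl
  right_inv v := by rcases v with (i | ⟨i, x⟩) | ⟨⟩ <;> rfl

theorem finiteVF : Finite VF := Finite.of_equiv _ eqvVF.symm

theorem sum_code : ∑ j : J, code j = 190 := by decide

theorem card_J : Fintype.card J = 20 := by
  simp only [Fintype.card_prod, Fintype.card_fin]

theorem card_DV : Nat.card DV = 10000000000000 := by
  rw [Nat.card_eq_fintype_card, Fintype.card_sigma]
  simp only [Fintype.card_fin]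
  rw [Fintype.sum_option, Fintype.sum_option]
  have h : ∀ j : J, sz (some (some j)) = 200001 + code j := fun j => rfl
  have h0 : sz none = 9999995799790 := rfl
  have h1 : sz (some none) = 200000 := rfl
  simp only [h, h0, h1]
  rw [Finset.sum_add_distrib, sum_code, Finset.sum_const, Finset.card_univ, card_J]
  norm_num

theorem card_Rul : Nat.card Rul ≤ 12500 := by
  rw [Nat.card_eq_fintype_card]
  refine (Fintype.card_subtype_le _).trans ?_
  simp only [Fintype.card_prod, Fintype.card_fin]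
  norm_num

theorem card_Rol : Nat.card Rol ≤ 50041 := by
  have h := card_Rul
  rw [Nat.card_sum, Nat.card_sum, Nat.card_prod, Nat.card_prod]
  simp only [Nat.card_eq_fintype_card (α := J), card_J, Nat.card_eq_fintype_card (α := Fin 4),
    Nat.card_eq_fintype_card (α := Fin 2), Nat.card_eq_fintype_card (α := Unit),
    Fintype.card_fin, Fintype.card_unit]
  omega

theorem card_VF : Nat.card VF ≤ NS := by
  have h := card_Rol
  have h1 : Nat.card (Rol × DV) ≤ 50041 * 10000000000000 := by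
    rw [Nat.card_prod, card_DV]
    exact Nat.mul_le_mul_right _ h
  rw [Nat.card_congr eqvVF, Nat.card_sum, Nat.card_sum]
  have h2 : Nat.card (Fin MK) = 10 ^ 40 := by
    rw [Nat.card_eq_fintype_card, Fintype.card_fin, MK]
  have h3 : Nat.card Unit = 1 := by
    rw [Nat.card_eq_fintype_card, Fintype.card_unit]
  rw [h2, h3]
  have h4 : NS = 10 ^ 42 := rfl
  rw [h4]
  generalize Nat.card (Rol × DV) = m at h1 ⊢
  norm_num at h1 ⊢
  omega

/-- **Extension lemma.** -/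
theorem extend {V : Type*} [DecidableEq V] (H' : SimpleGraph V) (P : Finset V)
    (hP : ∀ x ∈ P, ∀ y ∈ P, x ≠ y → H'.Adj x y) (hc : NS ≤ P.card)
    (S : Set VF) (f₀ : VF → V) (hinj : Set.InjOn f₀ S)
    (hS : ∀ x ∈ S, ∀ y ∈ S, FF.Adj x y → H'.Adj (f₀ x) (f₀ y))
    (hN : ∀ x ∈ S, ∀ y, y ∉ S → FF.Adj x y → ∀ v ∈ P, v ≠ f₀ x → H'.Adj (f₀ x) v) :
    ∃ f : VF → V, Injective f ∧ (∀ x ∈ S, f x = f₀ x) ∧ (∀ x, x ∉ S → f x ∈ P) ∧
      ∀ x y, FF.Adj x y → H'.Adj (f x) (f y) := by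
  classical
  have : Finite VF := finiteVF
  have : Fintype VF := Fintype.ofFinite VF
  let I : Finset V := (univ.filter (fun x => x ∈ S)).image f₀
  have hI : I.card ≤ Fintype.card {x // x ∈ S} := by
    rw [Fintype.card_subtype]
    exact Finset.card_image_le
  have h1 : Fintype.card {x // x ∈ S} + Fintype.card {x // x ∉ S} ≤ NS := by
    refine le_trans ?_ card_VF
    rw [Nat.card_eq_fintype_card]
    have := Fintype.card_subtype_compl (fun x : VF => x ∈ S)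
    have h2 := Fintype.card_subtype_le (fun x : VF => x ∈ S)
    omega
  have h2 : Fintype.card {x // x ∉ S} ≤ Fintype.card {v // v ∈ P \ I} := by
    rw [Fintype.card_coe]
    have := Finset.le_card_sdiff I P
    omega
  obtain ⟨φ⟩ := Function.Embedding.nonempty_of_card_le h2
  let f : VF → V := fun x => if h : x ∈ S then f₀ x else (φ ⟨x, h⟩ : V)
  have hf1 : ∀ x, x ∈ S → f x = f₀ x := fun x hx => dif_pos hx
  have hf2 : ∀ x (hx : x ∉ S), f x = (φ ⟨x, hx⟩ : V) := fun x hx => dif_neg hx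
  have hfP : ∀ x, x ∉ S → f x ∈ P := by
    intro x hx
    rw [hf2 x hx]
    exact (Finset.mem_sdiff.mp (φ ⟨x, hx⟩).2).1
  have hfI : ∀ x, x ∉ S → ∀ y, y ∈ S → f x ≠ f₀ y := by
    intro x hx y hy h
    have h3 := (Finset.mem_sdiff.mp (φ ⟨x, hx⟩).2).2
    apply h3
    rw [← hf2 x hx, h]
    exact Finset.mem_image_of_mem _ (Finset.mem_filter.mpr ⟨Finset.mem_univ _, hy⟩)
  have hfinj : Injective f := by
    intro x y hxy
    by_cases hx : x ∈ S <;> by_cases hy : y ∈ S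
    · rw [hf1 x hx, hf1 y hy] at hxy
      exact hinj hx hy hxy
    · exfalso
      rw [hf1 x hx] at hxy
      exact hfI y hy x hx hxy.symm
    · exfalso
      rw [hf1 y hy] at hxy
      exact hfI x hx y hy hxy
    · rw [hf2 x hx, hf2 y hy] at hxy
      have h3 := φ.injective (Subtype.ext hxy)
      exact congrArg Subtype.val h3
  refine ⟨f, hfinj, fun x hx => hf1 x hx, hfP, ?_⟩
  intro x y hxy
  have hne : f x ≠ f y := fun h => hxy.ne (hfinj h)
  by_cases hx : x ∈ S <;> by_cases hy : y ∈ S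
  · rw [hf1 x hx, hf1 y hy]
    exact hS x hx y hy hxy
  · rw [hf1 x hx] at hne ⊢
    exact hN x hx y hy hxy _ (hfP y hy) hne.symm
  · rw [hf1 y hy] at hne ⊢
    exact (hN y hy x hx hxy.symm _ (hfP x hx) hne).symm
  · exact hP _ (hfP x hx) _ (hfP y hy) hne

theorem adj_gg {i i' : Rol} {x y : DV} : FF.Adj (VF.g i x) (VF.g i' y) ↔
    VF.g i x ≠ VF.g i' y ∧ ((i = i' ∧ dadj x y) ∨
      (∃ j, Lnk i j i' ∧ port src x ∧ port (slot j) y) ∨
      (∃ j, Lnk i' j i ∧ port src y ∧ port (slot j) x)) := by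
  unfold FF
  rw [SimpleGraph.fromRel_adj]
  simp only [relF]
  constructor
  · rintro ⟨h1, (h2 | h2) | (h2 | h2)⟩
    · exact ⟨h1, Or.inl h2⟩
    · exact ⟨h1, Or.inr (Or.inl h2)⟩
    · refine ⟨h1, Or.inl ⟨h2.1.symm, fun h => ?_⟩⟩
      rw [h]
      exact h2.2 h.symm
    · exact ⟨h1, Or.inr (Or.inr h2)⟩
  · rintro ⟨h1, h2 | h2 | h2⟩
    · exact ⟨h1, Or.inl (Or.inl h2)⟩
    · exact ⟨h1, Or.inl (Or.inr h2)⟩
    · exact ⟨h1, Or.inr (Or.inr h2)⟩

theorem adj_gz {i : Rol} {x : DV} : ¬ FF.Adj (VF.g i x) VF.z := by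
  unfold FF
  rw [SimpleGraph.fromRel_adj]
  rintro ⟨-, h | h⟩
  · exact h
  · exact h

theorem adj_gk {i : Rol} {x : DV} {a : Fin MK} (hi : ∀ r : Rul, i ≠ rr r 0) :
    ¬ FF.Adj (VF.g i x) (VF.k a) := by
  unfold FF
  rw [SimpleGraph.fromRel_adj]
  rintro ⟨-, h | h⟩
  · exact h
  · obtain ⟨r, hr, -⟩ := h
    exact hi r hr

/-- the links as a disjunction of equations -/
theorem lnk_iff {a b : Rol} {j : J} : Lnk a j b ↔
    (∃ r : Rul, a = rr r 0 ∧ j = sE r ∧ b = rr r 1) ∨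
    (∃ r : Rul, a = rr r 0 ∧ j = sZ r ∧ b = rr r 3) ∨
    (∃ r : Rul, a = rr r 1 ∧ j = mE r ∧ b = rr r 2) ∨
    (∃ r : Rul, a = rr r 3 ∧ j = mZ r ∧ b = rr r 2) ∨
    (a = pp j 0 ∧ b = pp j 1) := by
  constructor
  · intro h
    cases h with
    | vE r => exact Or.inl ⟨r, rfl, rfl, rfl⟩
    | vZ r => exact Or.inr (Or.inl ⟨r, rfl, rfl, rfl⟩)
    | EM r => exact Or.inr (Or.inr (Or.inl ⟨r, rfl, rfl, rfl⟩))
    | ZM r => exact Or.inr (Or.inr (Or.inr (Or.inl ⟨r, rfl, rfl, rfl⟩)))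
    | P => exact Or.inr (Or.inr (Or.inr (Or.inr ⟨rfl, rfl⟩)))
  · rintro (⟨r, rfl, rfl, rfl⟩ | ⟨r, rfl, rfl, rfl⟩ | ⟨r, rfl, rfl, rfl⟩ | ⟨r, rfl, rfl, rfl⟩ |
      ⟨rfl, rfl⟩)
    · exact Lnk.vE r
    · exact Lnk.vZ r
    · exact Lnk.EM r
    · exact Lnk.ZM r
    · exact Lnk.P j

theorem pp_inj {j j' : J} {i i' : Fin 2} (h : pp j i = pp j' i') : j = j' ∧ i = i' := by
  have h1 := Sum.inl_injective (Sum.inr_injective h)
  exact ⟨congrArg Prod.fst h1, congrArg Prod.snd h1⟩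

theorem pp_ne_rr {j : J} {i : Fin 2} {r : Rul} {i' : Fin 4} : pp j i ≠ rr r i' := by
  intro h
  exact Sum.inr_ne_inl h

theorem uu_ne_rr {r : Rul} {i' : Fin 4} : uu ≠ rr r i' := by
  intro h
  exact Sum.inr_ne_inl h

theorem uu_ne_pp {j : J} {i : Fin 2} : uu ≠ pp j i := by
  intro h
  exact Sum.inr_ne_inl (Sum.inr_injective h)

theorem no_uu_left {j : J} {b : Rol} : ¬ Lnk uu j b := by
  rw [lnk_iff]
  rintro (⟨r, h, -, -⟩ | ⟨r, h, -, -⟩ | ⟨r, h, -, -⟩ | ⟨r, h, -, -⟩ | ⟨h, -⟩)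
  · exact uu_ne_rr h
  · exact uu_ne_rr h
  · exact uu_ne_rr h
  · exact uu_ne_rr h
  · exact uu_ne_pp h

theorem no_uu_right {j : J} {a : Rol} : ¬ Lnk a j uu := by
  rw [lnk_iff]
  rintro (⟨r, -, -, h⟩ | ⟨r, -, -, h⟩ | ⟨r, -, -, h⟩ | ⟨r, -, -, h⟩ | ⟨-, h⟩)
  · exact uu_ne_rr h
  · exact uu_ne_rr h
  · exact uu_ne_rr h
  · exact uu_ne_rr h
  · exact uu_ne_pp h

theorem pp_left {j j' : J} {i : Fin 2} {b : Rol} (h : Lnk (pp j i) j' b) :
    i = 0 ∧ j' = j ∧ b = pp j 1 := by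
  rw [lnk_iff] at h
  rcases h with ⟨r, h, -, -⟩ | ⟨r, h, -, -⟩ | ⟨r, h, -, -⟩ | ⟨r, h, -, -⟩ | ⟨h, h'⟩
  · exact absurd h pp_ne_rr
  · exact absurd h pp_ne_rr
  · exact absurd h pp_ne_rr
  · exact absurd h pp_ne_rr
  · obtain ⟨h1, h2⟩ := pp_inj h
    subst h1
    exact ⟨h2, rfl, h'⟩

theorem pp_right {j j' : J} {i : Fin 2} {a : Rol} (h : Lnk a j' (pp j i)) :
    i = 1 ∧ j' = j ∧ a = pp j 0 := by
  rw [lnk_iff] at h
  rcases h with ⟨r, -, -, h⟩ | ⟨r, -, -, h⟩ | ⟨r, -, -, h⟩ | ⟨r, -, -, h⟩ | ⟨h', h⟩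
  · exact absurd h pp_ne_rr
  · exact absurd h pp_ne_rr
  · exact absurd h pp_ne_rr
  · exact absurd h pp_ne_rr
  · obtain ⟨h1, h2⟩ := pp_inj h
    subst h1
    exact ⟨h2, rfl, h'⟩

/-- copies of `FF` with the linked pair for slot `j` prescribed -/
theorem two {V : Type} [DecidableEq V] (H' : SimpleGraph V) (Q : Finset V)
    (hQ : ∀ x ∈ Q, ∀ y ∈ Q, x ≠ y → H'.Adj x y) (hc : NS ≤ Q.card) (j : J)
    (e e' : DV → V) (he : Injective e) (he' : Injective e') (hee : ∀ x y, e x ≠ e' y)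
    (x₁ : DV)
    (ha : ∀ x y, x ≠ y → dadj x y → H'.Adj (e x) (e y))
    (ha' : ∀ x y, x ≠ y → dadj x y → H'.Adj (e' x) (e' y))
    (hl : ∀ x y, port src x → port (slot j) y → H'.Adj (e x) (e' y)) :
    ∃ f : VF → V, Injective f ∧ (∀ x, f (VF.g (pp j 0) x) = e x) ∧
      (∀ x, f (VF.g (pp j 1) x) = e' x) ∧ ∀ x y, FF.Adj x y → H'.Adj (f x) (f y) := by
  classical
  have h01 : (0 : Fin 2) ≠ 1 := by decide
  have hst : pp j 0 ≠ pp j 1 := fun h => h01 (pp_inj h).2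
  let S : Set VF := {v | ∃ x, v = VF.g (pp j 0) x ∨ v = VF.g (pp j 1) x}
  let f₀ : VF → V := fun v => match v with
    | VF.k _ => e x₁
    | VF.g i x => if i = pp j 0 then e x else e' x
    | VF.z => e x₁
  have fs : ∀ x, f₀ (VF.g (pp j 0) x) = e x := fun x => if_pos rfl
  have ft : ∀ x, f₀ (VF.g (pp j 1) x) = e' x := fun x => if_neg hst.symm
  have hS0 : ∀ v ∈ S, ∃ x, v = VF.g (pp j 0) x ∨ v = VF.g (pp j 1) x := fun v hv => hv
  have hS1 : ∀ x, VF.g (pp j 0) x ∈ S := fun x => ⟨x, Or.inl rfl⟩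
  have hS2 : ∀ x, VF.g (pp j 1) x ∈ S := fun x => ⟨x, Or.inr rfl⟩
  have n1 : ∀ j' b, Lnk (pp j 0) j' b → j' = j ∧ b = pp j 1 := fun j' b h => (pp_left h).2
  have n2 : ∀ a j', ¬ Lnk a j' (pp j 0) := fun a j' h => h01 (pp_right h).1
  have n3 : ∀ a j', Lnk a j' (pp j 1) → a = pp j 0 := fun a j' h => (pp_right h).2.2
  have n4 : ∀ j' b, ¬ Lnk (pp j 1) j' b := fun j' b h => h01 (pp_left h).1.symm
  suffices hkey : Set.InjOn f₀ S ∧ (∀ x ∈ S, ∀ y ∈ S, FF.Adj x y → H'.Adj (f₀ x) (f₀ y)) ∧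
      ∀ x ∈ S, ∀ y, y ∉ S → FF.Adj x y → ∀ v ∈ Q, v ≠ f₀ x → H'.Adj (f₀ x) v by
    obtain ⟨f, hf, hfS, -, hadj⟩ := extend H' Q hQ hc S f₀ hkey.1 hkey.2.1 hkey.2.2
    refine ⟨f, hf, fun x => ?_, fun x => ?_, hadj⟩
    · rw [hfS _ (hS1 x), fs]
    · rw [hfS _ (hS2 x), ft]
  clear_value f₀ S
  refine ⟨?_, ?_, ?_⟩
  · intro v hv w hw hvw
    obtain ⟨x, rfl | rfl⟩ := hS0 v hv <;> obtain ⟨y, rfl | rfl⟩ := hS0 w hw
    · rw [fs, fs] at hvw; rw [he hvw]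
    · rw [fs, ft] at hvw; exact absurd hvw (hee x y)
    · rw [ft, fs] at hvw; exact absurd hvw.symm (hee y x)
    · rw [ft, ft] at hvw; rw [he' hvw]
  · intro v hv w hw hvw
    obtain ⟨x, rfl | rfl⟩ := hS0 v hv <;> obtain ⟨y, rfl | rfl⟩ := hS0 w hw
    · rw [adj_gg] at hvw
      rw [fs, fs]
      obtain ⟨hne, h | ⟨j', h, -⟩ | ⟨j', h, -⟩⟩ := hvw
      · exact ha x y (fun hxy => hne (by rw [hxy])) h.2
      · exact absurd h (n2 _ _)
      · exact absurd h (n2 _ _)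
    · rw [adj_gg] at hvw
      rw [fs, ft]
      obtain ⟨hne, h | ⟨j', h, hx, hy⟩ | ⟨j', h, -⟩⟩ := hvw
      · exact absurd h.1 hst
      · have := (n1 _ _ h).1
        subst this
        exact hl x y hx hy
      · exact absurd h (n4 _ _)
    · rw [adj_gg] at hvw
      rw [fs, ft]
      obtain ⟨hne, h | ⟨j', h, -⟩ | ⟨j', h, hx, hy⟩⟩ := hvw
      · exact absurd h.1.symm hst
      · exact absurd h (n4 _ _)
      · have := (n1 _ _ h).1
        subst this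
        exact (hl y x hx hy).symm
    · rw [adj_gg] at hvw
      rw [ft, ft]
      obtain ⟨hne, h | ⟨j', h, -⟩ | ⟨j', h, -⟩⟩ := hvw
      · exact ha' x y (fun hxy => hne (by rw [hxy])) h.2
      · exact absurd h (n4 _ _)
      · exact absurd h (n4 _ _)
  · intro v hv w hw hvw
    exfalso
    have hw' : ∀ y, w ≠ VF.g (pp j 0) y ∧ w ≠ VF.g (pp j 1) y := by
      intro y
      constructor
      · intro h; exact hw (h ▸ hS1 y)
      · intro h; exact hw (h ▸ hS2 y)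
    obtain ⟨x, hv⟩ := hS0 v hv
    cases w with
    | k a =>
      rcases hv with rfl | rfl
      · exact adj_gk (fun r => pp_ne_rr) hvw
      · exact adj_gk (fun r => pp_ne_rr) hvw
    | z =>
      rcases hv with rfl | rfl
      · exact adj_gz hvw
      · exact adj_gz hvw
    | g i y =>
      have his : i ≠ pp j 0 := fun h => (hw' y).1 (by rw [h])
      have hit : i ≠ pp j 1 := fun h => (hw' y).2 (by rw [h])
      rcases hv with rfl | rfl
      · rw [adj_gg] at hvw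
        obtain ⟨-, h | ⟨j', h, -⟩ | ⟨j', h, -⟩⟩ := hvw
        · exact his h.1.symm
        · exact hit (n1 _ _ h).2
        · exact n2 _ _ h
      · rw [adj_gg] at hvw
        obtain ⟨-, h | ⟨j', h, -⟩ | ⟨j', h, -⟩⟩ := hvw
        · exact hit h.1.symm
        · exact n4 _ _ h
        · exact his (n3 _ _ h)

theorem fillGadget : S_fillGadget := by
  intro V _ _ H Q hQ hc e he x₀ y₀ hne h3 hadj
  set H' := H ⊔ SimpleGraph.edge (e x₀) (e y₀) with hH'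
  have hQ' : ∀ x ∈ Q, ∀ y ∈ Q, x ≠ y → H'.Adj x y := fun x hx y hy hxy =>
    Or.inl (hQ x hx y hy hxy)
  let f₀ : VF → V := fun v => match v with
    | VF.k _ => e x₀
    | VF.g _ x => e x
    | VF.z => e x₀
  have ff : ∀ x, f₀ (VF.g uu x) = e x := fun x => rfl
  let S : Set VF := {v | ∃ x, v = VF.g uu x}
  suffices hkey : Set.InjOn f₀ S ∧ (∀ x ∈ S, ∀ y ∈ S, FF.Adj x y → H'.Adj (f₀ x) (f₀ y)) ∧
      ∀ x ∈ S, ∀ y, y ∉ S → FF.Adj x y → ∀ v ∈ Q, v ≠ f₀ x → H'.Adj (f₀ x) v by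
    obtain ⟨f, hf, hfS, -, hfa⟩ := extend H' Q hQ' hc S f₀ hkey.1 hkey.2.1 hkey.2.2
    have hx : ∀ x, f (VF.g uu x) = e x := fun x => hfS _ ⟨x, rfl⟩
    refine ⟨f, hf, VF.g uu x₀, VF.g uu y₀, ?_, ?_, hfa⟩
    · rw [adj_gg]
      refine ⟨?_, Or.inl ⟨rfl, h3⟩⟩
      intro h
      apply hne
      injection h
    · rw [hx, hx]
  clear_value f₀
  refine ⟨?_, ?_, ?_⟩
  · rintro v ⟨x, rfl⟩ w ⟨y, rfl⟩ hvw
    rw [ff, ff] at hvw
    have : x = y := he hvw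
    rw [this]
  · rintro v ⟨x, rfl⟩ w ⟨y, rfl⟩ hvw
    rw [ff, ff]
    rw [adj_gg] at hvw
    obtain ⟨hne', h | ⟨j', h, -⟩ | ⟨j', h, -⟩⟩ := hvw
    · exact hadj x y (fun hxy => hne' (by rw [hxy])) h.2
    · exact absurd h no_uu_left
    · exact absurd h no_uu_left
  · rintro v ⟨x, rfl⟩ w hw hvw
    exfalso
    cases w with
    | k a => exact adj_gk (fun r => uu_ne_rr) hvw
    | z => exact adj_gz hvw
    | g i y =>
      rw [adj_gg] at hvw
      obtain ⟨-, h | ⟨j', h, -⟩ | ⟨j', h, -⟩⟩ := hvw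
      · apply hw
        exact ⟨y, by rw [← h.1]⟩
      · exact no_uu_left h
      · exact no_uu_right h

theorem fillLink : S_fillLink := by
  intro V _ _ H Q hQ hc j e e' he he' hee ha ha' x₀ y₀ hx₀ hy₀ hl
  set H' := H ⊔ SimpleGraph.edge (e x₀) (e' y₀) with hH'
  have hQ' : ∀ x ∈ Q, ∀ y ∈ Q, x ≠ y → H'.Adj x y := fun x hx y hy hxy =>
    Or.inl (hQ x hx y hy hxy)
  have hb : ∀ x y, x ≠ y → dadj x y → H'.Adj (e x) (e y) :=
    fun x y h1 h2 => Or.inl (ha x y h1 h2)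
  have hb' : ∀ x y, x ≠ y → dadj x y → H'.Adj (e' x) (e' y) :=
    fun x y h1 h2 => Or.inl (ha' x y h1 h2)
  obtain ⟨f, hf, h1, h2, h3⟩ := two H' Q hQ' hc j e e' he he' hee x₀ hb hb' hl
  refine ⟨f, hf, VF.g (pp j 0) x₀, VF.g (pp j 1) y₀, ?_, ?_, h3⟩
  · rw [adj_gg]
    refine ⟨?_, Or.inr (Or.inl ⟨j, Lnk.P j, hx₀, hy₀⟩)⟩
    intro h
    injection h with h
    exact absurd (pp_inj h).2 (by decide)
  · rw [h1, h2]

end Pool.Agent.H57.Irr.Fill

namespace Pool.Agent.H57.Irr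

theorem fill : S_fillGadget ∧ S_fillLink := ⟨Fill.fillGadget, Fill.fillLink⟩

end Pool.Agent.H57.Irr
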