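import Pool.Agent.H57.Irr.Spec

/-!
# The grid inequality from the descent lemma (helper356)
-/

set_option autoImplicit false

namespace Pool.Agent.H57.Irr

open Finset Function

namespace GridIneq

/-- extension of a finite sequence -/
def ext {N : ℕ} (f : Fin N → Fin 2) (n : ℕ) : Fin 2 := if h : n < N then f ⟨n, h⟩ else 0

theorem cnt (N i : ℕ) (hi : i ≤ N) (c : ℕ → Fin 2) :
    (univ.filter (fun f : Fin N → Fin 2 => ∀ a < i, c a = ext f (i - 1 - a))).card ≤
      2 ^ (N - i) := by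
  have h1 := Finset.card_le_card_of_injOn
    (s := univ.filter (fun f : Fin N → Fin 2 => ∀ a < i, c a = ext f (i - 1 - a)))
    (t := (univ : Finset (Fin (N - i) → Fin 2)))
    (fun f k => f ⟨i + k.val, by have := k.2; omega⟩) (fun f _ => mem_univ _) ?_
  · refine h1.trans ?_
    simp
  · intro f hf f' hf' h
    rw [mem_coe, mem_filter] at hf hf'
    funext n
    by_cases hn : n.val < i
    · have e1 := hf.2 (i - 1 - n.val) (by omega)
      have e2 := hf'.2 (i - 1 - n.val) (by omega)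
      have e3 : i - 1 - (i - 1 - n.val) = n.val := by omega
      rw [e3] at e1 e2
      unfold ext at e1 e2
      rw [dif_pos n.2] at e1 e2
      rw [← e1, ← e2]
    · have := congrFun h ⟨n.val - i, by have := n.2; omega⟩
      simp only at this
      have e : (⟨i + (n.val - i), by have := n.2; omega⟩ : Fin N) = n := by
        apply Fin.ext
        simp only
        omega
      rw [e] at this
      exact this

theorem summ : Summable fun p : ℕ × ℕ => if vb p.1 p.2 then (1 / 2 : ℝ) ^ (p.1 + p.2) else 0 := by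
  have h1 : Summable fun n : ℕ => (1 / 2 : ℝ) ^ n :=
    summable_geometric_of_lt_one (by norm_num) (by norm_num)
  have h2 : Summable fun p : ℕ × ℕ => (1 / 2 : ℝ) ^ p.1 * (1 / 2 : ℝ) ^ p.2 :=
    h1.mul_of_nonneg h1 (fun _ => by positivity) (fun _ => by positivity)
  refine Summable.of_nonneg_of_le (fun p => ?_) (fun p => ?_) h2
  · split_ifs
    · positivity
    · exact le_rfl
  · split_ifs
    · rw [pow_add]
    · positivity

theorem part_le (N : ℕ) :
    ∑ p ∈ range N ×ˢ range N, (if vb p.1 p.2 then (1 / 2 : ℝ) ^ (p.1 + p.2) else 0) ≤ vth := by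
  unfold vth
  refine summ.sum_le_tsum _ fun p _ => ?_
  split_ifs
  · positivity
  · exact le_rfl

theorem geo (N : ℕ) : ∑ p ∈ range N ×ˢ range N, (1 / 2 : ℝ) ^ (p.1 + p.2) ≤ 4 := by
  have h1 : ∑ p ∈ range N ×ˢ range N, (1 / 2 : ℝ) ^ (p.1 + p.2) =
      (∑ i ∈ range N, (1 / 2 : ℝ) ^ i) * ∑ j ∈ range N, (1 / 2 : ℝ) ^ j := by
    rw [Finset.sum_product, Finset.sum_mul_sum]
    refine sum_congr rfl fun i _ => sum_congr rfl fun j _ => ?_
    rw [pow_add]
  have h2 : ∑ i ∈ range N, (1 / 2 : ℝ) ^ i ≤ 2 := by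
    rw [geom_sum_eq (by norm_num)]
    have : (0 : ℝ) ≤ (1 / 2) ^ N := by positivity
    rw [div_le_iff_of_neg (by norm_num)]
    linarith
  have h3 : (0 : ℝ) ≤ ∑ i ∈ range N, (1 / 2 : ℝ) ^ i := sum_nonneg fun _ _ => by positivity
  rw [h1]
  nlinarith

end GridIneq

open GridIneq in
theorem gridIneq : S_descent → S_gridineq := by
  intro hd α _ G Exc rl sp tp ord hGS hExc
  classical
  set N : ℕ := G.sup ord + 1 with hN
  have hord : ∀ z ∈ G, ord z < N := fun z hz => Nat.lt_succ_of_le (le_sup (f := ord) hz)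
  have H : ∀ p : α × ((Fin N → Fin 2) × (Fin N → Fin 2)), ∃ t : (ℕ × ℕ) × α, p.1 ∈ G →
      (t.2 ∈ G ∧ t.1.1 + t.1.2 ≤ ord p.1 ∧ tp^[t.1.2] (sp^[t.1.1] t.2) = p.1 ∧
      (∀ a < t.1.1, ia (rl (sp^[a] t.2)) = ext p.2.1 (t.1.1 - 1 - a)) ∧
      (∀ b < t.1.2, ig (rl (tp^[b] (sp^[t.1.1] t.2))) = ext p.2.2 (t.1.2 - 1 - b)) ∧
      (t.2 ∈ Exc ∨ (own (rl t.2) = 0 ∧ (bit (own (rl p.1)) → vb t.1.1 t.1.2)))) := by
    intro p
    by_cases hp : p.1 ∈ G
    · obtain ⟨i, j, y, h⟩ := hd α G Exc rl sp tp ord hGS hExc p.1 hp (ext p.2.1) (ext p.2.2)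
      exact ⟨((i, j), y), fun _ => h⟩
    · exact ⟨((0, 0), p.1), fun h => absurd h hp⟩
  choose D hD using H
  set B := G.filter (fun z => bit (own (rl z))) with hB
  set Z := G.filter (fun z => own (rl z) = 0) with hZ
  -- the target
  set good : (ℕ × ℕ) × α → Prop := fun t => t.2 ∈ Exc ∨ (own (rl t.2) = 0 ∧ vb t.1.1 t.1.2)
    with hgood
  set cs : (ℕ × ℕ) × α → (Fin N → Fin 2) × (Fin N → Fin 2) → Prop := fun t ω =>
    (∀ a < t.1.1, ia (rl (sp^[a] t.2)) = ext ω.1 (t.1.1 - 1 - a)) ∧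
      (∀ b < t.1.2, ig (rl (tp^[b] (sp^[t.1.1] t.2))) = ext ω.2 (t.1.2 - 1 - b)) with hcs
  set S := (((range N ×ˢ range N) ×ˢ G) ×ˢ
    (univ : Finset ((Fin N → Fin 2) × (Fin N → Fin 2)))).filter
      (fun q => good q.1 ∧ cs q.1 q.2) with hS
  have h1 : (B ×ˢ (univ : Finset ((Fin N → Fin 2) × (Fin N → Fin 2)))).card ≤ S.card := by
    refine Finset.card_le_card_of_injOn (fun p => (D p, p.2)) ?_ ?_
    · intro p hp
      rw [mem_coe, mem_product] at hp
      have hpB := mem_filter.1 hp.1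
      obtain ⟨a1, a2, a3, a4, a5, a6⟩ := hD p hpB.1
      have hlt := hord p.1 hpB.1
      rw [mem_coe, hS, mem_filter]
      refine ⟨?_, ?_, a4, a5⟩
      · simp only [mem_product, mem_range, mem_univ, and_true]
        exact ⟨⟨by omega, by omega⟩, a1⟩
      · rcases a6 with a6 | a6
        · exact Or.inl a6
        · exact Or.inr ⟨a6.1, a6.2 hpB.2⟩
    · intro p hp p' hp' h
      rw [mem_coe, mem_product] at hp hp'
      have hpB := mem_filter.1 hp.1
      have hpB' := mem_filter.1 hp'.1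
      obtain ⟨-, -, a3, -⟩ := hD p hpB.1
      obtain ⟨-, -, a3', -⟩ := hD p' hpB'.1
      have e := Prod.mk.inj h
      have e1 : D p = D p' := e.1
      have e2 : p.2 = p'.2 := e.2
      refine Prod.ext ?_ e2
      rw [← a3, ← a3', e1]
  have h2 : S.card ≤ ∑ t ∈ (range N ×ˢ range N) ×ˢ G,
      (if good t then 2 ^ (N - t.1.1) * 2 ^ (N - t.1.2) else 0) := by
    rw [hS, Finset.card_filter, Finset.sum_product]
    refine sum_le_sum fun t ht => ?_
    simp only [mem_product, mem_range] at ht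
    by_cases hg : good t
    · simp only [hg, true_and, if_true]
      rw [← Finset.card_filter]
      have hsub : univ.filter (fun ω => cs t ω) ⊆
          (univ.filter (fun f : Fin N → Fin 2 => ∀ a < t.1.1,
            (fun a => ia (rl (sp^[a] t.2))) a = ext f (t.1.1 - 1 - a))) ×ˢ
          (univ.filter (fun f : Fin N → Fin 2 => ∀ b < t.1.2,
            (fun b => ig (rl (tp^[b] (sp^[t.1.1] t.2)))) b = ext f (t.1.2 - 1 - b))) := by
        intro ω hω
        have := (mem_filter.1 hω).2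
        rw [mem_product, mem_filter, mem_filter]
        exact ⟨⟨mem_univ _, this.1⟩, ⟨mem_univ _, this.2⟩⟩
      refine (card_le_card hsub).trans ?_
      rw [card_product]
      exact Nat.mul_le_mul (cnt N t.1.1 ht.1.1.le _) (cnt N t.1.2 ht.1.2.le _)
    · simp [hg]
  have h3 : ∑ t ∈ (range N ×ˢ range N) ×ˢ G,
      (if good t then 2 ^ (N - t.1.1) * 2 ^ (N - t.1.2) else 0) ≤
      ∑ p ∈ range N ×ˢ range N, (Exc.card + if vb p.1 p.2 then Z.card else 0) *
        (2 ^ (N - p.1) * 2 ^ (N - p.2)) := by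
    rw [Finset.sum_product]
    refine sum_le_sum fun p _ => ?_
    rw [← Finset.sum_filter]
    simp only
    rw [Finset.sum_const, smul_eq_mul]
    refine Nat.mul_le_mul_right _ ?_
    by_cases hv : vb p.1 p.2
    · rw [if_pos hv]
      refine (card_le_card (t := Exc ∪ Z) ?_).trans (card_union_le _ _)
      intro y hy
      rw [mem_filter] at hy
      rcases hy.2 with h | h
      · exact mem_union_left _ h
      · exact mem_union_right _ (mem_filter.2 ⟨hy.1, h.1⟩)
    · rw [if_neg hv, add_zero]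
      refine card_le_card ?_
      intro y hy
      rw [mem_filter] at hy
      rcases hy.2 with h | h
      · exact h
      · exact absurd h.2 hv
  have h4 : B.card * (2 ^ N * 2 ^ N) ≤
      ∑ p ∈ range N ×ˢ range N, (Exc.card + if vb p.1 p.2 then Z.card else 0) *
        (2 ^ (N - p.1) * 2 ^ (N - p.2)) := by
    have e : (B ×ˢ (univ : Finset ((Fin N → Fin 2) × (Fin N → Fin 2)))).card =
        B.card * (2 ^ N * 2 ^ N) := by
      rw [card_product]
      simp
    rw [← e]
    exact h1.trans (h2.trans h3)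
  have h5 : (B.card : ℝ) * (2 ^ N * 2 ^ N) ≤
      ∑ p ∈ range N ×ˢ range N, ((Exc.card : ℝ) + if vb p.1 p.2 then (Z.card : ℝ) else 0) *
        (2 ^ (N - p.1) * 2 ^ (N - p.2)) := by
    have := (Nat.cast_le (α := ℝ)).2 h4
    push_cast at this
    exact this
  have h6 : ∑ p ∈ range N ×ˢ range N, ((Exc.card : ℝ) + if vb p.1 p.2 then (Z.card : ℝ) else 0) *
        (2 ^ (N - p.1) * 2 ^ (N - p.2)) =
      (2 ^ N * 2 ^ N) * ((Exc.card : ℝ) * ∑ p ∈ range N ×ˢ range N, (1 / 2 : ℝ) ^ (p.1 + p.2) +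
        (Z.card : ℝ) * ∑ p ∈ range N ×ˢ range N,
          (if vb p.1 p.2 then (1 / 2 : ℝ) ^ (p.1 + p.2) else 0)) := by
    rw [Finset.mul_sum, Finset.mul_sum, ← Finset.sum_add_distrib, Finset.mul_sum]
    refine sum_congr rfl fun p hp => ?_
    simp only [mem_product, mem_range] at hp
    have e1 : (2 : ℝ) ^ (N - p.1) = 2 ^ N * (1 / 2) ^ p.1 := by
      rw [pow_sub₀ _ (by norm_num) hp.1.le]
      simp
    have e2 : (2 : ℝ) ^ (N - p.2) = 2 ^ N * (1 / 2) ^ p.2 := by
      rw [pow_sub₀ _ (by norm_num) hp.2.le]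
      simp
    rw [e1, e2, pow_add]
    split_ifs <;> ring
  rw [h6] at h5
  have h7 : (B.card : ℝ) ≤ (Exc.card : ℝ) * ∑ p ∈ range N ×ˢ range N, (1 / 2 : ℝ) ^ (p.1 + p.2) +
        (Z.card : ℝ) * ∑ p ∈ range N ×ˢ range N,
          (if vb p.1 p.2 then (1 / 2 : ℝ) ^ (p.1 + p.2) else 0) := by
    have hpos : (0 : ℝ) < 2 ^ N * 2 ^ N := by positivity
    rw [mul_comm] at h5
    exact le_of_mul_le_mul_left h5 hpos
  have h8 := mul_le_mul_of_nonneg_left (geo N) (Nat.cast_nonneg (α := ℝ) Exc.card)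
  have h9 := mul_le_mul_of_nonneg_left (part_le N) (Nat.cast_nonneg (α := ℝ) Z.card)
  linarith

end Pool.Agent.H57.Irr

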