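import Pool.Agent.H57.Irr.Spec

/-! GROUND (helper353). -/

set_option autoImplicit false

namespace Pool.Agent.H57.Irr

open Finset Function

namespace Ground

theorem st_cases (σ : St) : (¬ sk σ ∧ ¬ tk σ ↔ σ = 0) := by
  revert σ; decide

/-- fibre bound -/
theorem fib {α : Type} [DecidableEq α] (A S : Finset α) (f : α → α) (g : α → Fin 2)
    (hf : ∀ x ∈ A, f x ∈ S) (hinj : ∀ x ∈ A, ∀ y ∈ A, f x = f y → g x = g y → x = y) :
    A.card ≤ 2 * S.card := by
  have h : A.card ≤ (S ×ˢ (univ : Finset (Fin 2))).card := by
    apply card_le_card_of_injOn (fun x => (f x, g x))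
    · intro x hx
      exact mem_coe.2 (mem_product.2 ⟨hf x hx, mem_univ _⟩)
    · intro x hx y hy hxy
      have h1 : f x = f y := congrArg Prod.fst hxy
      have h2 : g x = g y := congrArg Prod.snd hxy
      exact hinj x hx y hy h1 h2
  rw [card_product, card_univ, Fintype.card_fin] at h
  omega

end Ground

open Ground in
theorem ground : S_ground := by
  intro α _ G Exc rl sp tp ord hGS
  classical
  have a1 : (G.filter (fun x => sp x ∈ G)).card + (G.filter (fun x => ¬ sp x ∈ G)).card = G.card :=
    card_filter_add_card_filter_not _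
  have a2 : (G.filter (fun x => sk (own (rl x)))).card +
      (G.filter (fun x => ¬ sk (own (rl x)))).card = G.card :=
    card_filter_add_card_filter_not _
  have a3 : (G.filter (fun x => sp x ∈ G)).card ≤ 2 * (G.filter (fun x => sk (own (rl x)))).card := by
    apply fib _ _ sp (fun x => ia (rl x))
    · intro x hx
      rw [mem_filter] at hx ⊢
      exact ⟨hx.2, (hGS.s1 x hx.1 hx.2).1⟩
    · intro x hx y hy h1 h2
      rw [mem_filter] at hx hy
      exact hGS.s3 x hx.1 y hy.1 hx.2 h1 h2
  set N := G.filter (fun x => ¬ sk (own (rl x))) with hN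
  have a4 : (N.filter (fun x => tk (own (rl x)))).card +
      (N.filter (fun x => ¬ tk (own (rl x)))).card = N.card :=
    card_filter_add_card_filter_not _
  have a5 : N.filter (fun x => ¬ tk (own (rl x))) = G.filter (fun z => own (rl z) = 0) := by
    rw [hN, filter_filter]
    apply filter_congr
    intro x _
    exact st_cases _
  have a6 : (N.filter (fun x => tp x ∈ G)).card + (N.filter (fun x => ¬ tp x ∈ G)).card = N.card :=
    card_filter_add_card_filter_not _
  have a7 : (N.filter (fun x => ¬ tp x ∈ G)).card ≤ (G.filter (fun x => ¬ tp x ∈ G)).card :=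
    card_le_card (filter_subset_filter _ (filter_subset _ _))
  have a8 : (N.filter (fun x => tp x ∈ G)).card ≤ 2 * (N.filter (fun x => tk (own (rl x)))).card := by
    apply fib _ _ tp (fun x => ig (rl x))
    · intro x hx
      rw [mem_filter, hN, mem_filter] at hx
      obtain ⟨⟨hxG, hsk⟩, htG⟩ := hx
      obtain ⟨h1, h2⟩ := hGS.t1 x hxG htG
      have h3 := (rl (tp x)).2.2.1 h1
      rw [mem_filter, hN, mem_filter]
      refine ⟨⟨htG, ?_⟩, h1⟩
      intro h4
      apply hsk
      rw [h2]
      exact h3.2 h4
    · intro x hx y hy h1 h2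
      rw [mem_filter, hN, mem_filter] at hx hy
      exact hGS.t3 x hx.1.1 y hy.1.1 hx.2 h1 h2
  rw [a5] at a4
  omega

end Pool.Agent.H57.Irr
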