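import Pool.Agent.H57.Irr.Tree

/-!
# Irrational weak saturation limit: the interfaces

Every `S_...` below is one lemma of the proof (a `Prop`); its paper proof is in the docstring.
Most of them are close variants of lemmas already proved in `Pool/Agent/H57/Tuza/*.lean`.
-/

set_option autoImplicit false

namespace Pool.Agent.H57.Irr

open Finset Function

/-! ## absorption -/

/-- absorb a set `Y` of fresh vertices (helper57 proves this) -/
def S_absorbSet : Prop :=
  ∀ (V : Type) [Fintype V] [DecidableEq V] (H : SimpleGraph V) (T : Finset V)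
    (R : Finset (Gad V)) (fl : Gad V → J → Prop) (Y : Finset V), Valid H T R → Disjoint Y T →
    (∀ W ∈ R, Disjoint Y W.all) →
    Valid H (T ∪ Y) R ∧
    Psi H (T ∪ Y) R fl ≤ Psi H T R fl + cc * Y.card - (E2 H Y T : ℝ) - (E2 H Y Y : ℝ) / 2

/-- absorb a registered gadget `A` with unchanged flags (helper57 proves this): cost at most
161201 minus the degree into `T` of any vertex of `A`, at most 161201 minus the number of edges from
`T` to the rest class of `A`; `49999999999994579960098670` is the number of edges of a complete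
gadget -/
def S_absorbGad : Prop :=
  ∀ (V : Type) [Fintype V] [DecidableEq V] (H : SimpleGraph V) (T : Finset V)
    (R : Finset (Gad V)) (fl : Gad V → J → Prop) (A : Gad V), Valid H T R → A ∈ R →
    Valid H (T ∪ A.all) (R.erase A) ∧
    (∀ w ∈ A.all, Psi H (T ∪ A.all) (R.erase A) fl ≤ Psi H T R fl + 161201 - (d H T w : ℝ)) ∧
    Psi H (T ∪ A.all) (R.erase A) fl ≤ Psi H T R fl + 161201 - (E2 H T (A.L rest) : ℝ) ∧
    Psi H (T ∪ A.all) (R.erase A) fl ≤
      Psi H T R fl + 49999999999994579960259871 - (E2 H A.all A.all : ℝ) / 2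

/-- MISMATCH. Two different complete labelled gadgets on the same vertex set: then at least 199999
additional edges (`49999999999994579960298669 = 49999999999994579960098670 + 199999`).
Adapt `Pool/Agent/H57/Tuza/Mismatch.lean` (21 independent classes `src`, `slot j` of different sizes
`200000 .. 200020` instead of 3).

Proof. Every pair inside `W.all` which is not inside a class `W.L c`, `c ≠ rest`, is an edge, as is
every pair which is not inside a class `B.L c`, `c ≠ rest`. The number of pairs of the first kind is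
`49999999999994579960098670`. So find 199999 pairs inside some `W.L c`, `c ≠ rest`, and not inside a
`B.L c'`, `c' ≠ rest`. If some `W.L c` (`c ≠ rest`, size `s ≥ 200000`) is not contained in one
`B.L c'` with `c' ≠ rest`: either it meets `B.L rest` in a vertex `x`: pairs `{x,y}`,
`y ∈ W.L c`, `y ≠ x` (at least 199999); or it meets two classes: the pairs between a part with `a`
vertices and the other `s - a` number `a (s - a) ≥ s - 1`. Otherwise each `W.L c` (`c ≠ rest`) is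
contained in some `B.L (τ c)`, `τ c ≠ rest`; two of them cannot be in the same `B.L c'` since
`200000 + 200000 > 200020`; so `τ` is injective on the 21 classes, hence a bijection, with
`sz c ≤ sz (τ c)`; the sizes are pairwise different, so `τ = id` (sum of sizes), `W.L c = B.L c` by
cardinality, and `W.L rest = B.L rest` as complements: `W = B`. -/
def S_mismatch : Prop :=
  ∀ (V : Type) [Fintype V] [DecidableEq V] (H : SimpleGraph V) (W B : Gad V),
    Comp H W → Comp H B → W.all = B.all → W ≠ B →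
    2 * 49999999999994579960298669 ≤ E2 H W.all W.all

/-- BULK. A complete gadget `B` which is not contained in `T`, not registered, and not fresh. Then
absorb things, all gadgets taken out of `R` are inside the new `T`, and we gain 150 for each of
them, plus 2. Adapt `Pool/Agent/H57/Tuza/Bulk.lean` (there: no gain per gadget).

Proof. (i) for `w ∈ B.all`, `d H S w ≥ |S| - 200020` for every `S ⊆ B.all`. (ii) Absorb one after
the other all gadgets of a subset `𝒮 ⊆ R` of gadgets that meet `B.all`: then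
`Psi' + 150 |𝒮| ≤ Psi + 161351 * min(|𝒮|, 361371)`. Induction: after `k` absorptions
`|B.all ∩ T'| ≥ k`, absorbing `W` containing `w ∈ B.all` costs (with the 150)
`161351 - d H T' w ≤ 161351 - (k - 200020)`, `≤ 0` for `k ≥ 361371`.
`161351 * 361371 < 5.9 * 10^10`, call it `K'`.
Case 1: some `W ∈ R` has `W.all = B.all`; as `W ≠ B`, `S_mismatch` and the last bound of
`S_absorbGad`: absorbing `W` costs at most
`49999999999994579960259871 - 49999999999994579960298669 = -38798 ≤ -152`.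
Case 2: the set `Y` of vertices of `B.all` neither in `T` nor in any `W ∈ R` is nonempty; `Y ≠ B.all`
(not fresh). Absorb all `W ∈ R` meeting `B.all`, giving `T1`, then `Y` by `S_absorbSet`. With
`b = |Y|`, `1 ≤ b ≤ 10^13 - 1`: `E2 H Y T1 + E2 H Y Y / 2 ≥ b (10^13 - b) + b (b-1)/2 - 420039901330`
(the last number is the number of non-adjacent pairs in a gadget), `cc ≤ (10^13 - 1)/2`, so the
cost of `Y` is `≤ - b (10^13 - b)/2 + 420039901330 ≤ -(10^13 - 1)/2 + 420039901330`. Total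
`≤ K' + 420039901330 - (10^13-1)/2 ≤ -2`.
Case 3: `B.all ⊆ T ∪ ⋃ W`. As `B.all ⊄ T` some `W* ∈ R` meets `B.all`; absorb all other `W ∈ R`
meeting `B.all`, giving `T1 ⊇ B.all \ W*.all`. `b = |B.all ∩ W*.all| < 10^13` (else case 1).
Absorbing `W*` costs at most `161201 - max(10^13 - b - 200020, b - 200020 - 4200210)`: a vertex
`w ∈ B.all ∩ W*.all` has `≥ 10^13 - b - 200020` neighbours in `T1`; a vertex `t ∈ B.all ∩ T1` has at
least `b - 200020` neighbours in `B.all ∩ W*.all`, at least `b - 200020 - 4200210` of them in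
`W*.L rest` (`4200210` = total size of the other classes). Total
`≤ K' + 161351 - (10^13 - 4600250)/2 ≤ -2`. -/
def S_bulk : Prop :=
  ∀ (V : Type) [Fintype V] [DecidableEq V] (H : SimpleGraph V) (T : Finset V)
    (R : Finset (Gad V)) (fl : Gad V → J → Prop) (B : Gad V), Valid H T R → Comp H B →
    ¬ B.all ⊆ T → B ∉ R → ¬ (Disjoint B.all T ∧ ∀ W ∈ R, Disjoint B.all W.all) →
    ∃ T' R', Valid H T' R' ∧ T ⊆ T' ∧ R' ⊆ R ∧ (∀ W ∈ R \ R', W.all ⊆ T') ∧
      Psi H T' R' fl + 150 * ((R \ R').card : ℝ) + 2 ≤ Psi H T R fl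

/-- BIG CLIQUE. If a clique `K` with `MK = 10^40` vertices is not contained in `T`, we can absorb
things and gain 150 for each gadget taken out of `R`, plus 3. Adapt
`Pool/Agent/H57/Tuza/BigClique.lean`.

Proof. Strong induction on `|K \ T|`; claim: if `a = |K ∩ T| < MK` there is a valid `(T', R')` with
`Psi' + 150 |R \ R'| ≤ Psi + G(a)`, `G(a) = -3 - (MK - a)/10^13 + (cc + 151) * max(0, s - a)`,
`s = 5000000000200`. Take `w ∈ K \ T`. If `w ∈ W.all`, `W ∈ R`, absorb `W`: cost with the 150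
`≤ 161351 - a ≤ cc + 150 - a`. Otherwise absorb `{w}`: cost `≤ cc - a`. The new value of
`|K ∩ T|` is `a + j`, `1 ≤ j ≤ 10^13`. If `a + j = MK` we are done: cost `≤ cc + 150 - a ≤ -4 ≤
G(a)`. Otherwise `(cc + 150 - a) + G(a+j) ≤ G(a)`: `G(a) - G(a+j) ≥ -1 + (cc + 151)` if `a < s`, and
`≥ -1` if `a ≥ s`, while `cc + 150 - a ≤ cc + 150`, resp. `≤ -50`. `G(a) ≤ -3` for all `a < MK`. -/
def S_bigclique : Prop :=
  ∀ (V : Type) [Fintype V] [DecidableEq V] (H : SimpleGraph V) (T : Finset V)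
    (R : Finset (Gad V)) (fl : Gad V → J → Prop) (K : Finset V), Valid H T R → K.card = MK →
    (∀ x ∈ K, ∀ y ∈ K, x ≠ y → H.Adj x y) → ¬ K ⊆ T →
    ∃ T' R', Valid H T' R' ∧ T ⊆ T' ∧ R' ⊆ R ∧ (∀ W ∈ R \ R', W.all ⊆ T') ∧
      Psi H T' R' fl + 150 * ((R \ R').card : ℝ) + 3 ≤ Psi H T R fl

/-- STEP -> CFG. Adapt `Pool/Agent/H57/Tuza/Cfg.lean`. `dock`: for `r`, `j ∈ Ins r` the 201 vertices
`K` with index in `[201 code j, 201 code j + 201)` are adjacent to the whole port of slot `j` of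
gadget `(r,0)`. `eedge`: `hh r` vertices of `K` are adjacent to vertex 0 of the rest class of
gadget `(r,0)` and one vertex of `K` to vertex 1 of it. -/
def S_cfg : Prop :=
  ∀ (V : Type) [Fintype V] [DecidableEq V] (H H' : SimpleGraph V), Step FF H H' →
    ∃ (C : Cfg H') (p q : V), p ≠ q ∧ H' = H ⊔ SimpleGraph.edge p q ∧ C.fcase p q

/-- STEP LEMMA (helper57 proves this) -/
def S_step : Prop :=
  ∀ (V : Type) [Fintype V] [DecidableEq V] (H H' : SimpleGraph V) (C : Cfg H') (p q : V),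
    p ≠ q → H' = H ⊔ SimpleGraph.edge p q → C.fcase p q → ∀ T R fl, Valid H T R →
    Outcome H H' T R fl

/-- TOP. In the complete graph, `n ≥ 2 * 10^13`: absorbing `W ∈ R` costs at most
`49999999999994579960259871 - 10^13 (10^13 - 1)/2 = -420039740129 ≤ -150`, so
`Psi ⊤ T R fl ≥ Psi ⊤ T' ∅ fl + 150 |R|`, `T' = T ∪ ⋃ W`, `t = |T'| ≤ n`, and
`Psi ⊤ T' ∅ fl = cc t + (n(n-1) - t(t-1))/2 = cc n + (n - t)((n + t - 1)/2 - cc) ≥ cc n`.
Adapt the first part of `Pool/Agent/H57/Tuza/TopTok.lean`. -/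
def S_top : Prop :=
  S_absorbGad → ∀ (V : Type) [Fintype V] [DecidableEq V] (T : Finset V) (R : Finset (Gad V))
    (fl : Gad V → J → Prop), 2 * 10 ^ 13 ≤ Fintype.card V → Valid (⊤ : SimpleGraph V) T R →
    cc * (Fintype.card V : ℝ) + 150 * R.card ≤ Psi (⊤ : SimpleGraph V) T R fl

/-! ## history -/

/-- history: `A` the gadgets absorbed by a rule, `G ⊆ A` the good ones, `Bd` all absorbed gadgets that
are not good, rule, s-parent, t-parent, common grandparent (if it was registered), time -/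
structure Hs (V : Type*) where
  G : Finset (Gad V)
  A : Finset (Gad V)
  Bd : Finset (Gad V)
  rl : Gad V → Rul
  sp : Gad V → Gad V
  tp : Gad V → Gad V
  mo : Gad V → Option (Gad V)
  ord : Gad V → ℕ

/-- `W, j` is a parent slot of `A` -/
def Hs.PS {V : Type*} (h : Hs V) (A W : Gad V) (j : J) : Prop :=
  (W = h.sp A ∧ j = sE (h.rl A)) ∨ (W = h.tp A ∧ j = sZ (h.rl A))

/-- recorded link from `X` to slot `j` of `Y` -/
def Hs.RL {V : Type*} (h : Hs V) (X Y : Gad V) (j : J) : Prop :=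
  (X ∈ h.A ∧ h.PS X Y j) ∨ (∃ A ∈ h.G, ∃ M, h.mo A = some M ∧
    ((X = h.sp A ∧ Y = M ∧ j = mE (h.rl A)) ∨ (X = h.tp A ∧ Y = M ∧ j = mZ (h.rl A))))

/-- flags given by a history -/
def Hs.fl {V : Type*} (h : Hs V) : Gad V → J → Prop := fun W j => ∃ A ∈ h.A, h.PS A W j

/-- the invariant of a state with history -/
structure Inv {V : Type*} [DecidableEq V] (H : SimpleGraph V) (T : Finset V)
    (R : Finset (Gad V)) (h : Hs V) : Prop where
  valid : Valid H T R
  GA : h.G ⊆ h.A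
  AB : h.A ⊆ h.G ∪ h.Bd
  gT : ∀ A ∈ h.G ∪ h.Bd, A.all ⊆ T
  dj : ∀ A ∈ h.G ∪ h.Bd, ∀ B ∈ h.G ∪ h.Bd, A ≠ B → Disjoint A.all B.all
  par : ∀ A ∈ h.A, h.sp A ∈ h.G ∪ h.Bd ∪ R ∧ h.tp A ∈ h.G ∪ h.Bd ∪ R
  mo1 : ∀ A ∈ h.G, ∀ M, h.mo A = some M → M ∈ h.G ∪ h.Bd ∪ R
  mo2 : ∀ A ∈ h.G, h.mo A = none → h.sp A ∉ h.G ∧
    (h.sp A ∈ R → 201 ≤ nf H T ((h.sp A).L src))
  rl : ∀ X Y j, h.RL X Y j → X ≠ Y ∧ FL H (X.L src) (Y.L (slot j))
  uniq : ∀ X ∈ h.G, ∀ X' ∈ h.G, ∀ M j, h.RL X M j → h.RL X' M j → X = X'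
  uch : ∀ W ∈ h.G, ∀ A ∈ h.A, ∀ A' ∈ h.A, ∀ j, h.PS A W j → h.PS A' W j → A = A'
  ins : ∀ W ∈ h.G, ∀ j, j ∈ Ins (h.rl W) ↔ ∃ A ∈ h.A, h.PS A W j
  back : ∀ X Y j, h.RL X Y j → Y ∈ h.G → X ∈ h.A ∧ h.PS X Y j
  ord1 : ∀ A ∈ h.A, h.ord A < h.A.card
  ord2 : ∀ A ∈ h.A, (h.sp A ∈ h.A → h.ord A < h.ord (h.sp A)) ∧
    (h.tp A ∈ h.A → h.ord A < h.ord (h.tp A))

/-- HISTORY 1. The invariant persists when `H` and `R` grow; and when gadgets are moved from `R` to
the bad cells. Everything is monotone (`FL`, `nf`); new gadgets of `R'` are disjoint from `T`. In the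
second part `G ∪ Bd ∪ R` does not change. -/
def S_hist1 : Prop :=
  (∀ (V : Type) [Fintype V] [DecidableEq V] (H H' : SimpleGraph V) (T : Finset V)
    (R R' : Finset (Gad V)) (h : Hs V), Inv H T R h → H ≤ H' → R ⊆ R' → Valid H' T R' →
    Inv H' T R' h) ∧
  (∀ (V : Type) [Fintype V] [DecidableEq V] (H : SimpleGraph V) (T T' : Finset V)
    (R R' : Finset (Gad V)) (h : Hs V), Inv H T R h → T ⊆ T' → R' ⊆ R → Valid H T' R' →
    (∀ W ∈ R \ R', W.all ⊆ T') → Inv H T' R' { h with Bd := h.Bd ∪ (R \ R') })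

/-- HISTORY 2. The invariant after a good absorption. New history: `G' = insert A G`,
`A' = insert A h.A`, `rl' A = r`, `sp' A = E`, `tp' A = Z`, `mo' A = some M` if `M ∈ R`, else `none`,
`ord' A = |h.A|` (`Function.update`).

Proof. `A ∈ R` so `A ∉ G ∪ Bd` (these are inside `T`), so `A ∉ h.A`. Recorded links of the new
history: the old ones, `A → E` (slot `sE r`), `A → Z` (slot `sZ r`), and if `M ∈ R`: `E → M` (slot
`mE r`), `Z → M` (slot `mZ r`). `E, Z, M ≠ A`; `E`, `Z` (and `M` if recorded) are in `R`, so not in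
`G ∪ Bd`. `mo2` for `A` if `M ∉ R`, i.e. `M.all ⊆ T`: `E ∉ insert A G`; `nf T (E.L src) ≥ 201` from
`fEM : FL H (E.L src) (M.L _)` (all 201 vertices of the `M`-side are in `T`). `mo2` for old `A' ∈ G`
with `mo A' = none`: `sp A' ≠ A`, since `A ∈ R` would have `201 ≤ nf H T (A.L src)`, contradicting
`noT`.
`uniq`: only pairs `X = A`, `X' ∈ G` are new. Let `A → M'` (slot `j`) and `X' → M'` (slot `j`)
be recorded (old or new). `M' ∈ G ∪ Bd ∪ R` by `par`, `mo1`. If `M' ∈ R` (`M' ≠ A`): `X'.all ⊆ T` and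
`FL (X'.L src) (M'.L (slot j))` give `nf T (M'.L (slot j)) ≥ 201`, contradicting `first`. If
`M' ∈ G ∪ Bd` then `M'.all ⊆ T` and `FL (A.L src) (M'.L _)` contradicts `noT`.
`ins`, `uch` for `W = A`: `j ∈ Ins r` is flagged by `flagged`: some `A' ∈ h.A` with `PS A' A j`.
Conversely `PS A' A j` with `A' ∈ h.A` gives `nf T (A.L (slot j)) ≥ 201` (recorded link `A' → A`,
`A'.all ⊆ T`), so `j ∈ Ins r` by `undocked`; `PS A A j` is impossible as `E, Z ≠ A`. Two different
`A', A''` would be disjoint and give `nf T (A.L (slot j)) ≥ 402`, contradicting `single`. For old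
`W ∈ G`: the new parent slots are at `E, Z ∉ G`.
`back` for `Y = A`: only old records `X → A` (slot `j`), `X ≠ A`, `X ∈ G ∪ Bd ∪ R`. `X ∈ R`
contradicts `noin`. Else `X.all ⊆ T`, so `nf T (A.L (slot j)) ≥ 201`, `j ∈ Ins r` (`undocked`), so by
`flagged` some `A' ∈ h.A`, `PS A' A j`; if `X ≠ A'` the two disjoint sets give
`nf T (A.L (slot j)) ≥ 402`, contradicting `single`. `back` for old `Y ∈ G`: new records have targets
`E, Z, M ∈ R`. `ord`: `ord' A = |h.A|`, `|insert A h.A| = |h.A| + 1`; if `sp A' = A` for old `A'` then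
`ord A' < |h.A| = ord' A`; `E, Z ∉ insert A h.A`. -/
def S_hist2 : Prop :=
  ∀ (V : Type) [Fintype V] [DecidableEq V] (H : SimpleGraph V) (T : Finset V)
    (R : Finset (Gad V)) (h : Hs V) (A : Gad V) (r : Rul) (E M Z : Gad V),
    Inv H T R h → GoodAbs H T R h.fl A r E M Z → Valid H (T ∪ A.all) (R.erase A) →
    ∃ h' : Hs V, Inv H (T ∪ A.all) (R.erase A) h' ∧ h'.G = insert A h.G ∧ A ∉ h.G ∧
      h'.Bd = h.Bd ∧ h'.rl A = r ∧ (∀ W ∈ h.G, h'.rl W = h.rl W) ∧
      (∀ W j, h'.fl W j ↔ upd h.fl r E Z W j)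

/-- HISTORY 3. The invariant after a bad absorption by a rule. New history: `G' = G`,
`A' = insert A h.A`, `Bd' = insert A Bd`, `rl' A = r`, `sp' A = E`, `tp' A = Z`, `ord' A = |h.A|`.
New records: only `A → E`, `A → Z`, with targets in `R`, not in `G`; `A ∉ G'`, so `uniq`, `uch`,
`ins`, `back` are only about old things (`A` is not one of the old `A' ∈ h.A`). `mo2`: fine since
`A ∉ G`, `A ∉ R.erase A`. -/
def S_hist3 : Prop :=
  ∀ (V : Type) [Fintype V] [DecidableEq V] (H : SimpleGraph V) (T : Finset V)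
    (R : Finset (Gad V)) (h : Hs V) (A : Gad V) (r : Rul) (E Z : Gad V),
    Inv H T R h → A ∈ R → E ∈ R → Z ∈ R → A ≠ E → A ≠ Z → E ≠ Z →
    FL H (A.L src) (E.L (slot (sE r))) → FL H (A.L src) (Z.L (slot (sZ r))) →
    Valid H (T ∪ A.all) (R.erase A) →
    ∃ h' : Hs V, Inv H (T ∪ A.all) (R.erase A) h' ∧ h'.G = h.G ∧
      h'.Bd = insert A h.Bd ∧ (∀ W ∈ h.G, h'.rl W = h.rl W) ∧
      (∀ W j, h'.fl W j ↔ upd h.fl r E Z W j)

/-- number of good cells with bit 1 -/
def Hs.cnt {V : Type*} (h : Hs V) : ℕ := (h.G.filter (fun A => bit (own (h.rl A)))).card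

/-- RUN. Forward induction along the path from `H` (state `T = ∅`, `R = ∅`, empty history; Psi is
`E2 H univ univ / 2`) with the invariant `∃ T R h, Inv H₁ T R h ∧ Psi H₁ T R h.fl + 150 |Bd| ≤
E2 H univ univ / 2 + cnt h`. Outcome 1: `S_hist1` part 1. Outcome 2: part 1 to `R1`, then part 2;
`|Bd ∪ (R1 \ R')| ≤ |Bd| + |R1 \ R'|`; `h.fl` does not change. Outcome 3: part 1 to `R1`, then
`S_hist2`; `cnt h' = cnt h + bon r`, `Psi` with `h'.fl` equals `Psi` with `upd h.fl r E Z`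
(`funext`, `propext`). Outcome 4: `S_hist3`, `cnt` unchanged, `|insert A Bd| ≤ |Bd| + 1`. `Valid` for
`T ∪ A.all`, `R1.erase A` is immediate. -/
def S_run : Prop :=
  S_hist1 → S_hist2 → S_hist3 → ∀ (V : Type) [Fintype V] [DecidableEq V]
    (St : SimpleGraph V → SimpleGraph V → Prop) (H : SimpleGraph V),
    (∀ H₁ H₂, St H₁ H₂ → H₁ ≤ H₂ ∧ ∀ T R fl, Valid H₁ T R → Outcome H₁ H₂ T R fl) →
    Relation.ReflTransGen St H ⊤ →
    ∃ T R h, Inv (⊤ : SimpleGraph V) T R h ∧
      Psi (⊤ : SimpleGraph V) T R h.fl + 150 * (h.Bd.card : ℝ) ≤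
        (E2 H univ univ : ℝ) / 2 + (h.cnt : ℝ)

/-! ## combinatorics of the final structure -/

/-- abstract grid system on a finite set `G` with exceptional set `Exc` -/
structure GS {α : Type*} [DecidableEq α] (G Exc : Finset α) (rl : α → Rul) (sp tp : α → α)
    (ord : α → ℕ) : Prop where
  -- s-children
  s1 : ∀ x ∈ G, sp x ∈ G → sk (own (rl (sp x))) ∧ own (rl x) = σs (rl (sp x))
  s2 : ∀ z ∈ G, z ∉ Exc → sk (own (rl z)) → ∀ i : Fin 2, ∃ x ∈ G, sp x = z ∧ ia (rl x) = i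
  s3 : ∀ x ∈ G, ∀ y ∈ G, sp x ∈ G → sp x = sp y → ia (rl x) = ia (rl y) → x = y
  -- t-children
  t1 : ∀ x ∈ G, tp x ∈ G → tk (own (rl (tp x))) ∧ own (rl x) = σt (rl (tp x))
  t2 : ∀ z ∈ G, z ∉ Exc → tk (own (rl z)) → ∀ i : Fin 2, ∃ x ∈ G, tp x = z ∧ ig (rl x) = i
  t3 : ∀ x ∈ G, ∀ y ∈ G, tp x ∈ G → tp x = tp y → ig (rl x) = ig (rl y) → x = y
  -- commutation outside the exceptional set
  comm : ∀ x ∈ G, x ∉ Exc → sp x ∈ G → tp (sp x) ∈ G → tp (sp x) ∉ Exc →
    tp x ∈ G ∧ sp (tp x) = tp (sp x) ∧ ia (rl (tp x)) = ia (rl x) ∧ ig (rl (sp x)) = ig (rl x)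
  o1 : ∀ x ∈ G, sp x ∈ G → ord x < ord (sp x)
  o2 : ∀ x ∈ G, tp x ∈ G → ord x < ord (tp x)

/-- STATIC. From the invariant to the grid system.

Proof. `Exc = Exc0 ∪ Exc1`, `Exc0` = the `z ∈ G` such that some `x ∈ h.A \ G` has `sp x = z` or
`tp x = z` (at most `2 |Bd|` since `h.A \ G ⊆ Bd`), `Exc1` = the `x ∈ G` with `sp x ∈ G`,
`tp (sp x) ∈ G` and `mo x ≠ some (tp (sp x))`.
s1: `PS x (sp x) (sE (rl x))`, so `sE (rl x) ∈ Ins (rl (sp x))` by `ins`; `sE (rl x) = (0, ia, own)`,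
and the elements of `Ins` with first component 0 are `(0, i, σs)`, present only if `sk (own ..)`.
s2: `(0, i, σs (rl z)) ∈ Ins (rl z)`, so by `ins` some `A ∈ h.A` with `PS A z (0,i,σs)`; since `sZ` has
first component 1 it is the `sp` alternative; `A ∈ G` since `z ∉ Exc0`. s3: by s1 both have own state
`σs`, so the same slot, `uch`. Same for t.
comm: `x ∉ Exc1`: `mo x = some z`, `z = tp (sp x) ∈ G`. The record `sp x → z` (slot `mE (rl x)`) and
`back`: `PS (sp x) z (mE (rl x))`; `mE = (1, ig (rl x), _)`, so it is the t alternative and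
`mE (rl x) = sZ (rl (sp x))`: `ig (rl x) = ig (rl (sp x))`. The record `tp x → z` (slot `mZ (rl x)`)
and `back`: `tp x ∈ h.A`, `PS (tp x) z (mZ (rl x))`, the s alternative: `z = sp (tp x)` and
`ia (rl (tp x)) = ia (rl x)`; `tp x ∈ G` since `z ∉ Exc0`.
Count of `Exc1`: for `x ∈ Exc1`, `mo x ≠ none` (`mo2`, `sp x ∈ G`), `mo x = some M`, `M ≠ tp (sp x)`;
record `sp x → M` (slot `mE (rl x)`). If `M ∈ G`: `back` gives `PS (sp x) M (mE (rl x))`, t
alternative, `M = tp (sp x)`, contradiction. So `M ∈ Bd ∪ R`. The map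
`x ↦ (M, mE (rl x), ia (rl x))` is injective on `Exc1`: `uniq` gives `sp x = sp x'`, then s3. Values of
`mE` have first component 1: 10 values. So `|Exc1| ≤ 20 |Bd ∪ R|`.
`|{x ∈ G, sp x ∉ G}| ≤ 10 |Bd ∪ R|`: `x ↦ (sp x, sE (rl x))` is injective on `G` (`uniq`). Same for
t. o1, o2: `GA`, `ord2`. -/
def S_static : Prop :=
  ∀ (V : Type) [Fintype V] [DecidableEq V] (H : SimpleGraph V) (T : Finset V)
    (R : Finset (Gad V)) (h : Hs V), Inv H T R h →
    ∃ Exc : Finset (Gad V), Exc ⊆ h.G ∧ GS h.G Exc h.rl h.sp h.tp h.ord ∧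
      Exc.card ≤ 22 * (h.Bd ∪ R).card ∧
      (h.G.filter (fun x => h.sp x ∉ h.G)).card ≤ 10 * (h.Bd ∪ R).card ∧
      (h.G.filter (fun x => h.tp x ∉ h.G)).card ≤ 10 * (h.Bd ∪ R).card

/-- DESCENT. `z ∈ G`, index sequences `as` (for s-children) and `gs` (for t-children). Go down from
`z`: `j` steps to the t-child with index `gs 0, gs 1, ..`, then `i` steps to the s-child with index
`as 0, as 1, ..`, ending in `y`; either `y ∈ Exc`, or `own y = 0` and then the bit of `z` is `vb i j`.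

Proof. `y_0 = z`, `y_{b+1}` = t-child of `y_b` with index `gs b` as long as `tk` holds (`t2`); and
from each `y_b` go down in direction s: `x_{0,b} = y_b`, `x_{a+1,b}` = s-child of `x_{a,b}` with index
`as a` as long as `sk` holds (`s2`). (`ord` decreases so this ends.) If some `x_{a,b}` reached in
this way (through elements not in `Exc`) is in `Exc` take `(i,j,y) = (a,b,x_{a,b})`. Otherwise all
`x_{a,b}` are in `G \ Exc`. By induction on `a`, `tp x_{a,b} = x_{a,b-1}` with `ig = gs (b-1)` (`comm`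
for `x = x_{a,b}`: `sp x = x_{a-1,b}`, `tp (sp x) = x_{a-1,b-1} ∈ G \ Exc`; so `tp x ∈ G`,
`sp (tp x) = x_{a-1,b-1}`, `ia (rl (tp x)) = as (a-1)`, hence `tp x = x_{a,b-1}` by s3). By `t1` and
`okR`, `sk (own x_{a,b}) ↔ sk (own x_{a,b-1})`, by `s1` and `okR` `tk (own x_{a+1,b}) ↔
tk (own x_{a,b})`. So the grid is a full `(i+1) × (j+1)` rectangle, with `own x_{i,j} = 0` at the end,
and by downward induction the state of `x_{a,b}` is `stt (i-a) (j-b)` (`okR` and Pascal's rule for the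
parity); in particular `bit (own (rl z)) ↔ vb i j`. Take `y = x_{i,j}`.

(A convenient induction: on `ord z`; first prove the column statement for a non-exceptional column
of s-descents: either some element of the s-descent from `z` is in `Exc`, or there are `i` and
`x_0, .., x_i` as above; then compare the descents from `z` and from its t-child.) -/
def S_descent : Prop :=
  ∀ (α : Type) [DecidableEq α] (G Exc : Finset α) (rl : α → Rul) (sp tp : α → α)
    (ord : α → ℕ), GS G Exc rl sp tp ord → Exc ⊆ G → ∀ z ∈ G, ∀ as gs : ℕ → Fin 2,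
    ∃ (i j : ℕ) (y : α), y ∈ G ∧ i + j ≤ ord z ∧ tp^[j] (sp^[i] y) = z ∧
      (∀ a < i, ia (rl (sp^[a] y)) = as (i - 1 - a)) ∧
      (∀ b < j, ig (rl (tp^[b] (sp^[i] y))) = gs (j - 1 - b)) ∧
      (y ∈ Exc ∨ (own (rl y) = 0 ∧ (bit (own (rl z)) → vb i j)))

/-- GRID INEQUALITY: `#{z ∈ G : bit = 1} ≤ vth * #{z ∈ G : own = 0} + 4 |Exc|`.

Proof. Let `N` be larger than all `ord`, `Ω = (Fin N → Fin 2) × (Fin N → Fin 2)`, `|Ω| = 4^N`. For
every `z ∈ G` with bit 1 and every `ω ∈ Ω` (extended by 0 to sequences) take `(i, j, y)` from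
`S_descent`; `i, j < N`. The map `(z, ω) ↦ ((i, j, y), ω)` is injective as `z = tp^[j] (sp^[i] y)`.
For given `(i,j,y)` (`i, j ≤ N`) the `ω` with the prescribed values `as (i-1-a)`, `a < i`, and
`gs (j-1-b)`, `b < j`, are `4^N / 2^(i+j)` many. So
`4^N #{bit 1} ≤ ∑_{i,j<N} (|Exc| + [vb i j] #{own = 0}) 4^N / 2^(i+j)
 ≤ 4^N (4 |Exc| + vth #{own = 0})`. -/
def S_gridineq : Prop :=
  ∀ (α : Type) [DecidableEq α] (G Exc : Finset α) (rl : α → Rul) (sp tp : α → α)
    (ord : α → ℕ), GS G Exc rl sp tp ord → Exc ⊆ G →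
    ((G.filter (fun z => bit (own (rl z)))).card : ℝ) ≤
      vth * ((G.filter (fun z => own (rl z) = 0)).card : ℝ) + 4 * (Exc.card : ℝ)

/-- NUMBER OF GROUND CELLS: `4 #{own = 0} ≤ |G| + |{sp x ∉ G}| + 2 |{tp x ∉ G}|`.

Proof. `S = {z : sk}`; every `x ∈ G` with `sp x ∈ G` is a child of an element of `S` (s1), each with
at most 2 children (s3): `2 |S| ≥ |G| - D_s`. So `#(not sk) = |G| - |S| ≤ (|G| + D_s)/2`. Let
`Y = {z : not sk, tk}` (`own = 2`) and `Bs = {own = 0}`, `#(not sk) = |Y| + |Bs|`. Every `x` that is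
not sk with `tp x ∈ G` has `tp x ∈ Y` (t1 and `okR`: `sk (own x) ↔ sk (own (tp x))`), each element of
`Y` has at most 2 t-children (t3): `2 |Y| ≥ |Y| + |Bs| - D_t`. So `|Bs| ≤ (#(not sk) + D_t)/2`. -/
def S_ground : Prop :=
  ∀ (α : Type) [DecidableEq α] (G Exc : Finset α) (rl : α → Rul) (sp tp : α → α)
    (ord : α → ℕ), GS G Exc rl sp tp ord →
    4 * (G.filter (fun z => own (rl z) = 0)).card ≤ G.card +
      (G.filter (fun x => sp x ∉ G)).card + 2 * (G.filter (fun x => tp x ∉ G)).card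

/-- LOWER BOUND. For `n = |V| ≥ 2 * 10^13`: `e(H) ≥ (cc - vth / (4 * 10^13)) n`.

Proof. `S_run`, `S_top`: `e(H) ≥ cc n + 150 (|R| + |Bd|) - cnt`. `cnt ≤ vth N0 + 4 |Exc|`,
`4 N0 ≤ |G| + 30 |Bd ∪ R|`, `|Exc| ≤ 22 |Bd ∪ R|`, `0 ≤ vth ≤ 4`, so
`cnt ≤ (vth/4) |G| + 118 |Bd ∪ R|`. The gadgets of `G` are disjoint with `10^13` vertices each
(`Gad.all` has `10^13` elements): `10^13 |G| ≤ n`. -/
def S_lower : Prop :=
  S_absorbGad → S_top → S_hist1 → S_hist2 → S_hist3 → S_run → S_static → S_gridineq → S_ground →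
  vth ≤ 4 →
  ∀ (V : Type) [Fintype V] [DecidableEq V] (St : SimpleGraph V → SimpleGraph V → Prop)
    (H : SimpleGraph V), 2 * 10 ^ 13 ≤ Fintype.card V →
    (∀ H₁ H₂, St H₁ H₂ → H₁ ≤ H₂ ∧ ∀ T R fl, Valid H₁ T R → Outcome H₁ H₂ T R fl) →
    Relation.ReflTransGen St H ⊤ →
    (cc - vth / (4 * 10 ^ 13)) * (Fintype.card V : ℝ) ≤ (E2 H univ univ : ℝ) / 2

/-! ## upper bound -/

/-- FILL GADGET: the last edge of a gadget is free once there is a big clique `Q`.
Adapt `Pool/Agent/H57/Tuza/Fill.lean`: copy of `FF` whose isolated gadget `uu` is `e`, everything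
else in `Q` outside the image of `e` (the number of vertices of `FF` is
`10^40 + 10^13 * |Rol| + 1`, `|Rol| ≤ 4 * 12500 + 41`, much smaller than `NS = 10^42`; bound
`|Rul| ≤ |Tup| = 5^5 * 4 = 12500` without enumeration). -/
def S_fillGadget : Prop :=
  ∀ (V : Type) [Fintype V] [DecidableEq V] (H : SimpleGraph V) (Q : Finset V),
    (∀ x ∈ Q, ∀ y ∈ Q, x ≠ y → H.Adj x y) → NS ≤ Q.card →
    ∀ (e : DV → V), Injective e → ∀ x₀ y₀ : DV, x₀ ≠ y₀ → dadj x₀ y₀ →
    (∀ x y, x ≠ y → dadj x y → (H ⊔ SimpleGraph.edge (e x₀) (e y₀)).Adj (e x) (e y)) →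
    Step FF H (H ⊔ SimpleGraph.edge (e x₀) (e y₀))

/-- FILL LINK: the last edge of a link between two complete gadgets is free. Copy of `FF` with
gadgets `pp j 0`, `pp j 1` at `e`, `e'` and everything else in `Q`. -/
def S_fillLink : Prop :=
  ∀ (V : Type) [Fintype V] [DecidableEq V] (H : SimpleGraph V) (Q : Finset V),
    (∀ x ∈ Q, ∀ y ∈ Q, x ≠ y → H.Adj x y) → NS ≤ Q.card →
    ∀ (j : J) (e e' : DV → V), Injective e → Injective e' → (∀ x y, e x ≠ e' y) →
    (∀ x y, x ≠ y → dadj x y → H.Adj (e x) (e y)) →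
    (∀ x y, x ≠ y → dadj x y → H.Adj (e' x) (e' y)) →
    ∀ x₀ y₀ : DV, port src x₀ → port (slot j) y₀ →
    (∀ x y, port src x → port (slot j) y → (H ⊔ SimpleGraph.edge (e x₀) (e' y₀)).Adj (e x) (e' y)) →
    Step FF H (H ⊔ SimpleGraph.edge (e x₀) (e' y₀))

/-- RULE Z: a vertex with `≥ 6 * 10^12 - 1` neighbours in a big clique can be joined to the whole
clique. Adapt rule (Z) of `Pool/Agent/H57/Tuza/AbsorbCell.lean`. -/
def S_ruleZ : Prop :=
  ∀ (V : Type) [Fintype V] [DecidableEq V] (H : SimpleGraph V) (Q : Finset V) (y : V),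
    (∀ x ∈ Q, ∀ y ∈ Q, x ≠ y → H.Adj x y) → NS ≤ Q.card → y ∉ Q →
    5999999999999 ≤ d H Q y → Reach FF H (H ⊔ clq (insert y Q))

/-- ABSORB CELL with rule `r`: `e 0` = the cell to be absorbed, `e 1, e 2, e 3` = E, M, Z;
`kp j i` = the `i`-th vertex of the port of the child docked to slot `j`, `Pp` = the vertices with a
prepaid edge to vertex 0 of the rest class. Adapt `Pool/Agent/H57/Tuza/AbsorbCell.lean`.

Proof. (V) For `x` in the rest class of `e 0` with index `≠ 0` and `u ∈ Sp \ Pp` the edge `u`-`e 0 x`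
can be added: copy of `FF` with gadgets `rr r 0 .. rr r 3` at `e 0` (composed with the transposition
of the rest class exchanging `x` and index 1), `e 1`, `e 2`, `e 3`; vertices `K n` with
`n = 201 code j + i`, `i < 201`, `j ∈ Ins r` at `kp j i`, the vertices `K n`,
`10000 ≤ n < 10000 + hh r` bijectively on `Pp`, `K 9999 ↦ u`, everything else injectively into `Sp`
(`code` is injective on `J`). (Z) then by `S_ruleZ` all `e 0 x`, `x` in the rest class of index `≠ 0`
join `Q` one by one (enough neighbours in `Sp`), then all other `e 0 y` (adjacent to the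
`9999995799789` rest vertices that have joined, minus at most one). `Reach` is monotone:
`Reach F A B → Reach F (A ⊔ C) (B ⊔ C)`. -/
def S_absorbCell : Prop :=
  S_ruleZ → ∀ (V : Type) [Fintype V] [DecidableEq V] (H : SimpleGraph V) (Q Sp Pp : Finset V)
    (r : Rul), (∀ x ∈ Q, ∀ y ∈ Q, x ≠ y → H.Adj x y) → Sp ⊆ Q → NS ≤ Sp.card → Pp ⊆ Sp →
    Pp.card = hh r →
    ∀ (e : Fin 4 → DV → V), Injective (fun p : Fin 4 × DV => e p.1 p.2) →
    (∀ i x, e i x ∉ Sp) →
    ∀ (kp : J → Fin 201 → V), (∀ j ∈ Ins r, ∀ i, kp j i ∈ Q ∧ kp j i ∉ Sp) →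
    (∀ j ∈ Ins r, ∀ j' ∈ Ins r, ∀ i i', kp j i = kp j' i' → j = j' ∧ i = i') →
    (∀ j ∈ Ins r, ∀ i i' x, kp j i ≠ e i' x) →
    (∀ j ∈ Ins r, ∀ i y, port (slot j) y → H.Adj (kp j i) (e 0 y)) →
    (∀ i : Fin 4, ∀ x y, x ≠ y → dadj x y → H.Adj (e i x) (e i y)) →
    (∀ u ∈ Pp, ∀ x : DV, x.1 = rest → x.2.val = 0 → H.Adj u (e 0 x)) →
    (∀ x y, port src x → port (slot (sE r)) y → H.Adj (e 0 x) (e 1 y)) →
    (∀ x y, port src x → port (slot (mE r)) y → H.Adj (e 1 x) (e 2 y)) →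
    (∀ x y, port src x → port (slot (mZ r)) y → H.Adj (e 3 x) (e 2 y)) →
    (∀ x y, port src x → port (slot (sZ r)) y → H.Adj (e 0 x) (e 3 y)) →
    Reach FF H (H ⊔ clq (Q ∪ univ.image (e 0)))

/-- TREE. The complete graph is reached from the deficient tree graph. Adapt
`Pool/Agent/H57/Tuza/GridReach.lean`.

Proof. Phase 1: fill all cells (`S_fillGadget`), then all links (`S_fillLink`), `Q` = the core
(`Sum.inr (Sum.inl _)`): reach `TFull`. Phase 2: absorb the cells in order of `i + j` (all cells with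
`i + j = 0`, then 1, ...): invariant `TFull ⊔ clq (core ∪ absorbed cells)`. For the cell at
`p = ((i,q),(j,r))` use `S_absorbCell` with `e = embT` at `p, spos p, tpos (spos p), tpos p`, rule
`tup p` (it satisfies `okR` by Pascal's rule), `kp` = vertices of the source ports of the children:
slot `(0, c, stt (i-1) j)` at position `((i-1, 2q+c),(j,r))` if `i ≥ 1`, slot `(1, c, stt i (j-1))` at
`((i,q),(j-1,2r+c))` if `j ≥ 1` (in range since `2q + c < k 2^(h-i+1)`); `Pp` = spare vertices with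
index `< hh r`, `Sp` = all spare vertices. `tpos (spos p) = spos (tpos p)`. The links: `slS p = sE`,
`slT p = sZ`, `slT (spos p) = mE`, `slS (tpos p) = mZ`; if both ends are out of range they are in
the core clique: the core gadgets of `spos p`, `tpos p`, `spos (tpos p)` are different by parities.
Phase 3: the `s` extra vertices by `S_ruleZ`. At the end `clq univ = ⊤`. -/
def S_tree : Prop :=
  S_fillGadget → S_fillLink → S_ruleZ → S_absorbCell → ∀ h k s : ℕ, Reach FF (TDef h k s) ⊤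

/-- phase 1 of `S_tree` -/
def S_tree1 : Prop :=
  S_fillGadget → S_fillLink → ∀ h k s : ℕ, Reach FF (TDef h k s) (TFull h k s)

/-- phases 2 and 3 of `S_tree` -/
def S_tree2 : Prop :=
  S_ruleZ → S_absorbCell → ∀ h k s : ℕ, Reach FF (TFull h k s) ⊤

/-- EDGE COUNT of the deficient tree graph, `S = 2^(h+1) - 1`:
core at most `c₀ = |core|^2`; extra vertices `6 * 10^12 * s`; a cell at level `(i,j)`:
`49999999999994579960098669` edges inside, two links with `201^2 - 1 = 40400` edges each, and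
`hh` prepaid edges, `hh = 80400 ([i=0] + [j=0]) + 1 - [vb i j]`. There are `k 2^(h-i) 2^(h-j)` cells
at level `(i,j)`, `k S^2` in total, `k S 2^h` with `i = 0`, the same with `j = 0`;
`2 * 80400 * 2^h = 80400 (S + 1)`. Sum:
`k S^2 (49999999999994579960098669 + 80800 + 80400 + 1) + 80400 k S - k 4^h vthP h`
and `49999999999994579960098669 + 80800 + 80400 + 1 = 49999999999994579960259870 = cc * 10^13`.
Adapt `Pool/Agent/H57/Tuza/GridCount.lean`. -/
def S_treeCount : Prop :=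
  ∃ c₀ : ℝ, ∀ h k s : ℕ,
    ((TDef h k s).edgeSet.ncard : ℝ) ≤ c₀ + 6000000000000 * s +
      k * (cc * 10 ^ 13 * (2 ^ (h + 1) - 1) ^ 2 + 80400 * (2 ^ (h + 1) - 1) - 4 ^ h * vthP h) ∧
    (Fintype.card (VT h k s) : ℝ) = (Fintype.card (VT 0 0 0) : ℝ) +
      s + 10 ^ 13 * k * (2 ^ (h + 1) - 1) ^ 2

/-- THE CONSTANT: `vthP h → vth`, `vthP h ≤ vth ≤ 4`, and `vth` is irrational.

Proof. `∑ 2^{-i-j} = 4`. `vb i j ↔ i &&& j = 0` or Lucas: for `i, j < 2^(K+1)`,
`i = i₁ 2^K + i₀`, `j = j₁ 2^K + j₀`: `vb i j ↔ vb i₁ j₁ ∧ vb i₀ j₀` and `vb 1 1` is false. So with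
`P K = ∑_{i,j < 2^K, vb i j} 2^{-i-j}`: `P (K+1) = P K * (1 + 2 * 2^{-2^K})`, so
`P K = ∏_{k<K} (1 + 2^{1-2^k})` is an integer divided by `2^(2^K - 1 - K)`. And
`0 < vth - P K ≤ P K (∏_{k ≥ K} (1 + 2^{1-2^k}) - 1) ≤ 4 * 4 * 2^{1 - 2^K}` (or bound directly the
sum over pairs with `i ≥ 2^K` or `j ≥ 2^K`: at most `2 * 2 * 2 * 2^{-2^K}`, ). If `vth = a / b`, then
`b 2^(2^K-1-K) (vth - P K)` is a positive integer, but it is `≤ b * 2^(2^K-1-K) * 8 * 2^{-2^K}
= 4 b 2^{-K} < 1` for large `K`. -/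
def S_const : Prop :=
  Irrational vth ∧ vth ≤ 4 ∧ (∀ h, vthP h ≤ vth) ∧
    Filter.Tendsto vthP Filter.atTop (nhds vth)

/-! ## the final statement -/

/-- `G` is weakly `F`-saturated: the missing edges can be listed so that each addition creates a new
copy of `F` -/
def WeaklySaturated {k n : ℕ} (F : SimpleGraph (Fin k)) (G : SimpleGraph (Fin n)) : Prop :=
  ∃ (m : ℕ) (e : Fin m → Sym2 (Fin n)), Function.Injective e ∧ Set.range e = Gᶜ.edgeSet ∧
    ∀ i : Fin m, ∃ f : Fin k → Fin n, Function.Injective f ∧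
      (∀ a b : Fin k, F.Adj a b → s(f a, f b) ∈ G.edgeSet ∪ e '' {j | j ≤ i}) ∧
      ∃ a b : Fin k, F.Adj a b ∧ s(f a, f b) = e i

/-- minimum number of edges of a weakly `F`-saturated graph on `n` vertices -/
noncomputable def wsat (n : ℕ) {k : ℕ} (F : SimpleGraph (Fin k)) : ℕ :=
  sInf {m | ∃ G : SimpleGraph (Fin n), WeaklySaturated F G ∧ G.edgeSet.ncard = m}

/-- CONVERSION. `WeaklySaturated` is the same as `Reach _ G ⊤`, and transport along bijections.
Adapt `Pool/Agent/H57/Tuza/Final.lean`. (Steps of `Reach` whose edge is already present are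
dropped.) `FF` has an edge; `VF` is finite. -/
def S_conv : Prop :=
  ∃ (k : ℕ) (F : SimpleGraph (Fin k)), (∃ a b, F.Adj a b) ∧
    (∀ (n : ℕ) (G : SimpleGraph (Fin n)), WeaklySaturated F G ↔ Reach FF G ⊤) ∧
    (∀ (V W : Type) (e : V ≃ W) (H H' : SimpleGraph V), Reach FF H H' →
      Reach FF (H.map e.toEmbedding) (H'.map e.toEmbedding))

/-- LIMIT. Put `w = cc - vth / (4 * 10^13)`, `c₁ = card (VT 0 0 0)`.

Proof. Lower: `wsat n F ≥ w n` for `n ≥ 2 * 10^13` (the infimum is attained: `⊤` is weakly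
saturated). Upper: given `h`, `B = 10^13 (2^(h+1)-1)^2`, for `n ≥ c₁` write `n = c₁ + k B + s`,
`s < B`; then `wsat n F ≤ c₀ + 6 * 10^12 B + k (cc B + 80400 (2^(h+1)-1) - 4^h vthP h)`, and
`k ≤ n / B`, so `limsup wsat n / n ≤ cc + 80400 (2^(h+1)-1)/B - 4^h vthP h / B`, which tends to `w` as
`h → ∞` since `4^h / B → 1/(4 * 10^13)`. -/
def S_limit : Prop :=
  ∀ (k : ℕ) (F : SimpleGraph (Fin k)),
    (∀ (n : ℕ) (G : SimpleGraph (Fin n)), WeaklySaturated F G ↔ Reach FF G ⊤) →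
    (∀ (V W : Type) (e : V ≃ W) (H H' : SimpleGraph V), Reach FF H H' →
      Reach FF (H.map e.toEmbedding) (H'.map e.toEmbedding)) →
    (∀ (n : ℕ), 2 * 10 ^ 13 ≤ n → ∀ G : SimpleGraph (Fin n), Reach FF G ⊤ →
      (cc - vth / (4 * 10 ^ 13)) * (n : ℝ) ≤ (G.edgeSet.ncard : ℝ)) →
    (∀ h k s : ℕ, Reach FF (TDef h k s) ⊤) → S_treeCount → S_const →
    Filter.Tendsto (fun n => (wsat n F : ℝ) / n) Filter.atTop (nhds (cc - vth / (4 * 10 ^ 13)))

end Pool.Agent.H57.Irr
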