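import Mathlib
import Pool.Agent.H57.Irr.Spec

/-!
History invariant: growth, bad absorptions.
-/

set_option autoImplicit false

namespace Pool.Agent.H57.Irr.Hist13

open Finset Function
open Pool.Agent.H57.Irr

variable {V : Type*}

theorem d_mono {H H' : SimpleGraph V} (hH : H ≤ H') (Y : Finset V) (x : V) : d H Y x ≤ d H' Y x := by
  classical
  unfold d
  apply card_le_card
  intro y hy
  rw [mem_filter] at hy ⊢
  exact ⟨hy.1, hH hy.2⟩

theorem nf_mono {H H' : SimpleGraph V} (hH : H ≤ H') {X X' : Finset V} (hX : X ⊆ X') (Y : Finset V) :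
    nf H X Y ≤ nf H' X' Y := by
  classical
  unfold nf
  apply card_le_card
  intro x hx
  rw [mem_filter] at hx ⊢
  exact ⟨hX hx.1, hx.2.trans (d_mono hH Y x)⟩

theorem FL_mono {H H' : SimpleGraph V} (hH : H ≤ H') {X Y : Finset V} (h : FL H X Y) : FL H' X Y := by
  obtain ⟨O, S, h1, h2, h3, h4, h5⟩ := h
  exact ⟨O, S, h1, h2, h3, h4, fun x hx y hy => hH (h5 x hx y hy)⟩

variable [DecidableEq V]

theorem all_nonempty (W : Gad V) : W.all.Nonempty := by
  have h1 : 0 < (W.L src).card := by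
    rw [W.card]
    show 0 < 200000
    norm_num
  obtain ⟨x, hx⟩ := card_pos.1 h1
  exact ⟨x, mem_biUnion.2 ⟨src, mem_univ _, hx⟩⟩

theorem not_sub {H : SimpleGraph V} {T : Finset V} {R : Finset (Gad V)} (hv : Valid H T R) {W : Gad V}
    (hW : W ∈ R) : ¬ W.all ⊆ T := by
  intro h
  obtain ⟨x, hx⟩ := all_nonempty W
  exact disjoint_left.1 (hv.disjT W hW) (h hx) hx

theorem not_old {H : SimpleGraph V} {T : Finset V} {R : Finset (Gad V)} {h : Hs V} (hI : Inv H T R h)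
    {W : Gad V} (hW : W ∈ R) : W ∉ h.G ∪ h.Bd := fun h1 => not_sub hI.valid hW (hI.gT W h1)

theorem hist1a : ∀ (V : Type) [Fintype V] [DecidableEq V] (H H' : SimpleGraph V) (T : Finset V)
    (R R' : Finset (Gad V)) (h : Hs V), Inv H T R h → H ≤ H' → R ⊆ R' → Valid H' T R' →
    Inv H' T R' h := by
  intro V _ _ H H' T R R' h hI hH hR hv
  have hsub : h.G ∪ h.Bd ∪ R ⊆ h.G ∪ h.Bd ∪ R' := union_subset_union_right hR
  refine ⟨hv, hI.GA, hI.AB, hI.gT, hI.dj, ?_, ?_, ?_, ?_, hI.uniq, hI.uch, hI.ins, hI.back, hI.ord1,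
    hI.ord2⟩
  · exact fun A hA => ⟨hsub (hI.par A hA).1, hsub (hI.par A hA).2⟩
  · exact fun A hA M hM => hsub (hI.mo1 A hA M hM)
  · intro A hA hM
    obtain ⟨h1, h2⟩ := hI.mo2 A hA hM
    refine ⟨h1, fun h3 => ?_⟩
    have h4 : h.sp A ∈ R := by
      rcases mem_union.1 (hI.par A (hI.GA hA)).1 with h5 | h5
      · exact absurd (hI.gT _ h5) (not_sub hv h3)
      · exact h5
    exact (h2 h4).trans (nf_mono hH (Subset.refl _) _)
  · intro X Y j hRL
    obtain ⟨h1, h2⟩ := hI.rl X Y j hRL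
    exact ⟨h1, FL_mono hH h2⟩

theorem hist1b : ∀ (V : Type) [Fintype V] [DecidableEq V] (H : SimpleGraph V) (T T' : Finset V)
    (R R' : Finset (Gad V)) (h : Hs V), Inv H T R h → T ⊆ T' → R' ⊆ R → Valid H T' R' →
    (∀ W ∈ R \ R', W.all ⊆ T') → Inv H T' R' { h with Bd := h.Bd ∪ (R \ R') } := by
  intro V _ _ H T T' R R' h hI hT hR hv hW
  have hsub : h.G ∪ h.Bd ∪ R ⊆ h.G ∪ (h.Bd ∪ (R \ R')) ∪ R' := by
    intro A hA
    simp only [mem_union, mem_sdiff] at hA ⊢
    tauto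
  have hmem : ∀ A, A ∈ h.G ∪ (h.Bd ∪ (R \ R')) → A ∈ h.G ∪ h.Bd ∨ A ∈ R \ R' := by
    intro A hA
    simp only [mem_union, mem_sdiff] at hA ⊢
    tauto
  refine ⟨hv, hI.GA, ?_, ?_, ?_, ?_, ?_, ?_, hI.rl, hI.uniq, hI.uch, hI.ins, hI.back, hI.ord1, hI.ord2⟩
  · intro A hA
    have := hI.AB hA
    simp only [mem_union, mem_sdiff] at this ⊢
    tauto
  · intro A hA
    rcases hmem A hA with h1 | h1
    · exact (hI.gT A h1).trans hT
    · exact hW A h1
  · intro A hA B hB hAB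
    rcases hmem A hA with h1 | h1 <;> rcases hmem B hB with h2 | h2
    · exact hI.dj A h1 B h2 hAB
    · exact disjoint_of_subset_left (hI.gT A h1) (hI.valid.disjT B (mem_sdiff.1 h2).1)
    · exact (disjoint_of_subset_left (hI.gT B h2) (hI.valid.disjT A (mem_sdiff.1 h1).1)).symm
    · exact hI.valid.disj A (mem_sdiff.1 h1).1 B (mem_sdiff.1 h2).1 hAB
  · exact fun A hA => ⟨hsub (hI.par A hA).1, hsub (hI.par A hA).2⟩
  · exact fun A hA M hM => hsub (hI.mo1 A hA M hM)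
  · intro A hA hM
    obtain ⟨h1, h2⟩ := hI.mo2 A hA hM
    exact ⟨h1, fun h3 => (h2 (hR h3)).trans (nf_mono le_rfl hT _)⟩

theorem hist3 : S_hist3 := by
  intro V _ _ H T R h A r E Z hI hA hE hZ hAE hAZ hEZ hFE hFZ hv
  have hAo := not_old hI hA
  have hEo := not_old hI hE
  have hZo := not_old hI hZ
  have hAA : A ∉ h.A := fun h1 => hAo (hI.AB h1)
  have hEA : E ∉ h.A := fun h1 => hEo (hI.AB h1)
  have hZA : Z ∉ h.A := fun h1 => hZo (hI.AB h1)
  have hAG : A ∉ h.G := fun h1 => hAo (mem_union_left _ h1)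
  have hEG : E ∉ h.G := fun h1 => hEo (mem_union_left _ h1)
  have hZG : Z ∉ h.G := fun h1 => hZo (mem_union_left _ h1)
  set h' : Hs V := Hs.mk h.G (insert A h.A) (insert A h.Bd) (update h.rl A r)
    (update h.sp A E) (update h.tp A Z) h.mo (update h.ord A h.A.card) with hh'
  have hne : ∀ {B}, B ∈ h.A → B ≠ A := fun hB hBA => hAA (hBA ▸ hB)
  have hneG : ∀ {B}, B ∈ h.G → B ≠ A := fun hB hBA => hAG (hBA ▸ hB)
  have hrl : ∀ {B}, B ≠ A → h'.rl B = h.rl B := fun hB => update_of_ne hB _ _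
  have hsp : ∀ {B}, B ≠ A → h'.sp B = h.sp B := fun hB => update_of_ne hB _ _
  have htp : ∀ {B}, B ≠ A → h'.tp B = h.tp B := fun hB => update_of_ne hB _ _
  have hord : ∀ {B}, B ≠ A → h'.ord B = h.ord B := fun hB => update_of_ne hB _ _
  have hrlA : h'.rl A = r := update_self _ _ _
  have hspA : h'.sp A = E := update_self _ _ _
  have htpA : h'.tp A = Z := update_self _ _ _
  have hordA : h'.ord A = h.A.card := update_self _ _ _
  have hPS : ∀ {B}, B ≠ A → ∀ W j, h'.PS B W j ↔ h.PS B W j := by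
    intro B hB W j
    unfold Hs.PS
    rw [hsp hB, htp hB, hrl hB]
  have hPSA : ∀ W j, h'.PS A W j ↔ (W = E ∧ j = sE r) ∨ (W = Z ∧ j = sZ r) := by
    intro W j
    unfold Hs.PS
    rw [hspA, htpA, hrlA]
  have hPSAG : ∀ W j, h'.PS A W j → W ∉ h.G := by
    intro W j h1
    rcases (hPSA W j).1 h1 with ⟨rfl, -⟩ | ⟨rfl, -⟩
    · exact hEG
    · exact hZG
  have hRL : ∀ X Y j, h'.RL X Y j → h.RL X Y j ∨ (X = A ∧ h'.PS A Y j) := by
    intro X Y j h1
    rcases h1 with ⟨h1, h2⟩ | ⟨B, hB, M, hM, h2⟩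
    · rcases mem_insert.1 h1 with h3 | h3
      · right
        rw [h3] at h2
        exact ⟨h3, h2⟩
      · left
        exact Or.inl ⟨h3, (hPS (hne h3) Y j).1 h2⟩
    · left
      rw [hsp (hneG hB), htp (hneG hB), hrl (hneG hB)] at h2
      exact Or.inr ⟨B, hB, M, hM, h2⟩
  have hsub : ∀ B, B ∈ h.G ∪ h.Bd ∪ R → B ∈ h'.G ∪ h'.Bd ∪ R.erase A := by
    intro B hB
    simp only [hh', mem_union, mem_insert, mem_erase] at hB ⊢
    tauto
  have hmem : ∀ B, B ∈ h'.G ∪ h'.Bd → B = A ∨ B ∈ h.G ∪ h.Bd := by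
    intro B hB
    simp only [hh', mem_union, mem_insert] at hB ⊢
    tauto
  refine ⟨h', ⟨hv, ?_, ?_, ?_, ?_, ?_, ?_, ?_, ?_, ?_, ?_, ?_, ?_, ?_, ?_⟩, rfl, rfl, ?_, ?_⟩
  · exact hI.GA.trans (subset_insert _ _)
  · intro B hB
    rcases mem_insert.1 hB with h1 | h1
    · rw [h1]
      exact mem_union_right _ (mem_insert_self _ _)
    · have := hI.AB h1
      simp only [hh', mem_union, mem_insert] at this ⊢
      tauto
  · intro B hB
    rcases hmem B hB with h1 | h1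
    · rw [h1]
      exact subset_union_right
    · exact (hI.gT B h1).trans subset_union_left
  · intro B hB B' hB' hBB'
    rcases hmem B hB with h1 | h1 <;> rcases hmem B' hB' with h2 | h2
    · exact absurd (h1.trans h2.symm) hBB'
    · rw [h1]
      exact (disjoint_of_subset_left (hI.gT B' h2) (hI.valid.disjT A hA)).symm
    · rw [h2]
      exact disjoint_of_subset_left (hI.gT B h1) (hI.valid.disjT A hA)
    · exact hI.dj B h1 B' h2 hBB'
  · intro B hB
    rcases mem_insert.1 hB with h1 | h1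
    · rw [h1, hspA, htpA]
      exact ⟨mem_union_right _ (mem_erase.2 ⟨hAE.symm, hE⟩), mem_union_right _ (mem_erase.2 ⟨hAZ.symm, hZ⟩)⟩
    · rw [hsp (hne h1), htp (hne h1)]
      exact ⟨hsub _ (hI.par B h1).1, hsub _ (hI.par B h1).2⟩
  · exact fun B hB M hM => hsub _ (hI.mo1 B hB M hM)
  · intro B hB hM
    obtain ⟨h1, h2⟩ := hI.mo2 B hB hM
    rw [hsp (hneG hB)]
    exact ⟨h1, fun h3 => (h2 (mem_erase.1 h3).2).trans (nf_mono le_rfl subset_union_left _)⟩
  · intro X Y j h1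
    rcases hRL X Y j h1 with h2 | ⟨h2, h3⟩
    · exact hI.rl X Y j h2
    · rw [h2]
      rcases (hPSA Y j).1 h3 with ⟨rfl, rfl⟩ | ⟨rfl, rfl⟩
      · exact ⟨hAE, hFE⟩
      · exact ⟨hAZ, hFZ⟩
  · intro X hX X' hX' M j h1 h2
    rcases hRL X M j h1 with h3 | ⟨h3, -⟩
    · rcases hRL X' M j h2 with h4 | ⟨h4, -⟩
      · exact hI.uniq X hX X' hX' M j h3 h4
      · exact absurd h4 (hneG hX')
    · exact absurd h3 (hneG hX)
  · intro W hW B hB B' hB' j h1 h2
    rcases mem_insert.1 hB with h3 | h3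
    · rw [h3] at h1
      exact absurd hW (hPSAG W j h1)
    · rcases mem_insert.1 hB' with h4 | h4
      · rw [h4] at h2
        exact absurd hW (hPSAG W j h2)
      · exact hI.uch W hW B h3 B' h4 j ((hPS (hne h3) W j).1 h1) ((hPS (hne h4) W j).1 h2)
  · intro W hW j
    rw [hrl (hneG hW), hI.ins W hW j]
    constructor
    · rintro ⟨B, hB, h1⟩
      exact ⟨B, mem_insert_of_mem hB, (hPS (hne hB) W j).2 h1⟩
    · rintro ⟨B, hB, h1⟩
      rcases mem_insert.1 hB with h2 | h2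
      · rw [h2] at h1
        exact absurd hW (hPSAG W j h1)
      · exact ⟨B, h2, (hPS (hne h2) W j).1 h1⟩
  · intro X Y j h1 hY
    rcases hRL X Y j h1 with h2 | ⟨-, h3⟩
    · obtain ⟨h4, h5⟩ := hI.back X Y j h2 hY
      exact ⟨mem_insert_of_mem h4, (hPS (hne h4) Y j).2 h5⟩
    · exact absurd hY (hPSAG Y j h3)
  · intro B hB
    have hc : h'.A.card = h.A.card + 1 := card_insert_of_notMem hAA
    rw [hc]
    rcases mem_insert.1 hB with h1 | h1
    · rw [h1, hordA]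
      exact Nat.lt_succ_self _
    · rw [hord (hne h1)]
      exact Nat.lt_succ_of_lt (hI.ord1 B h1)
  · intro B hB
    have hgen : ∀ C, B ∈ h.A → (C ∈ h.A → h.ord B < h.ord C) → C ∈ h'.A → h'.ord B < h'.ord C := by
      intro C h1 h2 h3
      rw [hord (hne h1)]
      rcases mem_insert.1 h3 with h4 | h4
      · rw [h4, hordA]
        exact hI.ord1 B h1
      · rw [hord (hne h4)]
        exact h2 h4
    rcases mem_insert.1 hB with h1 | h1
    · rw [h1, hspA, htpA]
      constructor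
      · intro h2
        rcases mem_insert.1 h2 with h3 | h3
        · exact absurd h3.symm hAE
        · exact absurd h3 hEA
      · intro h2
        rcases mem_insert.1 h2 with h3 | h3
        · exact absurd h3.symm hAZ
        · exact absurd h3 hZA
    · rw [hsp (hne h1), htp (hne h1)]
      exact ⟨hgen _ h1 (hI.ord2 B h1).1, hgen _ h1 (hI.ord2 B h1).2⟩
  · exact fun W hW => hrl (hneG hW)
  · intro W j
    constructor
    · rintro ⟨B, hB, h1⟩
      rcases mem_insert.1 hB with h2 | h2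
      · rw [h2] at h1
        exact Or.inr ((hPSA W j).1 h1)
      · exact Or.inl ⟨B, h2, (hPS (hne h2) W j).1 h1⟩
    · rintro (⟨B, hB, h1⟩ | h1)
      · exact ⟨B, mem_insert_of_mem hB, (hPS (hne hB) W j).2 h1⟩
      · exact ⟨A, mem_insert_self _ _, (hPSA W j).2 h1⟩

end Pool.Agent.H57.Irr.Hist13

theorem Pool.Agent.H57.Irr.hist13 : Pool.Agent.H57.Irr.S_hist1 ∧ Pool.Agent.H57.Irr.S_hist3 :=
  ⟨⟨Pool.Agent.H57.Irr.Hist13.hist1a, Pool.Agent.H57.Irr.Hist13.hist1b⟩, Pool.Agent.H57.Irr.Hist13.hist3⟩
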