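import Pool.Agent.H57.Irr.Spec

set_option autoImplicit false

namespace Pool.Agent.H57.Irr

open Finset Function

namespace Hist2

section counting
variable {V : Type} [DecidableEq V]

omit [DecidableEq V] in
/-- `nf` from an explicit set -/
lemma nf_ge {H : SimpleGraph V} {T Y O : Finset V} (hO : O ⊆ T)
    (h : ∀ x ∈ O, 201 ≤ d H Y x) : O.card ≤ nf H T Y := by
  classical
  unfold nf
  refine card_le_card ?_
  intro x hx
  rw [mem_filter]
  exact ⟨hO hx, h x hx⟩

omit [DecidableEq V] in
lemma d_ge {H : SimpleGraph V} {Y S : Finset V} {x : V} (hS : S ⊆ Y)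
    (h : ∀ y ∈ S, H.Adj x y) : S.card ≤ d H Y x := by
  classical
  unfold d
  refine card_le_card ?_
  intro y hy
  rw [mem_filter]
  exact ⟨hS hy, h y hy⟩

omit [DecidableEq V] in
/-- monotonicity of `nf` in the first set -/
lemma nf_mono {H : SimpleGraph V} {T T' Y : Finset V} (h : T ⊆ T') : nf H T Y ≤ nf H T' Y := by
  classical
  unfold nf
  exact card_le_card (filter_subset_filter _ h)

omit [DecidableEq V] in
/-- full link whose source is absorbed -/
lemma nf_src {H : SimpleGraph V} {T X Y : Finset V} (hX : X ⊆ T) (h : FL H X Y) :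
    201 ≤ nf H T Y := by
  obtain ⟨O, S, hO, hS, cO, cS, ha⟩ := h
  rw [← cO]
  refine nf_ge (hO.trans hX) fun x hx => ?_
  rw [← cS]
  exact d_ge hS (ha x hx)

omit [DecidableEq V] in
/-- full link whose target is absorbed -/
lemma nf_tgt {H : SimpleGraph V} {T X Y : Finset V} (hY : Y ⊆ T) (h : FL H X Y) :
    201 ≤ nf H T X := by
  obtain ⟨O, S, hO, hS, cO, cS, ha⟩ := h
  rw [← cS]
  refine nf_ge (hS.trans hY) fun y hy => ?_
  rw [← cO]
  exact d_ge hO (fun x hx => (ha x hx y hy).symm)

/-- two full links with disjoint absorbed sources -/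
lemma nf_src2 {H : SimpleGraph V} {T X X' Y : Finset V} (hX : X ⊆ T) (hX' : X' ⊆ T)
    (hd : Disjoint X X') (h : FL H X Y) (h' : FL H X' Y) : 402 ≤ nf H T Y := by
  obtain ⟨O, S, hO, hS, cO, cS, ha⟩ := h
  obtain ⟨O', S', hO', hS', cO', cS', ha'⟩ := h'
  have hdO : Disjoint O O' := hd.mono hO hO'
  have hc : (O ∪ O').card = 402 := by rw [card_union_of_disjoint hdO, cO, cO']
  rw [← hc]
  refine nf_ge (union_subset (hO.trans hX) (hO'.trans hX')) fun x hx => ?_
  rcases mem_union.mp hx with hx | hx
  · rw [← cS]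
    exact d_ge hS (ha x hx)
  · rw [← cS']
    exact d_ge hS' (ha' x hx)

lemma L_sub_all (W : Gad V) (c : Cl) : W.L c ⊆ W.all := by
  intro x hx
  unfold Gad.all
  exact mem_biUnion.mpr ⟨c, mem_univ _, hx⟩

lemma all_nonempty (W : Gad V) : W.all.Nonempty := by
  have h : 0 < (W.L src).card := by
    rw [W.card]
    norm_num [sz]
  obtain ⟨x, hx⟩ := card_pos.mp h
  exact ⟨x, L_sub_all W _ hx⟩

end counting

section hist
variable {V : Type} [DecidableEq V]

/-- the new history -/
noncomputable def newH (R : Finset (Gad V)) (h : Hs V) (A : Gad V) (r : Rul) (E M Z : Gad V) :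
    Hs V where
  G := insert A h.G
  A := insert A h.A
  Bd := h.Bd
  rl := update h.rl A r
  sp := update h.sp A E
  tp := update h.tp A Z
  mo := update h.mo A (if M ∈ R then some M else none)
  ord := update h.ord A h.A.card

variable {H : SimpleGraph V} {T : Finset V} {R : Finset (Gad V)} {h : Hs V} {A : Gad V} {r : Rul}
  {E M Z : Gad V}

omit [DecidableEq V] in
lemma ps_ne {X W : Gad V} {j : J} (hX : X ≠ A) :
    (newH R h A r E M Z).PS X W j ↔ h.PS X W j := by
  unfold Hs.PS newH
  simp only [update_of_ne hX]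

omit [DecidableEq V] in
lemma ps_A {W : Gad V} {j : J} :
    (newH R h A r E M Z).PS A W j ↔ (W = E ∧ j = sE r) ∨ (W = Z ∧ j = sZ r) := by
  unfold Hs.PS newH
  simp only [update_self]

/-- the records of the new history -/
lemma rl_new {X Y : Gad V} {j : J} (hAA : A ∉ h.A) (hAG : A ∉ h.G)
    (hr : (newH R h A r E M Z).RL X Y j) :
    h.RL X Y j ∨ (X = A ∧ ((Y = E ∧ j = sE r) ∨ (Y = Z ∧ j = sZ r))) ∨
      (M ∈ R ∧ Y = M ∧ ((X = E ∧ j = mE r) ∨ (X = Z ∧ j = mZ r))) := by
  rcases hr with ⟨hX, hp⟩ | ⟨B, hB, M', hM', hp⟩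
  · by_cases hXA : X = A
    · subst hXA
      rw [ps_A] at hp
      exact Or.inr (Or.inl ⟨rfl, hp⟩)
    · rw [ps_ne hXA] at hp
      have hX' : X ∈ insert A h.A := hX
      exact Or.inl (Or.inl ⟨mem_of_mem_insert_of_ne hX' hXA, hp⟩)
  · have hB' : B ∈ insert A h.G := hB
    by_cases hBA : B = A
    · subst hBA
      have h1 : (newH R h B r E M Z).mo B = if M ∈ R then some M else none := by
        unfold newH
        simp only [update_self]
      rw [h1] at hM'
      by_cases hMR : M ∈ R
      · rw [if_pos hMR] at hM'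
        have hMM : M = M' := Option.some.inj hM'
        subst hMM
        have h2 : (newH R h B r E M Z).sp B = E := by
          unfold newH
          simp only [update_self]
        have h3 : (newH R h B r E M Z).tp B = Z := by
          unfold newH
          simp only [update_self]
        have h4 : (newH R h B r E M Z).rl B = r := by
          unfold newH
          simp only [update_self]
        rw [h2, h3, h4] at hp
        refine Or.inr (Or.inr ⟨hMR, ?_⟩)
        rcases hp with ⟨a, b, c⟩ | ⟨a, b, c⟩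
        · exact ⟨b, Or.inl ⟨a, c⟩⟩
        · exact ⟨b, Or.inr ⟨a, c⟩⟩
      · rw [if_neg hMR] at hM'
        exact absurd hM' (by simp)
    · have h1 : (newH R h A r E M Z).mo B = h.mo B := by
        unfold newH
        simp only [update_of_ne hBA]
      have h2 : (newH R h A r E M Z).sp B = h.sp B := by
        unfold newH
        simp only [update_of_ne hBA]
      have h3 : (newH R h A r E M Z).tp B = h.tp B := by
        unfold newH
        simp only [update_of_ne hBA]
      have h4 : (newH R h A r E M Z).rl B = h.rl B := by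
        unfold newH
        simp only [update_of_ne hBA]
      rw [h1] at hM'
      rw [h2, h3, h4] at hp
      exact Or.inl (Or.inr ⟨B, mem_of_mem_insert_of_ne hB' hBA, M', hM', hp⟩)

lemma not_mem_of_reg (hI : Inv H T R h) {W : Gad V} (hW : W ∈ R) : W ∉ h.G ∪ h.Bd := by
  intro hm
  have h1 := hI.gT W hm
  have h2 := hI.valid.disjT W hW
  obtain ⟨x, hx⟩ := all_nonempty W
  exact disjoint_left.mp h2 (h1 hx) hx

lemma src_mem (hI : Inv H T R h) {X Y : Gad V} {j : J} (hr : h.RL X Y j) :
    X ∈ h.G ∪ h.Bd ∪ R := by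
  rcases hr with ⟨hX, _⟩ | ⟨B, hB, M', _, hp⟩
  · exact mem_union_left _ (hI.AB hX)
  · have hp' := hI.par B (hI.GA hB)
    rcases hp with ⟨rfl, _⟩ | ⟨rfl, _⟩
    · exact hp'.1
    · exact hp'.2

lemma tgt_mem (hI : Inv H T R h) {X Y : Gad V} {j : J} (hr : h.RL X Y j) :
    Y ∈ h.G ∪ h.Bd ∪ R := by
  rcases hr with ⟨hX, hp⟩ | ⟨B, hB, M', hM', hp⟩
  · have hp' := hI.par X hX
    rcases hp with ⟨rfl, _⟩ | ⟨rfl, _⟩
    · exact hp'.1
    · exact hp'.2
  · have hm := hI.mo1 B hB M' hM'
    rcases hp with ⟨_, rfl, _⟩ | ⟨_, rfl, _⟩ <;> exact hm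

omit [DecidableEq V] in
lemma nmi {a b : Gad V} {s : Finset (Gad V)} (h1 : a ≠ b) (h2 : a ∉ s) : a ∉ insert b s := by
  rw [mem_insert, not_or]
  exact ⟨h1, h2⟩

end hist

end Hist2

open Hist2 in
theorem hist2 : S_hist2 := by
  intro V _ _ H T R h A r E M Z hI hG hV
  classical
  have hAn : A ∉ h.G ∪ h.Bd := not_mem_of_reg hI hG.hA
  have hEn : E ∉ h.G ∪ h.Bd := not_mem_of_reg hI hG.hE
  have hZn : Z ∉ h.G ∪ h.Bd := not_mem_of_reg hI hG.hZ
  have hAG : A ∉ h.G := fun hm => hAn (mem_union_left _ hm)
  have hEG : E ∉ h.G := fun hm => hEn (mem_union_left _ hm)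
  have hZG : Z ∉ h.G := fun hm => hZn (mem_union_left _ hm)
  have hAA : A ∉ h.A := fun hm => hAn (hI.AB hm)
  have hEA : E ∉ h.A := fun hm => hEn (hI.AB hm)
  have hZA : Z ∉ h.A := fun hm => hZn (hI.AB hm)
  have ne_of_G : ∀ {W : Gad V}, W ∈ h.G → W ≠ A := fun hW hWA => hAG (hWA ▸ hW)
  have ne_of_A : ∀ {W : Gad V}, W ∈ h.A → W ≠ A := fun hW hWA => hAA (hWA ▸ hW)
  -- the universe of gadgets only grows
  have hall : ∀ {W : Gad V}, W ∈ h.G ∪ h.Bd ∪ R → W ∈ insert A h.G ∪ h.Bd ∪ R.erase A := by
    intro W hW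
    by_cases hWA : W = A
    · subst hWA
      exact mem_union_left _ (mem_union_left _ (mem_insert_self _ _))
    · rcases mem_union.mp hW with hW | hW
      · rcases mem_union.mp hW with hW | hW
        · exact mem_union_left _ (mem_union_left _ (mem_insert_of_mem hW))
        · exact mem_union_left _ (mem_union_right _ hW)
      · exact mem_union_right _ (mem_erase.mpr ⟨hWA, hW⟩)
  have hER : E ∈ R.erase A := mem_erase.mpr ⟨hG.AE.symm, hG.hE⟩
  have hZR : Z ∈ R.erase A := mem_erase.mpr ⟨hG.AZ.symm, hG.hZ⟩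
  -- absorbed gadgets are inside `T`
  have hsubT : ∀ {W : Gad V} (c : Cl), W ∈ h.G ∪ h.Bd → W.L c ⊆ T :=
    fun c hW => (L_sub_all _ c).trans (hI.gT _ hW)
  -- old records with target `A`
  have inA : ∀ {X : Gad V} {j : J}, h.RL X A j →
      j ∈ Ins r ∧ X ∈ h.G ∪ h.Bd ∧ ∃ A' ∈ h.A, h.PS A' A j ∧ X = A' := by
    intro X j hr
    obtain ⟨hXA, hfl⟩ := hI.rl X A j hr
    have hXm : X ∈ h.G ∪ h.Bd := by
      rcases mem_union.mp (src_mem hI hr) with hm | hm
      · exact hm
      · exact absurd hfl (hG.noin X hm hXA j)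
    have h201 : 201 ≤ nf H T (A.L (slot j)) := nf_src (hsubT _ hXm) hfl
    have hj : j ∈ Ins r := by
      by_contra hj
      have := hG.undocked j hj
      omega
    obtain ⟨A', hA', hps⟩ := hG.flagged j hj
    refine ⟨hj, hXm, A', hA', hps, ?_⟩
    by_contra hne
    have hfl' := (hI.rl A' A j (Or.inl ⟨hA', hps⟩)).2
    have hA'm : A' ∈ h.G ∪ h.Bd := hI.AB hA'
    have hd : Disjoint (X.L src) (A'.L src) :=
      (hI.dj X hXm A' hA'm hne).mono (L_sub_all _ _) (L_sub_all _ _)
    have h402 := nf_src2 (hsubT _ hXm) (hsubT _ hA'm) hd hfl hfl'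
    have := hG.single j hj
    omega
  -- new records with source in `G` are old
  have srcG : ∀ {X Y : Gad V} {j : J}, X ∈ h.G → (newH R h A r E M Z).RL X Y j →
      h.RL X Y j := by
    intro X Y j hX hr
    rcases rl_new hAA hAG hr with hr | ⟨hXA, _⟩ | ⟨_, _, ⟨hXE, _⟩ | ⟨hXZ, _⟩⟩
    · exact hr
    · exact absurd hXA (ne_of_G hX)
    · exact absurd (hXE ▸ hX) hEG
    · exact absurd (hXZ ▸ hX) hZG
  -- links of the new records
  have hrl : ∀ X Y j, (newH R h A r E M Z).RL X Y j → X ≠ Y ∧ FL H (X.L src) (Y.L (slot j)) := by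
    intro X Y j hr
    rcases rl_new hAA hAG hr with hr | ⟨rfl, ⟨rfl, rfl⟩ | ⟨rfl, rfl⟩⟩ |
      ⟨_, rfl, ⟨rfl, rfl⟩ | ⟨rfl, rfl⟩⟩
    · exact hI.rl X Y j hr
    · exact ⟨hG.AE, hG.fAE⟩
    · exact ⟨hG.AZ, hG.fAZ⟩
    · exact ⟨hG.ME.symm, hG.fEM⟩
    · exact ⟨hG.MZ.symm, hG.fZM⟩
  -- uniqueness for the pair `A`, `X'`
  have huA : ∀ X' ∈ h.G, ∀ M' j, (newH R h A r E M Z).RL A M' j →
      (newH R h A r E M Z).RL X' M' j → False := by
    intro X' hX' M' j hr hr'
    obtain ⟨hne, hfl⟩ := hrl _ _ _ hr
    have hr'' := srcG hX' hr'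
    have hfl' := (hI.rl _ _ _ hr'').2
    rcases mem_union.mp (tgt_mem hI hr'') with hm | hm
    · have h1 := nf_tgt (hsubT _ hm) hfl
      have h2 := hG.noT
      omega
    · have h1 := hG.first M' hm hne.symm j hfl
      have h2 := nf_src (hsubT _ (mem_union_left _ hX')) hfl'
      omega
  refine ⟨newH R h A r E M Z, ?_, rfl, hAG, rfl, ?_, ?_, ?_⟩
  · refine ⟨hV, ?_, ?_, ?_, ?_, ?_, ?_, ?_, hrl, ?_, ?_, ?_, ?_, ?_, ?_⟩
    · -- GA
      exact insert_subset_insert _ hI.GA
    · -- AB
      intro X hX
      have hX' : X ∈ insert A h.A := hX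
      change X ∈ insert A h.G ∪ h.Bd
      rcases mem_insert.mp hX' with rfl | hX'
      · exact mem_union_left _ (mem_insert_self _ _)
      · rcases mem_union.mp (hI.AB hX') with hm | hm
        · exact mem_union_left _ (mem_insert_of_mem hm)
        · exact mem_union_right _ hm
    · -- gT
      intro W hW
      have hW' : W ∈ insert A h.G ∪ h.Bd := hW
      by_cases hWA : W = A
      · subst hWA
        exact subset_union_right
      · have hW'' : W ∈ h.G ∪ h.Bd := by
          rcases mem_union.mp hW' with hm | hm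
          · exact mem_union_left _ (mem_of_mem_insert_of_ne hm hWA)
          · exact mem_union_right _ hm
        exact (hI.gT W hW'').trans subset_union_left
    · -- dj
      have hold : ∀ W, W ∈ insert A h.G ∪ h.Bd → W ≠ A → W ∈ h.G ∪ h.Bd := by
        intro W hW hWA
        rcases mem_union.mp hW with hm | hm
        · exact mem_union_left _ (mem_of_mem_insert_of_ne hm hWA)
        · exact mem_union_right _ hm
      have hdis : ∀ W ∈ h.G ∪ h.Bd, Disjoint W.all A.all := fun W hW =>
        (hI.valid.disjT A hG.hA).mono_left (hI.gT W hW)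
      intro X hX Y hY hXY
      by_cases hXA : X = A
      · subst hXA
        exact (hdis Y (hold Y hY (Ne.symm hXY))).symm
      · by_cases hYA : Y = A
        · subst hYA
          exact hdis X (hold X hX hXA)
        · exact hI.dj X (hold X hX hXA) Y (hold Y hY hYA) hXY
    · -- par
      intro X hX
      change update h.sp A E X ∈ insert A h.G ∪ h.Bd ∪ R.erase A ∧
        update h.tp A Z X ∈ insert A h.G ∪ h.Bd ∪ R.erase A
      by_cases hXA : X = A
      · subst hXA
        rw [update_self, update_self]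
        exact ⟨mem_union_right _ hER, mem_union_right _ hZR⟩
      · rw [update_of_ne hXA, update_of_ne hXA]
        have hX' := hI.par X (mem_of_mem_insert_of_ne hX hXA)
        exact ⟨hall hX'.1, hall hX'.2⟩
    · -- mo1
      intro X hX M' hM'
      change M' ∈ insert A h.G ∪ h.Bd ∪ R.erase A
      change update h.mo A (if M ∈ R then some M else none) X = some M' at hM'
      by_cases hXA : X = A
      · subst hXA
        rw [update_self] at hM'
        by_cases hMR : M ∈ R
        · rw [if_pos hMR] at hM'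
          have hMM : M = M' := Option.some.inj hM'
          subst hMM
          exact mem_union_right _ (mem_erase.mpr ⟨hG.MA, hMR⟩)
        · rw [if_neg hMR] at hM'
          exact absurd hM' (by simp)
      · rw [update_of_ne hXA] at hM'
        exact hall (hI.mo1 X (mem_of_mem_insert_of_ne hX hXA) M' hM')
    · -- mo2
      intro X hX hM'
      change update h.mo A (if M ∈ R then some M else none) X = none at hM'
      change update h.sp A E X ∉ insert A h.G ∧ (update h.sp A E X ∈ R.erase A →
        201 ≤ nf H (T ∪ A.all) ((update h.sp A E X).L src))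
      by_cases hXA : X = A
      · subst hXA
        rw [update_self] at hM' ⊢
        have hMR : M ∉ R := by
          intro hMR
          rw [if_pos hMR] at hM'
          exact absurd hM' (by simp)
        have hMT : M.all ⊆ T := hG.hM.resolve_left hMR
        refine ⟨?_, fun _ => ?_⟩
        · rw [mem_insert, not_or]
          exact ⟨hG.AE.symm, hEG⟩
        · exact (nf_tgt ((L_sub_all M _).trans hMT) hG.fEM).trans (nf_mono subset_union_left)
      · rw [update_of_ne hXA] at hM' ⊢
        obtain ⟨h1, h2⟩ := hI.mo2 X (mem_of_mem_insert_of_ne hX hXA) hM'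
        refine ⟨?_, fun hm => ?_⟩
        · rw [mem_insert, not_or]
          refine ⟨fun hsA => ?_, h1⟩
          rw [hsA] at h2
          have h3 := h2 hG.hA
          have h4 := hG.noT
          omega
        · exact (h2 (mem_of_mem_erase hm)).trans (nf_mono subset_union_left)
    · -- uniq
      intro X hX X' hX' M' j hr hr'
      by_cases hXA : X = A
      · by_cases hXA' : X' = A
        · rw [hXA, hXA']
        · subst hXA
          exact absurd hr' (fun hr' => huA X' (mem_of_mem_insert_of_ne hX' hXA') M' j hr hr')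
      · by_cases hXA' : X' = A
        · subst hXA'
          exact absurd hr (fun hr => huA X (mem_of_mem_insert_of_ne hX hXA) M' j hr' hr)
        · have hx := mem_of_mem_insert_of_ne hX hXA
          have hx' := mem_of_mem_insert_of_ne hX' hXA'
          exact hI.uniq X hx X' hx' M' j (srcG hx hr) (srcG hx' hr')
    · -- uch
      intro W hW X hX X' hX' j hp hp'
      have hX1 : X ∈ insert A h.A := hX
      have hX1' : X' ∈ insert A h.A := hX'
      -- `W` is not a parent of `A`
      have hWn : ¬ ((W = E ∧ j = sE r) ∨ (W = Z ∧ j = sZ r)) := by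
        rintro (⟨rfl, _⟩ | ⟨rfl, _⟩)
        · exact (nmi hG.AE.symm hEG) hW
        · exact (nmi hG.AZ.symm hZG) hW
      have hXA : X ≠ A := by
        rintro rfl
        exact hWn (ps_A.mp hp)
      have hXA' : X' ≠ A := by
        rintro rfl
        exact hWn (ps_A.mp hp')
      rw [ps_ne hXA] at hp
      rw [ps_ne hXA'] at hp'
      have hx := mem_of_mem_insert_of_ne hX1 hXA
      have hx' := mem_of_mem_insert_of_ne hX1' hXA'
      by_cases hWA : W = A
      · subst hWA
        obtain ⟨hj, hXm, _⟩ := inA (Or.inl ⟨hx, hp⟩)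
        obtain ⟨_, hXm', _⟩ := inA (Or.inl ⟨hx', hp'⟩)
        by_contra hne
        have hfl := (hI.rl X W j (Or.inl ⟨hx, hp⟩)).2
        have hfl' := (hI.rl X' W j (Or.inl ⟨hx', hp'⟩)).2
        have hd : Disjoint (X.L src) (X'.L src) :=
          (hI.dj X hXm X' hXm' hne).mono (L_sub_all _ _) (L_sub_all _ _)
        have h402 := nf_src2 (hsubT _ hXm) (hsubT _ hXm') hd hfl hfl'
        have := hG.single j hj
        omega
      · exact hI.uch W (mem_of_mem_insert_of_ne hW hWA) X hx X' hx' j hp hp'
    · -- ins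
      intro W hW j
      have hWn : ¬ ((W = E ∧ j = sE r) ∨ (W = Z ∧ j = sZ r)) := by
        rintro (⟨rfl, _⟩ | ⟨rfl, _⟩)
        · exact (nmi hG.AE.symm hEG) hW
        · exact (nmi hG.AZ.symm hZG) hW
      have hex : (∃ A' ∈ insert A h.A, (newH R h A r E M Z).PS A' W j) ↔
          ∃ A' ∈ h.A, h.PS A' W j := by
        constructor
        · rintro ⟨A', hA', hp⟩
          have hne : A' ≠ A := by
            rintro rfl
            exact hWn (ps_A.mp hp)
          exact ⟨A', mem_of_mem_insert_of_ne hA' hne, (ps_ne hne).mp hp⟩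
        · rintro ⟨A', hA', hp⟩
          exact ⟨A', mem_insert_of_mem hA', (ps_ne (ne_of_A hA')).mpr hp⟩
      change j ∈ Ins (update h.rl A r W) ↔ ∃ A' ∈ insert A h.A, (newH R h A r E M Z).PS A' W j
      rw [hex]
      by_cases hWA : W = A
      · subst hWA
        rw [update_self]
        constructor
        · intro hj
          exact hG.flagged j hj
        · rintro ⟨A', hA', hp⟩
          exact (inA (Or.inl ⟨hA', hp⟩)).1
      · rw [update_of_ne hWA]
        exact hI.ins W (mem_of_mem_insert_of_ne hW hWA) j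
    · -- back
      intro X Y j hr hY
      change X ∈ insert A h.A ∧ (newH R h A r E M Z).PS X Y j
      have hYE : Y ≠ E := by
        rintro rfl
        exact (nmi hG.AE.symm hEG) hY
      have hYZ : Y ≠ Z := by
        rintro rfl
        exact (nmi hG.AZ.symm hZG) hY
      have hYM : ¬ (M ∈ R ∧ Y = M) := by
        rintro ⟨hMR, rfl⟩
        have hMn := not_mem_of_reg hI hMR
        exact (nmi hG.MA (fun hm => hMn (mem_union_left _ hm))) hY
      have hr1 : h.RL X Y j := by
        rcases rl_new hAA hAG hr with hr | ⟨_, ⟨hh, _⟩ | ⟨hh, _⟩⟩ | ⟨hMR, hh, _⟩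
        · exact hr
        · exact absurd hh hYE
        · exact absurd hh hYZ
        · exact absurd ⟨hMR, hh⟩ hYM
      by_cases hYA : Y = A
      · subst hYA
        obtain ⟨hj, hXm, A', hA', hp, rfl⟩ := inA hr1
        exact ⟨mem_insert_of_mem hA', (ps_ne (ne_of_A hA')).mpr hp⟩
      · obtain ⟨hX, hp⟩ := hI.back X Y j hr1 (mem_of_mem_insert_of_ne hY hYA)
        exact ⟨mem_insert_of_mem hX, (ps_ne (ne_of_A hX)).mpr hp⟩
    · -- ord1
      intro X hX
      change update h.ord A h.A.card X < (insert A h.A).card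
      rw [card_insert_of_notMem hAA]
      by_cases hXA : X = A
      · subst hXA
        rw [update_self]
        omega
      · rw [update_of_ne hXA]
        have := hI.ord1 X (mem_of_mem_insert_of_ne hX hXA)
        omega
    · -- ord2
      intro X hX
      change (update h.sp A E X ∈ insert A h.A →
          update h.ord A h.A.card X < update h.ord A h.A.card (update h.sp A E X)) ∧
        (update h.tp A Z X ∈ insert A h.A →
          update h.ord A h.A.card X < update h.ord A h.A.card (update h.tp A Z X))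
      by_cases hXA : X = A
      · subst hXA
        rw [update_self, update_self, update_self]
        refine ⟨fun hm => ?_, fun hm => ?_⟩
        · exact absurd (mem_of_mem_insert_of_ne hm hG.AE.symm) hEA
        · exact absurd (mem_of_mem_insert_of_ne hm hG.AZ.symm) hZA
      · have hx := mem_of_mem_insert_of_ne hX hXA
        have h1 := hI.ord1 X hx
        have h2 := hI.ord2 X hx
        rw [update_of_ne hXA, update_of_ne hXA, update_of_ne hXA]
        refine ⟨fun hm => ?_, fun hm => ?_⟩
        · by_cases hs : h.sp X = A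
          · rw [hs, update_self]
            exact h1
          · rw [update_of_ne hs]
            exact h2.1 (mem_of_mem_insert_of_ne hm hs)
        · by_cases hs : h.tp X = A
          · rw [hs, update_self]
            exact h1
          · rw [update_of_ne hs]
            exact h2.2 (mem_of_mem_insert_of_ne hm hs)
  · -- rule of `A`
    change update h.rl A r A = r
    rw [update_self]
  · -- old rules
    intro W hW
    change update h.rl A r W = h.rl W
    rw [update_of_ne (ne_of_G hW)]
  · -- flags
    intro W j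
    unfold Hs.fl upd
    constructor
    · rintro ⟨A', hA', hp⟩
      by_cases hne : A' = A
      · subst hne
        exact Or.inr (ps_A.mp hp)
      · exact Or.inl ⟨A', mem_of_mem_insert_of_ne hA' hne, (ps_ne hne).mp hp⟩
    · rintro (⟨A', hA', hp⟩ | hp)
      · exact ⟨A', mem_insert_of_mem hA', (ps_ne (ne_of_A hA')).mpr hp⟩
      · exact ⟨A, mem_insert_self _ _, ps_A.mpr hp⟩

end Pool.Agent.H57.Irr
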