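import Pool.Agent.H57.Irr.Spec

set_option autoImplicit false

open Finset Filter Topology

namespace Pool.Agent.H57.Irr

namespace Limit

/-- numbers of edges do not change under bijections -/
theorem ncard_map {V W : Type} (e : V ≃ W) (G : SimpleGraph V) :
    (G.map e.toEmbedding).edgeSet.ncard = G.edgeSet.ncard := by
  rw [SimpleGraph.edgeSet_map]
  exact Set.ncard_image_of_injective _ (e.toEmbedding.sym2Map).injective

theorem map_top {V W : Type} (e : V ≃ W) :
    (⊤ : SimpleGraph V).map e.toEmbedding = ⊤ := by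
  ext a b
  rw [SimpleGraph.map_adj, SimpleGraph.top_adj]
  constructor
  · rintro ⟨u, v, huv, rfl, rfl⟩ h
    exact huv (e.injective h)
  · intro h
    exact ⟨e.symm a, e.symm b, fun h2 => h (e.symm.injective h2), by simp, by simp⟩

/-- `2^(h+1) - 1` -/
noncomputable def SS (h : ℕ) : ℝ := 2 ^ (h + 1) - 1

/-- size of the blocks -/
def BB (h : ℕ) : ℕ := 10 ^ 13 * (2 ^ (h + 1) - 1) ^ 2

theorem BB_eq (h : ℕ) : (BB h : ℝ) = 10 ^ 13 * SS h ^ 2 := by
  unfold BB SS
  have : 1 ≤ 2 ^ (h + 1) := Nat.one_le_two_pow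
  push_cast [Nat.cast_sub this]
  ring

theorem BB_pos (h : ℕ) : 0 < BB h := by
  unfold BB
  have : 2 ≤ 2 ^ (h + 1) := by
    calc 2 = 2 ^ 1 := by norm_num
      _ ≤ 2 ^ (h + 1) := Nat.pow_le_pow_right (by norm_num) (by omega)
  have h2 : 0 < 2 ^ (h + 1) - 1 := by omega
  positivity

/-- cost of a block -/
noncomputable def AA (h : ℕ) : ℝ :=
  cc * 10 ^ 13 * (2 ^ (h + 1) - 1) ^ 2 + 80400 * (2 ^ (h + 1) - 1) - 4 ^ h * vthP h

theorem ratio_eq (h : ℕ) : AA h / BB h = cc + 80400 * (1 / 2) ^ h / (10 ^ 13 * (2 - (1 / 2) ^ h)) -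
    vthP h / (10 ^ 13 * (2 - (1 / 2) ^ h) ^ 2) := by
  rw [BB_eq]
  unfold AA SS
  have h1 : (0 : ℝ) < 2 ^ h := by positivity
  have h3 : ((1 : ℝ) / 2) ^ h = 1 / 2 ^ h := by rw [div_pow, one_pow]
  have h4 : (1 : ℝ) ≤ 2 ^ h := one_le_pow₀ (by norm_num)
  have h5 : (2 : ℝ) ^ (h + 1) = 2 * 2 ^ h := by ring
  have h6 : (4 : ℝ) ^ h = (2 ^ h) ^ 2 := by
    rw [← pow_mul, mul_comm, pow_mul]; norm_num
  rw [h3, h5, h6]
  have h7 : (2 : ℝ) * 2 ^ h - 1 ≠ 0 := by
    have : (0 : ℝ) < 2 * 2 ^ h - 1 := by linarith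
    exact this.ne'
  have h8 : (2 : ℝ) - 1 / 2 ^ h = (2 * 2 ^ h - 1) / 2 ^ h := by field_simp
  rw [h8]
  field_simp
  

theorem tendsto_ratio (hc : S_const) :
    Tendsto (fun h => AA h / BB h) atTop (𝓝 (cc - vth / (4 * 10 ^ 13))) := by
  have h1 : Tendsto (fun h : ℕ => ((1 : ℝ) / 2) ^ h) atTop (𝓝 0) :=
    tendsto_pow_atTop_nhds_zero_of_lt_one (by norm_num) (by norm_num)
  have h2 : Tendsto (fun h : ℕ => (2 : ℝ) - (1 / 2) ^ h) atTop (𝓝 (2 - 0)) :=
    tendsto_const_nhds.sub h1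
  have h3 : Tendsto (fun h : ℕ => 80400 * ((1 : ℝ) / 2) ^ h / (10 ^ 13 * (2 - (1 / 2) ^ h))) atTop
      (𝓝 (80400 * 0 / (10 ^ 13 * (2 - 0)))) :=
    (h1.const_mul _).div (h2.const_mul _) (by norm_num)
  have h4 : Tendsto (fun h : ℕ => vthP h / (10 ^ 13 * (2 - ((1 : ℝ) / 2) ^ h) ^ 2)) atTop
      (𝓝 (vth / (10 ^ 13 * (2 - 0) ^ 2))) :=
    hc.2.2.2.div ((h2.pow 2).const_mul _) (by norm_num)
  have h5 := (h3.const_add cc).sub h4
  have h6 : cc + 80400 * 0 / (10 ^ 13 * (2 - 0)) - vth / (10 ^ 13 * (2 - 0) ^ 2) =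
      cc - vth / (4 * 10 ^ 13) := by ring
  rw [h6] at h5
  refine h5.congr (fun h => ?_)
  rw [ratio_eq]

end Limit

open Limit in
theorem limit : S_limit := by
  intro k F hW htr hlow hreach hcount hconst
  set w : ℝ := cc - vth / (4 * 10 ^ 13) with hw
  -- attained
  have hatt : ∀ n, ∃ G : SimpleGraph (Fin n), WeaklySaturated F G ∧ G.edgeSet.ncard = wsat n F := by
    intro n
    have hne : {m | ∃ G : SimpleGraph (Fin n), WeaklySaturated F G ∧ G.edgeSet.ncard = m}.Nonempty :=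
      ⟨_, ⊤, (hW n ⊤).2 Relation.ReflTransGen.refl, rfl⟩
    exact Nat.sInf_mem hne
  have hlow' : ∀ n, 2 * 10 ^ 13 ≤ n → w * n ≤ wsat n F := by
    intro n hn
    obtain ⟨G, hG, hGe⟩ := hatt n
    rw [← hGe]
    exact hlow n hn G ((hW n G).1 hG)
  obtain ⟨c₀, hc₀⟩ := hcount
  set c₁ := Fintype.card (VT 0 0 0) with hc₁
  clear_value c₁
  -- upper bound
  have hup : ∀ h t s : ℕ, (wsat (c₁ + s + t * BB h) F : ℝ) ≤ c₀ + 6000000000000 * s + t * AA h := by
    intro h t s
    have hcard : Fintype.card (VT h t s) = c₁ + s + t * BB h := by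
      have h1 := (hc₀ h t s).2
      have h2 := BB_eq h
      unfold SS at h2
      have h3 : (Fintype.card (VT h t s) : ℝ) = ((c₁ + s + t * BB h : ℕ) : ℝ) := by
        rw [h1]
        push_cast
        rw [h2]
        ring
      exact_mod_cast h3
    let e : VT h t s ≃ Fin (c₁ + s + t * BB h) := Fintype.equivFinOfCardEq hcard
    have h4 := htr _ _ e _ _ (hreach h t s)
    rw [Limit.map_top] at h4
    have h5 : wsat (c₁ + s + t * BB h) F ≤ (TDef h t s).edgeSet.ncard := by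
      apply Nat.sInf_le
      exact ⟨(TDef h t s).map e.toEmbedding, (hW _ _).2 h4, ncard_map e _⟩
    have h6 : (wsat (c₁ + s + t * BB h) F : ℝ) ≤ ((TDef h t s).edgeSet.ncard : ℝ) := by
      exact_mod_cast h5
    exact h6.trans (hc₀ h t s).1
  rw [tendsto_order]
  constructor
  · intro a ha
    filter_upwards [eventually_ge_atTop (2 * 10 ^ 13)] with n hn
    have hn0 : (0 : ℝ) < n := by
      have : 0 < n := by omega
      exact_mod_cast this
    have h1 := hlow' n hn
    refine lt_of_lt_of_le ha ?_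
    rw [le_div_iff₀ hn0]
    exact h1
  · intro a ha
    have h1 := (tendsto_order.1 (tendsto_ratio hconst)).2 a ha
    obtain ⟨h, hh⟩ := h1.exists
    have hB : (0 : ℝ) < BB h := by exact_mod_cast BB_pos h
    -- the constant
    set C : ℝ := |c₀| + 6000000000000 * BB h + |AA h| * (c₁ + BB h) / BB h with hC
    have h2 : Tendsto (fun n : ℕ => AA h / BB h + C / n) atTop (𝓝 (AA h / BB h + 0)) :=
      (tendsto_const_div_atTop_nhds_zero_nat C).const_add _
    rw [add_zero] at h2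
    have h3 := (tendsto_order.1 h2).2 a hh
    filter_upwards [h3, eventually_ge_atTop (c₁ + 1)] with n hn hnc
    refine lt_of_le_of_lt ?_ hn
    have hn0 : (0 : ℝ) < n := by
      have : 0 < n := by omega
      exact_mod_cast this
    set t := (n - c₁) / BB h with ht
    set s := (n - c₁) % BB h with hs
    have hsB : s < BB h := Nat.mod_lt _ (BB_pos h)
    have hnts : n = c₁ + s + t * BB h := by
      have h5 := Nat.mod_add_div (n - c₁) (BB h)
      rw [← hs, ← ht] at h5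
      have h6 : t * BB h = BB h * t := mul_comm _ _
      omega
    have h6 := hup h t s
    rw [← hnts] at h6
    have hnr : (n : ℝ) = c₁ + s + t * BB h := by exact_mod_cast hnts
    have hsr : (s : ℝ) ≤ BB h := by exact_mod_cast hsB.le
    have h7 : (t : ℝ) * AA h ≤ n * (AA h / BB h) + |AA h| * (c₁ + BB h) / BB h := by
      have h8 : (t : ℝ) = (n - (c₁ + s)) / BB h := by
        rw [hnr]; field_simp; ring
      have h9 : (t : ℝ) * AA h = n * (AA h / BB h) + (- AA h) * (c₁ + s) / BB h := by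
        rw [h8]; ring
      rw [h9]
      have h10 : (- AA h) * (c₁ + s) ≤ |AA h| * (c₁ + BB h) := by
        calc (- AA h) * (c₁ + s) ≤ |AA h| * (c₁ + s) :=
              mul_le_mul_of_nonneg_right (neg_le_abs _)
                (add_nonneg (Nat.cast_nonneg _) (Nat.cast_nonneg _))
          _ ≤ |AA h| * (c₁ + BB h) :=
              mul_le_mul_of_nonneg_left (by linarith) (abs_nonneg _)
      have h11 := div_le_div_of_nonneg_right h10 hB.le
      linarith
    have h12 : (wsat n F : ℝ) ≤ n * (AA h / BB h) + C := by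
      have h13 := le_abs_self c₀
      have h14 : (6000000000000 : ℝ) * s ≤ 6000000000000 * BB h := by linarith
      rw [hC]
      linarith
    rw [div_le_iff₀ hn0, add_mul, div_mul_cancel₀ _ hn0.ne']
    linarith

end Pool.Agent.H57.Irr
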