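import Pool.Agent.H57.Irr.Spec

/-!
# Assembly of the lower bound
-/

set_option autoImplicit false

namespace Pool.Agent.H57.Irr

open Finset Function

namespace Lower

theorem sum_sz : ∑ c : Cl, sz c = 10 ^ 13 := by
  rw [Fintype.sum_option, Fintype.sum_option]
  have h1 : ∀ j : J, sz (some (some j)) = 200001 + code j := fun _ => rfl
  have h2 : ∑ j : J, sz (some (some j)) = 20 * 200001 + ∑ j : J, code j := by
    rw [Finset.sum_congr rfl (fun j _ => h1 j), Finset.sum_add_distrib, Finset.sum_const,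
      Finset.card_univ, smul_eq_mul]
    rfl
  have h3 : ∑ j : J, code j = 190 := by decide
  have h4 : sz none = 9999995799790 := rfl
  have h5 : sz (some none) = 200000 := rfl
  rw [h2, h3, h4, h5]
  norm_num

theorem card_all {V : Type*} [DecidableEq V] (W : Gad V) : W.all.card = 10 ^ 13 := by
  unfold Gad.all
  rw [Finset.card_biUnion]
  · rw [Finset.sum_congr rfl (fun c _ => W.card c)]
    exact sum_sz
  · intro c _ c' _ hcc
    exact W.disj c c' hcc

theorem vth_nonneg : 0 ≤ vth := by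
  unfold vth
  apply tsum_nonneg
  intro p
  split_ifs <;> positivity

theorem card_G {V : Type} [Fintype V] [DecidableEq V] {H : SimpleGraph V} {T : Finset V}
    {R : Finset (Gad V)} {h : Hs V} (hI : Inv H T R h) :
    (10 : ℝ) ^ 13 * (h.G.card : ℝ) ≤ (Fintype.card V : ℝ) := by
  have h1 : (h.G.biUnion Gad.all).card = 10 ^ 13 * h.G.card := by
    rw [Finset.card_biUnion]
    · rw [Finset.sum_congr rfl (fun W _ => card_all W), Finset.sum_const, smul_eq_mul, mul_comm]
    · intro A hA B hB hAB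
      exact hI.dj A (Finset.mem_union_left _ hA) B (Finset.mem_union_left _ hB) hAB
  have h2 : 10 ^ 13 * h.G.card ≤ Fintype.card V := by
    rw [← h1]
    exact Finset.card_le_univ _
  exact_mod_cast h2

end Lower

open Lower in
theorem lower : S_lower := by
  intro habs htop hh1 hh2 hh3 hrun hstat hgrid hground hv V _ _ St H hn hSt hR
  obtain ⟨T, R, h, hI, hPsi⟩ := hrun hh1 hh2 hh3 V St H hSt hR
  have h1 := htop habs V T R h.fl hn hI.valid
  obtain ⟨Exc, hEG, hGS, hE, hs, ht⟩ := hstat V (⊤ : SimpleGraph V) T R h hI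
  have h2 := hgrid (Gad V) h.G Exc h.rl h.sp h.tp h.ord hGS hEG
  have h3 := hground (Gad V) h.G Exc h.rl h.sp h.tp h.ord hGS
  have h4 : (h.Bd ∪ R).card ≤ h.Bd.card + R.card := Finset.card_union_le _ _
  have h5 := card_G hI
  have hv0 := vth_nonneg
  have hcnt : (h.cnt : ℝ) = ((h.G.filter (fun z => bit (own (h.rl z)))).card : ℝ) := rfl
  rw [← hcnt] at h2
  set N0 : ℕ := (h.G.filter (fun z => own (h.rl z) = 0)).card with hN0
  set u : ℕ := (h.Bd ∪ R).card with hu
  have h6 : (4 : ℝ) * N0 ≤ h.G.card + 30 * u := by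
    have : 4 * N0 ≤ h.G.card + 30 * u := by omega
    exact_mod_cast this
  have h7 : (Exc.card : ℝ) ≤ 22 * u := by exact_mod_cast hE
  have h8 : (u : ℝ) ≤ h.Bd.card + R.card := by exact_mod_cast h4
  have hu0 : (0 : ℝ) ≤ u := Nat.cast_nonneg u
  have h9 : vth * N0 ≤ vth / 4 * h.G.card + 30 * u := by
    have h10 : vth * (4 * N0) ≤ vth * (h.G.card + 30 * u) := mul_le_mul_of_nonneg_left h6 hv0
    have h11 : vth * u ≤ 4 * u := mul_le_mul_of_nonneg_right hv hu0
    nlinarith
  have h12 : vth / 4 * h.G.card ≤ vth / (4 * 10 ^ 13) * (Fintype.card V : ℝ) := by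
    have h13 : vth / (4 * 10 ^ 13) * ((10 : ℝ) ^ 13 * (h.G.card : ℝ)) ≤
        vth / (4 * 10 ^ 13) * (Fintype.card V : ℝ) :=
      mul_le_mul_of_nonneg_left h5 (by positivity)
    have h14 : vth / (4 * 10 ^ 13) * ((10 : ℝ) ^ 13 * (h.G.card : ℝ)) = vth / 4 * h.G.card := by
      field_simp
    rw [h14] at h13
    exact h13
  rw [sub_mul]
  linarith

end Pool.Agent.H57.Irr
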