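import Pool.Agent.H57.Irr.Spec

set_option autoImplicit false

namespace Pool.Agent.H57.Irr

open Finset Function

namespace Mismatch

variable {V : Type} [DecidableEq V]

lemma mem_all {W : Gad V} {x : V} : x ∈ W.all ↔ ∃ c, x ∈ W.L c := by
  simp [Gad.all]

lemma sz_rest : sz rest = 9999995799790 := rfl

lemma sz_src : sz src = 200000 := rfl

lemma sz_slot (j : J) : sz (slot j) = 200001 + code j := rfl

lemma code_lt (j : J) : code j < 20 := by
  obtain ⟨a, b, c⟩ := j
  have ha := a.isLt
  have hb := b.isLt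
  have hc := c.isLt
  simp only [code]
  omega

lemma code_inj {j j' : J} (h : code j = code j') : j = j' := by
  obtain ⟨a, b, c⟩ := j
  obtain ⟨a', b', c'⟩ := j'
  have ha := a.isLt
  have hb := b.isLt
  have hc := c.isLt
  have ha' := a'.isLt
  have hb' := b'.isLt
  have hc' := c'.isLt
  simp only [code] at h
  have h1 : a = a' := Fin.ext (by omega)
  have h2 : b = b' := Fin.ext (by omega)
  have h3 : c = c' := Fin.ext (by omega)
  rw [h1, h2, h3]

lemma sz_bounds {c : Cl} (hc : c ≠ rest) : 200000 ≤ sz c ∧ sz c ≤ 200020 := by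
  match c, hc with
  | none, hc => exact absurd rfl hc
  | some none, _ => exact ⟨le_of_eq sz_src.symm, by rw [sz_src]; norm_num⟩
  | some (some j), _ =>
    have h := code_lt j
    rw [sz_slot]
    omega

lemma sz_inj {c c' : Cl} (hc : c ≠ rest) (hc' : c' ≠ rest) (h : sz c = sz c') : c = c' := by
  match c, hc, c', hc' with
  | none, hc, _, _ => exact absurd rfl hc
  | _, _, none, hc' => exact absurd rfl hc'
  | some none, _, some none, _ => rfl
  | some none, _, some (some j), _ =>
    rw [sz_src, sz_slot] at h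
    omega
  | some (some j), _, some none, _ =>
    rw [sz_src, sz_slot] at h
    omega
  | some (some j), _, some (some j'), _ =>
    rw [sz_slot, sz_slot] at h
    have : code j = code j' := by omega
    rw [code_inj this]

lemma sum_J (f : ℕ → ℕ) : ∑ j : J, f (code j) = ∑ n ∈ range 20, f n := by
  simp only [Fintype.sum_prod_type, Fin.sum_univ_succ, Fin.sum_univ_zero, sum_range_succ,
    sum_range_zero, code]
  simp
  ring

lemma sz_sum : ∑ c : Cl, sz c = 10000000000000 := by
  rw [Fintype.sum_option, Fintype.sum_option]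
  change 9999995799790 + (200000 + ∑ j : J, (fun n => 200001 + n) (code j)) = _
  rw [sum_J]
  simp [sum_range_succ]

lemma sz_sq_sum : ∑ c ∈ univ.erase rest, sz c * sz c = 840084002870 := by
  have h := Finset.add_sum_erase (univ : Finset Cl) (fun c => sz c * sz c) (mem_univ rest)
  rw [Fintype.sum_option, Fintype.sum_option] at h
  have h2 : ∑ j : J, sz (slot j) * sz (slot j) = 800084002870 := by
    refine (sum_J (fun n => (200001 + n) * (200001 + n))).trans ?_
    simp [sum_range_succ]
  change _ + _ = sz rest * sz rest + (sz src * sz src + ∑ j : J, sz (slot j) * sz (slot j)) at h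
  rw [h2] at h
  have h3 := Nat.add_left_cancel h
  rw [h3, sz_src]

lemma card_all (W : Gad V) : W.all.card = 10000000000000 := by
  unfold Gad.all
  rw [card_biUnion]
  · simp only [W.card]
    exact sz_sum
  · intro c _ c' _ h
    exact W.disj c c' h

omit [DecidableEq V] in
open Classical in
lemma E2_eq (H : SimpleGraph V) (A : Finset V) :
    E2 H A A = ((A ×ˢ A).filter (fun p => H.Adj p.1 p.2)).card := by
  unfold E2 d
  rw [card_filter, sum_product]
  refine sum_congr rfl fun x _ => ?_
  rw [← card_filter]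

/-- pairs which may be non-adjacent -/
def U (W : Gad V) : Finset (V × V) :=
  ((univ.erase rest).biUnion fun c => W.L c ×ˢ W.L c) ∪ (W.L rest).image (fun x => (x, x))

lemma card_U (W : Gad V) : (U W).card ≤ 10840079802660 := by
  unfold U
  have e1 := card_union_le ((univ.erase rest).biUnion fun c => W.L c ×ˢ W.L c)
    ((W.L rest).image (fun x => (x, x)))
  have e2 : ((univ.erase rest).biUnion fun c => W.L c ×ˢ W.L c).card ≤ 840084002870 := by
    refine card_biUnion_le.trans (le_of_eq ?_)
    rw [← sz_sq_sum]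
    refine sum_congr rfl fun c _ => ?_
    rw [card_product, W.card]
  have e3 : ((W.L rest).image (fun x => (x, x))).card ≤ 9999995799790 := by
    refine card_image_le.trans (le_of_eq ?_)
    rw [W.card, sz_rest]
  omega

lemma mem_U_of {W : Gad V} {x y : V} {c : Cl} (hc : c ≠ rest) (hx : x ∈ W.L c) (hy : y ∈ W.L c) :
    (x, y) ∈ U W := by
  unfold U
  refine mem_union_left _ (mem_biUnion.mpr ⟨c, mem_erase.mpr ⟨hc, mem_univ _⟩, ?_⟩)
  exact mem_product.mpr ⟨hx, hy⟩

lemma mem_U_diag {W : Gad V} {x : V} {c : Cl} (hx : x ∈ W.L c) : (x, x) ∈ U W := by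
  by_cases hc : c = rest
  · subst hc
    unfold U
    exact mem_union_right _ (mem_image.mpr ⟨x, hx, rfl⟩)
  · exact mem_U_of hc hx hx

lemma main {H : SimpleGraph V} {W : Gad V} (hW : Comp H W) (P : Finset (V × V)) (hPU : P ⊆ U W)
    (hPa : ∀ p ∈ P, H.Adj p.1 p.2) (hP : 399998 ≤ P.card) :
    2 * 49999999999994579960298669 ≤ E2 H W.all W.all := by
  classical
  rw [E2_eq]
  have h1 := card_filter_add_card_filter_not (s := W.all ×ˢ W.all)
    (fun p : V × V => H.Adj p.1 p.2)
  rw [card_product, card_all] at h1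
  have h2 : (W.all ×ˢ W.all).filter (fun p => ¬ H.Adj p.1 p.2) ⊆ U W \ P := by
    rintro ⟨x, y⟩ hp
    rw [mem_filter, mem_product] at hp
    obtain ⟨⟨hx, hy⟩, hn⟩ := hp
    simp only at hx hy hn
    rw [mem_sdiff]
    refine ⟨?_, fun h => hn (hPa _ h)⟩
    obtain ⟨c, hc⟩ := mem_all.mp hx
    obtain ⟨c', hc'⟩ := mem_all.mp hy
    by_cases hxy : x = y
    · subst hxy
      exact mem_U_diag hc
    · have h3 : ¬ (c = c' → c = rest) := fun h => hn (hW c c' x hc y hc' hxy h)
      push Not at h3
      obtain ⟨rfl, h4⟩ := h3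
      exact mem_U_of h4 hc hc'
  have h3 := card_le_card h2
  rw [card_sdiff_of_subset hPU] at h3
  have h4 := card_U W
  omega

lemma split {H : SimpleGraph V} {W : Gad V} (hW : Comp H W) {c : Cl} (hc : c ≠ rest)
    (S₁ S₂ : Finset V) (h1 : S₁ ∪ S₂ = W.L c) (hd : Disjoint S₁ S₂) (hn1 : S₁.Nonempty)
    (hn2 : S₂.Nonempty) (ha : ∀ x ∈ S₁, ∀ y ∈ S₂, H.Adj x y) :
    2 * 49999999999994579960298669 ≤ E2 H W.all W.all := by
  have hs1 : S₁ ⊆ W.L c := by rw [← h1]; exact subset_union_left
  have hs2 : S₂ ⊆ W.L c := by rw [← h1]; exact subset_union_right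
  refine main hW ((S₁ ×ˢ S₂) ∪ (S₂ ×ˢ S₁)) ?_ ?_ ?_
  · rintro ⟨x, y⟩ hp
    rw [mem_union, mem_product, mem_product] at hp
    rcases hp with ⟨hx, hy⟩ | ⟨hx, hy⟩
    · exact mem_U_of hc (hs1 hx) (hs2 hy)
    · exact mem_U_of hc (hs2 hx) (hs1 hy)
  · rintro ⟨x, y⟩ hp
    rw [mem_union, mem_product, mem_product] at hp
    rcases hp with ⟨hx, hy⟩ | ⟨hx, hy⟩
    · exact ha x hx y hy
    · exact (ha y hy x hx).symm
  · rw [card_union_of_disjoint, card_product, card_product]
    · have h2 : S₁.card + S₂.card = sz c := by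
        rw [← card_union_of_disjoint hd, h1, W.card]
      have h3 := (sz_bounds hc).1
      have h4 := hn1.card_pos
      have h5 := hn2.card_pos
      obtain ⟨a, ha⟩ := Nat.exists_eq_add_of_le' h4
      obtain ⟨b, hb⟩ := Nat.exists_eq_add_of_le' h5
      rw [ha, hb] at h2 ⊢
      nlinarith [Nat.zero_le (a * b)]
    · rw [disjoint_left]
      rintro ⟨x, y⟩ hp hq
      rw [mem_product] at hp hq
      exact (disjoint_left.mp hd) hp.1 hq.1

/-- an injective self-map of the non-rest classes which does not decrease sizes is the identity -/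
lemma tau_id (τ : Cl → Cl) (h1 : ∀ c, c ≠ rest → τ c ≠ rest)
    (h2 : ∀ c c', c ≠ rest → c' ≠ rest → τ c = τ c' → c = c')
    (h3 : ∀ c, c ≠ rest → sz c ≤ sz (τ c)) : ∀ c, c ≠ rest → τ c = c := by
  classical
  have hinj : Set.InjOn τ ((univ.erase rest : Finset Cl) : Set Cl) := by
    intro c hc c' hc' h
    rw [mem_coe, mem_erase] at hc hc'
    exact h2 c c' hc.1 hc'.1 h
  have hsub : (univ.erase rest).image τ ⊆ (univ.erase rest : Finset Cl) := by
    intro c hc
    obtain ⟨b, hb, rfl⟩ := mem_image.mp hc
    rw [mem_erase] at hb ⊢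
    exact ⟨h1 b hb.1, mem_univ _⟩
  have himg : (univ.erase rest).image τ = (univ.erase rest : Finset Cl) :=
    eq_of_subset_of_card_le hsub (by rw [card_image_of_injOn hinj])
  have hsum : ∑ c ∈ (univ.erase rest : Finset Cl), sz c =
      ∑ c ∈ (univ.erase rest : Finset Cl), sz (τ c) := by
    conv_lhs => rw [← himg]
    rw [sum_image hinj]
  have heq := (Finset.sum_eq_sum_iff_of_le (s := (univ.erase rest : Finset Cl))
    (f := fun c => sz c) (g := fun c => sz (τ c))
    (fun c hc => h3 c (mem_erase.mp hc).1)).mp hsum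
  intro c hc
  exact (sz_inj hc (h1 c hc) (heq c (mem_erase.mpr ⟨hc, mem_univ _⟩))).symm

end Mismatch

open Mismatch in
theorem mismatch : S_mismatch := by
  intro V _ _ H W B hW hB hall hne
  by_contra hcon
  apply hne
  -- every class of `W` is contained in a class of `B`
  have key : ∀ c : Cl, c ≠ rest → ∃ j : Cl, j ≠ rest ∧ W.L c ⊆ B.L j := by
    intro c hc
    by_contra hno
    push Not at hno
    have hne0 : (W.L c).Nonempty := by
      rw [← card_pos, W.card]
      have := (sz_bounds hc).1
      omega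
    obtain ⟨x, hx⟩ := hne0
    have hxA : x ∈ B.all := by
      rw [← hall]
      exact mem_all.mpr ⟨c, hx⟩
    obtain ⟨j, hj⟩ := mem_all.mp hxA
    by_cases hex : ∃ x ∈ W.L c, x ∈ B.L rest
    · obtain ⟨z, hz, hz3⟩ := hex
      apply hcon
      refine split hW hc {z} ((W.L c).erase z) ?_ ?_ ⟨z, mem_singleton_self z⟩ ?_ ?_
      · rw [singleton_union, insert_erase hz]
      · simp
      · rw [← card_pos, card_erase_of_mem hz, W.card]
        have := (sz_bounds hc).1
        omega
      · intro a ha y hy
        rw [mem_singleton] at ha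
        subst ha
        have hyW := mem_of_mem_erase hy
        have hyB : y ∈ B.all := by
          rw [← hall]
          exact mem_all.mpr ⟨c, hyW⟩
        obtain ⟨j', hj'⟩ := mem_all.mp hyB
        exact hB rest j' a hz3 y hj' (ne_of_mem_erase hy).symm (fun _ => rfl)
    · push Not at hex
      have hj3 : j ≠ rest := by
        rintro rfl
        exact hex x hx hj
      have hnsub := hno j hj3
      rw [not_subset] at hnsub
      obtain ⟨y, hy, hyj⟩ := hnsub
      apply hcon
      refine split hW hc (W.L c ∩ B.L j) (W.L c \ B.L j) ?_ ?_ ⟨x, mem_inter.mpr ⟨hx, hj⟩⟩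
        ⟨y, mem_sdiff.mpr ⟨hy, hyj⟩⟩ ?_
      · rw [union_comm]
        exact sdiff_union_inter _ _
      · rw [disjoint_left]
        intro a ha hb
        exact (mem_sdiff.mp hb).2 (mem_inter.mp ha).2
      · intro a ha b hb
        rw [mem_inter] at ha
        rw [mem_sdiff] at hb
        have hbB : b ∈ B.all := by
          rw [← hall]
          exact mem_all.mpr ⟨c, hb.1⟩
        obtain ⟨j', hj'⟩ := mem_all.mp hbB
        have hjj : j ≠ j' := by
          rintro rfl
          exact hb.2 hj'
        refine hB j j' a ha.2 b hj' ?_ (fun h => absurd h hjj)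
        rintro rfl
        exact hb.2 ha.2
  classical
  have key' : ∀ c : Cl, ∃ j : Cl, c ≠ rest → (j ≠ rest ∧ W.L c ⊆ B.L j) := by
    intro c
    by_cases hc : c = rest
    · exact ⟨rest, fun h => absurd hc h⟩
    · obtain ⟨j, hj⟩ := key c hc
      exact ⟨j, fun _ => hj⟩
  choose τ hτ using key'
  have hid : ∀ c, c ≠ rest → τ c = c := by
    refine tau_id τ (fun c hc => (hτ c hc).1) ?_ ?_
    · intro c c' hc hc' h
      by_contra hcc
      have s1 := (hτ c hc).2
      have s2 := (hτ c' hc').2
      rw [← h] at s2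
      have hu : W.L c ∪ W.L c' ⊆ B.L (τ c) := union_subset s1 s2
      have hcard := card_le_card hu
      rw [card_union_of_disjoint (W.disj c c' hcc), W.card, W.card, B.card] at hcard
      have b1 := (sz_bounds hc).1
      have b2 := (sz_bounds hc').1
      have b3 := (sz_bounds (hτ c hc).1).2
      omega
    · intro c hc
      have hcard := card_le_card (hτ c hc).2
      rwa [W.card, B.card] at hcard
  have heq : ∀ c, c ≠ rest → W.L c = B.L c := by
    intro c hc
    have hs := (hτ c hc).2
    rw [hid c hc] at hs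
    exact eq_of_subset_of_card_le hs (by rw [W.card, B.card])
  have hrest : W.L rest = B.L rest := by
    refine eq_of_subset_of_card_le ?_ (by rw [W.card, B.card])
    intro x hx
    have hxB : x ∈ B.all := by
      rw [← hall]
      exact mem_all.mpr ⟨rest, hx⟩
    obtain ⟨j, hj⟩ := mem_all.mp hxB
    by_cases hjr : j = rest
    · rw [hjr] at hj
      exact hj
    · exfalso
      rw [← heq j hjr] at hj
      exact disjoint_left.mp (W.disj rest j (Ne.symm hjr)) hx hj
  apply Gad.ext
  funext c
  by_cases hc : c = rest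
  · rw [hc]
    exact hrest
  · exact heq c hc

end Pool.Agent.H57.Irr
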