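import Pool.Agent.H57.Irr.Spec

set_option autoImplicit false

namespace Pool.Agent.H57.Irr

open Finset Function

namespace Run

/-- a rule -/
def r0 : Rul := ⟨(0, 0, 0, 0, 0, 0, 0), by
  simp [okR, sk, tk]⟩

/-- the empty history -/
def h0 (V : Type*) : Hs V where
  G := ∅
  A := ∅
  Bd := ∅
  rl := fun _ => r0
  sp := id
  tp := id
  mo := fun _ => none
  ord := fun _ => 0

theorem noRL {V : Type*} (X Y : Gad V) (j : J) : ¬ (h0 V).RL X Y j := by
  rintro (⟨h, -⟩ | ⟨A, h, -⟩)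
  · exact absurd h (notMem_empty _)
  · exact absurd h (notMem_empty _)

theorem inv0 {V : Type*} [DecidableEq V] (H : SimpleGraph V) : Inv H ∅ ∅ (h0 V) where
  valid := ⟨fun W hW => absurd hW (notMem_empty _), fun W hW => absurd hW (notMem_empty _),
    fun W hW => absurd hW (notMem_empty _)⟩
  GA := Subset.rfl
  AB := empty_subset _
  gT := fun A hA => absurd hA (by simp [h0])
  dj := fun A hA => absurd hA (by simp [h0])
  par := fun A hA => absurd hA (notMem_empty _)
  mo1 := fun A hA => absurd hA (notMem_empty _)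
  mo2 := fun A hA => absurd hA (notMem_empty _)
  rl := fun X Y j h => absurd h (noRL X Y j)
  uniq := fun X hX => absurd hX (notMem_empty _)
  uch := fun X hX => absurd hX (notMem_empty _)
  ins := fun X hX => absurd hX (notMem_empty _)
  back := fun X Y j h => absurd h (noRL X Y j)
  ord1 := fun A hA => absurd hA (notMem_empty _)
  ord2 := fun A hA => absurd hA (notMem_empty _)

theorem psi0 {V : Type*} [Fintype V] [DecidableEq V] (H : SimpleGraph V) (fl : Gad V → J → Prop) :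
    Psi H ∅ ∅ fl = (E2 H univ univ : ℝ) / 2 := by
  unfold Psi
  have : E2 H ∅ ∅ = 0 := by unfold E2; simp
  rw [this]
  simp

theorem valid_erase {V : Type*} [DecidableEq V] {H : SimpleGraph V} {T : Finset V}
    {R : Finset (Gad V)} {A : Gad V} (h : Valid H T R) (hA : A ∈ R) :
    Valid H (T ∪ A.all) (R.erase A) where
  comp := fun W hW => h.comp W (mem_of_mem_erase hW)
  disjT := fun W hW => by
    rw [disjoint_union_left]
    exact ⟨h.disjT W (mem_of_mem_erase hW),
      h.disj A hA W (mem_of_mem_erase hW) (ne_of_mem_erase hW).symm⟩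
  disj := fun W hW W' hW' => h.disj W (mem_of_mem_erase hW) W' (mem_of_mem_erase hW')

theorem cnt_insert {V : Type*} {h h' : Hs V} {A : Gad V} {r : Rul} (hG : h'.G = insert A h.G)
    (hA : A ∉ h.G) (hr : h'.rl A = r) (hrl : ∀ W ∈ h.G, h'.rl W = h.rl W) :
    h'.cnt = h.cnt + bon r := by
  unfold Hs.cnt
  have e1 : (h.G.filter fun A => bit (own (h'.rl A))) = h.G.filter fun A => bit (own (h.rl A)) :=
    filter_congr fun W hW => by rw [hrl W hW]
  rw [hG, filter_insert, hr, e1]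
  unfold bon
  by_cases hb : bit (own r)
  · rw [if_pos hb, if_pos hb, card_insert_of_notMem]
    intro hm
    exact hA (mem_filter.1 hm).1
  · rw [if_neg hb, if_neg hb, Nat.add_zero]

theorem cnt_same {V : Type*} {h h' : Hs V} (hG : h'.G = h.G)
    (hrl : ∀ W ∈ h.G, h'.rl W = h.rl W) : h'.cnt = h.cnt := by
  unfold Hs.cnt
  rw [hG]
  congr 1
  exact filter_congr fun W hW => by rw [hrl W hW]

theorem fl_eq {V : Type*} {h h' : Hs V} {r : Rul} {E Z : Gad V}
    (hfl : ∀ W j, h'.fl W j ↔ upd h.fl r E Z W j) : h'.fl = upd h.fl r E Z :=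
  funext fun W => funext fun j => propext (hfl W j)

end Run

open Run in
theorem run : S_run := by
  intro H1 H2 H3 V _ _ St H hSt hpath
  suffices hmain : ∀ H₁ : SimpleGraph V, Relation.ReflTransGen St H H₁ →
      ∃ T R h, Inv H₁ T R h ∧
        Psi H₁ T R h.fl + 150 * (h.Bd.card : ℝ) ≤ (E2 H univ univ : ℝ) / 2 + (h.cnt : ℝ) from
    hmain ⊤ hpath
  intro H₁ hH₁
  induction hH₁ with
  | refl =>
    refine ⟨∅, ∅, h0 V, inv0 H, ?_⟩
    rw [psi0]
    have e1 : (h0 V).Bd.card = 0 := by simp [h0]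
    have e2 : (h0 V).cnt = 0 := by
      unfold Hs.cnt
      exact card_eq_zero.2 (filter_eq_empty_iff.2 fun x hx => absurd hx (notMem_empty _))
    rw [e1, e2]
    simp
  | @tail H₁ H₂ _ hstep ih =>
    obtain ⟨T, R, h, hinv, hpsi⟩ := ih
    obtain ⟨hle, hout⟩ := hSt H₁ H₂ hstep
    rcases hout T R h.fl hinv.valid with ⟨R', hR, hV, hP⟩ | ⟨R1, T', R', hR, hV, hT, hR', hV', hW, hP⟩ |
      ⟨R1, A, r, E, M, Z, hR, hV, hG, hP⟩ | ⟨R1, A, r, E, Z, hR, hV, hA, hE, hZ, hAE, hAZ, hEZ, f1, f2, hP⟩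
    · exact ⟨T, R', h, H1.1 V H₁ H₂ T R R' h hinv hle hR hV, by linarith⟩
    · have hi1 := H1.1 V H₁ H₂ T R R1 h hinv hle hR hV
      have hi2 := H1.2 V H₂ T T' R1 R' h hi1 hT hR' hV' hW
      refine ⟨T', R', { h with Bd := h.Bd ∪ (R1 \ R') }, hi2, ?_⟩
      have hc : ((h.Bd ∪ (R1 \ R')).card : ℝ) ≤ h.Bd.card + (R1 \ R').card := by
        exact_mod_cast card_union_le _ _
      show Psi H₂ T' R' h.fl + 150 * ((h.Bd ∪ (R1 \ R')).card : ℝ) ≤
        (E2 H univ univ : ℝ) / 2 + (h.cnt : ℝ)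
      linarith
    · have hi1 := H1.1 V H₁ H₂ T R R1 h hinv hle hR hV
      obtain ⟨h', g1, g2, g3, g4, g5, g6, g7⟩ := H2 V H₂ T R1 h A r E M Z hi1 hG (valid_erase hV hG.hA)
      refine ⟨_, _, h', g1, ?_⟩
      rw [fl_eq g7, g4, cnt_insert g2 g3 g5 g6]
      push_cast
      linarith
    · have hi1 := H1.1 V H₁ H₂ T R R1 h hinv hle hR hV
      obtain ⟨h', g1, g2, g3, g4, g5⟩ := H3 V H₂ T R1 h A r E Z hi1 hA hE hZ hAE hAZ hEZ f1 f2
        (valid_erase hV hA)
      refine ⟨_, _, h', g1, ?_⟩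
      rw [fl_eq g5, g3, cnt_same g2 g4]
      have hc : ((insert A h.Bd).card : ℝ) ≤ h.Bd.card + 1 := by
        exact_mod_cast card_insert_le _ _
      linarith

end Pool.Agent.H57.Irr
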