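import Pool.Agent.H57.Irr.Spec

/-!
# STATIC: from the history invariant to the abstract grid system (helper484, for helper57)
-/

set_option autoImplicit false

namespace Pool.Agent.H57.Irr

open Finset Function

namespace Static

theorem mem_Ins0 (r : Rul) (i : Fin 2) (σ : St) :
    ((0, i, σ) : J) ∈ Ins r ↔ sk (own r) ∧ σ = σs r := by
  unfold Ins
  have hi : i = 0 ∨ i = 1 := by omega
  by_cases h1 : sk (own r) <;> by_cases h2 : tk (own r) <;> rcases hi with rfl | rfl <;>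
    simp [h1, h2]

theorem mem_Ins1 (r : Rul) (i : Fin 2) (σ : St) :
    ((1, i, σ) : J) ∈ Ins r ↔ tk (own r) ∧ σ = σt r := by
  unfold Ins
  have hi : i = 0 ∨ i = 1 := by omega
  by_cases h1 : sk (own r) <;> by_cases h2 : tk (own r) <;> rcases hi with rfl | rfl <;>
    simp [h1, h2]

variable {V : Type}

theorem ps0 {h : Hs V} {A z : Gad V} {i : Fin 2} {σ : St} (hp : h.PS A z (0, i, σ)) :
    z = h.sp A ∧ i = ia (h.rl A) ∧ σ = own (h.rl A) := by
  rcases hp with ⟨h1, h2⟩ | ⟨h1, h2⟩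
  · simp only [sE, Prod.mk.injEq] at h2
    exact ⟨h1, h2.2.1, h2.2.2⟩
  · simp [sZ] at h2

theorem ps1 {h : Hs V} {A z : Gad V} {i : Fin 2} {σ : St} (hp : h.PS A z (1, i, σ)) :
    z = h.tp A ∧ i = ig (h.rl A) ∧ σ = own (h.rl A) := by
  rcases hp with ⟨h1, h2⟩ | ⟨h1, h2⟩
  · simp [sE] at h2
  · simp only [sZ, Prod.mk.injEq] at h2
    exact ⟨h1, h2.2.1, h2.2.2⟩

end Static

open Static in
theorem static : S_static := by
  classical
  intro V _ _ H T R h hI
  set Exc0 : Finset (Gad V) := h.G.filter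
    (fun z => ∃ x ∈ h.A, x ∉ h.G ∧ (h.sp x = z ∨ h.tp x = z)) with hE0
  set Exc1 : Finset (Gad V) := h.G.filter
    (fun x => h.sp x ∈ h.G ∧ h.tp (h.sp x) ∈ h.G ∧ h.mo x ≠ some (h.tp (h.sp x))) with hE1
  have s1 : ∀ x ∈ h.G, h.sp x ∈ h.G →
      sk (own (h.rl (h.sp x))) ∧ own (h.rl x) = σs (h.rl (h.sp x)) := by
    intro x hx hsx
    have := (hI.ins (h.sp x) hsx (sE (h.rl x))).2 ⟨x, hI.GA hx, Or.inl ⟨rfl, rfl⟩⟩
    exact (mem_Ins0 _ _ _).1 this
  have t1 : ∀ x ∈ h.G, h.tp x ∈ h.G →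
      tk (own (h.rl (h.tp x))) ∧ own (h.rl x) = σt (h.rl (h.tp x)) := by
    intro x hx hsx
    have := (hI.ins (h.tp x) hsx (sZ (h.rl x))).2 ⟨x, hI.GA hx, Or.inr ⟨rfl, rfl⟩⟩
    exact (mem_Ins1 _ _ _).1 this
  have s3 : ∀ x ∈ h.G, ∀ y ∈ h.G, h.sp x ∈ h.G → h.sp x = h.sp y →
      ia (h.rl x) = ia (h.rl y) → x = y := by
    intro x hx y hy hsx hxy hia
    have e1 := (s1 x hx hsx).2
    have e2 := (s1 y hy (hxy ▸ hsx)).2
    have e3 : sE (h.rl x) = sE (h.rl y) := by
      unfold sE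
      rw [hia, e1, e2, hxy]
    exact hI.uch (h.sp x) hsx x (hI.GA hx) y (hI.GA hy) (sE (h.rl x)) (Or.inl ⟨rfl, rfl⟩)
      (Or.inl ⟨hxy, e3⟩)
  have t3 : ∀ x ∈ h.G, ∀ y ∈ h.G, h.tp x ∈ h.G → h.tp x = h.tp y →
      ig (h.rl x) = ig (h.rl y) → x = y := by
    intro x hx y hy hsx hxy hia
    have e1 := (t1 x hx hsx).2
    have e2 := (t1 y hy (hxy ▸ hsx)).2
    have e3 : sZ (h.rl x) = sZ (h.rl y) := by
      unfold sZ
      rw [hia, e1, e2, hxy]
    exact hI.uch (h.tp x) hsx x (hI.GA hx) y (hI.GA hy) (sZ (h.rl x)) (Or.inr ⟨rfl, rfl⟩)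
      (Or.inr ⟨hxy, e3⟩)
  have hnot0 : ∀ z ∈ h.G, z ∉ Exc0 → ∀ x ∈ h.A, h.sp x = z ∨ h.tp x = z → x ∈ h.G := by
    intro z hz hzE x hx hor
    by_contra hcon
    exact hzE (Finset.mem_filter.2 ⟨hz, x, hx, hcon, hor⟩)
  -- the records of the common grandparent
  have recE : ∀ x ∈ h.G, ∀ M, h.mo x = some M → h.RL (h.sp x) M (mE (h.rl x)) := fun x hx M hM =>
    Or.inr ⟨x, hx, M, hM, Or.inl ⟨rfl, rfl, rfl⟩⟩
  have recZ : ∀ x ∈ h.G, ∀ M, h.mo x = some M → h.RL (h.tp x) M (mZ (h.rl x)) := fun x hx M hM =>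
    Or.inr ⟨x, hx, M, hM, Or.inr ⟨rfl, rfl, rfl⟩⟩
  refine ⟨Exc0 ∪ Exc1, ?_, ?_, ?_, ?_, ?_⟩
  · exact Finset.union_subset (Finset.filter_subset _ _) (Finset.filter_subset _ _)
  · refine
      { s1 := s1
        s2 := ?_
        s3 := s3
        t1 := t1
        t2 := ?_
        t3 := t3
        comm := ?_
        o1 := ?_
        o2 := ?_ }
    · intro z hz hzE hsk i
      have h1 : ((0, i, σs (h.rl z)) : J) ∈ Ins (h.rl z) := (mem_Ins0 _ _ _).2 ⟨hsk, rfl⟩
      obtain ⟨A, hA, hPS⟩ := (hI.ins z hz _).1 h1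
      obtain ⟨e1, e2, -⟩ := ps0 hPS
      refine ⟨A, hnot0 z hz (fun hh => hzE (Finset.mem_union_left _ hh)) A hA (Or.inl e1.symm),
        e1.symm, e2.symm⟩
    · intro z hz hzE hsk i
      have h1 : ((1, i, σt (h.rl z)) : J) ∈ Ins (h.rl z) := (mem_Ins1 _ _ _).2 ⟨hsk, rfl⟩
      obtain ⟨A, hA, hPS⟩ := (hI.ins z hz _).1 h1
      obtain ⟨e1, e2, -⟩ := ps1 hPS
      refine ⟨A, hnot0 z hz (fun hh => hzE (Finset.mem_union_left _ hh)) A hA (Or.inr e1.symm),
        e1.symm, e2.symm⟩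
    · intro x hx hxE hsx htsx htE
      have hmo : h.mo x = some (h.tp (h.sp x)) := by
        by_contra hcon
        exact hxE (Finset.mem_union_right _ (Finset.mem_filter.2 ⟨hx, hsx, htsx, hcon⟩))
      obtain ⟨-, p1⟩ := hI.back _ _ _ (recE x hx _ hmo) htsx
      obtain ⟨hA2, p2⟩ := hI.back _ _ _ (recZ x hx _ hmo) htsx
      obtain ⟨-, q1, -⟩ := ps1 p1
      obtain ⟨q2, q3, -⟩ := ps0 p2
      refine ⟨hnot0 _ htsx (fun hh => htE (Finset.mem_union_left _ hh)) _ hA2 (Or.inl q2.symm),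
        q2.symm, q3.symm, q1.symm⟩
    · intro x hx hsx
      exact (hI.ord2 x (hI.GA hx)).1 (hI.GA hsx)
    · intro x hx hsx
      exact (hI.ord2 x (hI.GA hx)).2 (hI.GA hsx)
  · -- the exceptional set is small
    have c0 : Exc0.card ≤ 2 * (h.Bd ∪ R).card := by
      have hsub : Exc0 ⊆ h.Bd.image h.sp ∪ h.Bd.image h.tp := by
        intro z hz
        obtain ⟨-, x, hxA, hxG, hor⟩ := Finset.mem_filter.1 hz
        have hxB : x ∈ h.Bd := by
          rcases Finset.mem_union.1 (hI.AB hxA) with h1 | h1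
          · exact absurd h1 hxG
          · exact h1
        rcases hor with h1 | h1
        · exact Finset.mem_union_left _ (Finset.mem_image.2 ⟨x, hxB, h1⟩)
        · exact Finset.mem_union_right _ (Finset.mem_image.2 ⟨x, hxB, h1⟩)
      have h1 := Finset.card_le_card hsub
      have h2 := Finset.card_union_le (h.Bd.image h.sp) (h.Bd.image h.tp)
      have h3 : (h.Bd.image h.sp).card ≤ h.Bd.card := Finset.card_image_le
      have h4 : (h.Bd.image h.tp).card ≤ h.Bd.card := Finset.card_image_le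
      have h5 : h.Bd.card ≤ (h.Bd ∪ R).card := Finset.card_le_card Finset.subset_union_left
      omega
    have c1 : Exc1.card ≤ 20 * (h.Bd ∪ R).card := by
      have hM : ∀ x ∈ Exc1, ∃ M, h.mo x = some M ∧ M ∈ h.Bd ∪ R := by
        intro x hx
        obtain ⟨hxG, hsx, htsx, hne⟩ := Finset.mem_filter.1 hx
        cases hmo : h.mo x with
        | none => exact absurd hsx (hI.mo2 x hxG hmo).1
        | some M =>
          refine ⟨M, rfl, ?_⟩
          have h1 := hI.mo1 x hxG M hmo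
          have h2 : M ∉ h.G := by
            intro hMG
            obtain ⟨-, p1⟩ := hI.back _ _ _ (recE x hxG _ hmo) hMG
            obtain ⟨q1, -, -⟩ := ps1 p1
            rw [q1] at hmo
            exact hne hmo
          rw [Finset.mem_union, Finset.mem_union] at h1
          rw [Finset.mem_union]
          tauto
      have hcard : (((h.Bd ∪ R) ×ˢ (Finset.univ : Finset (Fin 2 × St × Fin 2)))).card =
          20 * (h.Bd ∪ R).card := by
        rw [Finset.card_product, Finset.card_univ]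
        simp only [Fintype.card_prod, Fintype.card_fin]
        ring
      rw [← hcard]
      refine Finset.card_le_card_of_injOn
        (fun x => ((h.mo x).getD x, (mE (h.rl x)).2.1, (mE (h.rl x)).2.2, ia (h.rl x))) ?_ ?_
      · intro x hx
        obtain ⟨M, h1, h2⟩ := hM x hx
        simp only [Finset.coe_product, Set.mem_prod, Finset.mem_coe, Finset.mem_univ, and_true]
        rw [h1]
        exact h2
      · intro x hx y hy hxy
        obtain ⟨M, h1, h2⟩ := hM x hx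
        obtain ⟨M', h1', h2'⟩ := hM y hy
        obtain ⟨hxG, hsx, -, -⟩ := Finset.mem_filter.1 hx
        obtain ⟨hyG, hsy, -, -⟩ := Finset.mem_filter.1 hy
        simp only [Prod.mk.injEq, h1, h1', Option.getD_some] at hxy
        obtain ⟨e1, e2, e3, e4⟩ := hxy
        have e5 : mE (h.rl x) = mE (h.rl y) := Prod.ext rfl (Prod.ext e2 e3)
        have r1 := recE x hxG M h1
        have r2 := recE y hyG M' h1'
        rw [← e1, ← e5] at r2
        exact s3 x hxG y hyG hsx (hI.uniq _ hsx _ hsy M _ r1 r2) e4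
    calc (Exc0 ∪ Exc1).card ≤ Exc0.card + Exc1.card := Finset.card_union_le _ _
      _ ≤ 2 * (h.Bd ∪ R).card + 20 * (h.Bd ∪ R).card := Nat.add_le_add c0 c1
      _ = 22 * (h.Bd ∪ R).card := by ring
  · have hcard : (((h.Bd ∪ R) ×ˢ (Finset.univ : Finset (Fin 2 × St)))).card =
        10 * (h.Bd ∪ R).card := by
      rw [Finset.card_product, Finset.card_univ]
      simp only [Fintype.card_prod, Fintype.card_fin]
      ring
    rw [← hcard]
    refine Finset.card_le_card_of_injOn (fun x => (h.sp x, (sE (h.rl x)).2)) ?_ ?_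
    · intro x hx
      obtain ⟨hxG, hsx⟩ := Finset.mem_filter.1 hx
      simp only [Finset.coe_product, Set.mem_prod, Finset.mem_coe, Finset.mem_univ, and_true]
      have h1 := (hI.par x (hI.GA hxG)).1
      rw [Finset.mem_union, Finset.mem_union] at h1
      rw [Finset.mem_union]
      tauto
    · intro x hx y hy hxy
      obtain ⟨hxG, hsx⟩ := Finset.mem_filter.1 hx
      obtain ⟨hyG, hsy⟩ := Finset.mem_filter.1 hy
      simp only [Prod.mk.injEq] at hxy
      obtain ⟨e1, e2⟩ := hxy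
      have e5 : sE (h.rl x) = sE (h.rl y) := Prod.ext rfl e2
      refine hI.uniq x hxG y hyG (h.sp x) (sE (h.rl x)) (Or.inl ⟨hI.GA hxG, Or.inl ⟨rfl, rfl⟩⟩)
        (Or.inl ⟨hI.GA hyG, Or.inl ⟨e1, e5⟩⟩)
  · have hcard : (((h.Bd ∪ R) ×ˢ (Finset.univ : Finset (Fin 2 × St)))).card =
        10 * (h.Bd ∪ R).card := by
      rw [Finset.card_product, Finset.card_univ]
      simp only [Fintype.card_prod, Fintype.card_fin]
      ring
    rw [← hcard]
    refine Finset.card_le_card_of_injOn (fun x => (h.tp x, (sZ (h.rl x)).2)) ?_ ?_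
    · intro x hx
      obtain ⟨hxG, hsx⟩ := Finset.mem_filter.1 hx
      simp only [Finset.coe_product, Set.mem_prod, Finset.mem_coe, Finset.mem_univ, and_true]
      have h1 := (hI.par x (hI.GA hxG)).2
      rw [Finset.mem_union, Finset.mem_union] at h1
      rw [Finset.mem_union]
      tauto
    · intro x hx y hy hxy
      obtain ⟨hxG, hsx⟩ := Finset.mem_filter.1 hx
      obtain ⟨hyG, hsy⟩ := Finset.mem_filter.1 hy
      simp only [Prod.mk.injEq] at hxy
      obtain ⟨e1, e2⟩ := hxy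
      have e5 : sZ (h.rl x) = sZ (h.rl y) := Prod.ext rfl e2
      refine hI.uniq x hxG y hyG (h.tp x) (sZ (h.rl x)) (Or.inl ⟨hI.GA hxG, Or.inr ⟨rfl, rfl⟩⟩)
        (Or.inl ⟨hI.GA hyG, Or.inr ⟨e1, e5⟩⟩)

end Pool.Agent.H57.Irr
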