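import Pool.Agent.H57.Irr.Spec

/-!
# Irrational weak saturation limit: the potential in the complete graph
-/

set_option autoImplicit false
set_option linter.unusedSectionVars false

namespace Pool.Agent.H57.Irr

namespace Top

open Finset Function

section

variable {V : Type} [Fintype V] [DecidableEq V]

theorem sum_code : ∑ j : J, code j = 190 := by decide

theorem sum_sz : ∑ c : Cl, sz c = 10000000000000 := by
  rw [Fintype.sum_option, Fintype.sum_option]
  have h : ∑ j : J, sz (some (some j)) = 20 * 200001 + 190 := by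
    rw [← sum_code]
    change ∑ j : J, (200001 + code j) = _
    rw [Finset.sum_add_distrib, Finset.sum_const, Finset.card_univ]
    rfl
  rw [h]
  rfl

theorem card_all (W : Gad V) : W.all.card = 10000000000000 := by
  unfold Gad.all
  rw [Finset.card_biUnion (fun c _ c' _ h => W.disj c c' h),
    Finset.sum_congr rfl fun c _ => W.card c, sum_sz]

theorem d_top {X : Finset V} {x : V} (hx : x ∈ X) :
    d (⊤ : SimpleGraph V) X x = X.card - 1 := by
  classical
  unfold d
  rw [← Finset.card_erase_of_mem hx]
  congr 1
  ext y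
  simp only [Finset.mem_filter, SimpleGraph.top_adj, Finset.mem_erase]
  constructor
  · rintro ⟨h1, h2⟩
    exact ⟨h2.symm, h1⟩
  · rintro ⟨h1, h2⟩
    exact ⟨h2, h1.symm⟩

theorem E2_top (X : Finset V) :
    E2 (⊤ : SimpleGraph V) X X = X.card * (X.card - 1) := by
  unfold E2
  rw [Finset.sum_congr rfl fun x hx => d_top hx, Finset.sum_const, smul_eq_mul]

theorem E2_topR (X : Finset V) :
    (E2 (⊤ : SimpleGraph V) X X : ℝ) = (X.card : ℝ) * ((X.card : ℝ) - 1) := by
  rw [E2_top]
  rcases Nat.eq_zero_or_pos X.card with h | h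
  · simp [h]
  · rw [Nat.cast_mul, Nat.cast_sub h, Nat.cast_one]

theorem psi_top (hab : S_absorbGad) (fl : Gad V → J → Prop)
    (hn : 2 * 10 ^ 13 ≤ Fintype.card V) :
    ∀ (m : ℕ) (T : Finset V) (R : Finset (Gad V)), R.card = m →
      Valid (⊤ : SimpleGraph V) T R →
      cc * (Fintype.card V : ℝ) + 150 * R.card ≤ Psi (⊤ : SimpleGraph V) T R fl := by
  intro m
  induction m with
  | zero =>
    intro T R hR hv
    rw [Finset.card_eq_zero] at hR
    subst hR
    have h1 : T.card ≤ Fintype.card V := Finset.card_le_univ T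
    unfold Psi
    rw [E2_topR, E2_topR, Finset.card_univ]
    simp only [Finset.card_empty, Finset.sum_empty, Nat.cast_zero, mul_zero, sub_zero, add_zero]
    have h2 : (T.card : ℝ) ≤ Fintype.card V := by exact_mod_cast h1
    have h3 : (2 : ℝ) * 10 ^ 13 ≤ Fintype.card V := by exact_mod_cast hn
    have h4 : (0 : ℝ) ≤ T.card := Nat.cast_nonneg _
    have h5 : 0 ≤ ((Fintype.card V : ℝ) - T.card) *
        (((Fintype.card V : ℝ) + T.card - 1) / 2 - cc) := by
      apply mul_nonneg
      · linarith
      · have hcc : cc ≤ 10 ^ 13 - 1 := by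
          unfold cc
          norm_num
        linarith
    nlinarith
  | succ m ih =>
    intro T R hR hv
    obtain ⟨A, hA⟩ : R.Nonempty := by
      rw [← Finset.card_pos]
      omega
    obtain ⟨hv', _, _, hpsi⟩ := hab V (⊤ : SimpleGraph V) T R fl A hv hA
    have hcard : (R.erase A).card = m := by
      rw [Finset.card_erase_of_mem hA]
      omega
    have h1 := ih (T ∪ A.all) (R.erase A) hcard hv'
    rw [hcard] at h1
    rw [E2_topR, card_all] at hpsi
    rw [hR]
    push_cast at h1 hpsi ⊢
    linarith

end

end Top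

theorem top : S_top := by
  intro hab V _ _ T R fl hn hv
  exact Top.psi_top hab fl hn R.card T R rfl hv

end Pool.Agent.H57.Irr
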