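import Pool.Agent.H57.Irr.Spec

/-!
# Phases 2 and 3 of the tree process (`S_tree2`), helper278
-/

set_option autoImplicit false

namespace Pool.Agent.H57.Irr.TreeB

open Finset Function Pool.Agent.H57.Irr

/-! ## States -/

lemma vb_zero_left (j : ℕ) : vb 0 j := by
  unfold vb
  rw [Nat.choose_zero_right]

lemma vb_zero_right (i : ℕ) : vb i 0 := by
  unfold vb
  rw [Nat.add_zero, Nat.choose_self]

lemma sk_stt (i j : ℕ) : sk (stt i j) ↔ i ≠ 0 := by
  unfold stt
  by_cases hi : i = 0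
  · rw [if_pos hi]
    by_cases hj : j = 0
    · rw [if_pos hj]
      exact ⟨fun h => absurd h (by decide), fun h => absurd hi h⟩
    · rw [if_neg hj]
      exact ⟨fun h => absurd h (by decide), fun h => absurd hi h⟩
  · rw [if_neg hi]
    by_cases hj : j = 0
    · rw [if_pos hj]
      exact ⟨fun _ => hi, fun _ => by decide⟩
    · rw [if_neg hj]
      split_ifs
      · exact ⟨fun _ => hi, fun _ => by decide⟩
      · exact ⟨fun _ => hi, fun _ => by decide⟩

lemma tk_stt (i j : ℕ) : tk (stt i j) ↔ j ≠ 0 := by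
  unfold stt
  by_cases hi : i = 0
  · rw [if_pos hi]
    by_cases hj : j = 0
    · rw [if_pos hj]
      exact ⟨fun h => absurd h (by decide), fun h => absurd hj h⟩
    · rw [if_neg hj]
      exact ⟨fun _ => hj, fun _ => by decide⟩
  · rw [if_neg hi]
    by_cases hj : j = 0
    · rw [if_pos hj]
      exact ⟨fun h => absurd h (by decide), fun h => absurd hj h⟩
    · rw [if_neg hj]
      split_ifs
      · exact ⟨fun _ => hj, fun _ => by decide⟩
      · exact ⟨fun _ => hj, fun _ => by decide⟩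

lemma bit_stt (i j : ℕ) : bit (stt i j) ↔ vb i j := by
  unfold stt
  by_cases hi : i = 0
  · subst hi
    rw [if_pos rfl]
    by_cases hj : j = 0
    · rw [if_pos hj]
      exact ⟨fun _ => vb_zero_left j, fun _ => by decide⟩
    · rw [if_neg hj]
      exact ⟨fun _ => vb_zero_left j, fun _ => by decide⟩
  · rw [if_neg hi]
    by_cases hj : j = 0
    · subst hj
      rw [if_pos rfl]
      exact ⟨fun _ => vb_zero_right i, fun _ => by decide⟩
    · rw [if_neg hj]
      by_cases hv : vb i j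
      · rw [if_pos hv]
        exact ⟨fun _ => hv, fun _ => by decide⟩
      · rw [if_neg hv]
        exact ⟨fun h => absurd h (by decide), fun h => absurd h hv⟩

lemma vb_pascal {i j : ℕ} (hi : i ≠ 0) (hj : j ≠ 0) :
    vb i j ↔ ¬ (vb (i - 1) j ↔ vb i (j - 1)) := by
  obtain ⟨a, rfl⟩ : ∃ a, i = a + 1 := ⟨i - 1, by omega⟩
  obtain ⟨b, rfl⟩ : ∃ b, j = b + 1 := ⟨j - 1, by omega⟩
  unfold vb
  have h : (a + 1 + (b + 1)).choose (a + 1) =
      (a + 1 - 1 + (b + 1)).choose (a + 1 - 1) + (a + 1 + (b + 1 - 1)).choose (a + 1) := by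
    have e1 : a + 1 + (b + 1) = (a + b + 1) + 1 := by ring
    have e2 : a + 1 - 1 + (b + 1) = a + b + 1 := by omega
    have e3 : a + 1 + (b + 1 - 1) = a + b + 1 := by omega
    have e4 : a + 1 - 1 = a := by omega
    rw [e1, e2, e3, e4, Nat.choose_succ_succ]
  rw [h]
  generalize (a + 1 - 1 + (b + 1)).choose (a + 1 - 1) = u
  generalize (a + 1 + (b + 1 - 1)).choose (a + 1) = v
  omega

lemma okR_tup (p : Pos) : okR (tup p) := by
  obtain ⟨⟨i, q⟩, ⟨j, r⟩⟩ := p
  refine ⟨?_, ?_, ?_⟩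
  · intro _
    show tk (stt (i - 1) j) ↔ tk (stt i j)
    rw [tk_stt, tk_stt]
  · intro _
    show sk (stt i (j - 1)) ↔ sk (stt i j)
    rw [sk_stt, sk_stt]
  · intro h1 h2
    have h1' : i ≠ 0 := (sk_stt i j).1 h1
    have h2' : j ≠ 0 := (tk_stt i j).1 h2
    show bit (stt i j) ↔ ¬ (bit (stt (i - 1) j) ↔ bit (stt i (j - 1)))
    rw [bit_stt, bit_stt, bit_stt]
    exact vb_pascal h1' h2'

/-- the rule at a position -/
def rul (p : Pos) : Rul := ⟨tup p, okR_tup p⟩

/-! ## Positions -/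

/-- position of a cell -/
def posOf {h k : ℕ} (c : CellT h k) : Pos := ((c.1.1.val, c.1.2.val), (c.2.1.val, c.2.2.val))

lemma posOf_in {h k : ℕ} (c : CellT h k) : inT h k (posOf c) :=
  ⟨Nat.le_of_lt_succ c.1.1.isLt, c.1.2.isLt, Nat.le_of_lt_succ c.2.1.isLt, c.2.2.isLt⟩

lemma embT_posOf {h k s : ℕ} (c : CellT h k) (x : DV) :
    embT h k s (posOf c) x = Sum.inl (c, x) := by
  unfold embT
  rw [dif_pos (posOf_in c)]
  rfl

lemma exists_cell {h k : ℕ} {p : Pos} (hp : inT h k p) : ∃ c : CellT h k, posOf c = p :=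
  ⟨(⟨⟨p.1.1, Nat.lt_succ_of_le hp.1⟩, ⟨p.1.2, hp.2.1⟩⟩,
    ⟨⟨p.2.1, Nat.lt_succ_of_le hp.2.2.1⟩, ⟨p.2.2, hp.2.2.2⟩⟩), rfl⟩

lemma embT_neg {h k s : ℕ} {p : Pos} (hp : ¬ inT h k p) (x : DV) :
    embT h k s p x = Sum.inr (Sum.inl (Sum.inl ((⟨p.1.1 % 2, Nat.mod_lt _ (by norm_num)⟩,
      ⟨p.2.1 % 2, Nat.mod_lt _ (by norm_num)⟩), x))) := by
  unfold embT
  rw [dif_neg hp]

lemma embT_in {h k s : ℕ} {p p' : Pos} (hp : inT h k p) {x y : DV}
    (he : embT h k s p x = embT h k s p' y) : p = p' ∧ x = y := by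
  obtain ⟨c, rfl⟩ := exists_cell hp
  rw [embT_posOf] at he
  by_cases hp' : inT h k p'
  · obtain ⟨c', rfl⟩ := exists_cell hp'
    rw [embT_posOf] at he
    have h1 := Sum.inl.inj he
    have h2 : c = c' := congrArg Prod.fst h1
    have h3 : x = y := congrArg Prod.snd h1
    rw [h2]
    exact ⟨rfl, h3⟩
  · rw [embT_neg hp'] at he
    exact absurd he (by simp)

/-- embeddings of positions with different parities of the levels are disjoint -/
lemma embT_par {h k s : ℕ} {p p' : Pos} {x y : DV} (he : embT h k s p x = embT h k s p' y) :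
    p.1.1 % 2 = p'.1.1 % 2 ∧ p.2.1 % 2 = p'.2.1 % 2 ∧ x = y := by
  by_cases hp : inT h k p
  · obtain ⟨h1, h2⟩ := embT_in hp he
    rw [h1]
    exact ⟨rfl, rfl, h2⟩
  · by_cases hp' : inT h k p'
    · obtain ⟨h1, h2⟩ := embT_in hp' he.symm
      rw [h1]
      exact ⟨rfl, rfl, h2.symm⟩
    · rw [embT_neg hp, embT_neg hp'] at he
      have h1 := Sum.inl.inj (Sum.inl.inj (Sum.inr.inj he))
      have h2 := congrArg Prod.fst h1
      have h3 := congrArg (fun z : Fin 2 × Fin 2 => z.1.val) h2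
      have h4 := congrArg (fun z : Fin 2 × Fin 2 => z.2.val) h2
      exact ⟨h3, h4, congrArg Prod.snd h1⟩

lemma embT_inj {h k s : ℕ} (p : Pos) : Injective (embT h k s p) :=
  fun _ _ he => (embT_par he).2.2

/-! ## Adjacencies of the full graph -/

variable {h k s : ℕ}

lemma full_of {a b : VT h k s} (hne : a ≠ b) (hr : relT h k s True a b) :
    (TFull h k s).Adj a b := by
  unfold TFull
  rw [SimpleGraph.fromRel_adj]
  exact ⟨hne, Or.inl hr⟩

lemma full_core {a b} (hne : (Sum.inr (Sum.inl a) : VT h k s) ≠ Sum.inr (Sum.inl b)) :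
    (TFull h k s).Adj (Sum.inr (Sum.inl a)) (Sum.inr (Sum.inl b)) :=
  full_of hne (Or.inl ⟨a, b, rfl, rfl⟩)

lemma full_gad (p : Pos) (x y : DV) (hne : x ≠ y) (hd : dadj x y) :
    (TFull h k s).Adj (embT h k s p x) (embT h k s p y) := by
  have hne' : embT h k s p x ≠ embT h k s p y := fun e => hne (embT_inj p e)
  by_cases hp : inT h k p
  · exact full_of hne' (Or.inr (Or.inl ⟨p, x, y, hp, rfl, rfl, hd, Or.inl trivial⟩))
  · rw [embT_neg hp, embT_neg hp] at hne' ⊢
    exact full_core hne'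

lemma spos_par (p : Pos) : (spos p).1.1 = p.1.1 + 1 ∧ (spos p).2 = p.2 := ⟨rfl, rfl⟩

lemma not_in_spos {p : Pos} (hp : inT h k p) (hs : ¬ inT h k (spos p)) : h < p.1.1 + 1 := by
  by_contra hlt
  apply hs
  obtain ⟨⟨i, q⟩, ⟨j, r⟩⟩ := p
  obtain ⟨h1, h2, h3, h4⟩ := hp
  simp only at h1 h2 h3 h4 hlt
  refine ⟨?_, ?_, h3, h4⟩
  · show i + 1 ≤ h
    omega
  · show q / 2 < k * 2 ^ (h - (i + 1))
    have e : h - i = (h - (i + 1)) + 1 := by omega
    rw [e, pow_succ, ← mul_assoc] at h2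
    omega

lemma not_in_tpos {p : Pos} (hp : inT h k p) (hs : ¬ inT h k (tpos p)) : h < p.2.1 + 1 := by
  by_contra hlt
  apply hs
  obtain ⟨⟨i, q⟩, ⟨j, r⟩⟩ := p
  obtain ⟨h1, h2, h3, h4⟩ := hp
  simp only at h1 h2 h3 h4 hlt
  refine ⟨h1, h2, ?_, ?_⟩
  · show j + 1 ≤ h
    omega
  · show r / 2 < 1 * 2 ^ (h - (j + 1))
    have e : h - j = (h - (j + 1)) + 1 := by omega
    rw [e, pow_succ, ← mul_assoc] at h4
    omega

lemma spos_ne (p : Pos) (x y : DV) : embT h k s p x ≠ embT h k s (spos p) y := by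
  intro he
  have h1 := (embT_par he).1
  have h2 : (spos p).1.1 = p.1.1 + 1 := rfl
  rw [h2] at h1
  omega

lemma tpos_ne (p : Pos) (x y : DV) : embT h k s p x ≠ embT h k s (tpos p) y := by
  intro he
  have h1 := (embT_par he).2.1
  have h2 : (tpos p).2.1 = p.2.1 + 1 := rfl
  rw [h2] at h1
  omega

lemma full_s (p : Pos) (hp : inT h k p ∨ ¬ inT h k (spos p)) (x y : DV) (hx : port src x)
    (hy : port (slot (slS p)) y) : (TFull h k s).Adj (embT h k s p x) (embT h k s (spos p) y) := by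
  have hne := spos_ne (h := h) (k := k) (s := s) p x y
  by_cases h1 : inT h k p
  · exact full_of hne (Or.inr (Or.inr (Or.inl ⟨p, x, y, h1, rfl, rfl, hx, hy, Or.inl trivial⟩)))
  · have h2 := hp.resolve_left h1
    rw [embT_neg h1, embT_neg h2] at hne ⊢
    exact full_core hne

lemma full_t (p : Pos) (hp : inT h k p ∨ ¬ inT h k (tpos p)) (x y : DV) (hx : port src x)
    (hy : port (slot (slT p)) y) : (TFull h k s).Adj (embT h k s p x) (embT h k s (tpos p) y) := by
  have hne := tpos_ne (h := h) (k := k) (s := s) p x y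
  by_cases h1 : inT h k p
  · exact full_of hne (Or.inr (Or.inr (Or.inr (Or.inl
      ⟨p, x, y, h1, rfl, rfl, hx, hy, Or.inl trivial⟩))))
  · have h2 := hp.resolve_left h1
    rw [embT_neg h1, embT_neg h2] at hne ⊢
    exact full_core hne

lemma full_pp (p : Pos) (hp : inT h k p) (x : DV) (u : Fin NS) (hx : x.1 = rest)
    (hx0 : x.2.val = 0) (hu : u.val < hh (rul p)) :
    (TFull h k s).Adj (spare h k s u) (embT h k s p x) := by
  refine (full_of ?_ (Or.inr (Or.inr (Or.inr (Or.inr (Or.inl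
    ⟨p, x, u, rul p, hp, rfl, rfl, rfl, hx, hx0, hu⟩)))))).symm
  obtain ⟨c, rfl⟩ := exists_cell hp
  rw [embT_posOf]
  unfold spare
  simp

lemma full_ex (c : Fin s) (u : Fin NS) (hu : u.val < 6000000000000) :
    (TFull h k s).Adj (Sum.inr (Sum.inr c)) (spare h k s u) := by
  refine full_of ?_ (Or.inr (Or.inr (Or.inr (Or.inr (Or.inr ⟨c, u, rfl, rfl, hu⟩)))))
  unfold spare
  simp

/-! ## Children -/

/-- position of a child -/
def chp (p : Pos) (d c : Fin 2) : Pos :=
  if d = 0 then ((p.1.1 - 1, 2 * p.1.2 + c.val), p.2) else (p.1, (p.2.1 - 1, 2 * p.2.2 + c.val))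

lemma chp_s {p : Pos} (hp : inT h k p) (h0 : p.1.1 ≠ 0) (c : Fin 2) :
    inT h k (chp p 0 c) ∧ spos (chp p 0 c) = p ∧ slS (chp p 0 c) = (0, c, σs (rul p)) := by
  obtain ⟨⟨i, q⟩, ⟨j, r⟩⟩ := p
  obtain ⟨h1, h2, h3, h4⟩ := hp
  simp only at h1 h2 h3 h4 h0
  have hc := c.isLt
  have e0 : chp ((i, q), (j, r)) 0 c = ((i - 1, 2 * q + c.val), (j, r)) := rfl
  rw [e0]
  refine ⟨⟨?_, ?_, h3, h4⟩, ?_, ?_⟩
  · show i - 1 ≤ h
    omega
  · show 2 * q + c.val < k * 2 ^ (h - (i - 1))
    have e : h - (i - 1) = (h - i) + 1 := by omega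
    rw [e, pow_succ, ← mul_assoc]
    omega
  · show ((i - 1 + 1, (2 * q + c.val) / 2), (j, r)) = ((i, q), (j, r))
    have e1 : i - 1 + 1 = i := by omega
    have e2 : (2 * q + c.val) / 2 = q := by omega
    rw [e1, e2]
  · show ((0 : Fin 2), ias ((i - 1, 2 * q + c.val), (j, r)), stt (i - 1) j) =
      ((0 : Fin 2), c, stt (i - 1) j)
    have e3 : ias ((i - 1, 2 * q + c.val), (j, r)) = c := by
      apply Fin.ext
      show (2 * q + c.val) % 2 = c.val
      omega
    rw [e3]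

lemma chp_t {p : Pos} (hp : inT h k p) (h0 : p.2.1 ≠ 0) (c : Fin 2) :
    inT h k (chp p 1 c) ∧ tpos (chp p 1 c) = p ∧ slT (chp p 1 c) = (1, c, σt (rul p)) := by
  obtain ⟨⟨i, q⟩, ⟨j, r⟩⟩ := p
  obtain ⟨h1, h2, h3, h4⟩ := hp
  simp only at h1 h2 h3 h4 h0
  have hc := c.isLt
  have e0 : chp ((i, q), (j, r)) 1 c = ((i, q), (j - 1, 2 * r + c.val)) := rfl
  rw [e0]
  refine ⟨⟨h1, h2, ?_, ?_⟩, ?_, ?_⟩
  · show j - 1 ≤ h
    omega
  · show 2 * r + c.val < 1 * 2 ^ (h - (j - 1))
    have e : h - (j - 1) = (h - j) + 1 := by omega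
    rw [e, pow_succ, ← mul_assoc]
    omega
  · show ((i, q), (j - 1 + 1, (2 * r + c.val) / 2)) = ((i, q), (j, r))
    have e1 : j - 1 + 1 = j := by omega
    have e2 : (2 * r + c.val) / 2 = r := by omega
    rw [e1, e2]
  · show ((1 : Fin 2), igt ((i, q), (j - 1, 2 * r + c.val)), stt i (j - 1)) =
      ((1 : Fin 2), c, stt i (j - 1))
    have e3 : igt ((i, q), (j - 1, 2 * r + c.val)) = c := by
      apply Fin.ext
      show (2 * r + c.val) % 2 = c.val
      omega
    rw [e3]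

lemma mem_Ins (p : Pos) (j : J) : j ∈ Ins (rul p) ↔
    (p.1.1 ≠ 0 ∧ j.1 = 0 ∧ j.2.2 = σs (rul p)) ∨ (p.2.1 ≠ 0 ∧ j.1 = 1 ∧ j.2.2 = σt (rul p)) := by
  obtain ⟨d, c, σ⟩ := j
  have h1 : sk (own (rul p)) ↔ p.1.1 ≠ 0 := sk_stt p.1.1 p.2.1
  have h2 : tk (own (rul p)) ↔ p.2.1 ≠ 0 := tk_stt p.1.1 p.2.1
  have hc : ∀ (e : Fin 2) (τ : St), ((d, c, σ) ∈ ({(e, 0, τ), (e, 1, τ)} : Finset J)) ↔
      (d = e ∧ σ = τ) := by
    intro e τ
    rw [Finset.mem_insert, Finset.mem_singleton, Prod.mk.injEq, Prod.mk.injEq, Prod.mk.injEq,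
      Prod.mk.injEq]
    have : c = 0 ∨ c = 1 := by
      have := c.isLt
      rcases (by omega : c.val = 0 ∨ c.val = 1) with h | h
      · exact Or.inl (Fin.ext h)
      · exact Or.inr (Fin.ext h)
    tauto
  unfold Ins
  rw [Finset.mem_union]
  refine or_congr ?_ ?_
  · split_ifs with hs
    · rw [hc]
      have := h1.1 hs
      tauto
    · have : ¬ (p.1.1 ≠ 0) := fun h => hs (h1.2 h)
      simp only [Finset.notMem_empty, false_iff]
      tauto
  · split_ifs with hs
    · rw [hc]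
      have := h2.1 hs
      tauto
    · have : ¬ (p.2.1 ≠ 0) := fun h => hs (h2.2 h)
      simp only [Finset.notMem_empty, false_iff]
      tauto

/-! ## Spare vertices -/

lemma spare_inj : Injective (spare h k s) := fun _ _ e =>
  Sum.inr.inj (Sum.inl.inj (Sum.inr.inj e))

/-- the spare vertices with number `< n` -/
noncomputable def spF (h k s n : ℕ) (hn : n ≤ NS) : Finset (VT h k s) :=
  (univ : Finset (Fin n)).map ⟨fun u => spare h k s (Fin.castLE hn u),
    fun _ _ e => Fin.castLE_injective hn (spare_inj e)⟩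

lemma card_spF (n : ℕ) (hn : n ≤ NS) : (spF h k s n hn).card = n := by
  unfold spF
  rw [Finset.card_map, Finset.card_univ, Fintype.card_fin]

lemma mem_spF (n : ℕ) (hn : n ≤ NS) (v : VT h k s) :
    v ∈ spF h k s n hn ↔ ∃ u : Fin NS, u.val < n ∧ v = spare h k s u := by
  unfold spF
  rw [Finset.mem_map]
  constructor
  · rintro ⟨u, _, rfl⟩
    exact ⟨Fin.castLE hn u, u.isLt, rfl⟩
  · rintro ⟨u, hu, rfl⟩
    exact ⟨⟨u.val, hu⟩, Finset.mem_univ _, rfl⟩

lemma embT_ne_spare (p : Pos) (x : DV) (u : Fin NS) : embT h k s p x ≠ spare h k s u := by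
  intro he
  by_cases hp : inT h k p
  · obtain ⟨c, rfl⟩ := exists_cell hp
    rw [embT_posOf] at he
    unfold spare at he
    exact absurd he (by simp)
  · rw [embT_neg hp] at he
    unfold spare at he
    exact absurd he (by simp)

lemma hh_le (r : Rul) : hh r ≤ NS := by
  have h1 : hh r ≤ 80400 + 80400 + 1 := by
    unfold hh
    split_ifs <;> omega
  have h2 : 80400 + 80400 + 1 ≤ NS := by
    unfold NS
    norm_num
  exact h1.trans h2

/-! ## The four positions -/

/-- the positions of `v, E, M, Z` -/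
def pos4 (p : Pos) : Fin 4 → Pos := ![p, spos p, tpos (spos p), tpos p]

lemma pos4_lev (p : Pos) (a : Fin 4) :
    (pos4 p a).1.1 = p.1.1 + (if a = 1 ∨ a = 2 then 1 else 0) ∧
      (pos4 p a).2.1 = p.2.1 + (if a = 2 ∨ a = 3 then 1 else 0) := by
  fin_cases a <;> simp [pos4, spos, tpos]

lemma pos4_inj (p : Pos) {a b : Fin 4} {x y : DV}
    (he : embT h k s (pos4 p a) x = embT h k s (pos4 p b) y) : a = b ∧ x = y := by
  obtain ⟨h1, h2, h3⟩ := embT_par he
  refine ⟨?_, h3⟩
  rw [(pos4_lev p a).1, (pos4_lev p b).1] at h1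
  rw [(pos4_lev p a).2, (pos4_lev p b).2] at h2
  generalize p.1.1 = u at h1
  generalize p.2.1 = v at h2
  fin_cases a <;> fin_cases b <;> simp at h1 h2 ⊢ <;> omega

/-- the source vertex with number `i` -/
def sv (i : Fin 201) : DV := ⟨src, ⟨i.val, lt_of_lt_of_le i.isLt (by show 201 ≤ 200000; norm_num)⟩⟩

lemma sv_port (i : Fin 201) : port src (sv i) := ⟨rfl, i.isLt⟩

lemma sv_inj {i i' : Fin 201} (e : sv i = sv i') : i = i' := by
  unfold sv at e
  have h1 := eq_of_heq (Sigma.mk.inj e).2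
  have h2 := congrArg Fin.val h1
  exact Fin.ext h2

lemma chp_lev (p : Pos) (d c : Fin 2) (hd : (d = 0 ∧ p.1.1 ≠ 0) ∨ (d = 1 ∧ p.2.1 ≠ 0)) :
    (chp p d c).1.1 + (chp p d c).2.1 + 1 = p.1.1 + p.2.1 ∧
      (chp p d c).1.1 ≤ p.1.1 ∧ (chp p d c).2.1 ≤ p.2.1 := by
  rcases hd with ⟨rfl, h0⟩ | ⟨rfl, h0⟩
  · show (p.1.1 - 1) + p.2.1 + 1 = p.1.1 + p.2.1 ∧ p.1.1 - 1 ≤ p.1.1 ∧ p.2.1 ≤ p.2.1
    omega
  · show p.1.1 + (p.2.1 - 1) + 1 = p.1.1 + p.2.1 ∧ p.1.1 ≤ p.1.1 ∧ p.2.1 - 1 ≤ p.2.1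
    omega

lemma chp_inj (p : Pos) {d c d' c' : Fin 2} (hd : (d = 0 ∧ p.1.1 ≠ 0) ∨ (d = 1 ∧ p.2.1 ≠ 0))
    (hd' : (d' = 0 ∧ p.1.1 ≠ 0) ∨ (d' = 1 ∧ p.2.1 ≠ 0)) (e : chp p d c = chp p d' c') :
    d = d' ∧ c = c' := by
  obtain ⟨⟨i, q⟩, ⟨j, r⟩⟩ := p
  simp only at hd hd'
  rcases hd with ⟨rfl, h0⟩ | ⟨rfl, h0⟩ <;> rcases hd' with ⟨rfl, h0'⟩ | ⟨rfl, h0'⟩
  · have e' : (((i - 1, 2 * q + c.val), (j, r)) : Pos) = ((i - 1, 2 * q + c'.val), (j, r)) := e
    simp only [Prod.mk.injEq, and_true, true_and] at e'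
    exact ⟨rfl, Fin.ext (by omega)⟩
  · have e' : (((i - 1, 2 * q + c.val), (j, r)) : Pos) = ((i, q), (j - 1, 2 * r + c'.val)) := e
    simp only [Prod.mk.injEq] at e'
    omega
  · have e' : (((i, q), (j - 1, 2 * r + c.val)) : Pos) = ((i - 1, 2 * q + c'.val), (j, r)) := e
    simp only [Prod.mk.injEq] at e'
    omega
  · have e' : (((i, q), (j - 1, 2 * r + c.val)) : Pos) = ((i, q), (j - 1, 2 * r + c'.val)) := e
    simp only [Prod.mk.injEq, true_and] at e'
    exact ⟨rfl, Fin.ext (by omega)⟩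

lemma absorb (hZ : S_ruleZ) (hA : S_absorbCell) (H : SimpleGraph (VT h k s))
    (hH : TFull h k s ≤ H) (Q : Finset (VT h k s)) (hQ : ∀ x ∈ Q, ∀ y ∈ Q, x ≠ y → H.Adj x y)
    (hS : ∀ u, spare h k s u ∈ Q) (p : Pos) (hp : inT h k p)
    (hc : ∀ d c : Fin 2, ((d = 0 ∧ p.1.1 ≠ 0) ∨ (d = 1 ∧ p.2.1 ≠ 0)) →
      ∀ x, embT h k s (chp p d c) x ∈ Q) :
    ∃ H', Reach FF H H' ∧ H ≤ H' ∧
      ∀ x y, (x ∈ Q ∨ ∃ u, x = embT h k s p u) → (y ∈ Q ∨ ∃ u, y = embT h k s p u) → x ≠ y →
        H'.Adj x y := by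
  classical
  have hIns : ∀ j ∈ Ins (rul p), (j.1 = 0 ∧ p.1.1 ≠ 0) ∨ (j.1 = 1 ∧ p.2.1 ≠ 0) := by
    intro j hj
    rcases (mem_Ins p j).1 hj with ⟨h1, h2, _⟩ | ⟨h1, h2, _⟩
    · exact Or.inl ⟨h2, h1⟩
    · exact Or.inr ⟨h2, h1⟩
  have hin : ∀ j ∈ Ins (rul p), inT h k (chp p j.1 j.2.1) ∧
      ∀ x y, port src x → port (slot j) y →
        (TFull h k s).Adj (embT h k s (chp p j.1 j.2.1) x) (embT h k s p y) := by
    rintro ⟨d, c, σ⟩ hj
    rcases (mem_Ins p _).1 hj with ⟨h1, h2, h3⟩ | ⟨h1, h2, h3⟩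
    · simp only at h2 h3
      subst h2
      subst h3
      obtain ⟨h4, h5, h6⟩ := chp_s hp h1 c
      refine ⟨h4, fun x y hx hy => ?_⟩
      have h7 := full_s (s := s) (chp p 0 c) (Or.inl h4) x y hx (by rw [h6]; exact hy)
      rw [h5] at h7
      exact h7
    · simp only at h2 h3
      subst h2
      subst h3
      obtain ⟨h4, h5, h6⟩ := chp_t hp h1 c
      refine ⟨h4, fun x y hx hy => ?_⟩
      have h7 := full_t (s := s) (chp p 1 c) (Or.inl h4) x y hx (by rw [h6]; exact hy)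
      rw [h5] at h7
      exact h7
  have hr := hA hZ (VT h k s) H Q (spF h k s NS le_rfl) (spF h k s (hh (rul p)) (hh_le _)) (rul p) hQ
    (by
      intro v hv
      rw [mem_spF] at hv
      obtain ⟨u, _, rfl⟩ := hv
      exact hS u)
    (card_spF NS le_rfl).ge
    (by
      intro v hv
      rw [mem_spF] at hv ⊢
      obtain ⟨u, _, rfl⟩ := hv
      exact ⟨u, u.isLt, rfl⟩)
    (card_spF _ _)
    (fun i => embT h k s (pos4 p i))
    (by
      rintro ⟨a, x⟩ ⟨b, y⟩ e
      obtain ⟨e1, e2⟩ := pos4_inj p e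
      exact Prod.ext e1 e2)
    (by
      intro i x hx
      rw [mem_spF] at hx
      obtain ⟨u, _, hu⟩ := hx
      exact embT_ne_spare _ _ _ hu)
    (fun j i => embT h k s (chp p j.1 j.2.1) (sv i))
    (by
      intro j hj i
      refine ⟨hc _ _ (hIns j hj) _, fun hx => ?_⟩
      rw [mem_spF] at hx
      obtain ⟨u, _, hu⟩ := hx
      exact embT_ne_spare _ _ _ hu)
    (by
      intro j hj j' hj' i i' e
      obtain ⟨e1, e2⟩ := embT_in (hin j hj).1 e
      obtain ⟨e3, e4⟩ := chp_inj p (hIns j hj) (hIns j' hj') e1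
      refine ⟨?_, sv_inj e2⟩
      refine Prod.ext e3 (Prod.ext e4 ?_)
      rcases (mem_Ins p j).1 hj with ⟨_, h2, h3⟩ | ⟨_, h2, h3⟩ <;>
        rcases (mem_Ins p j').1 hj' with ⟨_, h2', h3'⟩ | ⟨_, h2', h3'⟩
      · rw [h3, h3']
      · rw [h2, h2'] at e3
        exact absurd e3 (by decide)
      · rw [h2, h2'] at e3
        exact absurd e3 (by decide)
      · rw [h3, h3'])
    (by
      intro j hj i i' x e
      obtain ⟨e1, _⟩ := embT_in (hin j hj).1 e
      have h1 := chp_lev p j.1 j.2.1 (hIns j hj)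
      have h2 := pos4_lev p i'
      rw [e1] at h1
      omega)
    (by
      intro j hj i y hy
      exact hH ((hin j hj).2 _ _ (sv_port i) hy))
    (fun i x y hne hd => hH (full_gad _ x y hne hd))
    (by
      intro u hu x hx hx0
      rw [mem_spF] at hu
      obtain ⟨u', hu', rfl⟩ := hu
      exact hH (full_pp p hp x u' hx hx0 hu'))
    (by
      intro x y hx hy
      exact hH (full_s p (Or.inl hp) x y hx hy))
    (by
      intro x y hx hy
      apply hH
      refine full_t (spos p) ?_ x y hx hy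
      by_cases h1 : inT h k (spos p)
      · exact Or.inl h1
      · right
        intro h2
        have h3 := not_in_spos hp h1
        have h4 : (tpos (spos p)).1.1 ≤ h := h2.1
        have h5 : (tpos (spos p)).1.1 = p.1.1 + 1 := rfl
        omega)
    (by
      intro x y hx hy
      apply hH
      have h0 : tpos (spos p) = spos (tpos p) := rfl
      show (TFull h k s).Adj (embT h k s (tpos p) x) (embT h k s (tpos (spos p)) y)
      rw [h0]
      refine full_s (tpos p) ?_ x y hx hy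
      by_cases h1 : inT h k (tpos p)
      · exact Or.inl h1
      · right
        intro h2
        have h3 := not_in_tpos hp h1
        have h4 : (spos (tpos p)).2.1 ≤ h := h2.2.2.1
        have h5 : (spos (tpos p)).2.1 = p.2.1 + 1 := rfl
        omega)
    (by
      intro x y hx hy
      exact hH (full_t p (Or.inl hp) x y hx hy))
  refine ⟨_, hr, le_sup_left, ?_⟩
  intro x y hx hy hxy
  rw [SimpleGraph.sup_adj]
  right
  unfold clq
  rw [SimpleGraph.fromRel_adj]
  refine ⟨hxy, Or.inl ⟨?_, ?_⟩⟩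
  · rw [Finset.mem_union, Finset.mem_image]
    rcases hx with h1 | ⟨u, h1⟩
    · exact Or.inl h1
    · exact Or.inr ⟨u, Finset.mem_univ _, h1.symm⟩
  · rw [Finset.mem_union, Finset.mem_image]
    rcases hy with h1 | ⟨u, h1⟩
    · exact Or.inl h1
    · exact Or.inr ⟨u, Finset.mem_univ _, h1.symm⟩

/-! ## Phase 2 -/

/-- the level of a cell -/
def lev (c : CellT h k) : ℕ := c.1.1.val + c.2.1.val

/-- vertices absorbed when the cells of level `< n` and those in `S` are absorbed -/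
def A (n : ℕ) (S : Finset (CellT h k)) (v : VT h k s) : Prop :=
  (∀ (c : CellT h k) (x : DV), v = Sum.inl (c, x) → lev c < n ∨ c ∈ S) ∧
    ∀ e : Fin s, v ≠ Sum.inr (Sum.inr e)

lemma A_cell {n : ℕ} {S : Finset (CellT h k)} (c : CellT h k) (hc : lev c < n ∨ c ∈ S) (x : DV) :
    A (s := s) n S (Sum.inl (c, x)) := by
  refine ⟨fun c' x' e => ?_, fun e => by simp⟩
  have h1 := Sum.inl.inj e
  have h2 : c = c' := congrArg Prod.fst h1
  rw [← h2]
  exact hc

lemma A_core {n : ℕ} {S : Finset (CellT h k)} (a) :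
    A n S (Sum.inr (Sum.inl a) : VT h k s) := by
  refine ⟨fun c' x' e => ?_, fun e => by simp⟩
  exact absurd e (by simp)

/-- the invariant -/
def Inv (h k s n : ℕ) (S : Finset (CellT h k)) : Prop :=
  ∃ H, Reach FF (TFull h k s) H ∧ TFull h k s ≤ H ∧
    ∀ u v, A n S u → A n S v → u ≠ v → H.Adj u v

lemma inv_start : Inv h k s 0 ∅ := by
  refine ⟨TFull h k s, Relation.ReflTransGen.refl, le_rfl, ?_⟩
  have hcore : ∀ u : VT h k s, A 0 ∅ u → ∃ c, u = Sum.inr (Sum.inl c) := by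
    intro u hu
    rcases u with ⟨c, x⟩ | c | e
    · rcases hu.1 c x rfl with h1 | h1
      · omega
      · exact absurd h1 (Finset.notMem_empty _)
    · exact ⟨c, rfl⟩
    · exact absurd rfl (hu.2 e)
  intro u v hu hv huv
  obtain ⟨c, rfl⟩ := hcore u hu
  obtain ⟨c', rfl⟩ := hcore v hv
  exact full_core huv

lemma inv_cell (hZ : S_ruleZ) (hA : S_absorbCell) {n : ℕ} {S : Finset (CellT h k)}
    [DecidableEq (CellT h k)] (c : CellT h k) (hc : lev c = n) (hI : Inv h k s n S) :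
    Inv h k s n (insert c S) := by
  classical
  obtain ⟨H, r, hfull, hcl⟩ := hI
  obtain ⟨H', r', hle, hcl'⟩ := absorb hZ hA H hfull (univ.filter (fun v => A n S v))
    (by
      intro x hx y hy hxy
      exact hcl x y (Finset.mem_filter.1 hx).2 (Finset.mem_filter.1 hy).2 hxy)
    (by
      intro u
      rw [Finset.mem_filter]
      exact ⟨Finset.mem_univ _, A_core _⟩)
    (posOf c) (posOf_in c)
    (by
      intro d e hd x
      rw [Finset.mem_filter]
      refine ⟨Finset.mem_univ _, ?_⟩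
      have h1 := (chp_lev (posOf c) d e hd).1
      by_cases hin : inT h k (chp (posOf c) d e)
      · obtain ⟨c', hc'⟩ := exists_cell hin
        rw [← hc'] at h1 ⊢
        rw [embT_posOf]
        refine A_cell c' (Or.inl ?_) x
        have h2 : lev c = (posOf c).1.1 + (posOf c).2.1 := rfl
        have h3 : lev c' = (posOf c').1.1 + (posOf c').2.1 := rfl
        omega
      · rw [embT_neg hin]
        exact A_core _)
  have hsub : ∀ u, A n (insert c S) u →
      (u ∈ univ.filter (fun v : VT h k s => A n S v) ∨ ∃ x, u = embT h k s (posOf c) x) := by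
    intro u hu
    rcases u with ⟨c', x⟩ | a | e
    · by_cases hcc : c' = c
      · right
        refine ⟨x, ?_⟩
        rw [embT_posOf, hcc]
      · left
        rw [Finset.mem_filter]
        refine ⟨Finset.mem_univ _, A_cell c' ?_ x⟩
        rcases hu.1 c' x rfl with h1 | h1
        · exact Or.inl h1
        · exact Or.inr ((Finset.mem_insert.1 h1).resolve_left hcc)
    · left
      rw [Finset.mem_filter]
      exact ⟨Finset.mem_univ _, A_core _⟩
    · exact absurd rfl (hu.2 e)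
  exact ⟨H', r.trans r', hfull.trans hle,
    fun u v hu hv huv => hcl' u v (hsub u hu) (hsub v hv) huv⟩

lemma inv_level (hZ : S_ruleZ) (hA : S_absorbCell) {n : ℕ} (hI : Inv h k s n ∅) :
    Inv h k s (n + 1) ∅ := by
  classical
  have h1 : ∀ S : Finset (CellT h k), (∀ c ∈ S, lev c = n) → Inv h k s n S := by
    intro S
    induction S using Finset.induction_on with
    | empty => intro _; exact hI
    | insert c S _ ih =>
      intro hS
      exact inv_cell hZ hA c (hS c (Finset.mem_insert_self _ _))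
        (ih fun c' hc' => hS c' (Finset.mem_insert_of_mem hc'))
  obtain ⟨H, r, hfull, hcl⟩ := h1 (univ.filter (fun c => lev c = n))
    (fun c hc => (Finset.mem_filter.1 hc).2)
  have hsub : ∀ u : VT h k s, A (n + 1) ∅ u → A n (univ.filter (fun c => lev c = n)) u := by
    intro u hu
    refine ⟨fun c x e => ?_, hu.2⟩
    rcases hu.1 c x e with h2 | h2
    · by_cases h3 : lev c = n
      · exact Or.inr (Finset.mem_filter.2 ⟨Finset.mem_univ _, h3⟩)
      · exact Or.inl (by omega)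
    · exact absurd h2 (Finset.notMem_empty _)
  exact ⟨H, r, hfull, fun u v hu hv huv => hcl u v (hsub u hu) (hsub v hv) huv⟩

lemma inv_all (hZ : S_ruleZ) (hA : S_absorbCell) (n : ℕ) : Inv h k s n ∅ := by
  induction n with
  | zero => exact inv_start
  | succ n ih => exact inv_level hZ hA ih

/-! ## Phase 3 -/

/-- vertices absorbed when all the cells and the extra vertices in `E` are absorbed -/
def B (E : Finset (Fin s)) (v : VT h k s) : Prop := ∀ e : Fin s, v = Sum.inr (Sum.inr e) → e ∈ E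

/-- the invariant -/
def Inv3 (h k s : ℕ) (E : Finset (Fin s)) : Prop :=
  ∃ H, Reach FF (TFull h k s) H ∧ TFull h k s ≤ H ∧
    ∀ u v, B E u → B E v → u ≠ v → H.Adj u v

lemma inv3_start (hZ : S_ruleZ) (hA : S_absorbCell) : Inv3 h k s ∅ := by
  obtain ⟨H, r, hfull, hcl⟩ := inv_all (h := h) (k := k) (s := s) hZ hA (2 * h + 1)
  refine ⟨H, r, hfull, fun u v hu hv huv => hcl u v ?_ ?_ huv⟩
  · refine ⟨fun c x _ => Or.inl ?_, fun e he => Finset.notMem_empty _ (hu e he)⟩
    have h1 := c.1.1.isLt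
    have h2 := c.2.1.isLt
    unfold lev
    omega
  · refine ⟨fun c x _ => Or.inl ?_, fun e he => Finset.notMem_empty _ (hv e he)⟩
    have h1 := c.1.1.isLt
    have h2 := c.2.1.isLt
    unfold lev
    omega

lemma six_le : 6000000000000 ≤ NS := by
  unfold NS
  norm_num

lemma inv3_step (hZ : S_ruleZ) {E : Finset (Fin s)} (e : Fin s) (he : e ∉ E)
    (hI : Inv3 h k s E) : Inv3 h k s (insert e E) := by
  classical
  obtain ⟨H, r, hfull, hcl⟩ := hI
  have hspare : ∀ u, spare h k s u ∈ univ.filter (fun v : VT h k s => B E v) := by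
    intro u
    rw [Finset.mem_filter]
    refine ⟨Finset.mem_univ _, fun e' he' => ?_⟩
    unfold spare at he'
    exact absurd he' (by simp)
  have hr := hZ (VT h k s) H (univ.filter (fun v => B E v)) (Sum.inr (Sum.inr e))
    (by
      intro x hx y hy hxy
      exact hcl x y (Finset.mem_filter.1 hx).2 (Finset.mem_filter.1 hy).2 hxy)
    (by
      refine (card_spF (h := h) (k := k) (s := s) NS le_rfl).ge.trans ?_
      apply Finset.card_le_card
      intro v hv
      rw [mem_spF] at hv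
      obtain ⟨u, _, rfl⟩ := hv
      exact hspare u)
    (by
      intro hm
      exact he ((Finset.mem_filter.1 hm).2 e rfl))
    (by
      have h1 : 5999999999999 ≤ (spF h k s 6000000000000 six_le).card := by
        rw [card_spF]
        norm_num
      refine h1.trans ?_
      unfold d
      apply Finset.card_le_card
      intro v hv
      rw [mem_spF] at hv
      obtain ⟨u, hu, rfl⟩ := hv
      rw [Finset.mem_filter]
      exact ⟨hspare u, hfull (full_ex e u hu)⟩)
  refine ⟨_, r.trans hr, hfull.trans le_sup_left, ?_⟩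
  have hsub : ∀ u : VT h k s, B (insert e E) u →
      u ∈ insert (Sum.inr (Sum.inr e)) (univ.filter (fun v : VT h k s => B E v)) := by
    intro u hu
    rw [Finset.mem_insert]
    by_cases h1 : u = Sum.inr (Sum.inr e)
    · exact Or.inl h1
    · right
      rw [Finset.mem_filter]
      refine ⟨Finset.mem_univ _, fun e' he' => ?_⟩
      rcases Finset.mem_insert.1 (hu e' he') with h2 | h2
      · rw [h2] at he'
        exact absurd he' h1
      · exact h2
  intro u v hu hv huv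
  rw [SimpleGraph.sup_adj]
  right
  unfold clq
  rw [SimpleGraph.fromRel_adj]
  exact ⟨huv, Or.inl ⟨hsub u hu, hsub v hv⟩⟩

lemma inv3_all (hZ : S_ruleZ) (hA : S_absorbCell) (E : Finset (Fin s)) : Inv3 h k s E := by
  classical
  induction E using Finset.induction_on with
  | empty => exact inv3_start hZ hA
  | insert e E he ih => exact inv3_step hZ e he ih

end Pool.Agent.H57.Irr.TreeB

open Pool.Agent.H57.Irr.TreeB in
theorem Pool.Agent.H57.Irr.treeB : Pool.Agent.H57.Irr.S_tree2 := by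
  intro hZ hA h k s
  obtain ⟨H, r, -, hcl⟩ := inv3_all (h := h) (k := k) (s := s) hZ hA Finset.univ
  have : H = ⊤ := by
    ext u v
    rw [SimpleGraph.top_adj]
    exact ⟨fun h' => h'.ne, fun h' => hcl u v (fun e _ => Finset.mem_univ e)
      (fun e _ => Finset.mem_univ e) h'⟩
  rw [← this]
  exact r
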