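import Pool.Agent.H57.Irr.StepN
import Pool.Agent.H57.Irr.Mismatch
import Pool.Agent.H57.Irr.Bulk
import Pool.Agent.H57.Irr.BigClique
import Pool.Agent.H57.Irr.Cfg
import Pool.Agent.H57.Irr.Top
import Pool.Agent.H57.Irr.Hist13
import Pool.Agent.H57.Irr.Hist2
import Pool.Agent.H57.Irr.Run
import Pool.Agent.H57.Irr.Static
import Pool.Agent.H57.Irr.Descent
import Pool.Agent.H57.Irr.GridIneq
import Pool.Agent.H57.Irr.Ground
import Pool.Agent.H57.Irr.Lower
import Pool.Agent.H57.Irr.Fill
import Pool.Agent.H57.Irr.TreeA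
import Pool.Agent.H57.Irr.TreeB
import Pool.Agent.H57.Irr.Const
import Pool.Agent.H57.Irr.Conv
import Pool.Agent.H57.Irr.Limit

/-!
# Assembly
-/

set_option autoImplicit false

namespace Pool.Agent.H57.Irr

open Finset Function

lemma E2_univ {V : Type*} [Fintype V] (H : SimpleGraph V) :
    E2 H univ univ = 2 * H.edgeSet.ncard := by
  classical
  have h1 : E2 H univ univ = ∑ v, H.degree v := by
    unfold E2
    apply sum_congr rfl
    intro v _
    unfold d
    rw [← SimpleGraph.card_neighborFinset_eq_degree]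
    congr 1
    ext w
    simp
  rw [h1, SimpleGraph.sum_degrees_eq_twice_card_edges, ← SimpleGraph.coe_edgeFinset,
    Set.ncard_coe_finset]

theorem stepOutcome : S_step := step (bulk absorbSet absorbGad mismatch) (bigclique absorbSet absorbGad)

/-- the lower bound -/
theorem low : ∀ (n : ℕ), 2 * 10 ^ 13 ≤ n → ∀ G : SimpleGraph (Fin n), Reach FF G ⊤ →
      (cc - vth / (4 * 10 ^ 13)) * (n : ℝ) ≤ (G.edgeSet.ncard : ℝ) := by
  intro n hn G hG
  have h := lower absorbGad top hist13.1 hist2 hist13.2 run static (gridIneq descent) ground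
    const.2.1 (Fin n) (Step FF) G (by rwa [Fintype.card_fin]) (by
      intro H₁ H₂ hst
      refine ⟨?_, ?_⟩
      · obtain ⟨f, _, a, b, _, h2, _⟩ := hst
        rw [h2]
        exact le_sup_left
      · intro T R fl hv
        obtain ⟨C, p, q, hpq, hH', hf⟩ := cfg (Fin n) H₁ H₂ hst
        exact stepOutcome (Fin n) H₁ H₂ C p q hpq hH' hf T R fl hv) hG
  rw [Fintype.card_fin, E2_univ] at h
  push_cast at h
  linarith

/-- the upper bound: the deficient tree graphs percolate -/
theorem tree (hz : S_ruleZ) (hc : S_absorbCell) : ∀ h k s : ℕ, Reach FF (TDef h k s) ⊤ :=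
  fun h k s => (treeA fill.1 fill.2 h k s).trans (treeB hz hc h k s)

theorem irr_w : Irrational (cc - vth / (4 * 10 ^ 13)) := by
  have h := const.1
  have h1 : Irrational (vth / ((4 * 10 ^ 13 : ℕ) : ℝ)) := h.div_natCast (by norm_num)
  have h2 : Irrational (((49999999999994579960259870 / 10000000000000 : ℚ) : ℝ) -
    vth / ((4 * 10 ^ 13 : ℕ) : ℝ)) := h1.ratCast_sub _
  convert h2 using 1
  unfold cc
  push_cast
  ring

theorem final (hz : S_ruleZ) (hc : S_absorbCell) (hcount : S_treeCount) :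
    ∃ (k : ℕ) (F : SimpleGraph (Fin k)) (w : ℝ), (∃ a b, F.Adj a b) ∧ Irrational w ∧
      Filter.Tendsto (fun n => (wsat n F : ℝ) / n) Filter.atTop (nhds w) := by
  obtain ⟨k, F, hE, h1, h2⟩ := conv
  exact ⟨k, F, cc - vth / (4 * 10 ^ 13), hE, irr_w,
    limit k F h1 h2 low (tree hz hc) hcount const⟩

end Pool.Agent.H57.Irr
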