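import Pool.Agent.H57.Irr.Absorb

/-!
# The step lemma: counting lemmas
-/

set_option autoImplicit false
set_option linter.unusedSectionVars false

namespace Pool.Agent.H57.Irr

open Finset Function

section fl
variable {V : Type*}

lemma FL.symm {H : SimpleGraph V} {X Y : Finset V} (h : FL H X Y) : FL H Y X := by
  obtain ⟨O, S, hO, hS, cO, cS, hadj⟩ := h
  exact ⟨S, O, hS, hO, cS, cO, fun y hy x hx => (hadj x hx y hy).symm⟩

lemma card_le_d {H : SimpleGraph V} {S Y : Finset V} (hS : S ⊆ Y) (x : V)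
    (h : ∀ y ∈ S, H.Adj x y) : S.card ≤ d H Y x := by
  classical
  unfold d
  apply card_le_card
  intro y hy
  simp only [mem_filter]
  exact ⟨hS hy, h y hy⟩

lemma FL.nf {H : SimpleGraph V} {X Y : Finset V} (h : FL H X Y) : 201 ≤ nf H X Y := by
  classical
  obtain ⟨O, S, hO, hS, cO, cS, hadj⟩ := h
  unfold Irr.nf
  refine cO.symm.le.trans (card_le_card ?_)
  intro x hx
  simp only [mem_filter]
  exact ⟨hO hx, cS.symm.le.trans (card_le_d hS x (hadj x hx))⟩

lemma FL.ex {H : SimpleGraph V} {X Y : Finset V} (h : FL H X Y) : 201 ≤ ex H X Y :=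
  h.nf.trans (nf_le_ex H X Y)

/-- the new edge raises `ex` -/
lemma ex_edge {H H' : SimpleGraph V} (hle : H ≤ H') {X Y : Finset V} {x y : V} (hx : x ∈ X)
    (hy : y ∈ Y) (hn : ¬ H.Adj x y) (ha : H'.Adj x y) (h3 : 201 ≤ d H' Y x) :
    ex H X Y + 1 ≤ ex H' X Y := by
  classical
  unfold Irr.ex
  have hd : d H Y x + 1 ≤ d H' Y x := by
    unfold d
    have hsub : (Y.filter (fun y => H.Adj x y)) ⊂ (Y.filter (fun y => H'.Adj x y)) := by
      rw [ssubset_iff_of_subset]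
      · refine ⟨y, ?_, ?_⟩
        · simp only [mem_filter]
          exact ⟨hy, ha⟩
        · simp only [mem_filter, not_and]
          exact fun _ => hn
      · intro z hz
        simp only [mem_filter] at hz ⊢
        exact ⟨hz.1, hle hz.2⟩
    exact card_lt_card hsub
  rw [← add_sum_erase X _ hx, ← add_sum_erase X (fun x => d H' Y x - 200) hx]
  have h1 : ∑ z ∈ X.erase x, (d H Y z - 200) ≤ ∑ z ∈ X.erase x, (d H' Y z - 200) :=
    sum_le_sum fun z _ => Nat.sub_le_sub_right (d_mono hle (Subset.refl Y) z) 200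
  omega

end fl

section edge
variable {V : Type*} [DecidableEq V]

lemma adj_sup_edge {H : SimpleGraph V} {p q x y : V} :
    (H ⊔ SimpleGraph.edge p q).Adj x y ↔
      H.Adj x y ∨ ((x = p ∧ y = q ∨ x = q ∧ y = p) ∧ x ≠ y) := by
  rw [SimpleGraph.sup_adj, SimpleGraph.edge_adj]

omit [DecidableEq V] in
lemma d_eq_card (H : SimpleGraph V) (Y : Finset V) (x : V) [∀ y, Decidable (H.Adj x y)] :
    d H Y x = (Y.filter (fun y => H.Adj x y)).card := by
  classical
  unfold d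
  congr

lemma d_edge_le (H : SimpleGraph V) (p q : V) (Y : Finset V) (x : V) :
    d (H ⊔ SimpleGraph.edge p q) Y x ≤
      d H Y x + (if x = p ∧ q ∈ Y then 1 else 0) + (if x = q ∧ p ∈ Y then 1 else 0) := by
  classical
  rw [d_eq_card, d_eq_card]
  have hsub : (Y.filter (fun y => (H ⊔ SimpleGraph.edge p q).Adj x y)) ⊆
      (Y.filter (fun y => H.Adj x y)) ∪ ((if x = p ∧ q ∈ Y then {q} else ∅) ∪
        (if x = q ∧ p ∈ Y then {p} else ∅)) := by
    intro y hy
    simp only [mem_filter, adj_sup_edge] at hy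
    obtain ⟨hY, h | ⟨⟨rfl, rfl⟩ | ⟨rfl, rfl⟩, _⟩⟩ := hy
    · exact mem_union_left _ (by simp only [mem_filter]; exact ⟨hY, h⟩)
    · apply mem_union_right
      apply mem_union_left
      simp [hY]
    · apply mem_union_right
      apply mem_union_right
      simp [hY]
  have h0 := card_le_card hsub
  have h1 := card_union_le (Y.filter (fun y => H.Adj x y))
    ((if x = p ∧ q ∈ Y then ({q} : Finset V) else ∅) ∪ (if x = q ∧ p ∈ Y then {p} else ∅))
  have h2 : ((if x = p ∧ q ∈ Y then ({q} : Finset V) else ∅) ∪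
        (if x = q ∧ p ∈ Y then {p} else ∅)).card ≤ (if x = p ∧ q ∈ Y then 1 else 0) +
        (if x = q ∧ p ∈ Y then 1 else 0) := by
    refine (card_union_le _ _).trans ?_
    split_ifs <;> simp
  omega

lemma E2_edge_le (H : SimpleGraph V) (p q : V) (X Y : Finset V) :
    E2 (H ⊔ SimpleGraph.edge p q) X Y ≤
      E2 H X Y + (if p ∈ X ∧ q ∈ Y then 1 else 0) + (if q ∈ X ∧ p ∈ Y then 1 else 0) := by
  unfold E2
  calc ∑ x ∈ X, d (H ⊔ SimpleGraph.edge p q) Y x
      ≤ ∑ x ∈ X, (d H Y x + (if x = p ∧ q ∈ Y then 1 else 0) +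
          (if x = q ∧ p ∈ Y then 1 else 0)) := sum_le_sum fun x _ => d_edge_le H p q Y x
    _ = _ := by
      rw [sum_add_distrib, sum_add_distrib]
      congr 1
      · congr 1
        by_cases hq : q ∈ Y
        · simp [hq]
        · simp [hq]
      · by_cases hp : p ∈ Y
        · simp [hp]
        · simp [hp]

variable [Fintype V]

lemma E2_out (H : SimpleGraph V) (T : Finset V) :
    E2 H univ univ = E2 H T T + 2 * E2 H T Tᶜ + E2 H Tᶜ Tᶜ := by
  have h : (univ : Finset V) = T ∪ Tᶜ := by simp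
  rw [h]
  exact E2_union_self H disjoint_compl_right

lemma out_le (H : SimpleGraph V) (p q : V) (T : Finset V) :
    ((E2 (H ⊔ SimpleGraph.edge p q) univ univ : ℝ) - (E2 (H ⊔ SimpleGraph.edge p q) T T : ℝ)) / 2
      ≤ ((E2 H univ univ : ℝ) - (E2 H T T : ℝ)) / 2 + (if p ∈ T ∧ q ∈ T then 0 else 1) := by
  rw [E2_out H T, E2_out (H ⊔ SimpleGraph.edge p q) T]
  have h1 := E2_edge_le H p q T Tᶜ
  have h2 := E2_edge_le H p q Tᶜ Tᶜ
  have h3 : 2 * E2 (H ⊔ SimpleGraph.edge p q) T Tᶜ + E2 (H ⊔ SimpleGraph.edge p q) Tᶜ Tᶜ ≤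
      2 * E2 H T Tᶜ + E2 H Tᶜ Tᶜ + 2 * (if p ∈ T ∧ q ∈ T then 0 else 1) := by
    simp only [mem_compl] at h1 h2
    by_cases hp : p ∈ T <;> by_cases hq : q ∈ T <;> simp [hp, hq] at h1 h2 ⊢ <;> omega
  have h4 : (2 * (E2 (H ⊔ SimpleGraph.edge p q) T Tᶜ : ℝ) +
      (E2 (H ⊔ SimpleGraph.edge p q) Tᶜ Tᶜ : ℝ)) ≤
      2 * (E2 H T Tᶜ : ℝ) + (E2 H Tᶜ Tᶜ : ℝ) + 2 * (if p ∈ T ∧ q ∈ T then 0 else 1) := by
    have := (Nat.cast_le (α := ℝ)).2 h3
    push_cast at this
    exact this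
  push_cast
  linarith

/-- sum of the discounts -/
noncomputable def disc (H : SimpleGraph V) (T : Finset V) (R : Finset (Gad V))
    (fl : Gad V → J → Prop) : ℕ :=
  ∑ W ∈ R, D1 H T W (fl W) + ∑ W ∈ R, ∑ W' ∈ R.erase W, D2 H W W'

lemma Psi_disc (H : SimpleGraph V) (T : Finset V) (R : Finset (Gad V))
    (fl : Gad V → J → Prop) :
    Psi H T R fl = cc * T.card + ((E2 H univ univ : ℝ) - (E2 H T T : ℝ)) / 2 - (R.card : ℝ)
      - (disc H T R fl : ℝ) := by
  unfold Psi disc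
  push_cast
  ring

lemma disc_mono {H H' : SimpleGraph V} (h : H ≤ H') (T : Finset V) (R : Finset (Gad V))
    (fl : Gad V → J → Prop) : disc H T R fl ≤ disc H' T R fl := by
  unfold disc
  apply Nat.add_le_add
  · exact sum_le_sum fun W _ => D1_mono h (Subset.refl T) W (fun _ h => h)
  · exact sum_le_sum fun W _ => sum_le_sum fun W' _ => D2_mono h W W'

lemma disc_mono_R (H : SimpleGraph V) (T : Finset V) {R R' : Finset (Gad V)} (h : R ⊆ R')
    (fl : Gad V → J → Prop) : disc H T R fl ≤ disc H T R' fl := by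
  unfold disc
  apply Nat.add_le_add
  · exact sum_le_sum_of_subset h
  · calc ∑ W ∈ R, ∑ W' ∈ R.erase W, D2 H W W'
        ≤ ∑ W ∈ R, ∑ W' ∈ R'.erase W, D2 H W W' :=
          sum_le_sum fun W _ => sum_le_sum_of_subset (erase_subset_erase W h)
      _ ≤ _ := sum_le_sum_of_subset h

lemma Psi_mono_R (H : SimpleGraph V) (T : Finset V) {R R' : Finset (Gad V)} (h : R ⊆ R')
    (fl : Gad V → J → Prop) : Psi H T R' fl + (R'.card : ℝ) ≤ Psi H T R fl + (R.card : ℝ) := by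
  rw [Psi_disc, Psi_disc]
  have := (Nat.cast_le (α := ℝ)).2 (disc_mono_R H T h fl)
  linarith

/-- adding one edge costs at most 1 -/
lemma Psi_edge (H : SimpleGraph V) (p q : V) (T : Finset V) (R : Finset (Gad V))
    (fl : Gad V → J → Prop) :
    Psi (H ⊔ SimpleGraph.edge p q) T R fl + (disc (H ⊔ SimpleGraph.edge p q) T R fl : ℝ) ≤
      Psi H T R fl + (disc H T R fl : ℝ) + (if p ∈ T ∧ q ∈ T then 0 else 1) := by
  rw [Psi_disc, Psi_disc]
  have := out_le H p q T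
  linarith

lemma disc_lt_D1 {H H' : SimpleGraph V} (h : H ≤ H') (T : Finset V) (R : Finset (Gad V))
    (fl : Gad V → J → Prop) (W : Gad V) (hW : W ∈ R)
    (hlt : D1 H T W (fl W) + 1 ≤ D1 H' T W (fl W)) :
    disc H T R fl + 1 ≤ disc H' T R fl := by
  unfold disc
  have h1 : ∑ W ∈ R, D1 H T W (fl W) + 1 ≤ ∑ W ∈ R, D1 H' T W (fl W) := by
    rw [← add_sum_erase R _ hW, ← add_sum_erase R (fun W => D1 H' T W (fl W)) hW]
    have : ∑ W ∈ R.erase W, D1 H T W (fl W) ≤ ∑ W ∈ R.erase W, D1 H' T W (fl W) :=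
      sum_le_sum fun W _ => D1_mono h (Subset.refl T) W (fun _ h => h)
    omega
  have h2 : ∑ W ∈ R, ∑ W' ∈ R.erase W, D2 H W W' ≤ ∑ W ∈ R, ∑ W' ∈ R.erase W, D2 H' W W' :=
    sum_le_sum fun W _ => sum_le_sum fun W' _ => D2_mono h W W'
  omega

lemma disc_lt_D2 {H H' : SimpleGraph V} (h : H ≤ H') (T : Finset V) (R : Finset (Gad V))
    (fl : Gad V → J → Prop) (W W' : Gad V) (hW : W ∈ R) (hW' : W' ∈ R) (hne : W ≠ W')
    (hlt : D2 H W W' + 1 ≤ D2 H' W W') :
    disc H T R fl + 1 ≤ disc H' T R fl := by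
  unfold disc
  have h1 : ∑ W ∈ R, D1 H T W (fl W) ≤ ∑ W ∈ R, D1 H' T W (fl W) :=
    sum_le_sum fun W _ => D1_mono h (Subset.refl T) W (fun _ h => h)
  have hW'e : W' ∈ R.erase W := mem_erase.2 ⟨hne.symm, hW'⟩
  have h2 : ∑ U ∈ R, ∑ W' ∈ R.erase U, D2 H U W' + 1 ≤ ∑ U ∈ R, ∑ W' ∈ R.erase U, D2 H' U W' := by
    rw [← add_sum_erase R _ hW, ← add_sum_erase R (fun U => ∑ W' ∈ R.erase U, D2 H' U W') hW]
    have h3 : ∑ U ∈ R.erase W, ∑ W' ∈ R.erase U, D2 H U W' ≤
        ∑ U ∈ R.erase W, ∑ W' ∈ R.erase U, D2 H' U W' :=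
      sum_le_sum fun U _ => sum_le_sum fun W' _ => D2_mono h U W'
    have h4 : ∑ U ∈ R.erase W, D2 H W U + 1 ≤ ∑ U ∈ R.erase W, D2 H' W U := by
      rw [← add_sum_erase _ _ hW'e, ← add_sum_erase _ (fun U => D2 H' W U) hW'e]
      have : ∑ U ∈ (R.erase W).erase W', D2 H W U ≤ ∑ U ∈ (R.erase W).erase W', D2 H' W U :=
        sum_le_sum fun U _ => D2_mono h W U
      omega
    omega
  omega

end edge

end Pool.Agent.H57.Irr
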