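import Pool.Agent.H57.Irr.StepL

/-!
# The step lemma, second part: free edges
-/

set_option autoImplicit false
set_option linter.unusedSectionVars false

namespace Pool.Agent.H57.Irr

open Finset Function

section
variable {V : Type*} [DecidableEq V]

lemma valid_mono {H H' : SimpleGraph V} (h : H ≤ H') {T : Finset V} {R : Finset (Gad V)}
    (hv : Valid H T R) : Valid H' T R :=
  ⟨fun W hW c c' x hx y hy hne hc => h (hv.comp W hW c c' x hx y hy hne hc), hv.disjT, hv.disj⟩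

/-! ### free edges -/

lemma free_Ts {H H' : SimpleGraph V} (hle : H ≤ H') {T : Finset V} {W : Gad V} (f : J → Prop)
    {t y : V} (ht : t ∈ T) (hy : y ∈ W.L src) (hn : ¬ H.Adj t y) (ha : H'.Adj t y)
    (h3 : 201 ≤ d H' (W.L src) t) : D1 H T W f + 1 ≤ D1 H' T W f := by
  have key := ex_edge hle ht hy hn ha h3
  have h1 : ∑ j, DT H T (W.L (slot j)) (f j) ≤ ∑ j, DT H' T (W.L (slot j)) (f j) :=
    sum_le_sum fun j _ => DT_mono hle (Subset.refl T) (Subset.refl _) (fun h => h)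
  unfold D1
  omega

lemma free_Tj {H H' : SimpleGraph V} (hle : H ≤ H') {T : Finset V} {W : Gad V} (f : J → Prop)
    {j : J} {t y : V} (ht : t ∈ T) (hy : y ∈ W.L (slot j)) (hn : ¬ H.Adj t y) (ha : H'.Adj t y)
    (h3 : 201 ≤ d H' (W.L (slot j)) t) (h4 : FL H' T (W.L (slot j))) :
    D1 H T W f + 1 ≤ D1 H' T W f := by
  classical
  have key := ex_edge hle ht hy hn ha h3
  have hex := h4.ex
  have hnf := nf_mono hle (Subset.refl T) (Subset.refl (W.L (slot j)))
  have h0 := ex_mono hle (Subset.refl T) (Subset.refl (W.L src))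
  have hj : DT H T (W.L (slot j)) (f j) + 1 ≤ DT H' T (W.L (slot j)) (f j) := by
    rw [DT_eq, DT_eq]
    split_ifs <;> omega
  have h1 : ∑ j, DT H T (W.L (slot j)) (f j) + 1 ≤ ∑ j, DT H' T (W.L (slot j)) (f j) := by
    rw [← add_sum_erase univ _ (mem_univ j),
      ← add_sum_erase univ (fun j => DT H' T (W.L (slot j)) (f j)) (mem_univ j)]
    have : ∑ j ∈ univ.erase j, DT H T (W.L (slot j)) (f j) ≤
        ∑ j ∈ univ.erase j, DT H' T (W.L (slot j)) (f j) :=
      sum_le_sum fun j _ => DT_mono hle (Subset.refl T) (Subset.refl _) (fun h => h)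
    omega
  unfold D1
  omega

lemma free_P {H H' : SimpleGraph V} (hle : H ≤ H') {X Y O S : Finset V} (hO : O ⊆ X)
    (hS : S ⊆ Y) (cO : O.card = 201) (cS : S.card = 201) {x₀ y₀ : V} (hx : x₀ ∈ O) (hy : y₀ ∈ S)
    (hn : ¬ H.Adj x₀ y₀) (hadj : ∀ x ∈ O, ∀ y ∈ S, H'.Adj x y) :
    DP H X Y + 1 ≤ DP H' X Y := by
  have e1 := ex_edge hle (hO hx) (hS hy) hn (hadj _ hx _ hy)
    (cS.symm.le.trans (card_le_d hS x₀ (hadj x₀ hx)))
  have e2 := ex_edge hle (hS hy) (hO hx) (fun h => hn h.symm) (hadj _ hx _ hy).symm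
    (cO.symm.le.trans (card_le_d hO y₀ (fun x hx' => (hadj x hx' y₀ hy).symm)))
  have hF : FL H' X Y := ⟨O, S, hO, hS, cO, cS, hadj⟩
  have := hF.ex
  have := hF.symm.ex
  unfold DP
  omega

lemma DP_lt_D2 {H H' : SimpleGraph V} (hle : H ≤ H') {W W' : Gad V} {j : J}
    (h : DP H (W.L src) (W'.L (slot j)) + 1 ≤ DP H' (W.L src) (W'.L (slot j))) :
    D2 H W W' + 1 ≤ D2 H' W W' := by
  unfold D2
  rw [← add_sum_erase univ _ (mem_univ j),
    ← add_sum_erase univ (fun j => DP H' (W.L src) (W'.L (slot j))) (mem_univ j)]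
  have : ∑ j ∈ univ.erase j, DP H (W.L src) (W'.L (slot j)) ≤
      ∑ j ∈ univ.erase j, DP H' (W.L src) (W'.L (slot j)) :=
    sum_le_sum fun j _ => DP_mono hle _ _
  omega

lemma lnk_ne {i i' : Rol} {j : J} (h : Lnk i j i') : i ≠ i' := by
  cases h <;> simp

lemma edge_comm' (H : SimpleGraph V) (p q : V) :
    H ⊔ SimpleGraph.edge p q = H ⊔ SimpleGraph.edge q p := by
  rw [SimpleGraph.edge_comm]

lemma Cfg.g_ne {H : SimpleGraph V} (C : Cfg H) {i j : Rol} (h : i ≠ j) : C.g i ≠ C.g j := by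
  intro he
  have := C.gdisj i j h
  rw [he, disjoint_self] at this
  have h2 := all_nonempty (C.g j)
  rw [Finset.nonempty_iff_ne_empty] at h2
  exact h2 this

variable [Fintype V]

/-- a link case with `x₀` in the source class and `y₀` in the target class -/
lemma free_link {H H' : SimpleGraph V} (hle : H ≤ H') {T : Finset V} {R : Finset (Gad V)}
    (fl : Gad V → J → Prop) {W W' : Gad V} {j : J} (hne : W ≠ W')
    (hW : W ∈ R ∨ W.all ⊆ T) (hW' : W' ∈ R ∨ W'.all ⊆ T) {O S : Finset V}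
    (hO : O ⊆ W.L src) (hS : S ⊆ W'.L (slot j)) (cO : O.card = 201) (cS : S.card = 201) {x₀ y₀ : V}
    (hx : x₀ ∈ O) (hy : y₀ ∈ S) (hn : ¬ H.Adj x₀ y₀) (hadj : ∀ x ∈ O, ∀ y ∈ S, H'.Adj x y) :
    (x₀ ∈ T ∧ y₀ ∈ T) ∨ disc H T R fl + 1 ≤ disc H' T R fl := by
  rcases hW with hW | hW <;> rcases hW' with hW' | hW'
  · right
    apply disc_lt_D2 hle T R fl W W' hW hW' hne
    apply DP_lt_D2 hle (j := j)
    exact free_P hle hO hS cO cS hx hy hn hadj
  · right
    apply disc_lt_D1 hle T R fl W hW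
    exact free_Ts hle (fl W) (hW' (L_sub_all W' (slot j) (hS hy))) (hO hx)
      (fun h => hn h.symm) (hadj _ hx _ hy).symm
      (cO.symm.le.trans (card_le_d hO y₀ (fun x hx' => (hadj x hx' y₀ hy).symm)))
  · right
    apply disc_lt_D1 hle T R fl W' hW'
    refine free_Tj hle (fl W') (j := j) (hW (L_sub_all W src (hO hx))) (hS hy)
      hn (hadj _ hx _ hy)
      (cS.symm.le.trans (card_le_d hS x₀ (fun y hy' => hadj x₀ hx y hy'))) ?_
    exact ⟨O, S, fun x hx' => hW (L_sub_all W src (hO hx')), hS, cO, cS, hadj⟩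
  · left
    exact ⟨hW (L_sub_all W src (hO hx)), hW' (L_sub_all W' (slot j) (hS hy))⟩

/-- the new edge is free -/
lemma free_done {H : SimpleGraph V} {p q : V} {T : Finset V} {R : Finset (Gad V)}
    (fl : Gad V → J → Prop)
    (h : (p ∈ T ∧ q ∈ T) ∨ disc H T R fl + 1 ≤ disc (H ⊔ SimpleGraph.edge p q) T R fl) :
    Psi (H ⊔ SimpleGraph.edge p q) T R fl ≤ Psi H T R fl := by
  have hP := Psi_edge H p q T R fl
  have hm : (disc H T R fl : ℝ) ≤ (disc (H ⊔ SimpleGraph.edge p q) T R fl : ℝ) := by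
    exact_mod_cast disc_mono (le_sup_left : H ≤ H ⊔ SimpleGraph.edge p q) T R fl
  rcases h with h | h
  · rw [if_pos h] at hP
    linarith
  · have h' : (disc H T R fl : ℝ) + 1 ≤ (disc (H ⊔ SimpleGraph.edge p q) T R fl : ℝ) := by
      exact_mod_cast h
    split_ifs at hP <;> linarith

lemma Psi_le_one {H : SimpleGraph V} {p q : V} {T : Finset V} {R : Finset (Gad V)}
    (fl : Gad V → J → Prop) :
    Psi (H ⊔ SimpleGraph.edge p q) T R fl ≤ Psi H T R fl + 1 := by
  have hP := Psi_edge H p q T R fl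
  have hm : (disc H T R fl : ℝ) ≤ (disc (H ⊔ SimpleGraph.edge p q) T R fl : ℝ) := by
    exact_mod_cast disc_mono (le_sup_left : H ≤ H ⊔ SimpleGraph.edge p q) T R fl
  split_ifs at hP <;> linarith

/-- edges inside gadgets and links are free if all gadgets are registered or absorbed -/
lemma free_edge {H : SimpleGraph V} {p q : V} (hpq : p ≠ q) (C : Cfg (H ⊔ SimpleGraph.edge p q))
    {T : Finset V} {R : Finset (Gad V)} (fl : Gad V → J → Prop) (hv : Valid H T R)
    (hal : ∀ i, C.g i ∈ R ∨ (C.g i).all ⊆ T) (hn : ¬ H.Adj p q)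
    (hf : (∃ i c c', p ∈ (C.g i).L c ∧ q ∈ (C.g i).L c' ∧ (c = c' → c = rest)) ∨
      (∃ i j i', Lnk i j i' ∧ ∃ O S : Finset V, O ⊆ (C.g i).L src ∧ S ⊆ (C.g i').L (slot j) ∧
        O.card = 201 ∧ S.card = 201 ∧ (∀ x ∈ O, ∀ y ∈ S, (H ⊔ SimpleGraph.edge p q).Adj x y) ∧
        ((p ∈ O ∧ q ∈ S) ∨ (q ∈ O ∧ p ∈ S)))) :
    Psi (H ⊔ SimpleGraph.edge p q) T R fl ≤ Psi H T R fl := by
  have hle : H ≤ H ⊔ SimpleGraph.edge p q := le_sup_left
  apply free_done
  rcases hf with ⟨i, c, c', hp, hq, hcc⟩ | ⟨i, j, i', hl, O, S, hO, hS, cO, cS, hadj, h | h⟩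
  · rcases hal i with hi | hi
    · exact absurd (hv.comp _ hi c c' p hp q hq hpq hcc) hn
    · left
      exact ⟨hi (L_sub_all _ _ hp), hi (L_sub_all _ _ hq)⟩
  · exact free_link hle fl (C.g_ne (lnk_ne hl)) (hal i) (hal i')
      hO hS cO cS h.1 h.2 hn hadj
  · have key := free_link (H := H) (T := T) (R := R) hle fl
      (C.g_ne (lnk_ne hl)) (hal i) (hal i')
      hO hS cO cS h.1 h.2 (fun h => hn h.symm) hadj
    rcases key with k | k
    · exact Or.inl ⟨k.2, k.1⟩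
    · exact Or.inr k

end

end Pool.Agent.H57.Irr
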