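import Pool.Agent.H57.Irr.StepM

/-!
# The step lemma, main proof
-/

set_option autoImplicit false
set_option linter.unusedSectionVars false

namespace Pool.Agent.H57.Irr

open Finset Function

lemma pair_le {β : Type*} (s : Finset β) (f : β → ℕ) {E Z : β} (h : E ≠ Z)
    (hE : E ∈ s) (hZ : Z ∈ s) : f E + f Z ≤ ∑ W ∈ s, f W := by
  classical
  rw [← add_sum_erase s f hE]
  have : f Z ≤ ∑ W ∈ s.erase E, f W :=
    single_le_sum (f := f) (fun _ _ => Nat.zero_le _) (mem_erase.2 ⟨h.symm, hZ⟩)
  omega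

lemma card_pair2 : ∀ (e : Fin 2) (a : St), ({(e, 0, a), (e, 1, a)} : Finset J).card = 2 := by
  decide

lemma card_pair4 : ∀ a b : St, (({(0, 0, a), (0, 1, a)} : Finset J) ∪
    {(1, 0, b), (1, 1, b)}).card = 4 := by
  decide

lemma Ins_hh (r : Rul) : 40200 * (Ins r).card + hh r = 160800 + (if bit (own r) then 0 else 1) := by
  unfold Ins hh
  by_cases h1 : sk (own r) <;> by_cases h2 : tk (own r)
  · rw [if_pos h1, if_pos h2, if_pos h1, if_pos h2, card_pair4]
    omega
  · rw [if_pos h1, if_neg h2, if_pos h1, if_neg h2, union_empty, card_pair2]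
    omega
  · rw [if_neg h1, if_pos h2, if_neg h1, if_pos h2, empty_union, card_pair2]
    omega
  · rw [if_neg h1, if_neg h2, if_neg h1, if_neg h2, empty_union, card_empty]
    omega

section
variable {V : Type*} [DecidableEq V]

/-- penalty of a slot -/
noncomputable def pj (H : SimpleGraph V) (T Y : Finset V) (b I : Prop) : ℕ := by
  classical exact (if I then ((if b then 0 else 200) + (if 402 ≤ nf H T Y then 39999 else 0)) else
    (if 201 ≤ nf H T Y then 40200 else 0))

lemma pj_eq (H : SimpleGraph V) (T Y : Finset V) (b I : Prop) [Decidable b] [Decidable I] :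
    pj H T Y b I = (if I then ((if b then 0 else 200) + (if 402 ≤ nf H T Y then 39999 else 0)) else
    (if 201 ≤ nf H T Y then 40200 else 0)) := by
  unfold pj
  congr

lemma slot_cost (H : SimpleGraph V) (T Y : Finset V) (b I : Prop) [Decidable I]
    (hI : I → 201 ≤ nf H T Y) :
    DT H T Y b + (if I then 40200 else 0) + pj H T Y b I ≤ E2 H T Y := by
  classical
  rw [DT_eq, pj_eq]
  have h1 := ex_add_nf H T Y
  have h2 := nf_le_ex H T Y
  by_cases hi : I
  · have h3 := hI hi
    simp only [hi, if_true]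
    split_ifs <;> omega
  · simp only [hi, if_false]
    split_ifs <;> omega

/-- first part of the gain: flagged slots -/
noncomputable def S1 (H : SimpleGraph V) (A W : Gad V) (f : J → Prop) : ℕ := by
  classical exact (∑ j, (if f j then min (ex H (A.L src) (W.L (slot j))) 200 else 0))

/-- second part of the gain: docked slots -/
noncomputable def S2 (H : SimpleGraph V) (T : Finset V) (A W : Gad V) : ℕ :=
  ∑ j, (if 201 ≤ nf H T (W.L (slot j)) then nf H (A.L src) (W.L (slot j)) else 0)

/-- third part of the gain: links into `A` -/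
noncomputable def S3 (H : SimpleGraph V) (A W : Gad V) : ℕ :=
  ∑ j, min (ex H (A.L (slot j)) (W.L src)) 200

lemma gg_eq (H : SimpleGraph V) (T : Finset V) (A W : Gad V) (f : J → Prop) :
    gg H T A W f = S1 H A W f + S2 H T A W + S3 H A W := by
  unfold gg ggs S1 S2 S3
  rw [← sum_add_distrib, ← sum_add_distrib]

lemma S1_ge {H : SimpleGraph V} {A W : Gad V} {f : J → Prop} {j : J} (hf : f j)
    (h : FL H (A.L src) (W.L (slot j))) : 200 ≤ S1 H A W f := by
  classical
  have h1 := h.ex
  have h2 : (if f j then min (ex H (A.L src) (W.L (slot j))) 200 else 0) ≤ S1 H A W f := by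
    unfold S1
    have := single_le_sum (f := fun j => (if f j then min (ex H (A.L src) (W.L (slot j))) 200
      else 0)) (fun _ _ => Nat.zero_le _) (mem_univ j)
    convert this using 1
  rw [if_pos hf] at h2
  omega

lemma S2_ge {H : SimpleGraph V} {T : Finset V} {A W : Gad V} {j : J}
    (hn : 201 ≤ nf H T (W.L (slot j)))
    (h : FL H (A.L src) (W.L (slot j))) : 201 ≤ S2 H T A W := by
  have h1 := h.nf
  have h2 : (if 201 ≤ nf H T (W.L (slot j)) then nf H (A.L src) (W.L (slot j)) else 0) ≤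
      S2 H T A W := by
    unfold S2
    exact single_le_sum (f := fun j => (if 201 ≤ nf H T (W.L (slot j)) then
      nf H (A.L src) (W.L (slot j)) else 0)) (fun _ _ => Nat.zero_le _) (mem_univ j)
  rw [if_pos hn] at h2
  omega

lemma S3_ge {H : SimpleGraph V} {A W : Gad V} {j : J}
    (h : FL H (W.L src) (A.L (slot j))) : 200 ≤ S3 H A W := by
  have h1 := h.symm.ex
  have h2 : min (ex H (A.L (slot j)) (W.L src)) 200 ≤ S3 H A W := by
    unfold S3
    exact single_le_sum (f := fun j => min (ex H (A.L (slot j)) (W.L src)) 200)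
      (fun _ _ => Nat.zero_le _) (mem_univ j)
  omega

variable [Fintype V]

/-- the main case: `A = C.g (rr r 0)` is registered -/
lemma main_case {H H' : SimpleGraph V} (hle : H ≤ H') (C : Cfg H')
    {T : Finset V} {R : Finset (Gad V)} (fl : Gad V → J → Prop) (hv : Valid H T R) (hK : C.K ⊆ T)
    (hF0 : Psi H' T R fl ≤ Psi H T R fl + 1)
    (hal : ∀ i, C.g i ∈ R ∨ (C.g i).all ⊆ T) (r : Rul) (h0 : C.g (rr r 0) ∈ R) :
    Outcome H H' T R fl := by
  classical
  have hv' : Valid H' T R := valid_mono hle hv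
  have hr : ∀ X : Finset V, X ⊆ X := fun X => Subset.refl X
  obtain ⟨A, hA⟩ : ∃ A, A = C.g (rr r 0) := ⟨_, rfl⟩
  obtain ⟨E, hE⟩ : ∃ E, E = C.g (rr r 1) := ⟨_, rfl⟩
  obtain ⟨M, hM⟩ : ∃ M, M = C.g (rr r 2) := ⟨_, rfl⟩
  obtain ⟨Z, hZ⟩ : ∃ Z, Z = C.g (rr r 3) := ⟨_, rfl⟩
  have hne : ∀ i j : Fin 4, i ≠ j → C.g (rr r i) ≠ C.g (rr r j) := by
    intro i j hij
    apply C.g_ne
    intro h
    simp only [Sum.inl.injEq, Prod.mk.injEq, true_and] at h
    exact hij h
  have hAE : A ≠ E := by rw [hA, hE]; exact hne 0 1 (by decide)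
  have hAZ : A ≠ Z := by rw [hA, hZ]; exact hne 0 3 (by decide)
  have hEZ : E ≠ Z := by rw [hE, hZ]; exact hne 1 3 (by decide)
  have hMA : M ≠ A := by rw [hM, hA]; exact hne 2 0 (by decide)
  have hME : M ≠ E := by rw [hM, hE]; exact hne 2 1 (by decide)
  have hMZ : M ≠ Z := by rw [hM, hZ]; exact hne 2 3 (by decide)
  have fAE : FL H' (A.L src) (E.L (slot (sE r))) := by
    rw [hA, hE]; exact C.links _ _ _ (Lnk.vE r)
  have fAZ : FL H' (A.L src) (Z.L (slot (sZ r))) := by
    rw [hA, hZ]; exact C.links _ _ _ (Lnk.vZ r)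
  have fEM : FL H' (E.L src) (M.L (slot (mE r))) := by
    rw [hE, hM]; exact C.links _ _ _ (Lnk.EM r)
  have fZM : FL H' (Z.L src) (M.L (slot (mZ r))) := by
    rw [hZ, hM]; exact C.links _ _ _ (Lnk.ZM r)
  have halE : E ∈ R ∨ E.all ⊆ T := by rw [hE]; exact hal _
  have halZ : Z ∈ R ∨ Z.all ⊆ T := by rw [hZ]; exact hal _
  have halM : M ∈ R ∨ M.all ⊆ T := by rw [hM]; exact hal _
  have dock : ∀ j ∈ Ins r, 201 ≤ nf H' T (A.L (slot j)) := by
    intro j hj
    rw [hA]
    exact (C.dock r j hj).trans (nf_mono le_rfl hK (hr _))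
  have ee : hh r + 1 ≤ E2 H' T (A.L rest) := by
    rw [hA]
    exact (C.eedge r).trans (E2_mono le_rfl hK (hr _))
  rw [← hA] at h0
  -- costs
  have c0 := ex_add_nf H' T (A.L src)
  obtain ⟨cs, hcs⟩ : ∃ cs, E2 H' T (A.L src) = ex H' T (A.L src) + cs :=
    ⟨E2 H' T (A.L src) - ex H' T (A.L src), by omega⟩
  obtain ⟨pen, hpen⟩ : ∃ pen, pen = ∑ j, pj H' T (A.L (slot j)) (fl A j) (j ∈ Ins r) := ⟨_, rfl⟩
  have hphi : D1 H' T A (fl A) + cs + pen + 160801 + (if bit (own r) then 0 else 1) ≤
      E2 H' T A.all := by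
    rw [E2_all_right, sum_Cl]
    have h1 := sum_le_sum fun (j : J) (_ : j ∈ univ) =>
      slot_cost H' T (A.L (slot j)) (fl A j) (j ∈ Ins r) (dock j)
    rw [sum_add_distrib, sum_add_distrib, ← hpen] at h1
    have h2 : ∑ j, (if j ∈ Ins r then 40200 else 0) = 40200 * (Ins r).card := by
      rw [sum_ite_mem, univ_inter, sum_const, smul_eq_mul, mul_comm]
    have h3 := Ins_hh r
    rw [h2] at h1
    unfold D1
    omega
  have hphi' : (D1 H' T A (fl A) : ℝ) + cs + pen + 160801 + ((if bit (own r) then 0 else 1 : ℕ) : ℝ)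
      ≤ (E2 H' T A.all : ℝ) := by exact_mod_cast hphi
  have hEA : (2 * 49999999999994579960098670 : ℝ) ≤ (E2 H' A.all A.all : ℝ) := by
    exact_mod_cast (hv'.comp A h0).E2_ge
  have hbon : (bon r : ℝ) = 1 - ((if bit (own r) then 0 else 1 : ℕ) : ℝ) := by
    unfold bon
    split_ifs <;> norm_num
  have hcsE : ∀ W : Gad V, ∀ j : J, W.all ⊆ T → FL H' (A.L src) (W.L (slot j)) → 40200 ≤ cs := by
    intro W j hW hF
    have n1 : 201 ≤ nf H' T (A.L src) :=
      hF.symm.nf.trans (nf_mono le_rfl ((L_sub_all W (slot j)).trans hW) (hr _))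
    omega
  have hVn := (absorb_gad_main H' T R fl fl A (fun _ _ h => h) hv' h0).1
  by_cases hcs2 : 40200 ≤ cs
  · -- absorb without flags
    have hmain := (absorb_gad_main H' T R fl fl A (fun _ _ h => h) hv' h0).2
    have hg : (0 : ℝ) ≤ ((∑ W ∈ R.erase A, gg H' T A W (fl W) : ℕ) : ℝ) := Nat.cast_nonneg _
    have hcs2' : (40200 : ℝ) ≤ cs := by exact_mod_cast hcs2
    have hp0 : (0 : ℝ) ≤ pen := Nat.cast_nonneg _
    have hb0 : (0 : ℝ) ≤ ((if bit (own r) then 0 else 1 : ℕ) : ℝ) := Nat.cast_nonneg _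
    right
    left
    refine ⟨R, T ∪ A.all, R.erase A, Subset.refl R, hv', subset_union_left, erase_subset _ _, hVn,
      ?_, ?_⟩
    · intro W hW
      rw [mem_sdiff, mem_erase, not_and] at hW
      by_cases hWA : W = A
      · rw [hWA]
        exact subset_union_right
      · exact absurd hW.1 (hW.2 hWA)
    · have e3 : (R \ R.erase A).card ≤ 1 := by
        have : R \ R.erase A ⊆ {A} := by
          intro W hW
          rw [mem_sdiff, mem_erase, not_and] at hW
          rw [mem_singleton]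
          by_contra hne
          exact hW.2 hne hW.1
        simpa using card_le_card this
      have e3' : ((R \ R.erase A).card : ℝ) ≤ 1 := by exact_mod_cast e3
      linarith
  · have hE1 : E ∈ R := by
      rcases halE with h | h
      · exact h
      · exact absurd (hcsE E _ h fAE) hcs2
    have hZ1 : Z ∈ R := by
      rcases halZ with h | h
      · exact h
      · exact absurd (hcsE Z _ h fAZ) hcs2
    obtain ⟨fl', hfl'⟩ : ∃ fl', fl' = upd fl r E Z := ⟨_, rfl⟩
    have hff : ∀ W j, fl W j → fl' W j := by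
      intro W j h
      rw [hfl']
      exact Or.inl h
    have hmain := (absorb_gad_main H' T R fl fl' A hff hv' h0).2
    obtain ⟨G1, hG1⟩ : ∃ G1, G1 = ∑ W ∈ R.erase A, S1 H' A W (fl' W) := ⟨_, rfl⟩
    obtain ⟨G2, hG2⟩ : ∃ G2, G2 = ∑ W ∈ R.erase A, S2 H' T A W := ⟨_, rfl⟩
    obtain ⟨G3, hG3⟩ : ∃ G3, G3 = ∑ W ∈ R.erase A, S3 H' A W := ⟨_, rfl⟩
    have hgs : ∑ W ∈ R.erase A, gg H' T A W (fl' W) = G1 + G2 + G3 := by
      rw [hG1, hG2, hG3, ← sum_add_distrib, ← sum_add_distrib]
      exact sum_congr rfl fun W _ => gg_eq _ _ _ _ _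
    have g1 : 400 ≤ G1 := by
      have h1 : S1 H' A E (fl' E) + S1 H' A Z (fl' Z) ≤ G1 := by
        rw [hG1]
        exact pair_le (R.erase A) (fun W => S1 H' A W (fl' W)) hEZ
          (mem_erase.2 ⟨hAE.symm, hE1⟩) (mem_erase.2 ⟨hAZ.symm, hZ1⟩)
      have h2 : 200 ≤ S1 H' A E (fl' E) := by
        apply S1_ge (j := sE r) _ fAE
        rw [hfl']
        exact Or.inr (Or.inl ⟨rfl, rfl⟩)
      have h3 : 200 ≤ S1 H' A Z (fl' Z) := by
        apply S1_ge (j := sZ r) _ fAZ
        rw [hfl']
        exact Or.inr (Or.inr ⟨rfl, rfl⟩)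
      omega
    have g2 : ∀ W ∈ R, W ≠ A → S2 H' T A W ≤ G2 := by
      intro W hW hWA
      rw [hG2]
      exact single_le_sum (f := fun W => S2 H' T A W) (fun _ _ => Nat.zero_le _)
        (mem_erase.2 ⟨hWA, hW⟩)
    have g3 : ∀ W ∈ R, W ≠ A → S3 H' A W ≤ G3 := by
      intro W hW hWA
      rw [hG3]
      exact single_le_sum (f := fun W => S3 H' A W) (fun _ _ => Nat.zero_le _)
        (mem_erase.2 ⟨hWA, hW⟩)
    have gp : ∀ j, pj H' T (A.L (slot j)) (fl A j) (j ∈ Ins r) ≤ pen := by
      intro j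
      rw [hpen]
      exact single_le_sum (f := fun j => pj H' T (A.L (slot j)) (fl A j) (j ∈ Ins r))
        (fun _ _ => Nat.zero_le _) (mem_univ j)
    rw [hgs] at hmain
    push_cast at hmain
    have hfin : Psi H' (T ∪ A.all) (R.erase A) fl' ≤
        Psi H T R fl + 400 + bon r - (cs + pen + G1 + G2 + G3) := by linarith
    by_cases hsl : 600 ≤ cs + pen + G1 + G2 + G3
    · -- bad absorption
      right
      right
      right
      refine ⟨R, A, r, E, Z, Subset.refl R, hv', h0, hE1, hZ1, hAE, hAZ, hEZ, fAE, fAZ, ?_⟩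
      rw [← hfl']
      have hsl' : (600 : ℝ) ≤ cs + pen + G1 + G2 + G3 := by exact_mod_cast hsl
      have hb : (bon r : ℝ) ≤ 1 := by
        have : bon r ≤ 1 := by
          unfold bon
          split_ifs <;> omega
        exact_mod_cast this
      linarith
    · -- good absorption
      right
      right
      left
      refine ⟨R, A, r, E, M, Z, Subset.refl R, hv', ?_, ?_⟩
      · refine ⟨h0, hE1, hZ1, hAE, hAZ, hEZ, hMA, hME, hMZ, halM, fAE, fAZ, fEM, fZM, dock, ?_, ?_,
          ?_, ?_, ?_, ?_⟩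
        · intro j hj
          by_contra hfl
          have h1 := gp j
          rw [pj_eq, if_pos hj, if_neg hfl] at h1
          omega
        · intro j hj
          by_contra hn
          have h1 := gp j
          rw [pj_eq, if_pos hj, if_pos (show 402 ≤ nf H' T (A.L (slot j)) by omega)] at h1
          omega
        · intro j hj
          by_contra hn
          have h1 := gp j
          rw [pj_eq, if_neg hj, if_pos (show 201 ≤ nf H' T (A.L (slot j)) by omega)] at h1
          omega
        · intro W hW hWA j hF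
          have h1 := g3 W hW hWA
          have h2 := S3_ge hF
          omega
        · intro W hW hWA j hF
          by_contra hn
          have h1 := g2 W hW hWA
          have h2 := S2_ge (show 201 ≤ nf H' T (W.L (slot j)) by omega) hF
          omega
        · by_contra hn
          omega
      · rw [← hfl']
        have g1' : (400 : ℝ) ≤ G1 := by exact_mod_cast g1
        have p1 : (0 : ℝ) ≤ cs := Nat.cast_nonneg _
        have p2 : (0 : ℝ) ≤ pen := Nat.cast_nonneg _
        have p3 : (0 : ℝ) ≤ G2 := Nat.cast_nonneg _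
        have p4 : (0 : ℝ) ≤ G3 := Nat.cast_nonneg _
        linarith

end

theorem step (hbulk : S_bulk) (hbig : S_bigclique) : S_step := by
  intro V _ _ H H' C p q hpq hH' hf T R fl hv
  subst hH'
  have hle : H ≤ H ⊔ SimpleGraph.edge p q := le_sup_left
  have hv' : Valid (H ⊔ SimpleGraph.edge p q) T R := valid_mono hle hv
  have hF0 : Psi (H ⊔ SimpleGraph.edge p q) T R fl ≤ Psi H T R fl + 1 := Psi_le_one fl
  have fin2 : ∀ T' R', Valid (H ⊔ SimpleGraph.edge p q) T' R' → T ⊆ T' → R' ⊆ R →
      (∀ W ∈ R \ R', W.all ⊆ T') →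
      Psi (H ⊔ SimpleGraph.edge p q) T' R' fl + 150 * ((R \ R').card : ℝ) + 1 ≤
        Psi (H ⊔ SimpleGraph.edge p q) T R fl →
      Outcome H (H ⊔ SimpleGraph.edge p q) T R fl := by
    intro T' R' h1 h2 h3 h4 h6
    right
    left
    exact ⟨R, T', R', Subset.refl R, hv', h2, h3, h1, h4, by linarith⟩
  have fin1 : Psi (H ⊔ SimpleGraph.edge p q) T R fl ≤ Psi H T R fl →
      Outcome H (H ⊔ SimpleGraph.edge p q) T R fl := fun h => Or.inl ⟨R, Subset.refl R, hv', h⟩
  by_cases hK : C.K ⊆ T
  swap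
  · obtain ⟨T', R', a1, a2, a3, a4, a6⟩ := hbig V (H ⊔ SimpleGraph.edge p q) T R fl C.K
      hv' C.cardK C.clique hK
    exact fin2 T' R' a1 a2 a3 a4 (by linarith)
  by_cases hbk : ∀ i, (C.g i).all ⊆ T ∨ C.g i ∈ R ∨
      (Disjoint (C.g i).all T ∧ ∀ W ∈ R, Disjoint (C.g i).all W.all)
  swap
  · push Not at hbk
    obtain ⟨i, h1, h2, h3⟩ := hbk
    obtain ⟨T', R', a1, a2, a3, a4, a6⟩ := hbulk V (H ⊔ SimpleGraph.edge p q) T R fl (C.g i)
      hv' (C.comp i) h1 h2 (by
        rintro ⟨b1, b2⟩
        obtain ⟨W, hW, hd⟩ := h3 b1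
        exact hd (b2 W hW))
    exact fin2 T' R' a1 a2 a3 a4 (by linarith)
  by_cases hfr : ∃ i, C.g i ∉ R ∧ (Disjoint (C.g i).all T ∧ ∀ W ∈ R, Disjoint (C.g i).all W.all)
  · -- register a fresh gadget
    obtain ⟨i, h1, h2, h3⟩ := hfr
    left
    refine ⟨insert (C.g i) R, subset_insert _ _, ⟨?_, ?_, ?_⟩, ?_⟩
    · intro W hW
      rcases mem_insert.1 hW with rfl | h
      · exact C.comp i
      · exact hv'.comp W h
    · intro W hW
      rcases mem_insert.1 hW with rfl | h
      · exact h2.symm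
      · exact hv'.disjT W h
    · intro W hW W' hW' hne
      rcases mem_insert.1 hW with rfl | h <;> rcases mem_insert.1 hW' with rfl | h'
      · exact absurd rfl hne
      · exact h3 W' h'
      · exact (h3 W h).symm
      · exact hv'.disj W h W' h' hne
    · have hPR := Psi_mono_R (H ⊔ SimpleGraph.edge p q) T (subset_insert (C.g i) R) fl
      rw [card_insert_of_notMem h1] at hPR
      push_cast at hPR
      linarith
  have hal : ∀ i, C.g i ∈ R ∨ (C.g i).all ⊆ T := by
    intro i
    by_contra hc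
    rw [not_or] at hc
    rcases hbk i with h | h | h
    · exact hc.2 h
    · exact hc.1 h
    · exact hfr ⟨i, hc.1, h⟩
  by_cases hn : H.Adj p q
  · have : H ⊔ SimpleGraph.edge p q = H := by
      rw [sup_eq_left]
      intro x y hxy
      rw [SimpleGraph.edge_adj] at hxy
      rcases hxy.1 with ⟨rfl, rfl⟩ | ⟨rfl, rfl⟩
      · exact hn
      · exact hn.symm
    apply fin1
    rw [this]
  rcases hf with ⟨hp, hq⟩ | ⟨r, hp, hq⟩ | hf | hf
  · by_cases hz : C.z ∈ T
    · apply fin1
      apply free_done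
      left
      have hsub : C.K ∪ {C.z} ⊆ T := union_subset hK (by simpa using hz)
      exact ⟨hsub hp, hsub hq⟩
    · have hdz : 6000000000000 ≤ d (H ⊔ SimpleGraph.edge p q) T C.z :=
        C.zK.trans (d_mono le_rfl hK _)
      have hdz' : (6000000000000 : ℝ) ≤ (d (H ⊔ SimpleGraph.edge p q) T C.z : ℝ) := by
        exact_mod_cast hdz
      by_cases hW : ∃ W ∈ R, C.z ∈ W.all
      · obtain ⟨W, hW, hzW⟩ := hW
        obtain ⟨a1, a2, _⟩ := absorbGad V (H ⊔ SimpleGraph.edge p q) T R fl W hv' hW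
        have a2' := a2 C.z hzW
        have e3 : (R \ R.erase W).card ≤ 1 := by
          have : R \ R.erase W ⊆ {W} := by
            intro U hU
            rw [mem_sdiff, mem_erase, not_and] at hU
            rw [mem_singleton]
            by_contra hne
            exact hU.2 hne hU.1
          simpa using card_le_card this
        have e3' : ((R \ R.erase W).card : ℝ) ≤ 1 := by exact_mod_cast e3
        refine fin2 _ _ a1 subset_union_left (erase_subset _ _) ?_ (by linarith)
        intro U hU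
        rw [mem_sdiff, mem_erase, not_and] at hU
        by_cases hUW : U = W
        · rw [hUW]
          exact subset_union_right
        · exact absurd hU.1 (hU.2 hUW)
      · push Not at hW
        obtain ⟨a1, a2⟩ := absorbSet V (H ⊔ SimpleGraph.edge p q) T R fl {C.z} hv'
          (disjoint_singleton_left.2 hz) (fun W h => disjoint_singleton_left.2 (hW W h))
        refine fin2 _ _ a1 subset_union_left (Subset.refl R) (by simp) ?_
        have e1 : E2 (H ⊔ SimpleGraph.edge p q) {C.z} T = d (H ⊔ SimpleGraph.edge p q) T C.z := by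
          unfold E2
          rw [sum_singleton]
        rw [e1, card_singleton] at a2
        have e2 : (0 : ℝ) ≤ (E2 (H ⊔ SimpleGraph.edge p q) {C.z} {C.z} : ℝ) := Nat.cast_nonneg _
        have e3 : cc < 5000000000000 := by unfold cc; norm_num
        have e4 : R \ R = ∅ := Finset.sdiff_self R
        rw [e4, card_empty]
        push_cast at a2 ⊢
        linarith
  · rcases hal (rr r 0) with h0 | h0
    · exact main_case hle C fl hv hK hF0 hal r h0
    · apply fin1
      apply free_done
      left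
      have hsub : C.K ∪ (C.g (rr r 0)).all ⊆ T := union_subset hK h0
      exact ⟨hsub hp, hsub hq⟩
  · exact fin1 (free_edge hpq C fl hv hal hn (Or.inl hf))
  · exact fin1 (free_edge hpq C fl hv hal hn (Or.inr hf))

end Pool.Agent.H57.Irr
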