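import Pool.Agent.H57.Irr.Base

/-!
# The tree graphs (definitions for the upper bound)

Positions are `(i, q, j, r)`: level `i` and number `q` in the s-forest (with `k` roots at level `h`),
level `j` and number `r` in the t-tree (one root at level `h`).
-/

set_option autoImplicit false

namespace Pool.Agent.H57.Irr

open Finset Function

/-- number of spare core vertices -/
def NS : ℕ := 10 ^ 42

/-- positions -/
abbrev Pos := (ℕ × ℕ) × (ℕ × ℕ)

/-- the bit at level `(i,j)`: `1` iff `i` and `j` have no common binary digit, i.e. iff the binomial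
coefficient `(i+j choose i)` is odd -/
def vb (i j : ℕ) : Prop := (i + j).choose i % 2 = 1

instance (i j : ℕ) : Decidable (vb i j) := by unfold vb; infer_instance

/-- the state at level `(i,j)` -/
def stt (i j : ℕ) : St :=
  if i = 0 then (if j = 0 then 0 else 2) else if j = 0 then 1 else if vb i j then 4 else 3

/-- s-parent -/
def spos (p : Pos) : Pos := ((p.1.1 + 1, p.1.2 / 2), p.2)

/-- t-parent -/
def tpos (p : Pos) : Pos := (p.1, (p.2.1 + 1, p.2.2 / 2))

/-- state at a position -/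
def stp (p : Pos) : St := stt p.1.1 p.2.1

/-- index as a child, s-direction -/
def ias (p : Pos) : Fin 2 := ⟨p.1.2 % 2, Nat.mod_lt _ (by norm_num)⟩

/-- index as a child, t-direction -/
def igt (p : Pos) : Fin 2 := ⟨p.2.2 % 2, Nat.mod_lt _ (by norm_num)⟩

/-- slot in the s-parent -/
def slS (p : Pos) : J := (0, ias p, stp p)

/-- slot in the t-parent -/
def slT (p : Pos) : J := (1, igt p, stp p)

/-- the rule data at a position -/
def tup (p : Pos) : Tup := (stt (p.1.1 - 1) p.2.1, stt p.1.1 (p.2.1 - 1), stp p, ias p, igt p,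
  stp (spos p), stp (tpos p))

/-- cells of the s-forest (levels `0..h`, `k * 2^(h-i)` cells at level `i`) -/
abbrev SC (h k : ℕ) := (i : Fin (h + 1)) × Fin (k * 2 ^ (h - i.val))

/-- cells -/
abbrev CellT (h k : ℕ) := SC h k × SC h 1

/-- vertices: cells, four core gadgets, spare core vertices, `s` extra vertices -/
abbrev VT (h k s : ℕ) := (CellT h k × DV) ⊕ ((((Fin 2 × Fin 2) × DV) ⊕ Fin NS) ⊕ Fin s)

/-- position in range -/
def inT (h k : ℕ) (p : Pos) : Prop :=
  p.1.1 ≤ h ∧ p.1.2 < k * 2 ^ (h - p.1.1) ∧ p.2.1 ≤ h ∧ p.2.2 < 1 * 2 ^ (h - p.2.1)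

instance (h k : ℕ) (p : Pos) : Decidable (inT h k p) := by unfold inT; infer_instance

/-- the gadget at position `p`: a cell if `p` is in range, else a core gadget depending on the
parities of the two levels -/
def embT (h k s : ℕ) (p : Pos) (x : DV) : VT h k s :=
  if hp : inT h k p then
    Sum.inl ((⟨⟨p.1.1, Nat.lt_succ_of_le hp.1⟩, ⟨p.1.2, hp.2.1⟩⟩,
      ⟨⟨p.2.1, Nat.lt_succ_of_le hp.2.2.1⟩, ⟨p.2.2, hp.2.2.2⟩⟩), x)
  else Sum.inr (Sum.inl (Sum.inl ((⟨p.1.1 % 2, Nat.mod_lt _ (by norm_num)⟩,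
    ⟨p.2.1 % 2, Nat.mod_lt _ (by norm_num)⟩), x)))

/-- spare core vertex -/
def spare (h k s : ℕ) (u : Fin NS) : VT h k s := Sum.inr (Sum.inl (Sum.inr u))

/-- generating relation of the full tree graph; `mis = True` for the full graph, for the deficient
graph one edge is missing in each cell and in each link -/
def relT (h k s : ℕ) (mis : Prop) (a b : VT h k s) : Prop :=
  (∃ a' b', a = Sum.inr (Sum.inl a') ∧ b = Sum.inr (Sum.inl b')) ∨
  (∃ p x y, inT h k p ∧ a = embT h k s p x ∧ b = embT h k s p y ∧ dadj x y ∧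
    (mis ∨ ¬ (x.1 = rest ∧ y.1 = rest ∧ x.2.val < 2 ∧ y.2.val < 2))) ∨
  (∃ p x y, inT h k p ∧ a = embT h k s p x ∧ b = embT h k s (spos p) y ∧
    port src x ∧ port (slot (slS p)) y ∧ (mis ∨ ¬ (x.2.val = 0 ∧ y.2.val = 0))) ∨
  (∃ p x y, inT h k p ∧ a = embT h k s p x ∧ b = embT h k s (tpos p) y ∧
    port src x ∧ port (slot (slT p)) y ∧ (mis ∨ ¬ (x.2.val = 0 ∧ y.2.val = 0))) ∨
  (∃ (p : Pos) (x : DV) (u : Fin NS) (r : Rul), inT h k p ∧ r.1 = tup p ∧ a = embT h k s p x ∧
    b = spare h k s u ∧ x.1 = rest ∧ x.2.val = 0 ∧ u.val < hh r) ∨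
  (∃ (c : Fin s) (u : Fin NS), a = Sum.inr (Sum.inr c) ∧ b = spare h k s u ∧
    u.val < 6000000000000)

/-- the full tree graph -/
def TFull (h k s : ℕ) : SimpleGraph (VT h k s) := SimpleGraph.fromRel (relT h k s True)

/-- the deficient tree graph -/
def TDef (h k s : ℕ) : SimpleGraph (VT h k s) := SimpleGraph.fromRel (relT h k s False)

/-- complete graph on a set of vertices -/
def clq {V : Type*} (Q : Finset V) : SimpleGraph V := SimpleGraph.fromRel (fun x y => x ∈ Q ∧ y ∈ Q)

/-- the irrational constant: sum of `2^(-i-j)` over all `(i,j)` with bit 1 -/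
noncomputable def vth : ℝ := ∑' p : ℕ × ℕ, if vb p.1 p.2 then (1 / 2 : ℝ) ^ (p.1 + p.2) else 0

/-- partial sums of `vth` -/
noncomputable def vthP (h : ℕ) : ℝ :=
  ∑ i ∈ range (h + 1), ∑ j ∈ range (h + 1), if vb i j then (1 / 2 : ℝ) ^ (i + j) else 0

end Pool.Agent.H57.Irr
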