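import Pool.Agent.H57.Irr.Spec

/-!
# Phase 1 of the tree process: fill all cells, then all links (`S_tree1`)
-/

set_option autoImplicit false

namespace Pool.Agent.H57.Irr.TreeA

open Finset Function Pool.Agent.H57.Irr

/-! ## The embedding -/

lemma embT_pos {h k s : ℕ} {p : Pos} (hp : inT h k p) (x : DV) :
    embT h k s p x = Sum.inl ((⟨⟨p.1.1, Nat.lt_succ_of_le hp.1⟩, ⟨p.1.2, hp.2.1⟩⟩,
      ⟨⟨p.2.1, Nat.lt_succ_of_le hp.2.2.1⟩, ⟨p.2.2, hp.2.2.2⟩⟩), x) := by
  unfold embT
  rw [dif_pos hp]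

lemma embT_neg {h k s : ℕ} {p : Pos} (hp : ¬ inT h k p) (x : DV) :
    embT h k s p x = Sum.inr (Sum.inl (Sum.inl ((⟨p.1.1 % 2, Nat.mod_lt _ (by norm_num)⟩,
      ⟨p.2.1 % 2, Nat.mod_lt _ (by norm_num)⟩), x))) := by
  unfold embT
  rw [dif_neg hp]

lemma embT_inj {h k s : ℕ} (p : Pos) : Injective (embT h k s p) := by
  intro x y hxy
  by_cases hp : inT h k p
  · rw [embT_pos hp, embT_pos hp] at hxy
    exact congrArg Prod.snd (Sum.inl.inj hxy)
  · rw [embT_neg hp, embT_neg hp] at hxy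
    exact congrArg Prod.snd (Sum.inl.inj (Sum.inl.inj (Sum.inr.inj hxy)))

/-- the level of a vertex -/
def lvl {h k s : ℕ} : VT h k s → Option (ℕ × ℕ)
  | Sum.inl (c, _) => some (c.1.1.val, c.2.1.val)
  | Sum.inr _ => none

lemma lvl_pos {h k s : ℕ} {p : Pos} (hp : inT h k p) (x : DV) :
    lvl (embT h k s p x) = some (p.1.1, p.2.1) := by
  rw [embT_pos hp]
  rfl

lemma lvl_neg {h k s : ℕ} {p : Pos} (hp : ¬ inT h k p) (x : DV) :
    lvl (embT h k s p x) = none := by
  rw [embT_neg hp]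
  rfl

/-- the target position of a link; `true` = s-parent -/
def tgt (t : Bool) (p : Pos) : Pos := if t then spos p else tpos p

/-- the slot of a link -/
def sl (t : Bool) (p : Pos) : J := if t then slS p else slT p

lemma tgt_ne {h k s : ℕ} (t : Bool) (p : Pos) (hp : inT h k p) (x y : DV) :
    embT h k s p x ≠ embT h k s (tgt t p) y := by
  intro e
  have e' := congrArg lvl e
  rw [lvl_pos hp] at e'
  by_cases hq : inT h k (tgt t p)
  · rw [lvl_pos hq] at e'
    have h1 := Option.some.inj e'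
    cases t
    · have h2 := congrArg Prod.snd h1
      simp only [tgt, tpos, Bool.false_eq_true, if_false] at h2
      omega
    · have h2 := congrArg Prod.fst h1
      simp only [tgt, spos, if_true] at h2
      omega
  · rw [lvl_neg hq] at e'
    exact absurd e' (by simp)

lemma embT_core {h k s : ℕ} {p : Pos} (hp : ¬ inT h k p) (x : DV) :
    ∃ c, embT h k s p x = Sum.inr (Sum.inl c) := ⟨_, embT_neg hp x⟩

/-! ## The core -/

/-- the core -/
noncomputable def core (h k s : ℕ) : Finset (VT h k s) := by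
  classical exact univ.filter (fun v => ∃ c, v = Sum.inr (Sum.inl c))

lemma mem_core {h k s : ℕ} (v : VT h k s) : v ∈ core h k s ↔ ∃ c, v = Sum.inr (Sum.inl c) := by
  classical
  unfold core
  simp

lemma card_core (h k s : ℕ) : NS ≤ (core h k s).card := by
  classical
  have h1 : ((univ : Finset (Fin NS)).map
      ⟨fun u => (spare h k s u), fun _ _ hh => Sum.inr.inj (Sum.inl.inj (Sum.inr.inj hh))⟩).card
      = NS := by
    rw [Finset.card_map, Finset.card_univ, Fintype.card_fin]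
  rw [← h1]
  apply Finset.card_le_card
  intro v hv
  rw [Finset.mem_map] at hv
  obtain ⟨u, -, rfl⟩ := hv
  rw [mem_core]
  exact ⟨_, rfl⟩

/-! ## Adding many edges -/

lemma reach_sup {α V ι : Type*} (F : SimpleGraph α) (G : SimpleGraph V) (a b : ι → V)
    (s : Finset ι) (h : ∀ i ∈ s, ∀ H, G ≤ H → Step F H (H ⊔ SimpleGraph.edge (a i) (b i))) :
    ∃ H, Reach F G H ∧ G ≤ H ∧ (∀ i ∈ s, SimpleGraph.edge (a i) (b i) ≤ H) ∧
      ∀ K, G ≤ K → (∀ i ∈ s, SimpleGraph.edge (a i) (b i) ≤ K) → H ≤ K := by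
  classical
  induction s using Finset.induction_on with
  | empty => exact ⟨G, Relation.ReflTransGen.refl, le_refl _, by simp, fun K hK _ => hK⟩
  | insert i s hi ih =>
    obtain ⟨H, h1, h2, h3, h4⟩ := ih (fun j hj => h j (Finset.mem_insert_of_mem hj))
    refine ⟨H ⊔ SimpleGraph.edge (a i) (b i), h1.tail (h i (Finset.mem_insert_self _ _) H h2),
      h2.trans le_sup_left, ?_, ?_⟩
    · intro j hj
      rcases Finset.mem_insert.1 hj with rfl | hj
      · exact le_sup_right
      · exact (h3 j hj).trans le_sup_left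
    · intro K hK hs
      exact sup_le (h4 K hK (fun j hj => hs j (Finset.mem_insert_of_mem hj)))
        (hs i (Finset.mem_insert_self _ _))

/-! ## Vertices -/

lemma le_sz (c : Cl) : 200000 ≤ sz c := by
  rcases c with _ | _ | j
  · show 200000 ≤ 9999995799790
    norm_num
  · show 200000 ≤ 200000
    exact le_refl _
  · show 200000 ≤ 200001 + code j
    omega

/-- the vertex with number `n` of class `c` -/
def vx (c : Cl) (n : ℕ) (h : n < 200000) : DV := ⟨c, ⟨n, lt_of_lt_of_le h (le_sz c)⟩⟩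

lemma eq_vx {c : Cl} {x : DV} (h : x.1 = c) (n : ℕ) (hn : n < 200000) (h' : x.2.val = n) :
    x = vx c n hn := by
  obtain ⟨c', i⟩ := x
  subst h
  unfold vx
  congr 1
  exact Fin.ext h'

/-- a finite set containing all positions in range -/
def box (h k : ℕ) : Finset Pos :=
  (range (h + 1) ×ˢ range (k * 2 ^ h)) ×ˢ (range (h + 1) ×ˢ range (1 * 2 ^ h))

lemma mem_box {h k : ℕ} {p : Pos} (hp : inT h k p) : p ∈ box h k := by
  obtain ⟨h1, h2, h3, h4⟩ := hp
  simp only [box, Finset.mem_product, Finset.mem_range]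
  refine ⟨⟨by omega, ?_⟩, ⟨by omega, ?_⟩⟩
  · exact lt_of_lt_of_le h2 (Nat.mul_le_mul_left _ (Nat.pow_le_pow_right (by norm_num)
      (Nat.sub_le _ _)))
  · exact lt_of_lt_of_le h4 (Nat.mul_le_mul_left _ (Nat.pow_le_pow_right (by norm_num)
      (Nat.sub_le _ _)))

/-! ## The graphs -/

lemma def_core {h k s : ℕ} {a b} (hab : (Sum.inr (Sum.inl a) : VT h k s) ≠ Sum.inr (Sum.inl b)) :
    (TDef h k s).Adj (Sum.inr (Sum.inl a)) (Sum.inr (Sum.inl b)) := by
  unfold TDef
  rw [SimpleGraph.fromRel_adj]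
  exact ⟨hab, Or.inl (Or.inl ⟨a, b, rfl, rfl⟩)⟩

lemma def_clique {h k s : ℕ} {x y : VT h k s} (hx : x ∈ core h k s) (hy : y ∈ core h k s)
    (hxy : x ≠ y) : (TDef h k s).Adj x y := by
  rw [mem_core] at hx hy
  obtain ⟨a, rfl⟩ := hx
  obtain ⟨b, rfl⟩ := hy
  exact def_core hxy

lemma rel_mono {h k s : ℕ} {a b : VT h k s} (hr : relT h k s False a b) : relT h k s True a b := by
  rcases hr with hr | ⟨p, x, y, h1, h2, h3, h4, h5⟩ | ⟨p, x, y, h1, h2, h3, h4, h5, h6⟩ |
    ⟨p, x, y, h1, h2, h3, h4, h5, h6⟩ | hr | hr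
  · exact Or.inl hr
  · exact Or.inr (Or.inl ⟨p, x, y, h1, h2, h3, h4, Or.inl trivial⟩)
  · exact Or.inr (Or.inr (Or.inl ⟨p, x, y, h1, h2, h3, h4, h5, Or.inl trivial⟩))
  · exact Or.inr (Or.inr (Or.inr (Or.inl ⟨p, x, y, h1, h2, h3, h4, h5, Or.inl trivial⟩)))
  · exact Or.inr (Or.inr (Or.inr (Or.inr (Or.inl hr))))
  · exact Or.inr (Or.inr (Or.inr (Or.inr (Or.inr hr))))

lemma def_le_full (h k s : ℕ) : TDef h k s ≤ TFull h k s := by
  intro a b hab
  unfold TDef at hab
  unfold TFull
  rw [SimpleGraph.fromRel_adj] at hab ⊢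
  exact ⟨hab.1, hab.2.imp rel_mono rel_mono⟩

lemma def_link {h k s : ℕ} (t : Bool) (p : Pos) (hp : inT h k p) (x y : DV)
    (hx : port src x) (hy : port (slot (sl t p)) y) (h0 : ¬ (x.2.val = 0 ∧ y.2.val = 0)) :
    (TDef h k s).Adj (embT h k s p x) (embT h k s (tgt t p) y) := by
  have hne := tgt_ne (s := s) t p hp x y
  unfold TDef
  rw [SimpleGraph.fromRel_adj]
  refine ⟨hne, Or.inl ?_⟩
  cases t
  · exact Or.inr (Or.inr (Or.inr (Or.inl ⟨p, x, y, hp, rfl, rfl, hx, hy, Or.inr h0⟩)))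
  · exact Or.inr (Or.inr (Or.inl ⟨p, x, y, hp, rfl, rfl, hx, hy, Or.inr h0⟩))

lemma full_link {h k s : ℕ} (t : Bool) (p : Pos) (hp : inT h k p) (x y : DV)
    (hx : port src x) (hy : port (slot (sl t p)) y) :
    (TFull h k s).Adj (embT h k s p x) (embT h k s (tgt t p) y) := by
  have hne := tgt_ne (s := s) t p hp x y
  unfold TFull
  rw [SimpleGraph.fromRel_adj]
  refine ⟨hne, Or.inl ?_⟩
  cases t
  · exact Or.inr (Or.inr (Or.inr (Or.inl ⟨p, x, y, hp, rfl, rfl, hx, hy, Or.inl trivial⟩)))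
  · exact Or.inr (Or.inr (Or.inl ⟨p, x, y, hp, rfl, rfl, hx, hy, Or.inl trivial⟩))

lemma full_gad {h k s : ℕ} (p : Pos) (hp : inT h k p) (x y : DV) (hxy : x ≠ y) (hd : dadj x y) :
    (TFull h k s).Adj (embT h k s p x) (embT h k s p y) := by
  have hne : embT h k s p x ≠ embT h k s p y := fun e => hxy (embT_inj p e)
  unfold TFull
  rw [SimpleGraph.fromRel_adj]
  exact ⟨hne, Or.inl (Or.inr (Or.inl ⟨p, x, y, hp, rfl, rfl, hd, Or.inl trivial⟩))⟩

/-- the missing edge of a cell -/
lemma key1 {h k s : ℕ} (H : SimpleGraph (VT h k s)) (hH : TDef h k s ≤ H) (p : Pos)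
    (hp : inT h k p) (x y : DV) (hxy : x ≠ y) (hd : dadj x y) :
    (H ⊔ SimpleGraph.edge (embT h k s p (vx rest 0 (by norm_num)))
      (embT h k s p (vx rest 1 (by norm_num)))).Adj (embT h k s p x) (embT h k s p y) := by
  have hne : embT h k s p x ≠ embT h k s p y := fun e => hxy (embT_inj p e)
  rw [SimpleGraph.sup_adj]
  by_cases hc : x.1 = rest ∧ y.1 = rest ∧ x.2.val < 2 ∧ y.2.val < 2
  · right
    obtain ⟨c1, c2, c3, c4⟩ := hc
    rw [SimpleGraph.edge_adj]
    refine ⟨?_, hne⟩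
    have hx : x = vx rest 0 (by norm_num) ∨ x = vx rest 1 (by norm_num) := by
      have : x.2.val = 0 ∨ x.2.val = 1 := by omega
      rcases this with h | h
      · exact Or.inl (eq_vx c1 0 _ h)
      · exact Or.inr (eq_vx c1 1 _ h)
    have hy : y = vx rest 0 (by norm_num) ∨ y = vx rest 1 (by norm_num) := by
      have : y.2.val = 0 ∨ y.2.val = 1 := by omega
      rcases this with h | h
      · exact Or.inl (eq_vx c2 0 _ h)
      · exact Or.inr (eq_vx c2 1 _ h)
    rcases hx with hx | hx <;> rcases hy with hy | hy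
    · exact absurd (hx.trans hy.symm) hxy
    · left
      rw [hx, hy]
      exact ⟨rfl, rfl⟩
    · right
      rw [hx, hy]
      exact ⟨rfl, rfl⟩
    · exact absurd (hx.trans hy.symm) hxy
  · left
    apply hH
    unfold TDef
    rw [SimpleGraph.fromRel_adj]
    exact ⟨hne, Or.inl (Or.inr (Or.inl ⟨p, x, y, hp, rfl, rfl, hd, Or.inr hc⟩))⟩

/-- the missing edge of a link -/
lemma key2 {h k s : ℕ} (H : SimpleGraph (VT h k s)) (hH : TDef h k s ≤ H) (t : Bool) (p : Pos)
    (hp : inT h k p) (x y : DV) (hx : port src x) (hy : port (slot (sl t p)) y) :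
    (H ⊔ SimpleGraph.edge (embT h k s p (vx src 0 (by norm_num)))
      (embT h k s (tgt t p) (vx (slot (sl t p)) 0 (by norm_num)))).Adj
      (embT h k s p x) (embT h k s (tgt t p) y) := by
  have hne := tgt_ne (s := s) t p hp x y
  rw [SimpleGraph.sup_adj]
  by_cases h0 : x.2.val = 0 ∧ y.2.val = 0
  · right
    rw [SimpleGraph.edge_adj]
    refine ⟨Or.inl ?_, hne⟩
    have e1 : x = vx src 0 (by norm_num) := eq_vx hx.1 0 _ h0.1
    have e2 : y = vx (slot (sl t p)) 0 (by norm_num) := eq_vx hy.1 0 _ h0.2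
    rw [← e1, ← e2]
    exact ⟨rfl, rfl⟩
  · left
    exact hH (def_link t p hp x y hx hy h0)

lemma edge_le_of_adj {V : Type*} {K : SimpleGraph V} {a b : V} (h : K.Adj a b) :
    SimpleGraph.edge a b ≤ K := by
  intro u v huv
  rw [SimpleGraph.edge_adj] at huv
  rcases huv.1 with ⟨rfl, rfl⟩ | ⟨rfl, rfl⟩
  · exact h
  · exact h.symm

lemma phase1a (hF : S_fillGadget) (h k s : ℕ) :
    ∃ H, Reach FF (TDef h k s) H ∧ TDef h k s ≤ H ∧ H ≤ TFull h k s ∧
      ∀ p x y, x ≠ y → dadj x y → H.Adj (embT h k s p x) (embT h k s p y) := by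
  classical
  obtain ⟨H, h1, h2, h3, h4⟩ := reach_sup FF (TDef h k s)
    (fun p => embT h k s p (vx rest 0 (by norm_num)))
    (fun p => embT h k s p (vx rest 1 (by norm_num)))
    ((box h k).filter (fun p => inT h k p)) (by
      intro p hp H hH
      have hp' := (Finset.mem_filter.1 hp).2
      refine hF (VT h k s) H (core h k s) ?_ (card_core h k s) (embT h k s p) (embT_inj p)
        (vx rest 0 (by norm_num)) (vx rest 1 (by norm_num)) ?_ (fun _ => rfl) ?_
      · intro x hx y hy hxy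
        exact hH (def_clique hx hy hxy)
      · intro e
        unfold vx at e
        simp at e
      · intro x y hxy hd
        exact key1 H hH p hp' x y hxy hd)
  refine ⟨H, h1, h2, ?_, ?_⟩
  · apply h4 _ (def_le_full h k s)
    intro p hp
    have hp' := (Finset.mem_filter.1 hp).2
    apply edge_le_of_adj
    apply full_gad p hp'
    · intro e
      unfold vx at e
      simp at e
    · exact fun _ => rfl
  · intro p x y hxy hd
    by_cases hp : inT h k p
    · have hm : p ∈ (box h k).filter (fun p => inT h k p) :=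
        Finset.mem_filter.2 ⟨mem_box hp, hp⟩
      have := key1 H h2 p hp x y hxy hd
      rw [sup_eq_left.2 (h3 p hm)] at this
      exact this
    · have hne : embT h k s p x ≠ embT h k s p y := fun e => hxy (embT_inj p e)
      apply h2
      apply def_clique _ _ hne
      · rw [mem_core]
        exact embT_core hp x
      · rw [mem_core]
        exact embT_core hp y

lemma phase1b (hG : S_fillLink) (h k s : ℕ) (H1 : SimpleGraph (VT h k s)) (hd : TDef h k s ≤ H1)
    (hu : H1 ≤ TFull h k s)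
    (hc : ∀ p x y, x ≠ y → dadj x y → H1.Adj (embT h k s p x) (embT h k s p y)) :
    ∃ H, Reach FF H1 H ∧ H1 ≤ H ∧ H ≤ TFull h k s ∧
      ∀ t p, inT h k p → ∀ x y, port src x → port (slot (sl t p)) y →
        H.Adj (embT h k s p x) (embT h k s (tgt t p) y) := by
  classical
  obtain ⟨H, h1, h2, h3, h4⟩ := reach_sup FF H1
    (fun q : Bool × Pos => embT h k s q.2 (vx src 0 (by norm_num)))
    (fun q : Bool × Pos => embT h k s (tgt q.1 q.2) (vx (slot (sl q.1 q.2)) 0 (by norm_num)))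
    (((univ : Finset Bool) ×ˢ box h k).filter (fun q => inT h k q.2)) (by
      rintro ⟨t, p⟩ hp H hH
      have hp' := (Finset.mem_filter.1 hp).2
      simp only at hp'
      refine hG (VT h k s) H (core h k s) ?_ (card_core h k s) (sl t p) (embT h k s p)
        (embT h k s (tgt t p)) (embT_inj _) (embT_inj _) (tgt_ne t p hp')
        (fun x y h h' => hH (hc p x y h h')) (fun x y h h' => hH (hc (tgt t p) x y h h'))
        (vx src 0 (by norm_num)) (vx (slot (sl t p)) 0 (by norm_num)) ?_ ?_ ?_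
      · intro x hx y hy hxy
        exact hH (hd (def_clique hx hy hxy))
      · exact ⟨rfl, by show (0 : ℕ) < 201; norm_num⟩
      · exact ⟨rfl, by show (0 : ℕ) < 201; norm_num⟩
      · intro x y hx hy
        exact key2 H (hd.trans hH) t p hp' x y hx hy)
  refine ⟨H, h1, h2, ?_, ?_⟩
  · apply h4 _ hu
    rintro ⟨t, p⟩ hp
    have hp' := (Finset.mem_filter.1 hp).2
    simp only at hp'
    apply edge_le_of_adj
    apply full_link t p hp'
    · exact ⟨rfl, by show (0 : ℕ) < 201; norm_num⟩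
    · exact ⟨rfl, by show (0 : ℕ) < 201; norm_num⟩
  · intro t p hp x y hx hy
    have hm : ((t, p) : Bool × Pos) ∈
        ((univ : Finset Bool) ×ˢ box h k).filter (fun q => inT h k q.2) := by
      rw [Finset.mem_filter, Finset.mem_product]
      exact ⟨⟨Finset.mem_univ _, mem_box hp⟩, hp⟩
    have := key2 H (hd.trans h2) t p hp x y hx hy
    rw [sup_eq_left.2 (h3 _ hm)] at this
    exact this

end Pool.Agent.H57.Irr.TreeA

namespace Pool.Agent.H57.Irr

theorem treeA : S_tree1 := by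
  intro hF hG h k s
  obtain ⟨H1, r1, l1, u1, c1⟩ := TreeA.phase1a hF h k s
  obtain ⟨H2, r2, l2, u2, c2⟩ := TreeA.phase1b hG h k s H1 l1 u1 c1
  have hrel : ∀ a b, a ≠ b → relT h k s True a b → H2.Adj a b := by
    intro a b hab hr
    have hD : ∀ a b : VT h k s, a ≠ b → relT h k s False a b → H2.Adj a b := by
      intro a b hab hr
      apply l2
      apply l1
      unfold TDef
      rw [SimpleGraph.fromRel_adj]
      exact ⟨hab, Or.inl hr⟩
    rcases hr with hr | ⟨p, x, y, hp, rfl, rfl, h4, h5⟩ | ⟨p, x, y, hp, rfl, rfl, hx, hy, h6⟩ |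
      ⟨p, x, y, hp, rfl, rfl, hx, hy, h6⟩ | hr | hr
    · exact hD a b hab (Or.inl hr)
    · exact l2 (c1 p x y (fun e => hab (by rw [e])) h4)
    · exact c2 true p hp x y hx hy
    · exact c2 false p hp x y hx hy
    · exact hD a b hab (Or.inr (Or.inr (Or.inr (Or.inr (Or.inl hr)))))
    · exact hD a b hab (Or.inr (Or.inr (Or.inr (Or.inr (Or.inr hr)))))
  have : H2 = TFull h k s := by
    apply le_antisymm u2
    intro a b hab
    unfold TFull at hab
    rw [SimpleGraph.fromRel_adj] at hab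
    obtain ⟨hne, h | h⟩ := hab
    · exact hrel a b hne h
    · exact (hrel b a hne.symm h).symm
  rw [← this]
  exact r1.trans r2

end Pool.Agent.H57.Irr
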