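import Pool.Agent.H57.Irr.Spec

set_option autoImplicit false

namespace Pool.Agent.H57.Irr

namespace TreeCount

open Finset Function

lemma sz_slot (j : J) : sz (slot j) = 200001 + code j := rfl

lemma sz_src : sz src = 200000 := rfl

lemma sz_rest : sz rest = 9999995799790 := rfl

lemma sum_sz' (f : Cl → ℕ) : ∑ c : Cl, f c = f rest + (f src + ∑ j : J, f (slot j)) := by
  rw [Fintype.sum_option, Fintype.sum_option]

lemma card_DV' : Fintype.card DV = ∑ c : Cl, sz c := by
  rw [Fintype.card_sigma]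
  exact Finset.sum_congr rfl fun c _ => Fintype.card_fin _

lemma sum_slots : ∑ j : J, sz (slot j) = 4000210 := by
  have h : ∀ j : J, sz (slot j) = 200001 + code j := sz_slot
  rw [Finset.sum_congr rfl fun j _ => h j, Finset.sum_add_distrib]
  have h1 : ∑ j : J, code j = 190 := by decide
  rw [h1]
  simp

lemma card_DV : Fintype.card DV = 10000000000000 := by
  rw [card_DV', sum_sz', sum_slots, sz_rest, sz_src]

lemma sum_low : ∑ j : J, sz (slot j) * (10000000000000 - sz (slot j)) =
    40002099199915997130 := by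
  have h : ∀ j : J, sz (slot j) * (10000000000000 - sz (slot j)) =
      (200001 + code j) * (10000000000000 - (200001 + code j)) := fun j => by rw [sz_slot]
  rw [Finset.sum_congr rfl fun j _ => h j]
  simp only [Fintype.sum_prod_type, Fin.sum_univ_two, Fin.sum_univ_five, code]
  norm_num

/-- the deficient gadget -/
def DD : SimpleGraph DV := SimpleGraph.fromRel (fun x y => dadj x y ∧
    ¬ (x.1 = rest ∧ y.1 = rest ∧ x.2.val < 2 ∧ y.2.val < 2))

open scoped Classical in
lemma card_class (c : Cl) : (univ.filter (fun y : DV => y.1 = c)).card = sz c := by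
  have : univ.filter (fun y : DV => y.1 = c) =
      (univ : Finset (Fin (sz c))).map ⟨fun i => (⟨c, i⟩ : DV), fun i j h => by
        simpa using h⟩ := by
    ext ⟨a, b⟩
    simp only [mem_filter, mem_univ, true_and, mem_map, Embedding.coeFn_mk]
    constructor
    · rintro rfl
      exact ⟨b, rfl⟩
    · rintro ⟨i, hi⟩
      exact (congrArg Sigma.fst hi).symm
  rw [this, card_map, card_univ, Fintype.card_fin]

open scoped Classical in
lemma card_not_class (c : Cl) :
    (univ.filter (fun y : DV => ¬ y.1 = c)).card + sz c = 10000000000000 := by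
  rw [← card_class c, ← card_DV, ← card_univ, add_comm]
  exact card_filter_add_card_filter_not _

open scoped Classical in
lemma deg_low (c : Cl) (hc : c ≠ rest) (i : Fin (sz c)) :
    DD.degree ⟨c, i⟩ + sz c ≤ 10000000000000 := by
  have h1 := card_not_class c
  have h2 : DD.degree ⟨c, i⟩ ≤ (univ.filter (fun y : DV => ¬ y.1 = c)).card := by
    rw [← SimpleGraph.card_neighborFinset_eq_degree]
    apply card_le_card
    intro y hy
    rw [SimpleGraph.mem_neighborFinset] at hy
    simp only [mem_filter, mem_univ, true_and]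
    intro h
    unfold DD at hy
    rw [SimpleGraph.fromRel_adj] at hy
    rcases hy.2 with ⟨h1, _⟩ | ⟨h1, _⟩
    · exact hc (h1 h.symm)
    · exact hc (h ▸ h1 h)
  exact (Nat.add_le_add_right h2 _).trans h1.le

open scoped Classical in
lemma deg_high (x : DV) : DD.degree x + 1 ≤ 10000000000000 := by
  have h := DD.degree_lt_card_verts x
  rw [card_DV] at h
  exact h

open scoped Classical in
lemma deg_special (x x' : DV) (hx : x.1 = rest) (hx' : x'.1 = rest) (hi : x.2.val < 2)
    (hi' : x'.2.val < 2) (hne : x ≠ x') : DD.degree x + 2 ≤ 10000000000000 := by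
  have h2 : DD.degree x ≤ ((univ.erase x).erase x').card := by
    rw [← SimpleGraph.card_neighborFinset_eq_degree]
    apply card_le_card
    intro y hy
    rw [SimpleGraph.mem_neighborFinset] at hy
    rw [mem_erase, mem_erase]
    refine ⟨?_, hy.ne', mem_univ _⟩
    rintro rfl
    unfold DD at hy
    rw [SimpleGraph.fromRel_adj] at hy
    rcases hy.2 with ⟨_, h1⟩ | ⟨_, h1⟩
    · exact h1 ⟨hx, hx', hi, hi'⟩
    · exact h1 ⟨hx', hx, hi', hi⟩
  have hm : x' ∈ univ.erase x := by
    rw [mem_erase]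
    exact ⟨hne.symm, mem_univ _⟩
  have h4 : (univ.erase x).card + 1 = 10000000000000 := by
    rw [card_erase_add_one (mem_univ _)]
    exact card_DV
  have h5 := card_erase_add_one hm
  omega

open scoped Classical in
/-- the degree in the deficient gadget -/
noncomputable def dg (v : DV) : ℕ := DD.degree v

open scoped Classical in
lemma dg_sum : ∑ v, dg v = 2 * DD.edgeFinset.card := by
  exact DD.sum_degrees_eq_twice_card_edges

lemma dg_low (c : Cl) (hc : c ≠ rest) (i : Fin (sz c)) :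
    dg ⟨c, i⟩ + sz c ≤ 10000000000000 := deg_low c hc i

lemma dg_high (x : DV) : dg x + 1 ≤ 10000000000000 := deg_high x

lemma dg_special (x x' : DV) (hx : x.1 = rest) (hx' : x'.1 = rest) (hi : x.2.val < 2)
    (hi' : x'.2.val < 2) (hne : x ≠ x') : dg x + 2 ≤ 10000000000000 :=
  deg_special x x' hx hx' hi hi' hne

lemma sum_two {n : ℕ} (f : Fin n → ℕ) (M : ℕ) (i j : Fin n) (hij : i ≠ j) (hi : f i + 2 ≤ M)
    (hj : f j + 2 ≤ M) (h : ∀ x, f x + 1 ≤ M) : ∑ x, f x + n + 2 ≤ n * M := by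
  have h1 : ∑ x, (f x + 1 + (if x = i then 1 else 0) + (if x = j then 1 else 0)) ≤ ∑ x : Fin n, M := by
    apply Finset.sum_le_sum
    intro x _
    by_cases h2 : x = i
    · subst h2
      rw [if_pos rfl, if_neg hij]
      omega
    · rw [if_neg h2]
      by_cases h3 : x = j
      · subst h3
        rw [if_pos rfl]
        omega
      · rw [if_neg h3]
        have := h x
        omega
  rw [Finset.sum_add_distrib, Finset.sum_add_distrib, Finset.sum_add_distrib,
    Finset.sum_ite_eq' univ i, Finset.sum_ite_eq' univ j, if_pos (mem_univ _), if_pos (mem_univ _),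
    Finset.sum_const, Finset.sum_const, card_univ, Fintype.card_fin, smul_eq_mul, smul_eq_mul,
    mul_one] at h1
  omega

/-- sum of the degrees in a class -/
noncomputable def sdg (c : Cl) : ℕ := ∑ i : Fin (sz c), dg ⟨c, i⟩

lemma sdg_low (c : Cl) (n : ℕ) (hn : sz c = n) (hc : c ≠ rest) :
    sdg c ≤ n * (10000000000000 - n) := by
  subst hn
  unfold sdg
  calc ∑ i : Fin (sz c), dg ⟨c, i⟩ ≤ ∑ i : Fin (sz c), (10000000000000 - sz c) :=
        sum_le_sum fun i _ => by
          have := dg_low c hc i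
          omega
    _ = _ := by rw [sum_const, card_univ, Fintype.card_fin, smul_eq_mul]

lemma sdg_rest (c : Cl) (n : ℕ) (hn : sz c = n) (hc : c = rest) (h2 : 2 ≤ n) :
    sdg c + n + 2 ≤ n * 10000000000000 := by
  subst hn
  have hne : (⟨0, by omega⟩ : Fin (sz c)) ≠ ⟨1, by omega⟩ := by
    intro h
    exact absurd (congrArg Fin.val h) (by norm_num)
  have hne' : (⟨c, ⟨0, by omega⟩⟩ : DV) ≠ ⟨c, ⟨1, by omega⟩⟩ := by
    intro h
    rw [Sigma.mk.injEq] at h
    exact hne (eq_of_heq h.2)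
  apply sum_two (fun i : Fin (sz c) => dg ⟨c, i⟩) 10000000000000 ⟨0, by omega⟩
    ⟨1, by omega⟩ hne
  · exact dg_special ⟨c, ⟨0, by omega⟩⟩ ⟨c, ⟨1, by omega⟩⟩ hc hc (by norm_num) (by norm_num) hne'
  · exact dg_special ⟨c, ⟨1, by omega⟩⟩ ⟨c, ⟨0, by omega⟩⟩ hc hc (by norm_num) (by norm_num)
      hne'.symm
  · exact fun x => dg_high _

lemma dg_sum' : ∑ v, dg v = ∑ c, sdg c := Fintype.sum_sigma _

lemma arithDD (A B D E : ℕ) (h : D + (B + A) = 2 * E)
    (h0 : D + 9999995799790 + 2 ≤ 9999995799790 * 10000000000000)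
    (h1 : B ≤ 200000 * (10000000000000 - 200000)) (h2 : A ≤ 40002099199915997130) :
    E ≤ 49999999999994579960098669 := by
  omega

open scoped Classical in
lemma card_DD : DD.edgeFinset.card ≤ 49999999999994579960098669 := by
  have h2 : ∑ j : J, sdg (slot j) ≤ ∑ j : J, sz (slot j) * (10000000000000 - sz (slot j)) :=
    Finset.sum_le_sum fun j _ => sdg_low (slot j) _ rfl (by intro h; cases h)
  exact arithDD _ _ _ _ ((sum_sz' sdg).symm.trans (dg_sum'.symm.trans dg_sum))
    (sdg_rest rest 9999995799790 sz_rest rfl (by norm_num))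
    (sdg_low src 200000 sz_src (by intro h; cases h)) (h2.trans sum_low.le)

/-- core vertex type -/
abbrev Core := ((Fin 2 × Fin 2) × DV) ⊕ Fin NS

lemma ncard_range_le' {α β : Type*} [Finite α] (f : α → β) :
    (Set.range f).ncard ≤ Nat.card α := by
  rw [← Set.image_univ]
  exact (Set.ncard_image_le Set.finite_univ).trans (Set.ncard_univ α).le

/-- the position of a cell -/
def pos {h k : ℕ} (c : CellT h k) : Pos := ((c.1.1.val, c.1.2.val), (c.2.1.val, c.2.2.val))

lemma exists_cell {h k : ℕ} {p : Pos} (hp : inT h k p) : ∃ c : CellT h k, pos c = p :=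
  ⟨(⟨⟨p.1.1, Nat.lt_succ_of_le hp.1⟩, ⟨p.1.2, hp.2.1⟩⟩,
      ⟨⟨p.2.1, Nat.lt_succ_of_le hp.2.2.1⟩, ⟨p.2.2, hp.2.2.2⟩⟩), rfl⟩

lemma sz_ge (c : Cl) : 201 ≤ sz c := by
  rcases c with _ | _ | j
  · rw [sz_rest]; norm_num
  · rw [sz_src]; norm_num
  · rw [sz_slot]; omega

/-- vertex of a port -/
def pv (c : Cl) (i : Fin 201) : DV := ⟨c, ⟨i.val, lt_of_lt_of_le i.isLt (sz_ge c)⟩⟩

lemma port_pv {c : Cl} {x : DV} (h : port c x) : ∃ i : Fin 201, x = pv c i ∧ i.val = x.2.val := by
  obtain ⟨a, b⟩ := x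
  obtain ⟨h1, h2⟩ := h
  simp only at h1 h2
  subst h1
  exact ⟨⟨b.val, h2⟩, rfl, rfl⟩

/-- index pairs of a deficient link -/
abbrev Prs := {q : Fin 201 × Fin 201 // q ≠ (0, 0)}

lemma card_prs : Nat.card Prs = 40400 := by
  rw [Nat.card_eq_fintype_card, Fintype.card_subtype_compl, Fintype.card_subtype_eq,
    Fintype.card_prod, Fintype.card_fin]

/-- number of prepaid edges in a state -/
def hst (σ : St) : ℕ := (if sk σ then 0 else 80400) + (if tk σ then 0 else 80400) +
  (if bit σ then 0 else 1)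

lemma hst_le (σ : St) : hst σ ≤ NS := by
  have h : 160801 ≤ NS := by unfold NS; norm_num
  have : hst σ ≤ 160801 := by
    unfold hst
    split_ifs <;> norm_num
  omega

lemma NS_ge : 6000000000000 ≤ NS := by unfold NS; norm_num

/-- the first vertex of the rest class -/
def r0 : DV := pv rest 0

/-- edges inside the core -/
def fA (h k n : ℕ) (q : Core × Core) : Sym2 (VT h k n) :=
  s(Sum.inr (Sum.inl q.1), Sum.inr (Sum.inl q.2))

/-- edges inside the cells -/
def fB (h k n : ℕ) (q : CellT h k × DD.edgeSet) : Sym2 (VT h k n) :=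
  Sym2.map (embT h k n (pos q.1)) q.2.val

/-- edges of s-links -/
def fC (h k n : ℕ) (q : CellT h k × Prs) : Sym2 (VT h k n) :=
  s(embT h k n (pos q.1) (pv src q.2.val.1),
    embT h k n (spos (pos q.1)) (pv (slot (slS (pos q.1))) q.2.val.2))

/-- edges of t-links -/
def fD (h k n : ℕ) (q : CellT h k × Prs) : Sym2 (VT h k n) :=
  s(embT h k n (pos q.1) (pv src q.2.val.1),
    embT h k n (tpos (pos q.1)) (pv (slot (slT (pos q.1))) q.2.val.2))

/-- prepaid edges -/
def fE (h k n : ℕ) (q : (c : CellT h k) × Fin (hst (stt c.1.1.val c.2.1.val))) :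
    Sym2 (VT h k n) :=
  s(embT h k n (pos q.1) r0, spare h k n ⟨q.2.val, lt_of_lt_of_le q.2.isLt (hst_le _)⟩)

/-- edges of the extra vertices -/
def fG (h k n : ℕ) (q : Fin n × Fin 6000000000000) : Sym2 (VT h k n) :=
  s(Sum.inr (Sum.inr q.1), spare h k n ⟨q.2.val, lt_of_lt_of_le q.2.isLt NS_ge⟩)

lemma rel_mem_big (h k n : ℕ) (a b : VT h k n) (hne : a ≠ b) (hr : relT h k n False a b) :
    s(a, b) ∈ Set.range (fA h k n) ∪ Set.range (fB h k n) ∪ Set.range (fC h k n) ∪
      Set.range (fD h k n) ∪ Set.range (fE h k n) ∪ Set.range (fG h k n) := by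
  rcases hr with ⟨a', b', rfl, rfl⟩ | ⟨p, x, y, hp, rfl, rfl, h1, h2⟩ |
    ⟨p, x, y, hp, rfl, rfl, hx, hy, hn⟩ | ⟨p, x, y, hp, rfl, rfl, hx, hy, hn⟩ |
    ⟨p, x, u, r, hp, hr, rfl, rfl, hx1, hx2, hu⟩ | ⟨c, u, rfl, rfl, hu⟩
  · left; left; left; left; left
    exact ⟨(a', b'), rfl⟩
  · left; left; left; left; right
    obtain ⟨c, rfl⟩ := exists_cell hp
    refine ⟨(c, ⟨s(x, y), ?_⟩), rfl⟩
    rw [SimpleGraph.mem_edgeSet]
    unfold DD
    rw [SimpleGraph.fromRel_adj]
    exact ⟨fun e => hne (by rw [e]), Or.inl ⟨h1, h2.resolve_left id⟩⟩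
  · left; left; left; right
    obtain ⟨c, rfl⟩ := exists_cell hp
    obtain ⟨i, rfl, hi⟩ := port_pv hx
    obtain ⟨j, rfl, hj⟩ := port_pv hy
    refine ⟨(c, ⟨(i, j), ?_⟩), rfl⟩
    intro h
    apply hn.resolve_left id
    have h1 : i = 0 := congrArg Prod.fst h
    have h2 : j = 0 := congrArg Prod.snd h
    rw [← hi, ← hj, h1, h2]
    exact ⟨rfl, rfl⟩
  · left; left; right
    obtain ⟨c, rfl⟩ := exists_cell hp
    obtain ⟨i, rfl, hi⟩ := port_pv hx
    obtain ⟨j, rfl, hj⟩ := port_pv hy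
    refine ⟨(c, ⟨(i, j), ?_⟩), rfl⟩
    intro h
    apply hn.resolve_left id
    have h1 : i = 0 := congrArg Prod.fst h
    have h2 : j = 0 := congrArg Prod.snd h
    rw [← hi, ← hj, h1, h2]
    exact ⟨rfl, rfl⟩
  · left; right
    obtain ⟨c, rfl⟩ := exists_cell hp
    have hh1 : hh r = hst (stt c.1.1.val c.2.1.val) := by
      have : own r = stt c.1.1.val c.2.1.val := by
        unfold own
        rw [hr]
        rfl
      unfold hh hst
      rw [this]
    rw [hh1] at hu
    refine ⟨⟨c, ⟨u.val, hu⟩⟩, ?_⟩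
    have hx : x = r0 := by
      obtain ⟨i, hi1, hi2⟩ := port_pv (c := rest) (x := x) ⟨hx1, by rw [hx2]; norm_num⟩
      rw [hi1]
      have : i = 0 := by
        apply Fin.ext
        rw [hi2, hx2]
        rfl
      rw [this]
      rfl
    rw [hx]
    rfl
  · right
    exact ⟨(c, ⟨u.val, hu⟩), rfl⟩

lemma edges_sub (h k n : ℕ) : (TDef h k n).edgeSet ⊆
    Set.range (fA h k n) ∪ Set.range (fB h k n) ∪ Set.range (fC h k n) ∪
      Set.range (fD h k n) ∪ Set.range (fE h k n) ∪ Set.range (fG h k n) := by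
  intro e he
  induction e with
  | _ a b =>
    rw [SimpleGraph.mem_edgeSet] at he
    unfold TDef at he
    rw [SimpleGraph.fromRel_adj] at he
    rcases he.2 with h1 | h1
    · exact rel_mem_big h k n a b he.1 h1
    · rw [Sym2.eq_swap]
      exact rel_mem_big h k n b a he.1.symm h1

lemma card_DDe : Nat.card DD.edgeSet ≤ 49999999999994579960098669 := by
  classical
  have h := card_DD
  rw [← Set.ncard_coe_finset, SimpleGraph.coe_edgeFinset] at h
  exact h

/-- number of cells -/
noncomputable def NC (h k : ℕ) : ℕ := Nat.card (CellT h k)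

/-- number of core vertices -/
noncomputable def core : ℕ := Nat.card Core

/-- number of prepaid edges -/
noncomputable def NE (h k : ℕ) : ℕ := Nat.card ((c : CellT h k) × Fin (hst (stt c.1.1.val c.2.1.val)))

lemma ncard_le (h k n : ℕ) : (TDef h k n).edgeSet.ncard ≤ core * core +
    NC h k * 49999999999994579960098669 + NC h k * 40400 + NC h k * 40400 + NE h k +
    n * 6000000000000 := by
  refine (Set.ncard_le_ncard (edges_sub h k n) (Set.toFinite _)).trans ?_
  refine (Set.ncard_union_le _ _).trans (Nat.add_le_add ?_ ?_)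
  · refine (Set.ncard_union_le _ _).trans (Nat.add_le_add ?_ (ncard_range_le' _))
    refine (Set.ncard_union_le _ _).trans (Nat.add_le_add ?_ ?_)
    · refine (Set.ncard_union_le _ _).trans (Nat.add_le_add ?_ ?_)
      · refine (Set.ncard_union_le _ _).trans (Nat.add_le_add ?_ ?_)
        · refine (ncard_range_le' _).trans (le_of_eq ?_)
          rw [Nat.card_prod]
          rfl
        · refine (ncard_range_le' _).trans ?_
          rw [Nat.card_prod]
          exact Nat.mul_le_mul_left _ card_DDe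
      · refine (ncard_range_le' _).trans (le_of_eq ?_)
        rw [Nat.card_prod, card_prs]
        rfl
    · refine (ncard_range_le' _).trans (le_of_eq ?_)
      rw [Nat.card_prod, card_prs]
      rfl
  · refine (ncard_range_le' _).trans (le_of_eq ?_)
    rw [Nat.card_prod, Nat.card_fin, Nat.card_fin]

lemma sum_pow (h : ℕ) : ∑ i ∈ range (h + 1), (2 : ℝ) ^ (h - i) = 2 ^ (h + 1) - 1 := by
  have h1 := Finset.sum_range_reflect (fun i => (2 : ℝ) ^ i) (h + 1)
  rw [geom_sum_eq (by norm_num)] at h1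
  have h2 : ∑ i ∈ range (h + 1), (2 : ℝ) ^ (h - i) =
      ∑ i ∈ range (h + 1), (2 : ℝ) ^ (h + 1 - 1 - i) := by
    simp
  rw [h2, h1]
  norm_num

lemma sum_vb (h : ℕ) : ∑ i ∈ range (h + 1), ∑ j ∈ range (h + 1),
    (2 : ℝ) ^ (h - i) * 2 ^ (h - j) * (if vb i j then 1 else 0) = 4 ^ h * vthP h := by
  unfold vthP
  rw [Finset.mul_sum]
  refine Finset.sum_congr rfl fun i hi => ?_
  rw [Finset.mul_sum]
  refine Finset.sum_congr rfl fun j hj => ?_
  rw [Finset.mem_range] at hi hj
  split_ifs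
  · have h1 : (4 : ℝ) ^ h = 2 ^ h * 2 ^ h := by
      rw [← mul_pow]; norm_num
    have h2 : (2 : ℝ) ^ h = 2 ^ (h - i) * 2 ^ i := by
      rw [← pow_add]; congr 1; omega
    have h3 : (2 : ℝ) ^ h = 2 ^ (h - j) * 2 ^ j := by
      rw [← pow_add]; congr 1; omega
    have h4 : (2 : ℝ) ^ h * 2 ^ h = (2 ^ (h - i) * 2 ^ i) * (2 ^ (h - j) * 2 ^ j) := by
      rw [← h2, ← h3]
    rw [h1, h4, one_div, inv_pow, pow_add]
    field_simp
  · simp

lemma sum_real (h : ℕ) : ∑ i ∈ range (h + 1), ∑ j ∈ range (h + 1),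
    (2 : ℝ) ^ (h - i) * 2 ^ (h - j) * ((if i = 0 then 80400 else 0) +
      (if j = 0 then 80400 else 0) + 1 - (if vb i j then 1 else 0)) =
    2 * (80400 * 2 ^ h * (2 ^ (h + 1) - 1)) + (2 ^ (h + 1) - 1) ^ 2 - 4 ^ h * vthP h := by
  rw [← sum_vb]
  have h1 : ∀ i ∈ range (h + 1), ∑ j ∈ range (h + 1),
      (2 : ℝ) ^ (h - i) * 2 ^ (h - j) * ((if i = 0 then 80400 else 0) +
      (if j = 0 then 80400 else 0) + 1 - (if vb i j then 1 else 0)) =
      (if i = 0 then 80400 * 2 ^ h * (2 ^ (h + 1) - 1) else 0) +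
      2 ^ (h - i) * (80400 * 2 ^ h) + 2 ^ (h - i) * (2 ^ (h + 1) - 1) -
      ∑ j ∈ range (h + 1), (2 : ℝ) ^ (h - i) * 2 ^ (h - j) * (if vb i j then 1 else 0) := by
    intro i hi
    have e1 : ∀ j ∈ range (h + 1), (2 : ℝ) ^ (h - i) * 2 ^ (h - j) *
        ((if i = 0 then 80400 else 0) +
        (if j = 0 then 80400 else 0) + 1 - (if vb i j then 1 else 0)) =
        (2 : ℝ) ^ (h - i) * (if i = 0 then 80400 else 0) * 2 ^ (h - j) +
        (if j = 0 then 2 ^ (h - i) * (80400 * 2 ^ h) else 0) + 2 ^ (h - i) * 2 ^ (h - j) -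
        (2 : ℝ) ^ (h - i) * 2 ^ (h - j) * (if vb i j then 1 else 0) := by
      intro j hj
      by_cases hj0 : j = 0
      · subst hj0
        rw [if_pos rfl, if_pos rfl, Nat.sub_zero]
        ring
      · rw [if_neg hj0, if_neg hj0]
        ring
    rw [Finset.sum_congr rfl e1, Finset.sum_sub_distrib, Finset.sum_add_distrib,
      Finset.sum_add_distrib, ← Finset.mul_sum, ← Finset.mul_sum, sum_pow,
      Finset.sum_ite_eq' (range (h + 1)) 0, if_pos (Finset.mem_range.2 (Nat.succ_pos h))]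
    by_cases hi0 : i = 0
    · subst hi0
      rw [if_pos rfl, if_pos rfl, Nat.sub_zero]
      ring
    · rw [if_neg hi0, if_neg hi0]
      ring
  rw [Finset.sum_congr rfl h1, Finset.sum_sub_distrib, Finset.sum_add_distrib,
    Finset.sum_add_distrib, ← Finset.sum_mul, ← Finset.sum_mul, sum_pow,
    Finset.sum_ite_eq' (range (h + 1)) 0, if_pos (Finset.mem_range.2 (Nat.succ_pos h))]
  ring

lemma sum_cells (h k : ℕ) (g : ℕ → ℕ → ℕ) :
    ((∑ c : CellT h k, g c.1.1.val c.2.1.val : ℕ) : ℝ) =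
      k * ∑ i ∈ range (h + 1), ∑ j ∈ range (h + 1), (2 : ℝ) ^ (h - i) * 2 ^ (h - j) * g i j := by
  rw [Fintype.sum_prod_type, Fintype.sum_sigma]
  have h1 : ∀ i : Fin (h + 1), ∑ q : Fin (k * 2 ^ (h - i.val)),
      ∑ c : SC h 1, g ((⟨i, q⟩ : SC h k)).1.val c.1.val =
      k * 2 ^ (h - i.val) * ∑ j ∈ range (h + 1), 2 ^ (h - j) * g i.val j := by
    intro i
    have h0 : ∑ q : Fin (k * 2 ^ (h - i.val)),
      ∑ c : SC h 1, g ((⟨i, q⟩ : SC h k)).1.val c.1.val =
      ∑ q : Fin (k * 2 ^ (h - i.val)), ∑ c : SC h 1, g i.val c.1.val := rfl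
    rw [h0, Finset.sum_const, card_univ, Fintype.card_fin, smul_eq_mul]
    congr 1
    rw [Fintype.sum_sigma]
    have h2 : ∀ j : Fin (h + 1), ∑ r : Fin (1 * 2 ^ (h - j.val)),
        g i.val ((⟨j, r⟩ : SC h 1)).1.val = 2 ^ (h - j.val) * g i.val j.val := by
      intro j
      have h0 : ∑ r : Fin (1 * 2 ^ (h - j.val)), g i.val ((⟨j, r⟩ : SC h 1)).1.val =
        ∑ r : Fin (1 * 2 ^ (h - j.val)), g i.val j.val := rfl
      rw [h0, Finset.sum_const, card_univ, Fintype.card_fin, smul_eq_mul, one_mul]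
    rw [Finset.sum_congr rfl fun j _ => h2 j]
    exact Fin.sum_univ_eq_sum_range (fun j => 2 ^ (h - j) * g i.val j) (h + 1)
  rw [Finset.sum_congr rfl fun i _ => h1 i,
    Fin.sum_univ_eq_sum_range (fun i => k * 2 ^ (h - i) * ∑ j ∈ range (h + 1),
      2 ^ (h - j) * g i j) (h + 1)]
  push_cast
  rw [Finset.mul_sum]
  refine Finset.sum_congr rfl fun i _ => ?_
  rw [mul_assoc, Finset.mul_sum]
  congr 1
  refine Finset.sum_congr rfl fun j _ => ?_
  ring

lemma NC_real (h k : ℕ) : (NC h k : ℝ) = k * (2 ^ (h + 1) - 1) ^ 2 := by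
  have h1 := sum_cells h k (fun _ _ => 1)
  have h2 : ∑ c : CellT h k, (fun _ _ => 1 : ℕ → ℕ → ℕ) c.1.1.val c.2.1.val = NC h k := by
    unfold NC
    rw [Nat.card_eq_fintype_card, Finset.sum_const, card_univ, smul_eq_mul, mul_one]
  rw [h2] at h1
  rw [h1]
  have h3 : ∑ i ∈ range (h + 1), ∑ j ∈ range (h + 1), (2 : ℝ) ^ (h - i) * 2 ^ (h - j) *
      ((1 : ℕ) : ℝ) = (2 ^ (h + 1) - 1) ^ 2 := by
    have h4 : ∀ i ∈ range (h + 1), ∑ j ∈ range (h + 1), (2 : ℝ) ^ (h - i) * 2 ^ (h - j) *
      ((1 : ℕ) : ℝ) = 2 ^ (h - i) * (2 ^ (h + 1) - 1) := by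
      intro i _
      rw [← sum_pow, Finset.mul_sum]
      refine Finset.sum_congr rfl fun j _ => ?_
      rw [Nat.cast_one, mul_one]
    rw [Finset.sum_congr rfl h4, ← Finset.sum_mul, sum_pow, sq]
  rw [h3]

lemma hst_real (i j : ℕ) : (hst (stt i j) : ℝ) = (if i = 0 then 80400 else 0) +
      (if j = 0 then 80400 else 0) + 1 - (if vb i j then 1 else 0) := by
  unfold hst stt
  by_cases hi : i = 0
  · subst hi
    have hv : vb 0 j := by
      unfold vb
      rw [zero_add, Nat.choose_zero_right]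
    rw [if_pos rfl, if_pos rfl, if_pos hv]
    by_cases hj : j = 0
    · subst hj
      rw [if_pos rfl, if_neg (by decide), if_neg (by decide), if_pos (by decide), if_pos rfl]
      norm_num
    · rw [if_neg hj, if_neg (by decide), if_pos (by decide), if_pos (by decide), if_neg hj]
      norm_num
  · rw [if_neg hi, if_neg hi]
    by_cases hj : j = 0
    · subst hj
      have hv : vb i 0 := by
        unfold vb
        rw [add_zero, Nat.choose_self]
      rw [if_pos rfl, if_pos (by decide), if_neg (by decide), if_pos (by decide), if_pos rfl,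
        if_pos hv]
      norm_num
    · rw [if_neg hj, if_neg hj]
      by_cases hv : vb i j
      · rw [if_pos hv, if_pos (by decide), if_pos (by decide), if_pos (by decide), if_pos hv]
        norm_num
      · rw [if_neg hv, if_pos (by decide), if_pos (by decide), if_neg (by decide), if_neg hv]
        norm_num

lemma NE_real (h k : ℕ) : (NE h k : ℝ) = k * (2 * (80400 * 2 ^ h * (2 ^ (h + 1) - 1)) +
    (2 ^ (h + 1) - 1) ^ 2 - 4 ^ h * vthP h) := by
  have h1 := sum_cells h k (fun i j => hst (stt i j))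
  have h2 : ∑ c : CellT h k, (fun i j => hst (stt i j) : ℕ → ℕ → ℕ) c.1.1.val c.2.1.val =
      NE h k := by
    unfold NE
    rw [Nat.card_sigma]
    refine Finset.sum_congr rfl fun c _ => ?_
    rw [Nat.card_fin]
  rw [h2] at h1
  rw [h1, ← sum_real]
  congr 1
  refine Finset.sum_congr rfl fun i _ => Finset.sum_congr rfl fun j _ => ?_
  rw [hst_real]

lemma card_VT (h k n : ℕ) : Fintype.card (VT h k n) = NC h k * 10000000000000 + (core + n) := by
  unfold NC core
  rw [Fintype.card_sum, Fintype.card_prod, card_DV, Fintype.card_sum, Fintype.card_fin,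
    Nat.card_eq_fintype_card, Nat.card_eq_fintype_card]

end TreeCount

open TreeCount in
theorem treeCount : S_treeCount := by
  refine ⟨(core : ℝ) * core, fun h k n => ⟨?_, ?_⟩⟩
  · have h1 := ncard_le h k n
    generalize (TDef h k n).edgeSet.ncard = e at *
    have h2 : (e : ℝ) ≤ core * core +
        NC h k * 49999999999994579960098669 + NC h k * 40400 + NC h k * 40400 + NE h k +
        n * 6000000000000 := by
      exact_mod_cast h1
    refine h2.trans (le_of_eq ?_)
    rw [NC_real, NE_real]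
    unfold cc
    have h3 : (2 : ℝ) ^ (h + 1) = 2 * 2 ^ h := pow_succ' 2 h
    rw [h3]
    ring
  · rw [card_VT, card_VT]
    have h1 : (NC 0 0 : ℝ) = 0 := by rw [NC_real]; simp
    push_cast
    rw [h1, NC_real]
    ring

end Pool.Agent.H57.Irr
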